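import Pool.Agent.MP_40db9a_an.H47.Spec

/-!
Elementary properties of the angular function `hh`.
-/

open MeasureTheory Set

namespace Pool.Agent.MP_40db9a_an.H47

variable {d : ℕ}

theorem alg_sq (e v : E d) (he : ‖e‖ = 1) (hv : v ≠ 0) :
    ‖‖v‖⁻¹ • v - e‖ ^ 2 = 2 - 2 * ((inner ℝ v e : ℝ) / ‖v‖) := by
  have h0 : ‖v‖ ≠ 0 := norm_ne_zero_iff.2 hv
  rw [norm_sub_sq_real, norm_smul, norm_inv, norm_norm, inv_mul_cancel₀ h0, he,
    real_inner_smul_left, div_eq_inv_mul]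
  ring

theorem alg_rpow_sq (N b : ℝ) (hN : 0 ≤ N) : N ^ b = (N ^ 2) ^ (b / 2) := by
  rw [← Real.rpow_natCast, ← Real.rpow_mul hN]
  congr 1
  push_cast
  ring

theorem alg_mono (N M b : ℝ) (hN : 0 ≤ N) (hM : 0 ≤ M) (hb : 0 ≤ b) (h : N ^ 2 ≤ M ^ 2) :
    N ^ b ≤ M ^ b :=
  Real.rpow_le_rpow hN (le_of_sq_le_sq h hM) hb

theorem alg_frac (s s' A B q : ℝ) (hA : 0 < A) (hB : 0 < B) (hq : 0 ≤ q) (h1 : A ^ 2 = s ^ 2 + q)
    (h2 : B ^ 2 = s' ^ 2 + q) (h : s' ≤ s) : s' / B ≤ s / A := by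
  rw [div_le_div_iff₀ hB hA]
  rcases le_total 0 s' with h3 | h3
  · have h4 : 0 ≤ s := h3.trans h
    refine le_of_sq_le_sq ?_ (mul_nonneg h4 hB.le)
    rw [mul_pow, mul_pow, h1, h2]
    have h5 : s' ^ 2 ≤ s ^ 2 := pow_le_pow_left₀ h3 h 2
    nlinarith [mul_le_mul_of_nonneg_right h5 hq]
  · rcases le_total 0 s with h4 | h4
    · exact (mul_nonpos_of_nonpos_of_nonneg h3 hA.le).trans (mul_nonneg h4 hB.le)
    · have h5 : (-s) ^ 2 ≤ (-s') ^ 2 := pow_le_pow_left₀ (by linarith) (by linarith) 2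
      have h6 : (-s) * B ≤ (-s') * A := by
        refine le_of_sq_le_sq ?_ (mul_nonneg (by linarith) hA.le)
        rw [mul_pow, mul_pow, h1, h2]
        nlinarith [mul_le_mul_of_nonneg_right h5 hq]
      linarith

theorem alg_abs (A B b : ℝ) (hA : 0 ≤ A) (hB : 0 ≤ B) (hb : 0 < b) (hb1 : b < 1) :
    |A ^ b - B ^ b| ≤ |A - B| ^ b := by
  have key : ∀ X Y : ℝ, 0 ≤ X → 0 ≤ Y → X ^ b - Y ^ b ≤ |X - Y| ^ b := by
    intro X Y hX hY
    have h1 : X ^ b ≤ (Y + |X - Y|) ^ b :=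
      Real.rpow_le_rpow hX (by linarith [le_abs_self (X - Y)]) hb.le
    have h2 := Real.rpow_add_le_add_rpow hY (abs_nonneg (X - Y)) hb.le hb1.le
    linarith
  rw [abs_le]
  refine ⟨?_, key A B hA hB⟩
  have := key B A hB hA
  rw [abs_sub_comm] at this
  linarith

theorem alg_bern (s p : ℝ) (hs : 0 ≤ s) (hs1 : s ≤ 1) (hp : 0 ≤ p) :
    1 + p * s / 2 ≤ (1 + s) ^ p := by
  have h0 : 0 < 1 + s := by linarith
  have h1 : s / 2 ≤ Real.log (1 + s) := by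
    refine le_trans ?_ (Real.one_sub_inv_le_log_of_pos h0)
    have h2 : (1 + s)⁻¹ ≤ 1 - s / 2 := by
      rw [inv_eq_one_div, div_le_iff₀ h0]
      nlinarith
    linarith
  rw [Real.rpow_def_of_pos h0]
  have h3 := Real.add_one_le_exp (Real.log (1 + s) * p)
  nlinarith [mul_le_mul_of_nonneg_right h1 hp]

theorem alg_shift (e x : E d) (he : ‖e‖ = 1) (t : ℝ) :
    (inner ℝ (x - t • e) e : ℝ) = (inner ℝ x e : ℝ) - t ∧
      ‖x - t • e‖ ^ 2 = ((inner ℝ x e : ℝ) - t) ^ 2 + (‖x‖ ^ 2 - (inner ℝ x e : ℝ) ^ 2) := by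
  constructor
  · rw [inner_sub_left, real_inner_smul_left, real_inner_self_eq_norm_sq, he]
    ring
  · rw [norm_sub_sq_real, real_inner_smul_right, norm_smul, he, mul_one, Real.norm_eq_abs, sq_abs]
    ring

theorem alg_le_two (b : ℝ) (hb : 0 < b) (hb1 : b < 1) (e v : E d) (he : ‖e‖ = 1) :
    hh b e v ≤ 2 := by
  have h1 : ‖‖v‖⁻¹ • v‖ ≤ 1 := by
    rw [norm_smul, norm_inv, norm_norm]
    exact inv_mul_le_one
  have h2 : ‖‖v‖⁻¹ • v - e‖ ≤ 2 := by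
    have := norm_sub_le (‖v‖⁻¹ • v) e
    linarith
  calc hh b e v ≤ (2 : ℝ) ^ b := Real.rpow_le_rpow (norm_nonneg _) h2 hb.le
    _ ≤ (2 : ℝ) ^ (1 : ℝ) := Real.rpow_le_rpow_of_exponent_le (by norm_num) hb1.le
    _ = 2 := Real.rpow_one 2

theorem alg_hold (b : ℝ) (hb : 0 < b) (hb1 : b < 1) (e : E d) (β : ℝ) (h0 : 0 ≤ β) (h1 : β ≤ b)
    (u v : E d) (hu : ‖u‖ = 1) (hv : ‖v‖ = 1) : |hh b e u - hh b e v| ≤ 2 * ‖u - v‖ ^ β := by
  unfold hh
  rw [hu, hv, inv_one, one_smul, one_smul]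
  have h2 : |‖u - e‖ - ‖v - e‖| ≤ ‖u - v‖ := by
    have := abs_norm_sub_norm_le (u - e) (v - e)
    rwa [sub_sub_sub_cancel_right] at this
  have h3 : ‖u - v‖ ≤ 2 := by
    have := norm_sub_le u v
    linarith
  refine (alg_abs _ _ b (norm_nonneg _) (norm_nonneg _) hb hb1).trans
    ((Real.rpow_le_rpow (abs_nonneg _) h2 hb.le).trans ?_)
  have h4 : ‖u - v‖ ^ b = ‖u - v‖ ^ (b - β) * ‖u - v‖ ^ β := by
    rw [← Real.rpow_add' (norm_nonneg _) (by linarith)]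
    congr 1
    ring
  rw [h4]
  refine mul_le_mul_of_nonneg_right ?_ (Real.rpow_nonneg (norm_nonneg _) _)
  calc ‖u - v‖ ^ (b - β) ≤ (2 : ℝ) ^ (b - β) :=
        Real.rpow_le_rpow (norm_nonneg _) h3 (by linarith)
    _ ≤ (2 : ℝ) ^ (1 : ℝ) := Real.rpow_le_rpow_of_exponent_le (by norm_num) (by linarith)
    _ = 2 := Real.rpow_one 2

theorem alg_cs (e x : E d) (he : ‖e‖ = 1) : 0 ≤ ‖x‖ ^ 2 - (inner ℝ x e : ℝ) ^ 2 := by
  have h := (alg_shift e x he (inner ℝ x e : ℝ)).2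
  have h1 := sq_nonneg ‖x - (inner ℝ x e : ℝ) • e‖
  nlinarith

theorem alg_move (b : ℝ) (hb : 0 < b) (e : E d) (he : ‖e‖ = 1) (x : E d) (t : ℝ) (hx : x ≠ 0)
    (ht : 0 ≤ t) (hy : x - t • e ≠ 0) :
    hh b e x ≤ hh b e (x - t • e) ∧ hh b e (-(x - t • e)) ≤ hh b e (-x) := by
  obtain ⟨h1, h2⟩ := alg_shift e x he t
  have h3 := alg_frac (inner ℝ x e : ℝ) ((inner ℝ x e : ℝ) - t) ‖x‖ ‖x - t • e‖ _
    (norm_pos_iff.2 hx) (norm_pos_iff.2 hy) (alg_cs e x he) (by ring) h2 (by linarith)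
  constructor
  · refine alg_mono _ _ b (norm_nonneg _) (norm_nonneg _) hb.le ?_
    rw [alg_sq e x he hx, alg_sq e _ he hy, h1]
    linarith
  · refine alg_mono _ _ b (norm_nonneg _) (norm_nonneg _) hb.le ?_
    rw [alg_sq e _ he (neg_ne_zero.2 hx), alg_sq e _ he (neg_ne_zero.2 hy), inner_neg_left,
      inner_neg_left, norm_neg, norm_neg, h1, neg_div, neg_div]
    linarith

theorem alg_form (s A q : ℝ) (hA : 0 < A) (hs : 0 < s) (h : A ^ 2 = s ^ 2 + q) :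
    2 - 2 * (s / A) = 2 * q / (A * (A + s)) := by
  have h1 : q = (A - s) * (A + s) := by nlinarith
  have h2 : A + s ≠ 0 := by positivity
  rw [h1]
  field_simp

theorem alg_gain (b : ℝ) (hb : 0 < b) (hb1 : b < 1) (e : E d) (he : ‖e‖ = 1) (x : E d) (t : ℝ)
    (hx : ‖x - e‖ ≤ 1 / 4) (ht : 0 ≤ t) (ht1 : t ≤ 1 / 2) :
    hh b e x + b / 24 * t * ‖x - (inner ℝ x e : ℝ) • e‖ ^ b ≤ hh b e (x - t • e) := by
  obtain ⟨h1, h2⟩ := alg_shift e x he t
  have h3 := (alg_shift e x he 1).2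
  have h4 := (alg_shift e x he (inner ℝ x e : ℝ)).2
  have hq := alg_cs e x he
  rw [one_smul] at h3
  set s : ℝ := inner ℝ x e with hs
  set q : ℝ := ‖x‖ ^ 2 - s ^ 2 with hqd
  have h5 : ‖x - e‖ ^ 2 ≤ (1 / 4) ^ 2 := pow_le_pow_left₀ (norm_nonneg _) hx 2
  have h6 : |s - 1| ≤ 1 / 4 := abs_le_of_sq_le_sq (by linarith) (by norm_num)
  obtain ⟨h7, h8⟩ := abs_le.1 h6
  have hA : ‖x‖ ≤ 5 / 4 := by
    have := norm_add_le (x - e) e
    rw [sub_add_cancel] at this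
    linarith
  have hA0 : 0 < ‖x‖ := by
    have h9 : (1 / 2 : ℝ) ≤ ‖x‖ := le_of_sq_le_sq (by nlinarith) (norm_nonneg _)
    linarith
  have hB0 : 0 < ‖x - t • e‖ := by
    have h9 : (1 / 8 : ℝ) ≤ ‖x - t • e‖ := le_of_sq_le_sq (by nlinarith) (norm_nonneg _)
    linarith
  have hBA : ‖x - t • e‖ ≤ ‖x‖ := le_of_sq_le_sq (by nlinarith) (norm_nonneg _)
  have hN := alg_sq e x he (norm_pos_iff.1 hA0)
  have hM := alg_sq e (x - t • e) he (norm_pos_iff.1 hB0)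
  rw [h1] at hM
  rw [← hs, alg_form s ‖x‖ q hA0 (by linarith) (by rw [hqd]; ring)] at hN
  rw [alg_form (s - t) _ q hB0 (by linarith) h2] at hM
  set A := ‖x‖
  set B := ‖x - t • e‖
  set N := ‖A⁻¹ • x - e‖
  set M := ‖B⁻¹ • (x - t • e) - e‖
  set r := ‖x - s • e‖
  have hN0 : 0 ≤ N := norm_nonneg _
  have hM0 : 0 ≤ M := norm_nonneg _
  have hr0 : 0 ≤ r := norm_nonneg _
  have hr : r ^ 2 = q := by rw [h4]; ring
  have hP : 0 < A * (A + s) := mul_pos hA0 (by linarith)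
  have hQ : 0 < B * (B + (s - t)) := mul_pos hB0 (by linarith)
  have hratio : (1 + t / 3) * N ^ 2 ≤ M ^ 2 := by
    rw [hN, hM, ← mul_div_assoc, div_le_div_iff₀ hP hQ]
    have h9 : (1 + t / 3) * (B + (s - t)) ≤ A + s := by nlinarith
    have h10 : (1 + t / 3) * (B * (B + (s - t))) ≤ A * (A + s) := by
      calc (1 + t / 3) * (B * (B + (s - t))) = B * ((1 + t / 3) * (B + (s - t))) := by ring
        _ ≤ A * (A + s) := mul_le_mul hBA h9 (by nlinarith) hA0.le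
    nlinarith [mul_le_mul_of_nonneg_left h10 hq]
  have hlow : r / 2 ≤ N := by
    refine le_of_sq_le_sq ?_ hN0
    rw [hN, div_pow, hr, div_le_div_iff₀ (by norm_num) hP]
    have h9 : A * (A + s) ≤ 4 := by nlinarith
    nlinarith [mul_le_mul_of_nonneg_left h9 hq]
  have hNb : r ^ b / 2 ≤ N ^ b := by
    refine le_trans ?_ (Real.rpow_le_rpow (by positivity) hlow hb.le)
    rw [Real.div_rpow hr0 (by norm_num)]
    refine div_le_div_of_nonneg_left (Real.rpow_nonneg hr0 _) (by positivity) ?_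
    calc (2 : ℝ) ^ b ≤ (2 : ℝ) ^ (1 : ℝ) :=
          Real.rpow_le_rpow_of_exponent_le (by norm_num) hb1.le
      _ = 2 := Real.rpow_one 2
  have hMb : (1 + b / 2 * (t / 3) / 2) * N ^ b ≤ M ^ b := by
    rw [alg_rpow_sq M b hM0]
    refine le_trans ?_ (Real.rpow_le_rpow (by positivity) hratio (by positivity))
    rw [Real.mul_rpow (by positivity) (by positivity), ← alg_rpow_sq N b hN0]
    exact mul_le_mul_of_nonneg_right (alg_bern (t / 3) (b / 2) (by positivity) (by linarith)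
      (by positivity)) (Real.rpow_nonneg hN0 _)
  change N ^ b + b / 24 * t * r ^ b ≤ M ^ b
  have h11 : 0 ≤ b * t := by positivity
  nlinarith [mul_le_mul_of_nonneg_left hNb h11]

theorem sAlg : S_Alg := by
  intro d b hb hb1
  refine ⟨b / 24, by positivity, fun e he => ⟨?_, fun v => ⟨?_, alg_le_two b hb hb1 e v he⟩,
    fun s v hs => ?_, fun β h0 h1 u v hu hv => alg_hold b hb hb1 e β h0 h1 u v hu hv,
    fun x t hx ht hy => alg_move b hb e he x t hx ht hy,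
    fun x t hx ht ht1 => alg_gain b hb hb1 e he x t hx ht ht1⟩⟩
  · unfold hh
    exact (((measurable_norm.inv.smul measurable_id).sub_const e).norm).pow_const b
  · exact Real.rpow_nonneg (norm_nonneg _) _
  · unfold hh
    rw [norm_smul, Real.norm_of_nonneg hs.le, smul_smul, mul_inv, mul_right_comm,
      inv_mul_cancel₀ hs.ne', one_mul]

end Pool.Agent.MP_40db9a_an.H47
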