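import Pool.Agent.MP_40db9a_an.H47.Spec

/-! The bad part of the Calderón–Zygmund decomposition. -/

open MeasureTheory Set

namespace Pool.Agent.MP_40db9a_an.H47

variable {d : ℕ}

theorem bp_supp {c : E d} {l : ℝ} {b : E d → ℝ} (h : Atom c l b) (x : E d) (hx : b x ≠ 0) :
    ‖x‖ ≤ ‖c‖ + l := by
  have h1 := h.2.2.2.1 x hx
  have h2 : ‖x‖ ≤ ‖x - c‖ + ‖c‖ := by simpa using norm_add_le (x - c) c
  linarith

theorem bp_int {c : E d} {l : ℝ} {b : E d → ℝ} (h : Atom c l b) : Integrable b := by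
  obtain ⟨B, hB⟩ := h.2.2.1
  have hs : Function.support b ⊆ Metric.closedBall c l := fun x hx => by
    rw [Metric.mem_closedBall, dist_eq_norm]
    exact h.2.2.2.1 x hx
  rw [← integrableOn_iff_integrable_of_support_subset hs]
  exact Measure.integrableOn_of_bounded (M := B) measure_closedBall_lt_top.ne
    h.2.1.aestronglyMeasurable (Filter.Eventually.of_forall fun x => hB x)

theorem bp_one {a C : ℝ} (hC : 0 < C)
    (hK : ∀ x y z : E d, x ≠ 0 → y ≠ 0 → 4 * ‖z‖ ≤ ‖x‖ → 4 * ‖z‖ ≤ ‖y‖ →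
      ‖Kr a (x - z) - Kr a x - (Kr a (y - z) - Kr a y)‖ ≤
        C * ‖z‖ * ‖x - y‖ * (‖x‖ ^ (-(a + 2)) + ‖y‖ ^ (-(a + 2))))
    {c : E d} {l : ℝ} {b : E d → ℝ} (h : Atom c l b)
    (hi : ∀ x, Integrable fun z => b z • Kr a (x - z)) (x y : E d) (hx : 4 * l ≤ ‖x - c‖)
    (hy : 4 * l ≤ ‖y - c‖) :
    ‖conv (Kr a) b x - conv (Kr a) b y‖ ≤ C * ‖x - y‖ *
      (l * (∫ z, |b z|) * ‖x - c‖ ^ (-(a + 2)) + l * (∫ z, |b z|) * ‖y - c‖ ^ (-(a + 2))) := by
  have hb := bp_int h
  have hl := h.1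
  have hx0 : x - c ≠ 0 := norm_pos_iff.1 (by linarith)
  have hy0 : y - c ≠ 0 := norm_pos_iff.1 (by linarith)
  have e : conv (Kr a) b x - conv (Kr a) b y =
      ∫ z, b z • (Kr a (x - z) - Kr a (x - c) - (Kr a (y - z) - Kr a (y - c))) := by
    have g : ∀ x, Integrable fun z => b z • Kr a (x - z) - b z • Kr a (x - c) := fun x =>
      (hi x).sub (hb.smul_const _)
    simp only [smul_sub]
    rw [integral_sub (g x) (g y),
      integral_sub (hi x) (hb.smul_const _), integral_sub (hi y) (hb.smul_const _),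
      integral_smul_const, integral_smul_const, h.2.2.2.2, zero_smul, zero_smul, sub_zero, sub_zero]
    rfl
  set Q : ℝ := C * l * ‖x - y‖ * (‖x - c‖ ^ (-(a + 2)) + ‖y - c‖ ^ (-(a + 2))) with hQ
  have key : ∀ z, ‖b z • (Kr a (x - z) - Kr a (x - c) - (Kr a (y - z) - Kr a (y - c)))‖ ≤
      |b z| * Q := fun z => by
    rw [norm_smul, Real.norm_eq_abs]
    by_cases hz : b z = 0
    · simp [hz]
    have h1 := h.2.2.2.1 z hz
    have h2 := hK (x - c) (y - c) (z - c) hx0 hy0 (by linarith) (by linarith)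
    rw [sub_sub_sub_cancel_right, sub_sub_sub_cancel_right, sub_sub_sub_cancel_right] at h2
    refine mul_le_mul_of_nonneg_left (h2.trans ?_) (abs_nonneg _)
    rw [hQ]
    gcongr
  rw [e]
  refine (norm_integral_le_of_norm_le (hb.abs.mul_const Q)
    (Filter.Eventually.of_forall key)).trans (le_of_eq ?_)
  rw [integral_mul_const, hQ]
  ring

theorem bp_ball (hd : 1 ≤ d) (c : E d) {l : ℝ} (hl : 0 < l) :
    volume (Metric.ball c (4 * l)) =
      ENNReal.ofReal (4 ^ d * (volume (Metric.ball (0 : E d) 1)).toReal * l ^ d) := by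
  have : Nonempty (Fin d) := ⟨⟨0, hd⟩⟩
  rw [Measure.addHaar_ball _ c (by positivity : (0 : ℝ) ≤ 4 * l), finrank_euclideanSpace_fin,
    mul_right_comm, ENNReal.ofReal_mul (by positivity), ENNReal.ofReal_toReal measure_ball_lt_top.ne,
    mul_pow]

theorem sBP (hI : S_Int) (hC : S_Conv) (hK : S_Ker) : S_BP := by
  intro d hd
  have hd2 : (2 : ℝ) ≤ d := by exact_mod_cast hd
  obtain ⟨CK, hCK, -, hK2⟩ := hK d ((d : ℝ) - 1) (by linarith)
  obtain ⟨CI, hCI, hI1, -⟩ := (hI d (by omega) ((d : ℝ) - 1 + 2) (by linarith)).2 (by linarith)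
  have hloc : LocallyIntegrable (Kr ((d : ℝ) - 1) : E d → E d) := by
    rw [← Kc_zero]
    exact (hC d).1 _ 0 (by linarith) (by linarith) le_rfl
  set ω : ℝ := 4 ^ d * (volume (Metric.ball (0 : E d) 1)).toReal with hω
  have hω0 : 0 ≤ ω := by positivity
  refine ⟨ω + CI * CK / 2, by positivity, fun n c l b t ht hA => ?_⟩
  have hB : ∀ i, 0 ≤ ∫ z, |b i z| := fun i => integral_nonneg fun _ => abs_nonneg _
  have hl : ∀ i, 0 < l i := fun i => (hA i).1
  set m : Fin n → E d → ℝ := fun i x =>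
    l i * (∫ z, |b i z|) * ‖x - c i‖ ^ (-((d : ℝ) - 1 + 2)) with hm
  have hm0 : ∀ i x, 0 ≤ m i x := fun i x =>
    mul_nonneg (mul_nonneg (hl i).le (hB i)) (Real.rpow_nonneg (norm_nonneg _) _)
  refine ⟨{x | x ∈ Ann d ∧ (∀ i, 4 * l i ≤ ‖x - c i‖) ∧ ∑ i, m i x ≤ t / (2 * CK)},
    fun x hx => hx.1, ?_, fun x hx y hy => ?_⟩
  · set M : E d → ENNReal := fun x => ∑ i, ({x | 4 * l i ≤ ‖x - c i‖} : Set (E d)).indicator
      (fun x => ENNReal.ofReal (m i x)) x with hM
    have hS : ∀ i, MeasurableSet ({x | 4 * l i ≤ ‖x - c i‖} : Set (E d)) := fun i =>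
      measurableSet_le measurable_const (by fun_prop)
    have hmm : ∀ i, Measurable fun x => ENNReal.ofReal (m i x) := fun i => by
      simp only [hm]
      fun_prop
    have hMm : Measurable M := Finset.measurable_sum _ fun i _ => (hmm i).indicator (hS i)
    have hε : 0 < t / (2 * CK) := by positivity
    have hsub : Ann d \ {x | x ∈ Ann d ∧ (∀ i, 4 * l i ≤ ‖x - c i‖) ∧ ∑ i, m i x ≤ t / (2 * CK)} ⊆
        (⋃ i, Metric.ball (c i) (4 * l i)) ∪ {x | ENNReal.ofReal (t / (2 * CK)) ≤ M x} := by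
      rintro x ⟨hx, hn⟩
      by_cases h1 : ∀ i, 4 * l i ≤ ‖x - c i‖
      · right
        have h2 : t / (2 * CK) ≤ ∑ i, m i x := by
          by_contra h3
          exact hn ⟨hx, h1, (not_le.1 h3).le⟩
        refine (ENNReal.ofReal_le_ofReal h2).trans (le_of_eq ?_)
        rw [ENNReal.ofReal_sum_of_nonneg fun i _ => hm0 i x]
        exact Finset.sum_congr rfl fun i _ =>
          (indicator_of_mem (s := {x | 4 * l i ≤ ‖x - c i‖}) (a := x) (h1 i)
            fun x => ENNReal.ofReal (m i x)).symm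
      · left
        obtain ⟨i, hi⟩ := not_forall.1 h1
        exact mem_iUnion.2 ⟨i, by rw [Metric.mem_ball, dist_eq_norm]; exact not_le.1 hi⟩
    have h1 : volume (⋃ i, Metric.ball (c i) (4 * l i)) ≤ ENNReal.ofReal (ω * ∑ i, l i ^ d) := by
      refine (measure_iUnion_fintype_le _ _).trans (le_of_eq ?_)
      rw [Finset.mul_sum, ENNReal.ofReal_sum_of_nonneg fun i _ =>
        mul_nonneg hω0 (pow_nonneg (hl i).le _)]
      exact Finset.sum_congr rfl fun i _ => bp_ball (by omega) (c i) (hl i)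
    have h2 : ∫⁻ x, M x ≤ ENNReal.ofReal (CI / 4 * ∑ i, ∫ z, |b i z|) := by
      rw [hM, lintegral_finsetSum _ fun i _ => (hmm i).indicator (hS i), Finset.mul_sum,
        ENNReal.ofReal_sum_of_nonneg fun i _ => mul_nonneg (by positivity) (hB i)]
      refine Finset.sum_le_sum fun i _ => ?_
      have h0 : 0 ≤ l i * ∫ z, |b i z| := mul_nonneg (hl i).le (hB i)
      rw [lintegral_indicator (hS i)]
      simp only [hm, ENNReal.ofReal_mul h0]
      rw [lintegral_const_mul' _ _ ENNReal.ofReal_ne_top]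
      refine (mul_le_mul_right (hI1 (c i) (4 * l i) (by linarith [hl i])) _).trans (le_of_eq ?_)
      rw [← ENNReal.ofReal_mul h0]
      congr 1
      have : (d : ℝ) - ((d : ℝ) - 1 + 2) = -1 := by ring
      rw [this, Real.rpow_neg_one]
      have := (hl i).ne'
      field_simp
    have h3 : volume {x | ENNReal.ofReal (t / (2 * CK)) ≤ M x} ≤
        ENNReal.ofReal (CI * CK / 2 * ((∑ i, ∫ z, |b i z|) / t)) := by
      refine (meas_ge_le_lintegral_div hMm.aemeasurable (ENNReal.ofReal_pos.2 hε).ne'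
        ENNReal.ofReal_ne_top).trans ((ENNReal.div_le_div_right h2 _).trans (le_of_eq ?_))
      rw [← ENNReal.ofReal_div_of_pos hε]
      congr 1
      field_simp
      ring
    have hs1 : 0 ≤ ∑ i, l i ^ d := Finset.sum_nonneg fun i _ => pow_nonneg (hl i).le _
    have hs2 : 0 ≤ (∑ i, ∫ z, |b i z|) / t := div_nonneg (Finset.sum_nonneg fun i _ => hB i) ht.le
    have hc : 0 ≤ CI * CK / 2 := by positivity
    refine (measure_mono hsub).trans ((measure_union_le _ _).trans ((add_le_add h1 h3).trans ?_))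
    rw [← ENNReal.ofReal_add (mul_nonneg hω0 hs1) (mul_nonneg hc hs2)]
    refine ENNReal.ofReal_le_ofReal ?_
    nlinarith [mul_nonneg hω0 hs2, mul_nonneg hc hs1]
  · rw [← Finset.sum_sub_distrib]
    refine (norm_sum_le _ _).trans ?_
    have h1 : ∀ i, ‖conv (Kr ((d : ℝ) - 1)) (b i) x - conv (Kr ((d : ℝ) - 1)) (b i) y‖ ≤
        CK * ‖x - y‖ * (m i x + m i y) := fun i => by
      obtain ⟨B, hB'⟩ := (hA i).2.2.1
      exact bp_one hCK hK2 (hA i) (((hC d).2 _ hloc).1 (b i) B _ (hA i).2.1 hB' (bp_supp (hA i)))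
        x y (hx.2.1 i) (hy.2.1 i)
    refine (Finset.sum_le_sum fun i _ => h1 i).trans ?_
    rw [← Finset.mul_sum, Finset.sum_add_distrib]
    refine (mul_le_mul_of_nonneg_left (add_le_add hx.2.2 hy.2.2) (by positivity)).trans
      (le_of_eq ?_)
    field_simp
    ring

end Pool.Agent.MP_40db9a_an.H47
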