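import Pool.Agent.MP_40db9a_an.H47.Spec

/-! Row CV: change of variables on the set where the perturbation is Lipschitz. -/

open MeasureTheory Set
open scoped NNReal ENNReal Topology

namespace Pool.Agent.MP_40db9a_an.H47

variable {d : ℕ}

theorem cv_closed : IsClosed (Ann d) :=
  (isClosed_le continuous_const continuous_norm).inter
    (isClosed_le continuous_norm continuous_const)

theorem cv_compact : IsCompact (Ann d) :=
  (isCompact_closedBall (0 : E d) 4).of_isClosed_subset cv_closed fun x hx => by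
    simpa using hx.2

theorem cv_cont {w : E d → E d} {e : ℝ} (h : Good w e) : ContinuousOn w (Ann d) :=
  fun x hx => (h.1 x hx).continuousAt.continuousWithinAt

theorem cv_weak {w : E d → E d} {e : ℝ} (h : Good w e) (t : ℝ≥0) (ht : 0 < t) :
    ∃ F ⊆ Ann d, IsClosed F ∧ volume (Ann d \ F) ≤ ENNReal.ofReal (e / t) ∧
      LipschitzOnWith t w F ∧ ∀ᵐ x ∂(volume.restrict F), ‖fderiv ℝ w x‖ ≤ t := by
  obtain ⟨G, g1, g2, g3⟩ := h.2.2.2 t ht
  have hs : closure G ⊆ Ann d := cv_closed.closure_subset_iff.2 g1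
  have hl : LipschitzOnWith t w (closure G) :=
    LipschitzOnWith.closure ((cv_cont h).mono hs) (lipschitzOnWith_iff_norm_sub_le.2
      fun x hx y hy => g3 x hx y hy)
  refine ⟨closure G, hs, isClosed_closure,
    (measure_mono (sdiff_subset_sdiff_right subset_closure)).trans g2, hl, ?_⟩
  have ha : ApproximatesLinearOn w (0 : E d →L[ℝ] E d) (closure G) t := fun x hx y hy => by
    simpa using lipschitzOnWith_iff_norm_sub_le.1 hl hx hy
  filter_upwards [ha.norm_fderiv_sub_le volume isClosed_closure.measurableSet (fderiv ℝ w)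
    fun x hx => (h.1 x (hs hx)).hasFDerivAt.hasFDerivWithinAt] with x hx
  rw [sub_zero] at hx
  exact hx

theorem cv_tail {w : E d → E d} {e : ℝ} (h : Good w e) {F : Set (E d)} (hF : F ⊆ Ann d)
    (t : ℝ) (ht : 0 < t) :
    (volume.restrict F) {x | t < ‖fderiv ℝ w x‖} ≤ ENNReal.ofReal (e / t) := by
  obtain ⟨G, -, g2, g3, -, g5⟩ := cv_weak h ⟨t, ht.le⟩ ht
  have hm : MeasurableSet {x | t < ‖fderiv ℝ w x‖} :=
    measurableSet_lt measurable_const (measurable_fderiv ℝ w).norm
  rw [Measure.restrict_apply hm]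
  rw [ae_restrict_iff' g2.measurableSet] at g5
  refine le_trans (measure_mono_ae ?_) g3
  filter_upwards [g5] with x hx h1
  exact ⟨hF h1.2, fun h2 => absurd (hx h2) (not_le.2 h1.1)⟩

theorem cv_sq {w : E d → E d} {e : ℝ} (he : 0 ≤ e) (h : Good w e) {F : Set (E d)}
    (hF : F ⊆ Ann d) (h1 : ∀ᵐ x ∂(volume.restrict F), ‖fderiv ℝ w x‖ ≤ 1) :
    ∫⁻ x in F, ENNReal.ofReal (‖fderiv ℝ w x‖ ^ 2) ≤ ENNReal.ofReal (2 * e) := by
  have h2 := lintegral_rpow_eq_lintegral_meas_lt_mul (volume.restrict F)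
    (f := fun x => ‖fderiv ℝ w x‖) (ae_of_all _ fun x => norm_nonneg _)
    (measurable_fderiv ℝ w).norm.aemeasurable (p := 2) two_pos
  simp only [Real.rpow_two] at h2
  rw [h2, ENNReal.ofReal_mul zero_le_two]
  gcongr
  calc _ ≤ ∫⁻ t in Ioi (0 : ℝ), (Ioc (0 : ℝ) 1).indicator (fun _ => ENNReal.ofReal e) t := by
        refine setLIntegral_mono' measurableSet_Ioi fun t ht => ?_
        have ht' : 0 < t := ht
        by_cases h3 : t ≤ 1
        · rw [indicator_of_mem (show t ∈ Ioc (0 : ℝ) 1 from ⟨ht', h3⟩),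
            show (2 : ℝ) - 1 = 1 by norm_num, Real.rpow_one]
          calc _ ≤ ENNReal.ofReal (e / t) * ENNReal.ofReal t := by
                gcongr
                exact cv_tail h hF t ht'
            _ = _ := by
                rw [← ENNReal.ofReal_mul (div_nonneg he ht'.le), div_mul_cancel₀ _ ht'.ne']
        · have h4 : (volume.restrict F) {x | t < ‖fderiv ℝ w x‖} = 0 := by
            refine measure_mono_null (fun x hx => ?_) (ae_iff.1 h1)
            exact fun h5 : ‖fderiv ℝ w x‖ ≤ 1 => h3 ((le_of_lt hx).trans h5)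
          rw [h4, zero_mul]
          exact zero_le
    _ ≤ ENNReal.ofReal e * (volume.restrict (Ioi (0 : ℝ))) (Ioc 0 1) :=
        lintegral_indicator_const_le _ _
    _ ≤ ENNReal.ofReal e * 1 := by
        gcongr
        refine (Measure.restrict_le_self _).trans ?_
        simp
    _ = _ := mul_one _

theorem cv_markov {w : E d → E d} {e : ℝ} (h : Good w e) :
    volume (Ann d ∩ {x | 1 / 8 < ‖w x‖}) ≤ ENNReal.ofReal (8 * e) := by
  have h1 : AEMeasurable (fun x => ‖w x‖ₑ) (volume.restrict (Ann d)) :=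
    ((cv_cont h).aemeasurable cv_closed.measurableSet).enorm
  have h2 := (mul_meas_ge_le_lintegral₀ h1 (ENNReal.ofReal (1 / 8))).trans h.2.1
  have h3 : volume (Ann d ∩ {x | 1 / 8 < ‖w x‖}) ≤
      (volume.restrict (Ann d)) {x | ENNReal.ofReal (1 / 8) ≤ ‖w x‖ₑ} := by
    rw [Measure.restrict_apply' cv_closed.measurableSet]
    refine measure_mono fun x hx => ⟨?_, hx.1⟩
    change _ ≤ ‖w x‖ₑ
    rw [← ofReal_norm]
    exact ENNReal.ofReal_le_ofReal (le_of_lt hx.2)
  calc _ ≤ ENNReal.ofReal 8 * (ENNReal.ofReal (1 / 8) *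
        (volume.restrict (Ann d)) {x | ENNReal.ofReal (1 / 8) ≤ ‖w x‖ₑ}) := by
        rw [← mul_assoc, ← ENNReal.ofReal_mul (by norm_num), show (8 : ℝ) * (1 / 8) = 1 by norm_num,
          ENNReal.ofReal_one, one_mul]
        exact h3
    _ ≤ ENNReal.ofReal 8 * ENNReal.ofReal e := by gcongr
    _ = _ := (ENNReal.ofReal_mul (by norm_num)).symm

theorem cv_onto {W : E d → E d} {c : ℝ≥0} (hW : LipschitzWith c W) (hc : (c : ℝ) ≤ 1 / 32)
    {x₀ : E d} (h0 : x₀ ∈ Ann d) (h1 : ‖W x₀‖ ≤ 1 / 8) {y : E d} (hy : 1 ≤ ‖y‖ ∧ ‖y‖ ≤ 3) :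
    ∃ x ∈ Ann d, x + W x = y := by
  have hk : ContractingWith c fun x => y - W x := by
    refine ⟨?_, LipschitzWith.of_dist_le_mul fun a b => ?_⟩
    · exact_mod_cast (show (c : ℝ) < 1 by linarith)
    · rw [dist_sub_left]
      exact hW.dist_le_mul a b
  obtain ⟨x, hx⟩ : ∃ x, y - W x = x := ⟨_, hk.fixedPoint_isFixedPt⟩
  have e1 : ‖W x - W x₀‖ ≤ c * ‖x - x₀‖ := hW.norm_sub_le x x₀
  have e2 : ‖x - x₀‖ ≤ ‖x‖ + 4 := (norm_sub_le _ _).trans (by linarith [h0.2])
  have e3 : ‖W x‖ ≤ ‖W x - W x₀‖ + ‖W x₀‖ := norm_le_norm_sub_add _ _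
  have e4 : (c : ℝ) * ‖x - x₀‖ ≤ 1 / 32 * (‖x‖ + 4) :=
    mul_le_mul hc e2 (norm_nonneg _) (by norm_num)
  have e5 : ‖x‖ ≤ ‖y‖ + ‖W x‖ := by
    have := norm_sub_le y (W x)
    rwa [hx] at this
  have e6 : x + W x = y := by
    have := sub_add_cancel y (W x)
    rwa [hx] at this
  have e7 : ‖y‖ ≤ ‖x‖ + ‖W x‖ := by
    have := norm_add_le x (W x)
    rwa [e6] at this
  exact ⟨x, ⟨by linarith [hy.1, hy.2], by linarith [hy.1, hy.2]⟩, e6⟩

theorem cv_out {H : E d → ℝ} {N v : ℝ} (hv : 0 ≤ v) (hm : Measurable H) (hN : ∀ y, |H y| ≤ N)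
    (hs : ∀ y, H y ≠ 0 → 1 ≤ ‖y‖ ∧ ‖y‖ ≤ 3) (h0 : ∫ y, H y = 0) {S T : Set (E d)}
    (hS : MeasurableSet S) (hT : ∀ y, H y ≠ 0 → y ∉ S → y ∈ T)
    (hv' : volume T ≤ ENNReal.ofReal v) : |∫ y in S, H y| ≤ N * v := by
  have n0 : 0 ≤ N := (abs_nonneg _).trans (hN 0)
  have hi : Integrable H := by
    have h1 : IntegrableOn H (Metric.closedBall (0 : E d) 3) :=
      Measure.integrableOn_of_bounded (M := N) measure_closedBall_lt_top.ne
        hm.aestronglyMeasurable (ae_of_all _ fun y => hN y)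
    exact h1.integrable_of_forall_notMem_eq_zero fun y hy => by
      by_contra h2
      exact hy (by simpa using (hs y h2).2)
  have h2 := integral_add_compl hS hi
  rw [h0] at h2
  rw [eq_neg_of_add_eq_zero_left h2, abs_neg, ← Real.norm_eq_abs,
    ← ENNReal.ofReal_le_ofReal_iff (mul_nonneg n0 hv), ofReal_norm]
  calc _ ≤ ∫⁻ y in Sᶜ, ‖H y‖ₑ := enorm_integral_le_lintegral_enorm _
    _ ≤ ∫⁻ y in Sᶜ, T.indicator (fun _ => ENNReal.ofReal N) y := by
        refine setLIntegral_mono' hS.compl fun y hy => ?_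
        by_cases h3 : H y = 0
        · simp [h3]
        · rw [indicator_of_mem (hT y h3 hy), ← ofReal_norm]
          exact ENNReal.ofReal_le_ofReal (hN y)
    _ ≤ ENNReal.ofReal N * (volume.restrict Sᶜ) T := lintegral_indicator_const_le _ _
    _ ≤ ENNReal.ofReal N * ENNReal.ofReal v := by
        gcongr
        exact (Measure.restrict_le_self _).trans hv'
    _ = _ := (ENNReal.ofReal_mul n0).symm

theorem cv_in {w : E d → E d} {e C : ℝ} (he : 0 ≤ e) (hC : 0 < C) (h : Good w e)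
    (hD : ∀ L : E d →L[ℝ] E d, ‖L‖ ≤ 1 →
      |(ContinuousLinearMap.id ℝ (E d) + L).det - 1 - tr L| ≤ C * ‖L‖ ^ 2)
    {F : Set (E d)} (hF : F ⊆ Ann d)
    (h1 : ∀ᵐ x ∂(volume.restrict F), ‖fderiv ℝ w x‖ ≤ 1) {g : E d → ℝ} {N : ℝ} (n0 : 0 ≤ N)
    (hg : AEMeasurable g (volume.restrict F)) (hN : ∀ x, |g x| ≤ N) :
    |∫ x in F, g x| ≤
      |∫ x in F, |(ContinuousLinearMap.id ℝ (E d) + fderiv ℝ w x).det| • g x| +
        N * (e + C * (2 * e)) := by
  set J : E d → ℝ := fun x => |(ContinuousLinearMap.id ℝ (E d) + fderiv ℝ w x).det| with hJ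
  have jm : Measurable J :=
    (ContinuousLinearMap.continuous_det.comp (continuous_const.add continuous_id)).abs.measurable.comp
      (measurable_fderiv ℝ w)
  have fin : IsFiniteMeasure (volume.restrict F) :=
    ⟨by
      rw [Measure.restrict_apply_univ]
      exact (measure_mono hF).trans_lt cv_compact.measure_lt_top⟩
  have i1 : Integrable g (volume.restrict F) :=
    Integrable.of_bound hg.aestronglyMeasurable N (ae_of_all _ fun x => hN x)
  have b2 : ∫⁻ x in F, ‖(J x - 1) * g x‖ₑ ≤ ENNReal.ofReal (N * (e + C * (2 * e))) := by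
    calc _ ≤ ∫⁻ x in F, ENNReal.ofReal N * (‖tr (fderiv ℝ w x)‖ₑ +
          ENNReal.ofReal C * ENNReal.ofReal (‖fderiv ℝ w x‖ ^ 2)) := by
          refine lintegral_mono_ae ?_
          filter_upwards [h1] with x hx
          rw [← ofReal_norm, ← ofReal_norm, ← ENNReal.ofReal_mul hC.le,
            ← ENNReal.ofReal_add (norm_nonneg _) (by positivity), ← ENNReal.ofReal_mul n0]
          refine ENNReal.ofReal_le_ofReal ?_
          rw [norm_mul, mul_comm, Real.norm_eq_abs, Real.norm_eq_abs, Real.norm_eq_abs]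
          refine mul_le_mul (hN x) ?_ (abs_nonneg _) n0
          have a1 := abs_abs_sub_abs_le_abs_sub
            (ContinuousLinearMap.id ℝ (E d) + fderiv ℝ w x).det 1
          rw [abs_one] at a1
          have a2 := abs_add_le ((ContinuousLinearMap.id ℝ (E d) + fderiv ℝ w x).det - 1 -
            tr (fderiv ℝ w x)) (tr (fderiv ℝ w x))
          rw [sub_add_cancel] at a2
          have a3 := hD _ hx
          exact a1.trans (by linarith)
      _ = ENNReal.ofReal N * ((∫⁻ x in F, ‖tr (fderiv ℝ w x)‖ₑ) +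
          ENNReal.ofReal C * ∫⁻ x in F, ENNReal.ofReal (‖fderiv ℝ w x‖ ^ 2)) := by
          rw [lintegral_const_mul' _ _ ENNReal.ofReal_ne_top, lintegral_add_right,
            lintegral_const_mul' _ _ ENNReal.ofReal_ne_top]
          exact (((measurable_fderiv ℝ w).norm.pow_const 2).ennreal_ofReal).const_mul _
      _ ≤ ENNReal.ofReal N * (ENNReal.ofReal e + ENNReal.ofReal C * ENNReal.ofReal (2 * e)) := by
          gcongr
          · exact (lintegral_mono_set hF).trans h.2.2.1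
          · exact cv_sq he h hF h1
      _ = _ := by
          rw [← ENNReal.ofReal_mul hC.le, ← ENNReal.ofReal_add he (by positivity),
            ← ENNReal.ofReal_mul n0]
  have i2 : Integrable (fun x => (J x - 1) * g x) (volume.restrict F) :=
    ⟨((jm.sub_const 1).aemeasurable.mul hg).aestronglyMeasurable,
      b2.trans_lt ENNReal.ofReal_lt_top⟩
  have b3 : |∫ x in F, (J x - 1) * g x| ≤ N * (e + C * (2 * e)) := by
    rw [← Real.norm_eq_abs, ← ENNReal.ofReal_le_ofReal_iff (by positivity), ofReal_norm]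
    exact (enorm_integral_le_lintegral_enorm _).trans b2
  have e1 : ∫ x in F, J x • g x = (∫ x in F, (J x - 1) * g x) + ∫ x in F, g x := by
    rw [← integral_add i2 i1]
    refine integral_congr_ae (ae_of_all _ fun x => ?_)
    simp only [smul_eq_mul]
    ring
  change _ ≤ |∫ x in F, J x • g x| + _
  have a4 := abs_sub (∫ x in F, J x • g x) (∫ x in F, (J x - 1) * g x)
  rw [e1, add_sub_cancel_left, ← e1] at a4
  linarith

theorem cv_const (d : ℕ) : ∃ c : ℝ≥0, 0 < c ∧ (c : ℝ) ≤ 1 / 32 ∧ ∀ (s : Set (E d)) (W : E d → E d),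
    LipschitzWith c W → volume ((fun x => x + W x) '' s) ≤ 2 * volume s := by
  have h1 := addHaar_image_le_mul_of_det_lt (volume : Measure (E d))
    (ContinuousLinearMap.id ℝ (E d)) (m := 2) (by
      rw [show (ContinuousLinearMap.id ℝ (E d)).det = 1 from LinearMap.det_id]
      simp)
  have h2 : ∀ᶠ c in 𝓝[>] (0 : ℝ≥0), c < 1 / 32 :=
    nhdsWithin_le_nhds (gt_mem_nhds (by norm_num))
  obtain ⟨c, ⟨c1, c2⟩, c3⟩ := ((h1.and h2).and self_mem_nhdsWithin).exists
  refine ⟨c, c3, ?_, fun s W hW => c1 s _ fun x _ y _ => ?_⟩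
  · have : (c : ℝ) < ((1 / 32 : ℝ≥0) : ℝ) := by exact_mod_cast c2
    simpa using this.le
  · rw [ContinuousLinearMap.id_apply, show x + W x - (y + W y) - (x - y) = W x - W y by abel]
    exact hW.norm_sub_le x y

theorem sCV (hD : S_Det) : S_CV := by
  intro d
  obtain ⟨C, hC, hD⟩ := hD d
  obtain ⟨c, c0, c1, c2⟩ := cv_const d
  set K := lipschitzExtensionConstant (E d) with hK
  let t : ℝ≥0 := c / (K + 1)
  have t0 : 0 < t := by positivity
  have t1 : K * t ≤ c := by
    rw [mul_div_assoc', div_le_iff₀ (by positivity), mul_comm]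
    gcongr
    exact le_self_add
  have t2 : t ≤ c := div_le_self zero_le le_add_self
  have t3 : (t : ℝ) ≤ 1 / 32 := (NNReal.coe_le_coe.2 t2).trans c1
  have t4 : (0 : ℝ) < t := t0
  refine ⟨2 * (1 / t + 8) + (1 + 2 * C), by positivity, fun w e he h => ?_⟩
  obtain ⟨G, g1, g2, g3, g4, g5⟩ := cv_weak h t t0
  let F := G ∩ w ⁻¹' Metric.closedBall 0 (1 / 8)
  have f1 : IsClosed F :=
    ((cv_cont h).mono g1).preimage_isClosed_of_isClosed g2 Metric.isClosed_closedBall
  have f2 : F ⊆ Ann d := inter_subset_left.trans g1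
  have f3 : ∀ x ∈ F, ‖w x‖ ≤ 1 / 8 := fun x hx => mem_closedBall_zero_iff.1 hx.2
  have f4 : volume (Ann d \ F) ≤ ENNReal.ofReal ((1 / t + 8) * e) := by
    calc _ ≤ volume ((Ann d \ G) ∪ (Ann d ∩ {x | 1 / 8 < ‖w x‖})) := by
          refine measure_mono fun x hx => ?_
          by_cases h1 : x ∈ G
          · exact Or.inr ⟨hx.1, not_le.1 fun h2 => hx.2 ⟨h1, mem_closedBall_zero_iff.2 h2⟩⟩
          · exact Or.inl ⟨hx.1, h1⟩
      _ ≤ ENNReal.ofReal (e / t) + ENNReal.ofReal (8 * e) :=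
          (measure_union_le _ _).trans (add_le_add g3 (cv_markov h))
      _ = _ := by
          rw [← ENNReal.ofReal_add (by positivity) (by positivity)]
          congr 1
          ring
  have f5 : ∀ᵐ x ∂(volume.restrict F), ‖fderiv ℝ w x‖ ≤ 1 := by
    filter_upwards [ae_restrict_of_ae_restrict_of_subset inter_subset_left g5] with x hx
    linarith
  refine ⟨F, f2, f1.measurableSet, f4.trans (ENNReal.ofReal_le_ofReal ?_), f3,
    fun H N hm hN hs h0 => ?_⟩
  · refine mul_le_mul_of_nonneg_right ?_ he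
    have : 0 < 1 / (t : ℝ) + 8 := by positivity
    linarith
  have n0 : 0 ≤ N := (abs_nonneg _).trans (hN 0)
  rcases F.eq_empty_or_nonempty with hE | ⟨x₀, hx₀⟩
  · rw [hE, Measure.restrict_empty, integral_zero_measure, abs_zero]
    positivity
  obtain ⟨W, w1, w2⟩ := (g4.mono (inter_subset_left : F ⊆ G)).extend_finite_dimension
  have w3 : LipschitzWith c W := w1.weaken t1
  have pc : ContinuousOn (fun x => x + w x) F := continuousOn_id.add ((cv_cont h).mono f2)
  have inj : InjOn (fun x => x + w x) F := fun x hx y hy e1 => by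
    have e2 : ‖w x - w y‖ ≤ t * ‖x - y‖ := lipschitzOnWith_iff_norm_sub_le.1 g4 hx.1 hy.1
    have e3 : w x - w y = -(x - y) := by
      have e4 : x + w x = y + w y := e1
      rw [neg_sub, sub_eq_sub_iff_add_eq_add, add_comm, e4]
    rw [e3, norm_neg] at e2
    have e5 : ‖x - y‖ ≤ 0 := by nlinarith [norm_nonneg (x - y)]
    exact sub_eq_zero.1 (norm_le_zero_iff.1 e5)
  have cv := integral_image_eq_integral_abs_det_fderiv_smul volume f1.measurableSet
    (f := fun x => x + w x) (f' := fun x => ContinuousLinearMap.id ℝ (E d) + fderiv ℝ w x)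
    (fun x hx => ((hasFDerivAt_id x).add (h.1 x (f2 hx)).hasFDerivAt).hasFDerivWithinAt) inj H
  have o1 := cv_out (v := 2 * ((1 / t + 8) * e)) (by positivity) hm hN hs h0
    (S := (fun x => x + w x) '' F) (T := (fun x => x + W x) '' (Ann d \ F))
    ((cv_compact.of_isClosed_subset f1 f2).image_of_continuousOn pc).isClosed.measurableSet
    (fun y hy hS => by
      obtain ⟨x, x1, x2⟩ := cv_onto w3 c1 (f2 hx₀) (by rw [← w2 hx₀]; exact f3 _ hx₀) (hs y hy)
      exact ⟨x, ⟨x1, fun x3 => hS ⟨x, x3, by rw [← x2, ← w2 x3]⟩⟩, x2⟩)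
    ((c2 _ W w3).trans (by
      rw [ENNReal.ofReal_mul zero_le_two, ENNReal.ofReal_ofNat]
      gcongr))
  have o2 := cv_in he hC h hD f2 f5 (g := fun x => H (x + w x)) n0
    (hm.comp_aemeasurable (pc.aemeasurable f1.measurableSet)) fun x => hN _
  rw [cv] at o1
  calc _ ≤ N * (2 * ((1 / t + 8) * e)) + N * (e + C * (2 * e)) := o2.trans (by gcongr)
    _ = _ := by ring

end Pool.Agent.MP_40db9a_an.H47
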