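import Pool.Agent.MP_40db9a_an.H47.Spec

open MeasureTheory Set

namespace Pool.Agent.MP_40db9a_an.H47

theorem cz_ann (d : ℕ) : Ann d ⊆ Metric.closedBall (0 : E d) 4 := fun x hx => by
  simpa using hx.2

theorem cz_weak (hC : S_Conv) (hD : S_Dec) (hG : S_GP) (hB : S_BP) (d : ℕ) (hd : 2 ≤ d) :
    ∃ C : ℝ, 0 < C ∧ ∀ g : E d → ℝ, Continuous g → HasCompactSupport g →
      (∀ z, g z ≠ 0 → ‖z‖ ≤ 16) → ∀ t : ℝ, 0 < t → ∃ F ⊆ Ann d,
        volume (Ann d \ F) ≤ ENNReal.ofReal (C * (∫ z, |g z|) / t) ∧ ∀ x ∈ F, ∀ y ∈ F,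
          ‖conv (Kr ((d : ℝ) - 1)) g x - conv (Kr ((d : ℝ) - 1)) g y‖ ≤ t * ‖x - y‖ := by
  obtain ⟨D, hD0, hD⟩ := hD d (by omega)
  obtain ⟨G, hG0, hG⟩ := hG d hd
  obtain ⟨B, hB0, hB⟩ := hB d hd
  have h2 : (2 : ℝ) ≤ d := by exact_mod_cast hd
  have hk : LocallyIntegrable (Kr ((d : ℝ) - 1) : E d → E d) := by
    rw [← Kc_zero]
    exact (hC d).1 _ 0 (by linarith) (by linarith) le_rfl
  have hI := ((hC d).2 _ hk).1
  have hA : volume (Ann d) ≠ ⊤ :=
    ((measure_mono (cz_ann d)).trans_lt measure_closedBall_lt_top).ne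
  set A := (volume (Ann d)).toReal with hAd
  have hA0 : 0 ≤ A := ENNReal.toReal_nonneg
  refine ⟨A * (2 * G * D * D) + (2 * G * G * D + B * (2 * G * D * D + 2 * D)), by positivity,
    fun g hg hs h16 t ht => ?_⟩
  set M := ∫ z, |g z| with hM
  have hM0 : 0 ≤ M := integral_nonneg fun _ => abs_nonneg _
  have hq : 0 ≤ M / t := div_nonneg hM0 ht.le
  rw [mul_div_assoc]
  rcases le_or_gt 1 (2 * G * D * D * (M / t)) with hb | hb
  · refine ⟨∅, empty_subset _, ?_, by simp⟩
    rw [sdiff_empty, ← ENNReal.ofReal_toReal hA]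
    refine ENNReal.ofReal_le_ofReal ?_
    have h1 := mul_le_mul_of_nonneg_left hb hA0
    have h3 : 0 ≤ (2 * G * G * D + B * (2 * G * D * D + 2 * D)) * (M / t) := by positivity
    nlinarith
  have hs0 : 0 < t / (2 * G * D) := by positivity
  obtain ⟨n, c, l, b, γ, e0, mγ, bγ, iγ, sγ, hat, ib, il⟩ := hD g hg hs _ hs0
  have e1 : D * M / (t / (2 * G * D)) = 2 * G * D * D * (M / t) := by field_simp
  rw [← hM] at iγ ib il
  rw [e1] at il
  have hl : ∀ i, l i ≤ 1 := fun i => by
    have h1 : l i ^ d ≤ ∑ i, l i ^ d :=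
      Finset.single_le_sum (f := fun i => l i ^ d) (fun j _ => pow_nonneg (hat j).2.1.le d)
        (Finset.mem_univ i)
    exact (pow_le_one_iff_of_nonneg (hat i).2.1.le (by omega)).1 (h1.trans (il.trans hb.le))
  have hn : ∀ i x, ‖x - c i‖ ≤ l i → ‖x‖ ≤ 50 := fun i x hx => by
    have h1 := h16 _ (hat i).1
    have h3 := norm_add_le (x - c i) (c i)
    rw [sub_add_cancel] at h3
    linarith [hl i]
  have s50 : ∀ x, γ x ≠ 0 → ‖x‖ ≤ 50 := fun x hx => by
    rcases sγ x hx with h | ⟨i, h⟩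
    · linarith [h16 x h]
    · exact hn i x h
  obtain ⟨F1, f1, v1, l1⟩ := hG γ _ (mul_pos hD0 hs0) mγ bγ s50
  obtain ⟨F2, -, v2, l2⟩ := hB n c l b (t / 2) (half_pos ht) fun i => (hat i).2
  have hadd : ∀ x, conv (Kr ((d : ℝ) - 1)) g x =
      conv (Kr ((d : ℝ) - 1)) γ x + ∑ i, conv (Kr ((d : ℝ) - 1)) (b i) x := fun x => by
    have hi : ∀ i, Integrable fun z => b i z • Kr ((d : ℝ) - 1) (x - z) := fun i => by
      obtain ⟨-, m, ⟨B', hB'⟩, hsu, -⟩ := (hat i).2
      exact hI _ B' 50 m hB' (fun y hy => hn i y (hsu y hy)) x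
    unfold conv
    rw [← integral_finsetSum _ fun i _ => hi i,
      ← integral_add (hI _ _ 50 mγ bγ s50 x) (integrable_finsetSum _ fun i _ => hi i)]
    refine integral_congr_ae (.of_forall fun z => ?_)
    simp only [e0 z, add_smul, Finset.sum_smul]
  refine ⟨F1 ∩ F2, inter_subset_left.trans f1, ?_, fun x hx y hy => ?_⟩
  · have w1 : G * (∫ x, |γ x|) / (D * (t / (2 * G * D))) ≤ 2 * G * G * D * (M / t) := by
      refine (div_le_div_of_nonneg_right (mul_le_mul_of_nonneg_left iγ hG0.le)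
        (mul_pos hD0 hs0).le).trans (le_of_eq ?_)
      field_simp
    have w2 : B * (∑ i, l i ^ d + (∑ i, ∫ x, |b i x|) / (t / 2)) ≤
        B * (2 * G * D * D + 2 * D) * (M / t) := by
      rw [mul_assoc]
      refine mul_le_mul_of_nonneg_left ?_ hB0.le
      have := div_le_div_of_nonneg_right ib (half_pos ht).le
      rw [show D * M / (t / 2) = 2 * D * (M / t) by field_simp] at this
      linarith
    rw [sdiff_inter]
    refine (measure_union_le _ _).trans ((add_le_add (v1.trans (ENNReal.ofReal_le_ofReal w1))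
      (v2.trans (ENNReal.ofReal_le_ofReal w2))).trans ?_)
    rw [← ENNReal.ofReal_add (by positivity) (by positivity)]
    refine ENNReal.ofReal_le_ofReal ?_
    have h3 : 0 ≤ A * (2 * G * D * D) * (M / t) := by positivity
    nlinarith
  · have a1 := l1 x hx.1 y hy.1
    have a2 := l2 x hx.2 y hy.2
    rw [show G * (D * (t / (2 * G * D))) = t / 2 by field_simp] at a1
    rw [hadd x, hadd y, add_sub_add_comm]
    linarith [norm_add_le (conv (Kr ((d : ℝ) - 1)) γ x - conv (Kr ((d : ℝ) - 1)) γ y)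
      (∑ i, conv (Kr ((d : ℝ) - 1)) (b i) x - ∑ i, conv (Kr ((d : ℝ) - 1)) (b i) y)]

theorem sCZ (hI : S_Int) (hC : S_Conv) (hS : S_Src) (hD : S_Dec) (hG : S_GP) (hB : S_BP)
    (hV : S_Div) : S_CZ := by
  intro d hd
  have _ := hI
  have h2 : (2 : ℝ) ≤ d := by exact_mod_cast hd
  obtain ⟨W, hW0, hW⟩ := cz_weak hC hD hG hB d hd
  obtain ⟨S, hS0, hS⟩ := hS d ((d : ℝ) - 1) (by linarith) (by linarith)
  obtain ⟨V, hV0, hV⟩ := hV d hd
  have hk : LocallyIntegrable (Kr ((d : ℝ) - 1) : E d → E d) := by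
    rw [← Kc_zero]
    exact (hC d).1 _ 0 (by linarith) (by linarith) le_rfl
  refine ⟨W + S + V, by positivity, fun g hg hs h16 => ?_⟩
  have hM0 : 0 ≤ ∫ z, |g z| := integral_nonneg fun _ => abs_nonneg _
  refine ⟨fun x _ => ((((hC d).2 _ hk).2 g hg.continuous hs).2.2 hg).1 x,
    (hS g hg hs).2.2.2.trans (ENNReal.ofReal_le_ofReal ?_),
    (hV g hg hs h16).trans (ENNReal.ofReal_le_ofReal ?_), fun t ht => ?_⟩
  · refine mul_le_mul (by linarith) (integral_mono_of_nonneg (.of_forall fun z => ?_)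
      (hg.continuous.integrable_of_hasCompactSupport hs).abs (.of_forall fun z => ?_))
      (integral_nonneg fun z => ?_) (by positivity)
    · positivity
    · exact mul_le_of_le_one_left (abs_nonneg _) (Real.rpow_le_one_of_one_le_of_nonpos
        (by linarith [norm_nonneg z]) (by linarith))
    · positivity
  · exact mul_le_mul_of_nonneg_right (by linarith) hM0
  · obtain ⟨F, f1, f2, f3⟩ := hW g hg.continuous hs h16 t ht
    exact ⟨F, f1, f2.trans (ENNReal.ofReal_le_ofReal (div_le_div_of_nonneg_right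
      (mul_le_mul_of_nonneg_right (by linarith) hM0) ht.le)), f3⟩

theorem sTail (hI : S_Int) (hB : S_Basic) : S_Tail := by
  intro d a ha had
  have hd : 1 ≤ d := by
    have : (0 : ℝ) < d := ha.trans had
    exact_mod_cast this
  obtain ⟨C, hC0, -, hC⟩ := (hI d hd a ha).1 had
  refine ⟨3 ^ a + 1, 9 * C, by positivity, by positivity, fun f hf hs hM => ?_⟩
  obtain ⟨ip, -, -, hz, -, -, hpos⟩ := hB d a ha had f hf hs
  obtain ⟨i1, i2, -, -, -⟩ := hz 0 1 one_pos
  have hn := (hpos hM).2 0 1 one_pos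
  let S : Set (E d) := {z | 1 / 8 < ‖z‖}
  have hS : MeasurableSet S := (isOpen_lt continuous_const continuous_norm).measurableSet
  let r : E d → E d → ℝ := fun x => S.indicator fun z => ‖x - z‖ ^ (-a) * |f z|
  have r0 : ∀ x z, 0 ≤ r x z := fun x z => indicator_nonneg (fun _ _ => by positivity) _
  have mr : Measurable fun q : E d × E d => ENNReal.ofReal (r q.1 q.2) := by
    refine Measurable.ennreal_ofReal ?_
    have : (fun q : E d × E d => r q.1 q.2) = (Prod.snd ⁻¹' S).indicator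
        fun q : E d × E d => ‖q.1 - q.2‖ ^ (-a) * |f q.2| := rfl
    rw [this]
    exact (((measurable_fst.sub measurable_snd).norm.pow_const _).mul
      (hf.measurable.comp measurable_snd).abs).indicator (measurable_snd hS)
  let R : E d → ENNReal := fun x => ∫⁻ z, ENNReal.ofReal (r x z)
  have mR : Measurable R := mr.lintegral_prod_right'
  have hsub : {x | x ∈ Ann d ∧ (3 ^ a + 1) * nn a f 0 1 < pot a f x} ⊆
      {x | ENNReal.ofReal (nn a f 0 1) ≤ R x} ∩ Metric.closedBall 0 4 := fun x hx => by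
    refine ⟨?_, cz_ann d hx.1⟩
    have ir : Integrable (r x) := (ip x).indicator hS
    have h1 : pot a f x ≤ 3 ^ a * nn a f 0 1 + ∫ z, r x z := by
      unfold pot nn
      rw [← integral_const_mul, ← integral_add (i1.const_mul _) ir]
      refine integral_mono (ip x) ((i1.const_mul _).add ir) fun z => ?_
      by_cases h : z ∈ S
      · simp only [r, indicator_of_mem h]
        exact le_add_of_nonneg_left (by positivity)
      · simp only [r, indicator_of_notMem h, add_zero, sub_zero, div_one, ← mul_assoc]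
        refine mul_le_mul_of_nonneg_right ?_ (abs_nonneg _)
        have h3 : ‖z‖ ≤ 1 / 8 := not_lt.1 h
        have h4 := norm_sub_norm_le x z
        have h5 := hx.1.1
        have h6 := norm_nonneg z
        have h7 : ‖x - z‖ ^ (-a) ≤ ((1 + ‖z‖) / 3) ^ (-a) :=
          Real.rpow_le_rpow_of_nonpos (by positivity) (by linarith) (by linarith)
        rw [Real.div_rpow (by positivity) (by norm_num), Real.rpow_neg (x := 3) (by norm_num),
          div_inv_eq_mul, mul_comm] at h7
        exact h7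
    have h2 := hx.2
    show ENNReal.ofReal (nn a f 0 1) ≤ ∫⁻ z, ENNReal.ofReal (r x z)
    rw [← ofReal_integral_eq_lintegral_ofReal ir (.of_forall (r0 x))]
    exact ENNReal.ofReal_le_ofReal (by linarith)
  have hmk := mul_meas_ge_le_lintegral₀ (μ := volume.restrict (Metric.closedBall (0 : E d) 4))
    mR.aemeasurable (ENNReal.ofReal (nn a f 0 1))
  rw [Measure.restrict_apply (measurableSet_le measurable_const mR)] at hmk
  have hint : ∫⁻ x in Metric.closedBall (0 : E d) 4, R x ≤ ENNReal.ofReal (9 * C * ee a f 0 1) := by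
    simp only [R]
    rw [lintegral_lintegral_swap mr.aemeasurable]
    unfold ee
    rw [← integral_const_mul, ofReal_integral_eq_lintegral_ofReal (i2.const_mul _)
      (.of_forall fun z => by positivity)]
    refine lintegral_mono fun z => ?_
    by_cases h : z ∈ S
    · simp only [r, indicator_of_mem h, sub_zero, div_one]
      simp only [fun x : E d => ENNReal.ofReal_mul' (p := ‖x - z‖ ^ (-a)) (abs_nonneg (f z))]
      rw [lintegral_mul_const' _ _ ENNReal.ofReal_ne_top]
      refine (mul_le_mul_left (hC z) _).trans ?_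
      rw [← ENNReal.ofReal_mul' (abs_nonneg _)]
      refine ENNReal.ofReal_le_ofReal ?_
      have h3 : 1 / 8 < ‖z‖ := h
      have h4 : (1 + ‖z‖) ^ (-a) = (1 + ‖z‖) ^ (-(a + 1)) * (1 + ‖z‖) := by
        rw [← Real.rpow_add_one (by positivity)]
        ring_nf
      have h5 : 0 ≤ C * (1 + ‖z‖) ^ (-(a + 1)) * |f z| := by positivity
      rw [h4]
      nlinarith
    · simp [r, indicator_of_notMem h]
  rw [ENNReal.ofReal_div_of_pos hn]
  refine (ENNReal.le_div_iff_mul_le (Or.inl (by simpa using hn))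
    (Or.inl ENNReal.ofReal_ne_top)).2 ?_
  rw [mul_comm]
  exact (mul_le_mul_right (measure_mono hsub) _).trans (hmk.trans hint)

end Pool.Agent.MP_40db9a_an.H47
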