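import Pool.Agent.MP_40db9a_an.H47.Spec

/-!
Row Calc: the calculus of the predicate `Good`.
-/

open MeasureTheory Set

namespace Pool.Agent.MP_40db9a_an.H47

variable {d : ℕ}

theorem calc_measAnn : MeasurableSet (Ann d) := by
  have h : Ann d = (fun x : E d => ‖x‖) ⁻¹' (Icc (1 / 2 : ℝ) 4) := rfl
  rw [h]
  exact (isClosed_Icc.preimage continuous_norm).measurableSet

theorem calc_tr_add (L M : E d →L[ℝ] E d) : tr (L + M) = tr L + tr M := by
  simp [tr, Finset.sum_add_distrib]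

theorem calc_tr_smul (c : ℝ) (L : E d →L[ℝ] E d) : tr (c • L) = c * tr L := by
  simp [tr, Finset.mul_sum]

theorem calc_tr_cont : Continuous (tr : (E d →L[ℝ] E d) → ℝ) := by
  unfold tr
  fun_prop

theorem calc_tr_le (L : E d →L[ℝ] E d) : |tr L| ≤ d * ‖L‖ := by
  unfold tr
  calc |∑ i, L (EuclideanSpace.single i 1) i| ≤ ∑ i, |L (EuclideanSpace.single i 1) i| :=
        Finset.abs_sum_le_sum_abs _ _
    _ ≤ ∑ _i : Fin d, ‖L‖ := by
        refine Finset.sum_le_sum fun i _ => ?_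
        have h1 : |L (EuclideanSpace.single i 1) i| ≤ ‖L (EuclideanSpace.single i 1)‖ := by
          have := PiLp.norm_apply_le (L (EuclideanSpace.single i 1)) i
          simpa [Real.norm_eq_abs] using this
        have h2 := L.le_opNorm (EuclideanSpace.single i 1)
        simp only [PiLp.norm_single, norm_one, mul_one] at h2
        exact h1.trans h2
    _ = d * ‖L‖ := by simp

theorem calc_contOn {V : E d → E d} (h : ∀ x ∈ Ann d, DifferentiableAt ℝ V x) :
    ContinuousOn V (Ann d) := fun x hx => (h x hx).continuousAt.continuousWithinAt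

theorem calc_aem {V : E d → E d} (h : ContinuousOn V (Ann d)) :
    AEMeasurable (fun x => ‖V x‖ₑ) (volume.restrict (Ann d)) :=
  (h.aestronglyMeasurable calc_measAnn).enorm

theorem calc_trm (V : E d → E d) : Measurable (fun x => ‖tr (fderiv ℝ V x)‖ₑ) :=
  (calc_tr_cont.measurable.comp (measurable_fderiv ℝ V)).enorm

theorem calc_markov {n : E d → ENNReal} (hn : AEMeasurable n (volume.restrict (Ann d)))
    {e s : ℝ} (hs : 0 < s) (h : ∫⁻ x in Ann d, n x ≤ ENNReal.ofReal e) :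
    volume ({x | ENNReal.ofReal s ≤ n x} ∩ Ann d) ≤ ENNReal.ofReal (e / s) := by
  have h1 := mul_meas_ge_le_lintegral₀ hn (ENNReal.ofReal s)
  rw [Measure.restrict_apply' calc_measAnn] at h1
  rw [ENNReal.ofReal_div_of_pos hs]
  have hs0 : ENNReal.ofReal s ≠ 0 := by simpa using hs
  rw [ENNReal.le_div_iff_mul_le (Or.inl hs0) (Or.inl ENNReal.ofReal_ne_top), mul_comm]
  exact h1.trans h

theorem calc_mono (V : E d → E d) (e e' : ℝ) (h : e ≤ e') (hV : Good V e) : Good V e' := by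
  obtain ⟨h1, h2, h3, h4⟩ := hV
  refine ⟨h1, h2.trans (ENNReal.ofReal_le_ofReal h), h3.trans (ENNReal.ofReal_le_ofReal h), ?_⟩
  intro t ht
  obtain ⟨F, hF, hv, hL⟩ := h4 t ht
  exact ⟨F, hF, hv.trans (ENNReal.ofReal_le_ofReal (div_le_div_of_nonneg_right h ht.le)), hL⟩

theorem calc_add (V W : E d → E d) (e e' : ℝ) (he : 0 ≤ e) (he' : 0 ≤ e') (hV : Good V e)
    (hW : Good W e') : Good (fun x => V x + W x) (2 * (e + e')) := by
  obtain ⟨h1, h2, h3, h4⟩ := hV
  obtain ⟨k1, k2, k3, k4⟩ := hW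
  have hle : ENNReal.ofReal e + ENNReal.ofReal e' ≤ ENNReal.ofReal (2 * (e + e')) := by
    rw [← ENNReal.ofReal_add he he']
    exact ENNReal.ofReal_le_ofReal (by linarith)
  refine ⟨fun x hx => (h1 x hx).add (k1 x hx), ?_, ?_, ?_⟩
  · calc ∫⁻ x in Ann d, ‖V x + W x‖ₑ ≤ ∫⁻ x in Ann d, (‖V x‖ₑ + ‖W x‖ₑ) :=
          lintegral_mono fun x => enorm_add_le _ _
      _ = (∫⁻ x in Ann d, ‖V x‖ₑ) + ∫⁻ x in Ann d, ‖W x‖ₑ :=
          lintegral_add_left' (calc_aem (calc_contOn h1)) _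
      _ ≤ _ := (add_le_add h2 k2).trans hle
  · calc ∫⁻ x in Ann d, ‖tr (fderiv ℝ (fun x => V x + W x) x)‖ₑ
        ≤ ∫⁻ x in Ann d, (‖tr (fderiv ℝ V x)‖ₑ + ‖tr (fderiv ℝ W x)‖ₑ) := by
          refine setLIntegral_mono' calc_measAnn fun x hx => ?_
          rw [fderiv_fun_add (h1 x hx) (k1 x hx), calc_tr_add]
          exact enorm_add_le _ _
      _ = (∫⁻ x in Ann d, ‖tr (fderiv ℝ V x)‖ₑ) + ∫⁻ x in Ann d, ‖tr (fderiv ℝ W x)‖ₑ :=
          lintegral_add_left (calc_trm V) _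
      _ ≤ _ := (add_le_add h3 k3).trans hle
  · intro t ht
    obtain ⟨F, hF, hv, hL⟩ := h4 (t / 2) (by positivity)
    obtain ⟨G, hG, gv, gL⟩ := k4 (t / 2) (by positivity)
    refine ⟨F ∩ G, inter_subset_left.trans hF, ?_, ?_⟩
    · rw [sdiff_inter]
      refine (measure_union_le _ _).trans ((add_le_add hv gv).trans ?_)
      rw [← ENNReal.ofReal_add (by positivity) (by positivity)]
      refine ENNReal.ofReal_le_ofReal (le_of_eq ?_)
      field_simp
    · intro x hx y hy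
      have a1 := hL x hx.1 y hy.1
      have a2 := gL x hx.2 y hy.2
      have a3 : V x + W x - (V y + W y) = (V x - V y) + (W x - W y) := by abel
      rw [a3]
      refine (norm_add_le _ _).trans ?_
      linarith

theorem calc_lint_smul (V : E d → E d) (e c : ℝ)
    (h : ∫⁻ x in Ann d, ‖V x‖ₑ ≤ ENNReal.ofReal e) :
    ∫⁻ x in Ann d, ‖c • V x‖ₑ ≤ ENNReal.ofReal (|c| * e) := by
  simp only [enorm_smul]
  rw [lintegral_const_mul' _ _ enorm_ne_top, ENNReal.ofReal_mul (abs_nonneg c),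
    ← Real.enorm_eq_ofReal_abs]
  exact mul_le_mul_right h _

theorem calc_smul (V : E d → E d) (e c : ℝ) (he : 0 ≤ e) (hV : Good V e) :
    Good (fun x => c • V x) (|c| * e) := by
  obtain ⟨h1, h2, h3, h4⟩ := hV
  refine ⟨fun x hx => (h1 x hx).const_smul c, calc_lint_smul V e c h2, ?_, ?_⟩
  · calc ∫⁻ x in Ann d, ‖tr (fderiv ℝ (fun x => c • V x) x)‖ₑ
        = ∫⁻ x in Ann d, ‖c‖ₑ * ‖tr (fderiv ℝ V x)‖ₑ := by
          refine setLIntegral_congr_fun calc_measAnn fun x hx => ?_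
          rw [fderiv_fun_const_smul (h1 x hx), calc_tr_smul, enorm_mul]
      _ ≤ _ := by
          rw [lintegral_const_mul' _ _ enorm_ne_top, ENNReal.ofReal_mul (abs_nonneg c),
            ← Real.enorm_eq_ofReal_abs]
          exact mul_le_mul_right h3 _
  · intro t ht
    rcases eq_or_ne c 0 with hc | hc
    · refine ⟨Ann d, Subset.rfl, by simp, fun x _ y _ => ?_⟩
      simp only [hc, zero_smul, sub_self, norm_zero]
      positivity
    · have hc' : 0 < |c| := abs_pos.mpr hc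
      obtain ⟨F, hF, hv, hL⟩ := h4 (t / |c|) (by positivity)
      refine ⟨F, hF, hv.trans (ENNReal.ofReal_le_ofReal (le_of_eq ?_)), fun x hx y hy => ?_⟩
      · field_simp
      · rw [← smul_sub, norm_smul, Real.norm_eq_abs]
        calc |c| * ‖V x - V y‖ ≤ |c| * (t / |c| * ‖x - y‖) :=
              mul_le_mul_of_nonneg_left (hL x hx y hy) hc'.le
          _ = t * ‖x - y‖ := by field_simp

theorem calc_mul (φ : E d → ℝ) (M : ℝ) (hM : 0 < M)
    (p1 : ∀ x ∈ Ann d, DifferentiableAt ℝ φ x) (p2 : ∀ x ∈ Ann d, |φ x| ≤ M)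
    (p3 : ∀ x ∈ Ann d, ‖fderiv ℝ φ x‖ ≤ M)
    (p4 : ∀ x ∈ Ann d, ∀ y ∈ Ann d, |φ x - φ y| ≤ M * ‖x - y‖)
    (V : E d → E d) (e : ℝ) (he : 0 ≤ e) (hV : Good V e) :
    Good (fun x => φ x • V x) (M * (d + 4) * e) := by
  obtain ⟨h1, h2, h3, h4⟩ := hV
  have hd : (0 : ℝ) ≤ d := Nat.cast_nonneg d
  have hMe : 0 ≤ M * e := mul_nonneg hM.le he
  refine ⟨fun x hx => (p1 x hx).smul (h1 x hx), ?_, ?_, ?_⟩
  · calc ∫⁻ x in Ann d, ‖φ x • V x‖ₑ ≤ ∫⁻ x in Ann d, ENNReal.ofReal M * ‖V x‖ₑ := by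
          refine setLIntegral_mono' calc_measAnn fun x hx => ?_
          rw [enorm_smul, Real.enorm_eq_ofReal_abs]
          exact mul_le_mul_left (ENNReal.ofReal_le_ofReal (p2 x hx)) _
      _ = ENNReal.ofReal M * ∫⁻ x in Ann d, ‖V x‖ₑ :=
          lintegral_const_mul' _ _ ENNReal.ofReal_ne_top
      _ ≤ ENNReal.ofReal M * ENNReal.ofReal e := mul_le_mul_right h2 _
      _ ≤ _ := by
          rw [← ENNReal.ofReal_mul hM.le]
          refine ENNReal.ofReal_le_ofReal ?_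
          nlinarith [mul_nonneg hMe hd]
  · calc ∫⁻ x in Ann d, ‖tr (fderiv ℝ (fun x => φ x • V x) x)‖ₑ
        ≤ ∫⁻ x in Ann d, (ENNReal.ofReal M * ‖tr (fderiv ℝ V x)‖ₑ +
            ENNReal.ofReal (d * M) * ‖V x‖ₑ) := by
          refine setLIntegral_mono' calc_measAnn fun x hx => ?_
          rw [fderiv_fun_smul (p1 x hx) (h1 x hx), calc_tr_add, calc_tr_smul]
          refine (enorm_add_le _ _).trans (add_le_add ?_ ?_)
          · rw [enorm_mul, Real.enorm_eq_ofReal_abs]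
            exact mul_le_mul_left (ENNReal.ofReal_le_ofReal (p2 x hx)) _
          · rw [Real.enorm_eq_ofReal_abs, ← ofReal_norm (V x),
              ← ENNReal.ofReal_mul (by positivity)]
            refine ENNReal.ofReal_le_ofReal ((calc_tr_le _).trans ?_)
            rw [ContinuousLinearMap.norm_smulRight_apply, mul_assoc]
            exact mul_le_mul_of_nonneg_left
              (mul_le_mul_of_nonneg_right (p3 x hx) (norm_nonneg _)) hd
      _ = ENNReal.ofReal M * (∫⁻ x in Ann d, ‖tr (fderiv ℝ V x)‖ₑ) +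
            ENNReal.ofReal (d * M) * ∫⁻ x in Ann d, ‖V x‖ₑ := by
          rw [lintegral_add_left ((calc_trm V).const_mul _),
            lintegral_const_mul' _ _ ENNReal.ofReal_ne_top,
            lintegral_const_mul' _ _ ENNReal.ofReal_ne_top]
      _ ≤ ENNReal.ofReal M * ENNReal.ofReal e + ENNReal.ofReal (d * M) * ENNReal.ofReal e :=
          add_le_add (mul_le_mul_right h3 _) (mul_le_mul_right h2 _)
      _ ≤ _ := by
          rw [← ENNReal.ofReal_mul hM.le, ← ENNReal.ofReal_mul (by positivity),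
            ← ENNReal.ofReal_add hMe (by positivity)]
          refine ENNReal.ofReal_le_ofReal ?_
          nlinarith
  · intro t ht
    have hs : 0 < t / (2 * M) := by positivity
    obtain ⟨F, hF, hv, hL⟩ := h4 (t / (2 * M)) hs
    have hm := calc_markov (calc_aem (calc_contOn h1)) hs h2
    refine ⟨F ∩ {x | ‖V x‖ ≤ t / (2 * M)}, inter_subset_left.trans hF, ?_, ?_⟩
    · rw [sdiff_inter]
      have hsub : Ann d \ {x | ‖V x‖ ≤ t / (2 * M)} ⊆
          {x | ENNReal.ofReal (t / (2 * M)) ≤ ‖V x‖ₑ} ∩ Ann d := by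
        intro x hx
        refine ⟨?_, hx.1⟩
        have h5 : ¬ ‖V x‖ ≤ t / (2 * M) := hx.2
        show ENNReal.ofReal (t / (2 * M)) ≤ ‖V x‖ₑ
        rw [← ofReal_norm]
        exact ENNReal.ofReal_le_ofReal (not_le.mp h5).le
      refine (measure_union_le _ _).trans
        ((add_le_add hv ((measure_mono hsub).trans hm)).trans ?_)
      rw [← ENNReal.ofReal_add (by positivity) (by positivity)]
      refine ENNReal.ofReal_le_ofReal ?_
      have h6 : e / (t / (2 * M)) + e / (t / (2 * M)) = M * 4 * e / t := by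
        field_simp
        ring
      rw [h6]
      refine div_le_div_of_nonneg_right ?_ ht.le
      nlinarith [mul_nonneg hMe hd]
    · intro x hx y hy
      have a1 := hL x hx.1 y hy.1
      have a2 : ‖V y‖ ≤ t / (2 * M) := hy.2
      have a3 : φ x • V x - φ y • V y = φ x • (V x - V y) + (φ x - φ y) • V y := by
        rw [smul_sub, sub_smul]; abel
      have a4 := p2 x (hF hx.1)
      have a5 := p4 x (hF hx.1) y (hF hy.1)
      rw [a3]
      refine (norm_add_le _ _).trans ?_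
      rw [norm_smul, norm_smul, Real.norm_eq_abs, Real.norm_eq_abs]
      calc |φ x| * ‖V x - V y‖ + |φ x - φ y| * ‖V y‖
          ≤ M * (t / (2 * M) * ‖x - y‖) + M * ‖x - y‖ * (t / (2 * M)) :=
            add_le_add (mul_le_mul a4 a1 (norm_nonneg _) hM.le)
              (mul_le_mul a5 a2 (norm_nonneg _) (by positivity))
        _ = t * ‖x - y‖ := by
            field_simp
            ring

theorem calc_rpow_lip (b : ℝ) : ∃ M : ℝ, 0 < M ∧ (∀ r ∈ Icc (1 / 4 : ℝ) 8, |r ^ b| ≤ M) ∧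
    ∀ r ∈ Icc (1 / 4 : ℝ) 8, ∀ s ∈ Icc (1 / 4 : ℝ) 8, |r ^ b - s ^ b| ≤ M * |r - s| := by
  have c1 : ContinuousOn (fun r : ℝ => r ^ b) (Icc (1 / 4 : ℝ) 8) :=
    continuousOn_id.rpow_const fun r hr => Or.inl (ne_of_gt (lt_of_lt_of_le (by norm_num) hr.1))
  have c2 : ContinuousOn (fun r : ℝ => b * r ^ (b - 1)) (Icc (1 / 4 : ℝ) 8) :=
    continuousOn_const.mul
      (continuousOn_id.rpow_const fun r hr => Or.inl (ne_of_gt (lt_of_lt_of_le (by norm_num) hr.1)))
  obtain ⟨M1, hM1⟩ := isCompact_Icc.exists_bound_of_continuousOn c1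
  obtain ⟨M2, hM2⟩ := isCompact_Icc.exists_bound_of_continuousOn c2
  refine ⟨max 1 (max M1 M2), lt_of_lt_of_le one_pos (le_max_left _ _), fun r hr => ?_,
    fun r hr s hs => ?_⟩
  · exact (hM1 r hr).trans ((le_max_left _ _).trans (le_max_right _ _))
  · have := (convex_Icc (1 / 4 : ℝ) 8).norm_image_sub_le_of_norm_hasDerivWithin_le
      (f := fun r : ℝ => r ^ b) (f' := fun r : ℝ => b * r ^ (b - 1)) (C := max 1 (max M1 M2))
      (fun x hx => (Real.hasDerivAt_rpow_const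
        (Or.inl (ne_of_gt (lt_of_lt_of_le (by norm_num) hx.1)))).hasDerivWithinAt)
      (fun x hx => (hM2 x hx).trans ((le_max_right _ _).trans (le_max_right _ _))) hs hr
    simpa [Real.norm_eq_abs] using this

theorem calc_rpow (b : ℝ) : ∃ C : ℝ, 0 < C ∧ ∀ (V : E d → E d) (e : ℝ), 0 ≤ e → Good V e →
    Good (fun x => ‖x‖ ^ b • V x) (C * e) := by
  obtain ⟨M, hM, m1, m2⟩ := calc_rpow_lip b
  have hin : ∀ x ∈ Ann d, ‖x‖ ∈ Icc (1 / 4 : ℝ) 8 := fun x hx =>
    ⟨by linarith [hx.1], by linarith [hx.2]⟩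
  have lip : ∀ x y : E d, ‖x‖ ∈ Icc (1 / 4 : ℝ) 8 → ‖y‖ ∈ Icc (1 / 4 : ℝ) 8 →
      |‖x‖ ^ b - ‖y‖ ^ b| ≤ M * ‖x - y‖ := fun x y hx hy =>
    (m2 _ hx _ hy).trans (mul_le_mul_of_nonneg_left (abs_norm_sub_norm_le x y) hM.le)
  refine ⟨M * (d + 4), by positivity, fun V e he hV => ?_⟩
  refine calc_mul (fun x => ‖x‖ ^ b) M hM (fun x hx => ?_) (fun x hx => m1 _ (hin x hx))
    (fun x hx => ?_) (fun x hx y hy => lip x y (hin x hx) (hin y hy)) V e he hV
  · have hx0 : x ≠ 0 := by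
      rintro rfl
      have := hx.1
      rw [norm_zero] at this
      linarith
    exact ((contDiffAt_norm ℝ (n := 1) hx0).differentiableAt (by norm_num)).rpow_const
      (Or.inl (norm_ne_zero_iff.mpr hx0))
  · refine norm_fderiv_le_of_lip' ℝ hM.le ?_
    have hopen : IsOpen {y : E d | ‖y‖ ∈ Ioo (1 / 4 : ℝ) 8} :=
      isOpen_Ioo.preimage continuous_norm
    have hmem : x ∈ {y : E d | ‖y‖ ∈ Ioo (1 / 4 : ℝ) 8} :=
      ⟨by linarith [hx.1], by linarith [hx.2]⟩
    filter_upwards [hopen.mem_nhds hmem] with y hy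
    rw [Real.norm_eq_abs]
    exact lip y x (Ioo_subset_Icc_self hy) (hin x hx)

theorem calc_lip_of {V : E d → E d} {n : E d → ENNReal}
    (h : ∀ x ∈ Ann d, ∀ y ∈ Ann d, ‖V x - V y‖ₑ ≤ ‖x - y‖ₑ * (n x + n y)) {s : ℝ} (hs : 0 ≤ s)
    {x y : E d} (hx : x ∈ Ann d) (hy : y ∈ Ann d) (nx : n x ≤ ENNReal.ofReal s)
    (ny : n y ≤ ENNReal.ofReal s) : ‖V x - V y‖ ≤ 2 * s * ‖x - y‖ := by
  have h1 := (h x hx y hy).trans (mul_le_mul_right (add_le_add nx ny) _)
  rw [← ENNReal.ofReal_add hs hs, ← ofReal_norm, ← ofReal_norm,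
    ← ENNReal.ofReal_mul (norm_nonneg _),
    ENNReal.ofReal_le_ofReal_iff (by positivity)] at h1
  linarith

theorem calc_fderiv_ae {V : E d → E d} {n : E d → ENNReal}
    (hV : ∀ x ∈ Ann d, DifferentiableAt ℝ V x) (hn : Measurable n)
    (h : ∀ x ∈ Ann d, ∀ y ∈ Ann d, ‖V x - V y‖ₑ ≤ ‖x - y‖ₑ * (n x + n y)) :
    ∀ᵐ x ∂(volume.restrict (Ann d)), ‖fderiv ℝ V x‖ₑ ≤ 2 * n x := by
  have key : ∀ q : ℚ, ∀ᵐ x ∂(volume : Measure (E d)),
      0 ≤ (q : ℝ) → x ∈ Ann d → n x ≤ ENNReal.ofReal q → ‖fderiv ℝ V x‖ ≤ 2 * q := by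
    intro q
    by_cases hq : 0 ≤ (q : ℝ)
    swap
    · exact Filter.Eventually.of_forall fun x h0 => absurd h0 hq
    set S : Set (E d) := Ann d ∩ {x | n x ≤ ENNReal.ofReal q} with hS
    have hSm : MeasurableSet S := calc_measAnn.inter (measurableSet_le hn measurable_const)
    have hA : ApproximatesLinearOn V (0 : E d →L[ℝ] E d) S ⟨2 * q, by positivity⟩ := by
      intro x hx y hy
      simp only [zero_apply, sub_zero]
      exact calc_lip_of h hq hx.1 hy.1 hx.2 hy.2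
    have h1 := hA.norm_fderiv_sub_le volume hSm (fun x => fderiv ℝ V x)
      (fun x hx => (hV x hx.1).hasFDerivAt.hasFDerivWithinAt)
    rw [ae_restrict_iff' hSm] at h1
    filter_upwards [h1] with x hx _ hxA hxn
    have h2 := hx ⟨hxA, hxn⟩
    rw [sub_zero] at h2
    exact_mod_cast h2
  rw [ae_restrict_iff' calc_measAnn]
  filter_upwards [ae_all_iff.mpr key] with x hx hxA
  rcases eq_or_ne (n x) ⊤ with ht | ht
  · rw [ht]; simp
  have h3 : ‖fderiv ℝ V x‖ ≤ 2 * (n x).toReal := by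
    refine le_of_forall_pos_le_add fun ε hε => ?_
    obtain ⟨q, hq1, hq2⟩ := exists_rat_btwn (show (n x).toReal < (n x).toReal + ε / 2 by linarith)
    have hq0 : 0 ≤ (q : ℝ) := ENNReal.toReal_nonneg.trans hq1.le
    have h4 : n x ≤ ENNReal.ofReal q := by
      rw [← ENNReal.ofReal_toReal ht]
      exact ENNReal.ofReal_le_ofReal hq1.le
    have := hx q hq0 hxA h4
    linarith
  rw [← ofReal_norm]
  refine (ENNReal.ofReal_le_ofReal h3).trans (le_of_eq ?_)
  rw [ENNReal.ofReal_mul (by norm_num), ENNReal.ofReal_toReal ht]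
  simp

theorem calc_haj : ∃ C : ℝ, 0 < C ∧ ∀ (V : E d → E d) (n : E d → ENNReal) (e : ℝ), 0 ≤ e →
    (∀ x ∈ Ann d, DifferentiableAt ℝ V x) → Measurable n →
    (∀ x ∈ Ann d, ∀ y ∈ Ann d, ‖V x - V y‖ₑ ≤ ‖x - y‖ₑ * (n x + n y)) →
    ∫⁻ x in Ann d, n x ≤ ENNReal.ofReal e → ∫⁻ x in Ann d, ‖V x‖ₑ ≤ ENNReal.ofReal e →
    Good V (C * e) := by
  have hd : (0 : ℝ) ≤ d := Nat.cast_nonneg d
  refine ⟨2 * d + 2, by positivity, fun V n e he hV hn h h1 h2 => ⟨hV, ?_, ?_, ?_⟩⟩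
  · refine h2.trans (ENNReal.ofReal_le_ofReal ?_)
    nlinarith [mul_nonneg hd he]
  · calc ∫⁻ x in Ann d, ‖tr (fderiv ℝ V x)‖ₑ
        ≤ ∫⁻ x in Ann d, ENNReal.ofReal (2 * d) * n x := by
          refine lintegral_mono_ae ?_
          filter_upwards [calc_fderiv_ae hV hn h] with x hx
          calc ‖tr (fderiv ℝ V x)‖ₑ ≤ ENNReal.ofReal d * ‖fderiv ℝ V x‖ₑ := by
                rw [Real.enorm_eq_ofReal_abs, ← ofReal_norm, ← ENNReal.ofReal_mul hd]
                exact ENNReal.ofReal_le_ofReal (calc_tr_le _)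
            _ ≤ ENNReal.ofReal d * (2 * n x) := mul_le_mul_right hx _
            _ = ENNReal.ofReal (2 * d) * n x := by
                rw [ENNReal.ofReal_mul (by norm_num), ENNReal.ofReal_ofNat]
                ring
      _ = ENNReal.ofReal (2 * d) * ∫⁻ x in Ann d, n x :=
          lintegral_const_mul' _ _ ENNReal.ofReal_ne_top
      _ ≤ ENNReal.ofReal (2 * d) * ENNReal.ofReal e := mul_le_mul_right h1 _
      _ ≤ _ := by
          rw [← ENNReal.ofReal_mul (by positivity)]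
          refine ENNReal.ofReal_le_ofReal ?_
          nlinarith
  · intro t ht
    have hs : 0 < t / 2 := by positivity
    have hm := calc_markov hn.aemeasurable hs h1
    refine ⟨Ann d ∩ {x | n x ≤ ENNReal.ofReal (t / 2)}, inter_subset_left, ?_, ?_⟩
    · have hsub : Ann d \ (Ann d ∩ {x | n x ≤ ENNReal.ofReal (t / 2)}) ⊆
          {x | ENNReal.ofReal (t / 2) ≤ n x} ∩ Ann d := by
        intro x hx
        refine ⟨?_, hx.1⟩
        have h5 : ¬ n x ≤ ENNReal.ofReal (t / 2) := fun h6 => hx.2 ⟨hx.1, h6⟩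
        exact (not_le.mp h5).le
      refine ((measure_mono hsub).trans hm).trans (ENNReal.ofReal_le_ofReal ?_)
      have h6 : e / (t / 2) = 2 * e / t := by field_simp
      rw [h6]
      refine div_le_div_of_nonneg_right ?_ ht.le
      nlinarith [mul_nonneg hd he]
    · intro x hx y hy
      have := calc_lip_of h hs.le hx.1 hy.1 hx.2 hy.2
      linarith

theorem calc_GG (α : ℝ) (w : E d → E d) (e c : ℝ) (he : 0 ≤ e) (h : GG α w e) :
    GG α (fun x => c • w x) (|c| * e) ∧ ContinuousOn w (Ann d) ∧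
      ∫⁻ x in Ann d, ‖w x‖ₑ ≤ ENNReal.ofReal e := by
  refine ⟨⟨fun h1 => calc_smul w e c he (h.1 h1), fun h1 => ?_⟩, ?_⟩
  · obtain ⟨g1, g2, g3⟩ := h.2 h1
    refine ⟨g1.const_smul c, calc_lint_smul w e c g2, fun ρ hρ hρ1 => ?_⟩
    obtain ⟨w', k1, k2⟩ := g3 ρ hρ hρ1
    refine ⟨fun x => c • w' x, ?_, ?_⟩
    · have := calc_smul w' _ c (by positivity) k1
      rwa [mul_left_comm] at this
    · have := calc_lint_smul (fun x => w x - w' x) _ c k2
      simp only [smul_sub] at this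
      rwa [mul_left_comm] at this
  · rcases le_or_gt 1 α with h1 | h1
    · exact ⟨calc_contOn (h.1 h1).1, (h.1 h1).2.1⟩
    · exact ⟨(h.2 h1).1, (h.2 h1).2.1⟩

theorem sCalc : S_Calc := fun _ =>
  ⟨calc_mono, calc_add, calc_smul, calc_rpow, calc_haj, calc_GG⟩

end Pool.Agent.MP_40db9a_an.H47
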