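import Pool.Agent.MP_40db9a_an.H47.Spec

/-! Convolution with a locally integrable kernel; the quantities `I`, `n`, `ε`. -/

open MeasureTheory Set

namespace Pool.Agent.MP_40db9a_an.H47

variable {d : ℕ}

lemma conv_norm_Kc {a ρ : ℝ} (ha : 0 < a) (x : E d) : ‖Kc a ρ x‖ ≤ ‖x‖ ^ (-a) := by
  by_cases hx : x = 0
  · subst hx
    simp only [Kc, smul_zero, norm_zero]
    exact Real.rpow_nonneg le_rfl _
  have h0 : 0 < ‖x‖ := norm_pos_iff.mpr hx
  have h1 : (max ‖x‖ ρ) ^ (-(a + 1)) ≤ ‖x‖ ^ (-(a + 1)) :=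
    Real.rpow_le_rpow_of_nonpos h0 (le_max_left _ _) (by linarith)
  have h2 : 0 ≤ (max ‖x‖ ρ) ^ (-(a + 1)) :=
    Real.rpow_nonneg (le_trans h0.le (le_max_left _ _)) _
  have h3 : ‖x‖ ^ (-(a + 1)) * ‖x‖ = ‖x‖ ^ (-a) := by
    rw [← Real.rpow_add_one h0.ne']; congr 1; ring
  rw [Kc, norm_smul, Real.norm_of_nonneg h2, ← h3]
  exact mul_le_mul_of_nonneg_right h1 h0.le

lemma conv_rank {a : ℝ} (ha : 0 < a) (had : a < d) : 1 ≤ Module.finrank ℝ (E d) := by
  have h : (0 : ℝ) < d := ha.trans had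
  have h' : 0 < d := by exact_mod_cast h
  rw [finrank_euclideanSpace_fin]; exact h'

lemma conv_meas_Kc (a ρ : ℝ) : Measurable (Kc a ρ : E d → E d) :=
  ((measurable_norm.max measurable_const).pow_const _).smul measurable_id

lemma conv_li_Kc {a ρ : ℝ} (ha : 0 < a) (had : a < d) :
    LocallyIntegrable (Kc a ρ : E d → E d) := by
  refine locallyIntegrable_of_norm_le_rpow (conv_rank ha had) (C := 1) (α := a) ?_
    (Filter.Eventually.of_forall fun x => ?_) (conv_meas_Kc a ρ).aestronglyMeasurable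
  · rw [finrank_euclideanSpace_fin]; exact had
  · rw [one_mul]; exact conv_norm_Kc ha x

lemma conv_li_pow {a : ℝ} (ha : 0 < a) (had : a < d) :
    LocallyIntegrable (fun x : E d => ‖x‖ ^ (-a)) := by
  refine locallyIntegrable_of_norm_le_rpow (conv_rank ha had) (C := 1) (α := a) ?_
    (Filter.Eventually.of_forall fun x => ?_) (measurable_norm.pow_const _).aestronglyMeasurable
  · rw [finrank_euclideanSpace_fin]; exact had
  · rw [one_mul, Real.norm_of_nonneg (Real.rpow_nonneg (norm_nonneg _) _)]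

lemma conv_eq (k : E d → E d) (f : E d → ℝ) :
    conv k f = convolution f k (ContinuousLinearMap.lsmul ℝ ℝ) volume := rfl

lemma conv_bdd {k : E d → E d} (hk : LocallyIntegrable k) (g : E d → ℝ) (B R : ℝ)
    (hg : Measurable g) (hB : ∀ x, |g x| ≤ B) (hR : ∀ x, g x ≠ 0 → ‖x‖ ≤ R) (x : E d) :
    Integrable fun z => g z • k (x - z) := by
  have h1 : Integrable ((Metric.closedBall x R).indicator k) :=
    (integrable_indicator_iff Metric.isClosed_closedBall.measurableSet).mpr
      (hk.integrableOn_isCompact (isCompact_closedBall x R))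
  have h2 := (h1.comp_sub_left x).bdd_smul B hg.aestronglyMeasurable
    (Filter.Eventually.of_forall fun z => hB z)
  refine h2.congr (Filter.Eventually.of_forall fun z => ?_)
  by_cases hz : g z = 0
  · simp [hz]
  · have h3 : x - z ∈ Metric.closedBall x R := by
      rw [mem_closedBall_iff_norm]
      simpa using hR z hz
    simp [indicator_of_mem h3]

theorem sConv (_hI : S_Int) : S_Conv := by
  intro d
  refine ⟨fun a ρ ha had _ => conv_li_Kc ha had, fun k hk => ⟨conv_bdd hk, fun f hf hc => ?_⟩⟩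
  refine ⟨fun x => hc.convolutionExists_left (ContinuousLinearMap.lsmul ℝ ℝ) hf hk x,
    hc.continuous_convolution_left (ContinuousLinearMap.lsmul ℝ ℝ) hf hk, fun hf1 => ?_⟩
  have h1 : ∀ x, HasFDerivAt (conv k f)
      (convolution k (fderiv ℝ f) (((ContinuousLinearMap.lsmul ℝ ℝ :
        ℝ →L[ℝ] E d →L[ℝ] E d).flip).precompR (E d)) volume x) x := by
    intro x
    rw [conv_eq, ← convolution_flip]
    exact hc.hasFDerivAt_convolution_right _ hk hf1 x
  refine ⟨fun x => (h1 x).differentiableAt, fun x v => ?_⟩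
  rw [(h1 x).fderiv, convolution_precompR_apply _ hk (hc.fderiv ℝ)
    (hf1.continuous_fderiv one_ne_zero), convolution_flip, conv_eq]

lemma conv_pos {c f : E d → ℝ} (hc0 : ∀ z, 0 ≤ c z) (hc : ∀ᵐ z, c z ≠ 0)
    (hi : Integrable fun z => c z * |f z|) (hf : 0 < ∫ x, |f x|) : 0 < ∫ z, c z * |f z| := by
  have h0 : (0 : E d → ℝ) ≤ fun z => c z * |f z| := fun z => mul_nonneg (hc0 z) (abs_nonneg _)
  refine lt_of_le_of_ne (integral_nonneg h0) fun h => ?_
  have h1 := (integral_eq_zero_iff_of_nonneg h0 hi).mp h.symm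
  have h2 : (fun x => |f x|) =ᵐ[volume] fun _ => (0 : ℝ) := by
    filter_upwards [h1, hc] with z h3 h4
    exact (mul_eq_zero.mp h3).resolve_left h4
  rw [integral_congr_ae h2, integral_zero] at hf
  exact lt_irrefl _ hf

lemma conv_param {f : E d → ℝ} (hf : Continuous f) (hc : HasCompactSupport f)
    {c : E d × ℝ → E d → ℝ} (h : Continuous fun y : (E d × ℝ) × E d => c y.1 y.2) :
    Continuous fun q : E d × ℝ => ∫ w, c q w * |f w| := by
  have h1 : Continuous (Function.uncurry fun (q : E d × ℝ) (w : E d) => c q w * |f w|) :=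
    h.mul (hf.comp continuous_snd).abs
  have h2 := continuous_parametric_integral_of_continuous (μ := volume) h1 hc.isCompact
  refine h2.congr fun q => ?_
  refine setIntegral_eq_integral_of_forall_compl_eq_zero fun w hw => ?_
  rw [image_eq_zero_of_notMem_tsupport hw, abs_zero, mul_zero]

theorem sBasic (_hI : S_Int) (_hC : S_Conv) : S_Basic := by
  intro d a ha had f hf hc
  have hfa : Continuous fun z => |f z| := hf.abs
  have hca : HasCompactSupport fun z => |f z| := hc.comp_left (g := fun t : ℝ => |t|) abs_zero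
  have hk := conv_li_pow (d := d) ha had
  have hI1 : ∀ x : E d, Integrable fun z => ‖x - z‖ ^ (-a) * |f z| := by
    intro x
    have h1 : Integrable fun z => |f z| * ‖x - z‖ ^ (-a) :=
      hca.convolutionExists_left (ContinuousLinearMap.mul ℝ ℝ) hfa hk x
    exact h1.congr (Filter.Eventually.of_forall fun z => mul_comm _ _)
  have hb : ∀ (z : E d) (r : ℝ), 0 < r → ∀ w : E d, 1 ≤ 1 + ‖w - z‖ / r := fun z r hr w =>
    le_add_of_nonneg_right (div_nonneg (norm_nonneg _) hr.le)
  have hcb : ∀ (z : E d) (r b : ℝ), 0 < r → Continuous fun w : E d => (1 + ‖w - z‖ / r) ^ b := by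
    intro z r b hr
    refine Continuous.rpow_const (by fun_prop) fun w => Or.inl ?_
    exact (lt_of_lt_of_le one_pos (hb z r hr w)).ne'
  have hN : ∀ (z : E d) (r : ℝ), 0 < r → Integrable fun w => (1 + ‖w - z‖ / r) ^ (-a) * |f w| :=
    fun z r hr => ((hcb z r _ hr).mul hfa).integrable_of_hasCompactSupport hca.mul_left
  have hE : ∀ (z : E d) (r : ℝ), 0 < r →
      Integrable fun w => (1 + ‖w - z‖ / r) ^ (-(a + 1)) * (‖w - z‖ / r) * |f w| :=
    fun z r hr => (((hcb z r _ hr).mul (by fun_prop)).mul hfa).integrable_of_hasCompactSupport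
      hca.mul_left
  have hq : Continuous fun y : (E d × ℝ) × E d => ‖y.2 - y.1.1‖ / Real.exp y.1.2 :=
    Continuous.div (by fun_prop) (by fun_prop) fun y => (Real.exp_pos _).ne'
  have hq' : ∀ b : ℝ, Continuous fun y : (E d × ℝ) × E d =>
      (1 + ‖y.2 - y.1.1‖ / Real.exp y.1.2) ^ b := by
    intro b
    refine Continuous.rpow_const (continuous_const.add hq) fun y => Or.inl ?_
    exact (lt_of_lt_of_le one_pos (hb _ _ (Real.exp_pos _) _)).ne'
  refine ⟨hI1, ?_, fun x => ?_, fun z r hr => ⟨hN z r hr, hE z r hr, ?_, ?_, ?_⟩, ?_, ?_,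
    fun hpos => ⟨fun x => ?_, fun z r hr => ?_⟩⟩
  · have h1 := hca.continuous_convolution_left (ContinuousLinearMap.mul ℝ ℝ) hfa hk
    refine h1.congr fun x => ?_
    rw [convolution_mul, pot]
    exact integral_congr_ae (Filter.Eventually.of_forall fun z => mul_comm _ _)
  · refine norm_integral_le_of_norm_le (hI1 x) (Filter.Eventually.of_forall fun z => ?_)
    rw [norm_smul, Real.norm_eq_abs, mul_comm, ← Kc_zero]
    exact mul_le_mul_of_nonneg_right (conv_norm_Kc ha _) (abs_nonneg _)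
  · refine integral_nonneg fun w => ?_
    exact mul_nonneg (mul_nonneg (Real.rpow_nonneg (le_trans zero_le_one (hb z r hr w)) _)
      (div_nonneg (norm_nonneg _) hr.le)) (abs_nonneg _)
  · refine integral_mono (hE z r hr) (hN z r hr) fun w => ?_
    refine mul_le_mul_of_nonneg_right ?_ (abs_nonneg _)
    have h0 : 0 < 1 + ‖w - z‖ / r := lt_of_lt_of_le one_pos (hb z r hr w)
    have h1 : (1 + ‖w - z‖ / r) ^ (-(a + 1)) * (1 + ‖w - z‖ / r) = (1 + ‖w - z‖ / r) ^ (-a) := by
      rw [← Real.rpow_add_one h0.ne']; congr 1; ring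
    rw [← h1]
    exact mul_le_mul_of_nonneg_left (by linarith) (Real.rpow_nonneg h0.le _)
  · refine integral_mono (hN z r hr) (hfa.integrable_of_hasCompactSupport hca) fun w => ?_
    have h1 : (1 + ‖w - z‖ / r) ^ (-a) ≤ 1 :=
      Real.rpow_le_one_of_one_le_of_nonpos (hb z r hr w) (by linarith)
    exact mul_le_of_le_one_left (abs_nonneg _) h1
  · exact conv_param hf hc (c := fun q w => (1 + ‖w - q.1‖ / Real.exp q.2) ^ (-a)) (hq' _)
  · exact conv_param hf hc (c := fun q w => (1 + ‖w - q.1‖ / Real.exp q.2) ^ (-(a + 1)) *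
      (‖w - q.1‖ / Real.exp q.2)) ((hq' _).mul hq)
  · have : Nontrivial (E d) := Module.nontrivial_of_finrank_pos (R := ℝ) (conv_rank ha had)
    refine conv_pos (fun z => Real.rpow_nonneg (norm_nonneg _) _) ?_ (hI1 x) hpos
    filter_upwards [(countable_singleton x).ae_notMem volume] with z hz
    have h1 : x - z ≠ 0 := fun h => hz (sub_eq_zero.mp h).symm
    exact (Real.rpow_pos_of_pos (norm_pos_iff.mpr h1) _).ne'
  · have h1 : ∀ w : E d, 0 < (1 + ‖w - z‖ / r) ^ (-a) := fun w =>
      Real.rpow_pos_of_pos (lt_of_lt_of_le one_pos (hb z r hr w)) _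
    exact conv_pos (fun w => (h1 w).le) (Filter.Eventually.of_forall fun w => (h1 w).ne')
      (hN z r hr) hpos

end Pool.Agent.MP_40db9a_an.H47
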