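import Pool.Agent.MP_40db9a_an.H47.Spec

/-! The core estimate: comparison with a field that admits the change of variables. -/

open MeasureTheory Set

namespace Pool.Agent.MP_40db9a_an.H47

variable {d : ℕ}

theorem core_tent_nonneg (u : ℝ) : 0 ≤ tent u := le_max_left _ _

theorem core_tent_le (u : ℝ) : tent u ≤ 2 :=
  max_le (by norm_num) (by linarith [abs_nonneg (4 * u - 2)])

theorem core_tent_lip (u v : ℝ) : |tent u - tent v| ≤ 4 * |u - v| := by
  unfold tent
  rw [max_comm 0, max_comm 0]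
  refine (abs_max_sub_max_le_abs _ _ _).trans ?_
  have h := abs_abs_sub_abs_le_abs_sub (4 * v - 2) (4 * u - 2)
  rw [show 4 * v - 2 - (4 * u - 2) = 4 * (v - u) by ring, abs_mul, abs_sub_comm v u] at h
  rw [show 2 - |4 * u - 2| - (2 - |4 * v - 2|) = |4 * v - 2| - |4 * u - 2| by ring]
  simpa using h

theorem core_tent_cont : Continuous tent := by unfold tent; fun_prop

theorem core_gw_meas (a : ℝ) : Measurable (gw a : E d → ℝ) :=
  (core_tent_cont.measurable.comp measurable_norm.log).mul (measurable_norm.pow_const _)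

theorem core_gw_supp {a : ℝ} {x : E d} (h : gw a x ≠ 0) : 1 ≤ ‖x‖ ∧ ‖x‖ ≤ 3 := by
  have h1 : tent (Real.log ‖x‖) ≠ 0 := left_ne_zero_of_mul h
  have h2 : |4 * Real.log ‖x‖ - 2| < 2 := by
    by_contra h2
    exact h1 (max_eq_left (by linarith [not_lt.1 h2]))
  obtain ⟨h3, h4⟩ := abs_lt.1 h2
  have h5 : 1 < ‖x‖ := (Real.log_pos_iff (norm_nonneg x)).1 (by linarith)
  refine ⟨h5.le, ?_⟩
  have h6 : ‖x‖ < Real.exp 1 := (Real.log_lt_iff_lt_exp (by linarith)).1 (by linarith)
  linarith [Real.exp_one_lt_d9]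

theorem core_gw_le {a : ℝ} (ha : 0 < a) (x : E d) : |gw a x| ≤ 2 := by
  by_cases h : gw a x = 0
  · rw [h]; norm_num
  have h1 : ‖x‖ ^ (-((a + 1) * ((d : ℝ) / a))) ≤ 1 :=
    Real.rpow_le_one_of_one_le_of_nonpos (core_gw_supp h).1 (neg_nonpos.2 (by positivity))
  have h2 : 0 ≤ ‖x‖ ^ (-((a + 1) * ((d : ℝ) / a))) := Real.rpow_nonneg (norm_nonneg _) _
  rw [gw, abs_of_nonneg (mul_nonneg (core_tent_nonneg _) h2)]
  nlinarith [core_tent_le (Real.log ‖x‖), core_tent_nonneg (Real.log ‖x‖)]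

theorem core_gw_lip (d : ℕ) (a : ℝ) : ∃ K : ℝ, 0 ≤ K ∧ ∀ x y : E d, 1 / 4 ≤ ‖x‖ → ‖x‖ ≤ 5 →
    1 / 4 ≤ ‖y‖ → ‖y‖ ≤ 5 → |gw a x - gw a y| ≤ K * ‖x - y‖ := by
  set q : ℝ := -((a + 1) * ((d : ℝ) / a)) with hq
  have hne : ∀ r ∈ Icc (1 / 4 : ℝ) 5, r ≠ 0 := fun r hr => by linarith [hr.1]
  have c1 : ContDiffOn ℝ 1 Real.log (Icc (1 / 4 : ℝ) 5) := fun r hr =>
    (Real.contDiffAt_log.2 (hne r hr)).contDiffWithinAt
  have c2 : ContDiffOn ℝ 1 (fun r : ℝ => r ^ q) (Icc (1 / 4 : ℝ) 5) := fun r hr =>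
    (Real.contDiffAt_rpow_const_of_ne (hne r hr)).contDiffWithinAt
  obtain ⟨K₁, h1⟩ := c1.exists_lipschitzOnWith one_ne_zero (convex_Icc _ _) isCompact_Icc
  obtain ⟨K₂, h2⟩ := c2.exists_lipschitzOnWith one_ne_zero (convex_Icc _ _) isCompact_Icc
  obtain ⟨M, hM⟩ := isCompact_Icc.exists_bound_of_continuousOn c2.continuousOn
  have hM0 : 0 ≤ M := (norm_nonneg _).trans (hM 1 (by norm_num))
  refine ⟨4 * K₁ * M + 2 * K₂, by positivity, fun x y hx hx' hy hy' => ?_⟩
  have e1 := h1.dist_le_mul ‖x‖ ⟨hx, hx'⟩ ‖y‖ ⟨hy, hy'⟩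
  have e2 := h2.dist_le_mul ‖x‖ ⟨hx, hx'⟩ ‖y‖ ⟨hy, hy'⟩
  have e3 := hM ‖x‖ ⟨hx, hx'⟩
  simp only [Real.dist_eq, Real.norm_eq_abs] at e1 e2 e3
  have e4 := abs_norm_sub_norm_le x y
  have e5 : |tent (Real.log ‖x‖) - tent (Real.log ‖y‖)| ≤ 4 * (K₁ * ‖x - y‖) :=
    (core_tent_lip _ _).trans (mul_le_mul_of_nonneg_left
      (e1.trans (mul_le_mul_of_nonneg_left e4 K₁.2)) (by norm_num))
  have e6 : |‖x‖ ^ q - ‖y‖ ^ q| ≤ K₂ * ‖x - y‖ := e2.trans (mul_le_mul_of_nonneg_left e4 K₂.2)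
  have e7 : |tent (Real.log ‖y‖)| ≤ 2 := by
    rw [abs_of_nonneg (core_tent_nonneg _)]; exact core_tent_le _
  calc |gw a x - gw a y| = |(tent (Real.log ‖x‖) - tent (Real.log ‖y‖)) * ‖x‖ ^ q +
        tent (Real.log ‖y‖) * (‖x‖ ^ q - ‖y‖ ^ q)| := by rw [gw, gw, ← hq]; congr 1; ring
    _ ≤ 4 * (K₁ * ‖x - y‖) * M + 2 * (K₂ * ‖x - y‖) := by
        refine (abs_add_le _ _).trans (add_le_add ?_ ?_)
        · rw [abs_mul]; exact mul_le_mul e5 e3 (abs_nonneg _) (by positivity)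
        · rw [abs_mul]; exact mul_le_mul e7 e6 (abs_nonneg _) (by norm_num)
    _ = _ := by ring

theorem core_ann_closed : IsClosed (Ann d) :=
  (isClosed_le continuous_const continuous_norm).inter
    (isClosed_le continuous_norm continuous_const)

theorem core_ann_compact : IsCompact (Ann d) :=
  (isCompact_closedBall (0 : E d) 4).of_isClosed_subset core_ann_closed fun _ hx =>
    mem_closedBall_zero_iff.2 hx.2

theorem core_int_le {V : E d → E d} {e : ℝ} (he : 0 ≤ e) (hV : ContinuousOn V (Ann d))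
    (h : ∫⁻ x in Ann d, ‖V x‖ₑ ≤ ENNReal.ofReal e) :
    IntegrableOn (fun x => ‖V x‖) (Ann d) ∧ ∫ x in Ann d, ‖V x‖ ≤ e := by
  refine ⟨hV.norm.integrableOn_compact core_ann_compact, ?_⟩
  rw [integral_norm_eq_lintegral_enorm (hV.aestronglyMeasurable core_ann_closed.measurableSet)]
  exact ENNReal.toReal_le_of_le_ofReal he h

theorem core_shift {x v : E d} (hx : x ∈ Ann d) (hv : ‖v‖ ≤ 1 / 8) :
    1 / 4 ≤ ‖x + v‖ ∧ ‖x + v‖ ≤ 5 := by
  have h1 := norm_add_le x v
  have h2 := norm_sub_le (x + v) v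
  rw [add_sub_cancel_right] at h2
  constructor <;> linarith [hx.1, hx.2]

theorem core_integrable {S : Set (E d)} (hS : MeasurableSet S) (hA : S ⊆ Ann d) {φ : E d → ℝ}
    {B : ℝ} (hm : AEMeasurable φ (volume.restrict S)) (hb : ∀ x ∈ S, |φ x| ≤ B) :
    Integrable (S.indicator φ) := by
  rw [integrable_indicator_iff hS]
  exact IntegrableOn.of_bound ((measure_mono hA).trans_lt core_ann_compact.measure_lt_top)
    hm.aestronglyMeasurable B ((ae_restrict_iff' hS).2 (Filter.Eventually.of_forall hb))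

theorem sCore (hV : S_CV) : S_Core := by
  intro d a ha
  obtain ⟨C, hC, hCV⟩ := hV d
  obtain ⟨K, hK, hlip⟩ := core_gw_lip d a
  refine ⟨4 * C + 16 + K, by positivity, ?_⟩
  intro Θ N L w w' e₁ e₂ hN hL he₁ he₂ hΘ hΘN hint hw hG hd hΘL
  obtain ⟨F, hFA, hFm, hFv, hF8, hFH⟩ := hCV w' e₁ he₁ hG
  have hAm : MeasurableSet (Ann d) := core_ann_closed.measurableSet
  have hw' : ContinuousOn w' (Ann d) := fun x hx => (hG.1 x hx).continuousAt.continuousWithinAt
  have hSA : Fs w ⊆ Ann d := fun x hx => hx.1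
  have hSm : MeasurableSet (Fs w) :=
    (hw.norm.preimage_isClosed_of_isClosed core_ann_closed isClosed_Iic).measurableSet
  have hHm : Measurable fun y : E d => gw a y * Θ y := (core_gw_meas a).mul hΘ
  have hHb : ∀ y : E d, |gw a y * Θ y| ≤ 2 * N := by
    intro y
    by_cases h : gw a y = 0
    · rw [h, zero_mul, abs_zero]; positivity
    · obtain ⟨h1, h2⟩ := core_gw_supp h
      rw [abs_mul]
      exact mul_le_mul (core_gw_le ha y) (hΘN y (by linarith) (by linarith)) (abs_nonneg _)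
        (by norm_num)
  have h1 := hFH (fun y => gw a y * Θ y) (2 * N) hHm hHb
    (fun y hy => core_gw_supp (left_ne_zero_of_mul hy)) hint
  set φ : E d → ℝ := fun x => gw a x * Θ (x + w x) with hφ
  set ψ : E d → ℝ := fun x => gw a (x + w' x) * Θ (x + w' x) with hψ
  have hφb : ∀ x ∈ Fs w, |φ x| ≤ 2 * N := fun x hx => by
    obtain ⟨h2, h3⟩ := core_shift hx.1 hx.2
    rw [hφ, abs_mul]
    exact mul_le_mul (core_gw_le ha x) (hΘN _ h2 h3) (abs_nonneg _) (by norm_num)
  have hφi : Integrable ((Fs w).indicator φ) := core_integrable hSm hSA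
    ((core_gw_meas a).aemeasurable.mul (hΘ.comp_aemeasurable
      ((continuousOn_id.add (hw.mono hSA)).aemeasurable hSm))) hφb
  have hψi : Integrable (F.indicator ψ) := core_integrable hFm hFA
    (hHm.comp_aemeasurable ((continuousOn_id.add (hw'.mono hFA)).aemeasurable hFm))
    fun x _ => hHb _
  obtain ⟨i1, j1⟩ := core_int_le he₁ hw' hG.2.1
  obtain ⟨i2, j2⟩ := core_int_le (V := fun x => w x - w' x) he₂ (hw.sub hw') hd
  have hDm : MeasurableSet (Ann d \ F) := hAm.diff hFm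
  have i0 : Integrable ((Ann d \ F).indicator fun _ => 2 * N) :=
    core_integrable hDm sdiff_subset aemeasurable_const fun _ _ => le_rfl
  have i3 : IntegrableOn (fun x => (16 + K) * N * ‖w' x‖ + (16 * N + 2 * L) * ‖w x - w' x‖)
      (Ann d) := (i1.const_mul _).add (i2.const_mul _)
  have hb : ∀ x, ‖(Fs w).indicator φ x - F.indicator ψ x‖ ≤
      (Ann d \ F).indicator (fun _ => 2 * N) x + (Ann d).indicator
        (fun x => (16 + K) * N * ‖w' x‖ + (16 * N + 2 * L) * ‖w x - w' x‖) x := by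
    intro x
    have p1 : 0 ≤ N * ‖w' x‖ := by positivity
    have p2 : 0 ≤ N * ‖w x - w' x‖ := by positivity
    have p3 : 0 ≤ L * ‖w x - w' x‖ := by positivity
    have p4 : 0 ≤ K * N * ‖w' x‖ := by positivity
    rw [Real.norm_eq_abs]
    by_cases hx : x ∈ Fs w <;> by_cases hx' : x ∈ F
    · rw [indicator_of_mem hx, indicator_of_mem hx', indicator_of_notMem (fun h => h.2 hx'),
        indicator_of_mem hx.1]
      obtain ⟨h2, h3⟩ := core_shift hx.1 (hF8 x hx')
      have h4 := hlip x (x + w' x) (by linarith [hx.1.1]) (by linarith [hx.1.2]) h2 h3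
      rw [sub_add_cancel_left, norm_neg] at h4
      have h5 : |φ x - ψ x| ≤ 2 * (L * ‖w x - w' x‖) + K * ‖w' x‖ * N := by
        rw [show φ x - ψ x = gw a x * (Θ (x + w x) - Θ (x + w' x)) +
          (gw a x - gw a (x + w' x)) * Θ (x + w' x) by simp only [hφ, hψ]; ring]
        refine (abs_add_le _ _).trans (add_le_add ?_ ?_)
        · rw [abs_mul]
          exact mul_le_mul (core_gw_le ha x) (hΘL x hx.1 hx.2 (hF8 x hx')) (abs_nonneg _)
            (by norm_num)
        · rw [abs_mul]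
          exact mul_le_mul h4 (hΘN _ h2 h3) (abs_nonneg _) (by positivity)
      nlinarith
    · rw [indicator_of_mem hx, indicator_of_notMem hx',
        indicator_of_mem (mem_sdiff_of_mem hx.1 hx'), indicator_of_mem hx.1, sub_zero]
      nlinarith [hφb x hx]
    · rw [indicator_of_notMem hx, indicator_of_mem hx', indicator_of_notMem (fun h => h.2 hx'),
        indicator_of_mem (hFA hx'), zero_sub, abs_neg]
      have h2 : 1 / 8 < ‖w x‖ := not_le.1 fun h => hx ⟨hFA hx', h⟩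
      have h3 := norm_add_le (w' x) (w x - w' x)
      rw [add_sub_cancel] at h3
      have h4 : N * (1 / 8) ≤ N * (‖w' x‖ + ‖w x - w' x‖) :=
        mul_le_mul_of_nonneg_left (by linarith) hN
      have h5 : |ψ x| ≤ 2 * N := hHb _
      nlinarith
    · rw [indicator_of_notMem hx, indicator_of_notMem hx', sub_zero, abs_zero]
      exact add_nonneg (indicator_nonneg (fun _ _ => by positivity) x)
        (indicator_nonneg (fun _ _ => by positivity) x)
  have h2 := norm_integral_le_of_norm_le (i0.add ((integrable_indicator_iff hAm).2 i3))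
    (Filter.Eventually.of_forall hb)
  rw [integral_sub hφi hψi, integral_indicator hSm, integral_indicator hFm, Real.norm_eq_abs] at h2
  simp only [Pi.add_apply] at h2
  rw [integral_add i0 ((integrable_indicator_iff hAm).2 i3), integral_indicator hDm,
    integral_indicator hAm, integral_add (i1.const_mul _) (i2.const_mul _), setIntegral_const,
    integral_const_mul, integral_const_mul, smul_eq_mul] at h2
  have h3 : (volume : Measure (E d)).real (Ann d \ F) ≤ C * e₁ :=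
    ENNReal.toReal_le_of_le_ofReal (by positivity) hFv
  have h4 := mul_le_mul_of_nonneg_right h3 (by positivity : 0 ≤ 2 * N)
  have h5 := mul_le_mul_of_nonneg_left j1 (by positivity : 0 ≤ (16 + K) * N)
  have h6 := mul_le_mul_of_nonneg_left j2 (by positivity : 0 ≤ 16 * N + 2 * L)
  have h7 := abs_add_le ((∫ x in Fs w, φ x) - ∫ x in F, ψ x) (∫ x in F, ψ x)
  rw [sub_add_cancel] at h7
  have p1 : 0 ≤ C * (N * e₂) := by positivity
  have p2 : 0 ≤ K * (N * e₂) := by positivity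
  have p3 : 0 ≤ C * (L * e₂) := by positivity
  have p4 : 0 ≤ K * (L * e₂) := by positivity
  have p5 : 0 ≤ L * e₂ := by positivity
  nlinarith

end Pool.Agent.MP_40db9a_an.H47
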