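import Pool.Agent.MP_40db9a_an.H47.Spec

/-! A finite decomposition of Calderon-Zygmund type for continuous functions of compact support. -/

open MeasureTheory Set Metric

namespace Pool.Agent.MP_40db9a_an.H47

variable {d : ℕ}

/-- the volume of the unit ball -/
noncomputable def dec_om (d : ℕ) : ℝ := (volume : Measure (E d)).real (closedBall 0 1)

theorem dec_om_pos (d : ℕ) : 0 < dec_om d :=
  ENNReal.toReal_pos (measure_closedBall_pos volume _ one_pos).ne' measure_closedBall_lt_top.ne

theorem dec_vol (x : E d) {r : ℝ} (hr : 0 ≤ r) :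
    (volume : Measure (E d)).real (closedBall x r) = r ^ d * dec_om d := by
  rw [Measure.addHaar_real_closedBall' volume x hr, finrank_euclideanSpace_fin, dec_om]

theorem dec_sum {n : ℕ} {P : Fin n → Set (E d)} (hm : ∀ i, MeasurableSet (P i))
    (hd : Pairwise (Function.onFun Disjoint P)) {h : E d → ℝ} (hi : Integrable h)
    (h0 : ∀ x, 0 ≤ h x) : ∑ i, ∫ x in P i, h x ≤ ∫ x, h x := by
  rw [← integral_iUnion_fintype hm hd fun _ => hi.integrableOn]
  exact setIntegral_le_integral hi (Filter.Eventually.of_forall h0)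

theorem dec_one {n : ℕ} {P : Fin n → Set (E d)} (hd : Pairwise (Function.onFun Disjoint P))
    (f : Fin n → E d → ℝ) {x : E d} {j : Fin n} (hx : x ∈ P j) :
    ∑ i, (P i).indicator (f i) x = f j x := by
  rw [Finset.sum_eq_single j, indicator_of_mem hx]
  · intro i _ hij
    exact indicator_of_notMem (fun h => Set.disjoint_left.1 (hd hij) h hx) _
  · intro h
    exact absurd (Finset.mem_univ j) h

theorem dec_none {n : ℕ} {P : Fin n → Set (E d)} (f : Fin n → E d → ℝ) {x : E d}
    (hx : ∀ j, x ∉ P j) : ∑ i, (P i).indicator (f i) x = 0 :=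
  Finset.sum_eq_zero fun i _ => indicator_of_notMem (hx i) _

/-- the stopping radius -/
theorem dec_rad (hd : 1 ≤ d) {g : E d → ℝ} (hc : Continuous g) (hi : Integrable fun x => |g x|)
    {t : ℝ} (ht : 0 < t) {x : E d} (hx : 2 * t ≤ |g x|) :
    ∃ r : ℝ, 0 < r ∧ t * (r ^ d * dec_om d) ≤ ∫ y in closedBall x r, |g y| ∧
      ∫ y in closedBall x (6 * r), |g y| ≤ t * ((6 * r) ^ d * dec_om d) := by
  have ho := dec_om_pos d
  set A : Set ℝ := {r | 0 < r ∧ t * (r ^ d * dec_om d) ≤ ∫ y in closedBall x r, |g y|} with hA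
  have hne : A.Nonempty := by
    have h1 : ∀ᶠ y in nhds x, t < |g y| :=
      (hc.abs.tendsto x).eventually (lt_mem_nhds (by linarith))
    obtain ⟨ε, hε, h2⟩ := nhds_basis_closedBall.eventually_iff.1 h1
    refine ⟨ε, hε, ?_⟩
    rw [← dec_vol x hε.le]
    exact setIntegral_ge_of_const_le_real measurableSet_closedBall measure_closedBall_lt_top.ne
      (fun y hy => (h2 hy).le) hi.integrableOn
  have hb : BddAbove A := by
    refine ⟨max 1 ((∫ y, |g y|) / (t * dec_om d)), fun r hr => ?_⟩
    rcases le_total r 1 with h | h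
    · exact h.trans (le_max_left _ _)
    · refine le_trans ?_ (le_max_right _ _)
      have h1 : r ≤ r ^ d := le_self_pow₀ h (by omega)
      have h2 := hr.2.trans (setIntegral_le_integral (s := closedBall x r) hi
        (Filter.Eventually.of_forall fun y => abs_nonneg _))
      rw [le_div_iff₀ (mul_pos ht ho)]
      nlinarith [mul_pos ht ho]
  obtain ⟨r₀, h0⟩ := id hne
  have hs : 0 < sSup A := h0.1.trans_le (le_csSup hb h0)
  obtain ⟨r, hr, h1⟩ := exists_lt_of_lt_csSup hne (show sSup A / 2 < sSup A by linarith)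
  refine ⟨r, hr.1, hr.2, le_of_not_gt fun h => ?_⟩
  have h2 : 6 * r ≤ sSup A := le_csSup hb ⟨by linarith [hr.1], h.le⟩
  linarith

/-- the finite family of balls -/
theorem dec_fam (hd : 1 ≤ d) {g : E d → ℝ} (hc : Continuous g) (hs : HasCompactSupport g)
    {t : ℝ} (ht : 0 < t) :
    ∃ (n : ℕ) (c : Fin n → E d) (r : Fin n → ℝ),
      (∀ i, g (c i) ≠ 0 ∧ 0 < r i ∧
        t * (r i ^ d * dec_om d) ≤ ∫ y in closedBall (c i) (r i), |g y| ∧
        ∫ y in closedBall (c i) (6 * r i), |g y| ≤ t * ((6 * r i) ^ d * dec_om d)) ∧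
      Pairwise (Function.onFun Disjoint fun i => closedBall (c i) (r i)) ∧
      ∀ x, 2 * t ≤ |g x| → ∃ i, x ∈ closedBall (c i) (6 * r i) := by
  have hi : Integrable fun x => |g x| := (hc.integrable_of_hasCompactSupport hs).abs
  have hne : ∀ x, 2 * t ≤ |g x| → g x ≠ 0 := fun x hx h => by
    rw [h, abs_zero] at hx; linarith
  have hK : IsCompact {x | 2 * t ≤ |g x|} :=
    hs.isCompact.of_isClosed_subset (isClosed_le continuous_const hc.abs)
      fun x hx => subset_tsupport g (hne x hx)
  choose! ρ hρ using fun x (hx : 2 * t ≤ |g x|) => dec_rad hd hc hi ht hx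
  obtain ⟨T, hT, hcov⟩ := hK.elim_nhds_subcover (fun x => closedBall x (ρ x))
    fun x hx => closedBall_mem_nhds x (hρ x hx).1
  obtain ⟨R, hR⟩ := (T.finite_toSet.image ρ).bddAbove
  obtain ⟨u, huT, hdis, hen⟩ := Vitali.exists_disjoint_subfamily_covering_enlargement_closedBall
    (T : Set (E d)) id ρ R (fun a ha => hR ⟨a, ha, rfl⟩) 6 (by norm_num)
  obtain ⟨n, c, hr⟩ := (T.finite_toSet.subset huT).fin_embedding
  have hm : ∀ i, c i ∈ u := fun i => hr ▸ mem_range_self i
  refine ⟨n, c, fun i => ρ (c i), fun i => ?_, fun i j hij => ?_, fun x hx => ?_⟩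
  · have h := hT _ (huT (hm i))
    exact ⟨hne _ h, hρ _ h⟩
  · exact hdis (hm i) (hm j) (c.injective.ne hij)
  · obtain ⟨a, ha, hxa⟩ := mem_iUnion₂.1 (hcov hx)
    obtain ⟨b, hb, hab⟩ := hen a ha
    obtain ⟨i, rfl⟩ : b ∈ range c := hr ▸ hb
    exact ⟨i, hab hxa⟩

/-- disjoint pieces -/
theorem dec_dis {n : ℕ} (S : Fin n → Set (E d)) (hm : ∀ i, MeasurableSet (S i)) :
    ∃ Q : Fin n → Set (E d), (∀ i, MeasurableSet (Q i) ∧ Q i ⊆ S i) ∧
      Pairwise (Function.onFun Disjoint Q) ∧ ∀ x i, x ∈ S i → ∃ j, x ∈ Q j := by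
  refine ⟨fun i => S i \ ⋃ j ∈ {j | j < i}, S j, fun i => ⟨(hm i).diff
    (MeasurableSet.biUnion (to_countable _) fun j _ => hm j), sdiff_subset⟩, fun i j hij => ?_,
    fun x i hx => ?_⟩
  · refine Set.disjoint_left.2 fun x hi hj => ?_
    rcases lt_or_gt_of_ne hij with h | h
    · exact hj.2 (mem_biUnion h hi.1)
    · exact hi.2 (mem_biUnion h hj.1)
  · obtain ⟨j, hj, hmin⟩ := exists_min_image {j | x ∈ S j} id (toFinite _) ⟨i, hx⟩
    refine ⟨j, hj, fun h => ?_⟩
    obtain ⟨k, hk, hxk⟩ := mem_iUnion₂.1 h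
    exact absurd (hmin k hxk) (not_le.2 hk)

/-- one atom -/
theorem dec_atom {g : E d → ℝ} (hc : Continuous g) (hs : HasCompactSupport g) {c : E d} {r : ℝ}
    (hr : 0 < r) {Q : Set (E d)} (hQ : MeasurableSet Q) (hS : Q ⊆ closedBall c (6 * r)) {a : ℝ}
    (ha : a * (r ^ d * dec_om d) = ∫ x in Q, g x) {b : E d → ℝ}
    (hb : b = fun x => Q.indicator g x - (closedBall c r).indicator (fun _ => a) x) :
    Atom c (6 * r) b ∧ Integrable b ∧ ∫ x, |b x| ≤ 2 * ∫ x in Q, |g x| := by
  have hg : Integrable g := hc.integrable_of_hasCompactSupport hs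
  have h1 : Integrable (Q.indicator g) := hg.indicator hQ
  have h2 : ∀ a : ℝ, Integrable ((closedBall c r).indicator fun _ : E d => a) := fun a =>
    (integrable_indicator_iff measurableSet_closedBall).2
      (integrableOn_const measure_closedBall_lt_top.ne)
  have hv : 0 < r ^ d * dec_om d := mul_pos (pow_pos hr d) (dec_om_pos d)
  obtain ⟨M, hM⟩ := hc.bounded_above_of_compact_support hs
  have h3 : ∀ x, |b x| ≤ Q.indicator (fun x => |g x|) x +
      (closedBall c r).indicator (fun _ => |a|) x := fun x => by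
    rw [hb]
    refine (abs_sub _ _).trans (add_le_add ?_ ?_)
    · by_cases h : x ∈ Q <;> simp [h]
    · by_cases h : x ∈ closedBall c r
      · rw [indicator_of_mem h, indicator_of_mem h]
      · rw [indicator_of_notMem h, indicator_of_notMem h, abs_zero]
  have h4 : Integrable b := hb ▸ h1.sub (h2 a)
  refine ⟨⟨by linarith, ?_, ⟨M + |a|, fun x => (h3 x).trans (add_le_add ?_ ?_)⟩, fun x hx => ?_,
    ?_⟩, h4, ?_⟩
  · rw [hb]
    exact (hc.measurable.indicator hQ).sub (measurable_const.indicator measurableSet_closedBall)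
  · exact (indicator_le_self' (fun _ _ => abs_nonneg _) x).trans (hM x)
  · exact indicator_le_self' (fun _ _ => abs_nonneg _) x
  · by_contra h
    have h5 : x ∉ closedBall c (6 * r) := fun h' => h (mem_closedBall_iff_norm.1 h')
    apply hx
    rw [hb]
    show Q.indicator g x - (closedBall c r).indicator (fun _ => a) x = 0
    rw [indicator_of_notMem fun h' => h5 (hS h'),
      indicator_of_notMem fun h' => h5 (closedBall_subset_closedBall (by linarith) h'), sub_zero]
  · rw [hb, integral_sub h1 (h2 a), integral_indicator hQ,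
      integral_indicator_const _ measurableSet_closedBall, dec_vol c hr.le, smul_eq_mul, ← ha]
    ring
  · refine (integral_mono h4.abs ((hg.abs.indicator hQ).add (h2 _)) h3).trans ?_
    simp only [Pi.add_apply]
    rw [integral_add (hg.abs.indicator hQ) (h2 _), integral_indicator hQ,
      integral_indicator_const _ measurableSet_closedBall, dec_vol c hr.le, smul_eq_mul]
    have h6 : |a| * (r ^ d * dec_om d) ≤ ∫ x in Q, |g x| := by
      rw [← abs_of_pos hv, ← abs_mul, ha]
      exact abs_integral_le_integral_abs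
    linarith

theorem sDec : S_Dec := by
  intro d hd
  have ho := dec_om_pos d
  have h6 : (0 : ℝ) < 6 ^ d := by positivity
  have h7 : 0 < 6 ^ d / dec_om d := div_pos h6 ho
  refine ⟨3 + 6 ^ d + 6 ^ d / dec_om d, by positivity, fun g hc hs t ht => ?_⟩
  have hg : Integrable g := hc.integrable_of_hasCompactSupport hs
  have hI : 0 ≤ ∫ x, |g x| := integral_nonneg fun x => abs_nonneg _
  obtain ⟨n, c, r, hr, hdis, hcov⟩ := dec_fam hd hc hs ht
  obtain ⟨Q, hQ, hQd, hQc⟩ := dec_dis (fun i => closedBall (c i) (6 * r i))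
    fun _ => measurableSet_closedBall
  have hv : ∀ i, 0 < r i ^ d * dec_om d := fun i => mul_pos (pow_pos (hr i).2.1 d) ho
  obtain ⟨a, ha⟩ : ∃ a : Fin n → ℝ, ∀ i, a i * (r i ^ d * dec_om d) = ∫ x in Q i, g x :=
    ⟨fun i => (∫ x in Q i, g x) / (r i ^ d * dec_om d), fun i => div_mul_cancel₀ _ (hv i).ne'⟩
  obtain ⟨b, hb⟩ : ∃ b : Fin n → E d → ℝ, ∀ i, b i = fun x =>
      (Q i).indicator g x - (closedBall (c i) (r i)).indicator (fun _ => a i) x :=
    ⟨_, fun _ => rfl⟩
  have hA := fun i => dec_atom hc hs (hr i).2.1 (hQ i).1 (hQ i).2 (ha i) (hb i)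
  have ha' : ∀ i, |a i| ≤ 6 ^ d * t := fun i => by
    refine le_of_mul_le_mul_right ?_ (hv i)
    have h1 : |a i| * (r i ^ d * dec_om d) ≤ ∫ x in Q i, |g x| := by
      rw [← abs_of_pos (hv i), ← abs_mul, ha]
      exact abs_integral_le_integral_abs
    have h2 : ∫ x in Q i, |g x| ≤ ∫ x in closedBall (c i) (6 * r i), |g x| :=
      setIntegral_mono_set hg.abs.integrableOn
        (Filter.Eventually.of_forall fun x => abs_nonneg _) (hQ i).2.eventuallyLE
    refine (h1.trans (h2.trans (hr i).2.2.2)).trans_eq ?_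
    rw [mul_pow]; ring
  have hsum : ∑ i, ∫ x, |b i x| ≤ 2 * ∫ x, |g x| := by
    refine (Finset.sum_le_sum fun i _ => (hA i).2.2).trans ?_
    rw [← Finset.mul_sum]
    exact mul_le_mul_of_nonneg_left
      (dec_sum (fun i => (hQ i).1) hQd hg.abs fun x => abs_nonneg _) zero_le_two
  refine ⟨n, c, fun i => 6 * r i, b, fun x => g x - ∑ i, b i x, fun x => by ring,
    hc.measurable.sub (Finset.measurable_sum _ fun i _ => (hA i).1.2.1), fun x => ?_, ?_,
    fun x hx => ?_, fun i => ⟨(hr i).1, (hA i).1⟩, ?_, ?_⟩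
  · have e : g x - ∑ i, b i x = (g x - ∑ i, (Q i).indicator g x) +
        ∑ i, (closedBall (c i) (r i)).indicator (fun _ => a i) x := by
      simp only [hb, Finset.sum_sub_distrib]; ring
    have h1 : |g x - ∑ i, (Q i).indicator g x| ≤ 2 * t := by
      by_cases h : ∃ j, x ∈ Q j
      · obtain ⟨j, hj⟩ := h
        rw [dec_one hQd (fun _ => g) hj, sub_self, abs_zero]; linarith
      · rw [dec_none (fun _ => g) (not_exists.1 h), sub_zero]
        refine le_of_not_ge fun h' => ?_
        obtain ⟨i, hi⟩ := hcov x h'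
        exact h (hQc x i hi)
    have h2 : |∑ i, (closedBall (c i) (r i)).indicator (fun _ => a i) x| ≤ 6 ^ d * t := by
      by_cases h : ∃ j, x ∈ closedBall (c j) (r j)
      · obtain ⟨j, hj⟩ := h
        rw [dec_one hdis (fun i _ => a i) hj]
        exact ha' j
      · rw [dec_none (fun i _ => a i) (not_exists.1 h), abs_zero]
        positivity
    show |g x - ∑ i, b i x| ≤ _
    rw [e]
    refine (abs_add_le _ _).trans ?_
    nlinarith [mul_pos h7 ht]
  · have h1 : Integrable fun x => ∑ i, |b i x| :=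
      integrable_finsetSum _ fun i _ => (hA i).2.1.abs
    have h2 : ∫ x, |g x - ∑ i, b i x| ≤ ∫ x, (|g x| + ∑ i, |b i x|) :=
      integral_mono (hg.sub (integrable_finsetSum _ fun i _ => (hA i).2.1)).abs (hg.abs.add h1)
        fun x => (abs_sub _ _).trans (add_le_add le_rfl (Finset.abs_sum_le_sum_abs _ _))
    rw [integral_add hg.abs h1, integral_finsetSum _ fun i _ => (hA i).2.1.abs] at h2
    nlinarith [mul_nonneg h7.le hI, mul_nonneg h6.le hI]
  · by_contra h
    rw [not_or, not_not, not_exists] at h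
    apply hx
    show g x - ∑ i, b i x = 0
    rw [h.1, Finset.sum_eq_zero fun i _ => by_contra fun h' => h.2 i ((hA i).1.2.2.2.1 x h'),
      sub_zero]
  · nlinarith [mul_nonneg h7.le hI, mul_nonneg h6.le hI]
  · have h1 : ∑ i, t * (r i ^ d * dec_om d) ≤ ∫ x, |g x| :=
      (Finset.sum_le_sum fun i _ => (hr i).2.2.1).trans
        (dec_sum (fun _ => measurableSet_closedBall) hdis hg.abs fun x => abs_nonneg _)
    have h2 : (∑ i, (6 * r i) ^ d) * t = 6 ^ d / dec_om d * ∑ i, t * (r i ^ d * dec_om d) := by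
      rw [Finset.sum_mul, Finset.mul_sum]
      refine Finset.sum_congr rfl fun i _ => ?_
      rw [mul_pow]; field_simp
    rw [le_div_iff₀ ht, h2]
    nlinarith [mul_le_mul_of_nonneg_left h1 h7.le, mul_nonneg h6.le hI]

end Pool.Agent.MP_40db9a_an.H47
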