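import Pool.Agent.MP_40db9a_an.H47.Spec

/-! Decay of the potential of a mean zero function, polar coordinates, bounds on shells. -/

open MeasureTheory Set

namespace Pool.Agent.MP_40db9a_an.H47

theorem decay_pt {d : ℕ} {a C : ℝ} (ha : 0 < a) (hC : 0 < C)
    (hK : ∀ (ρ : ℝ) (u v : E d), 0 < max ‖u‖ ρ → 0 < max ‖v‖ ρ → ‖Kc a ρ u - Kc a ρ v‖ ≤
      C * ‖u - v‖ * ((max ‖u‖ ρ) ^ (-(a + 1)) + (max ‖v‖ ρ) ^ (-(a + 1))))
    {R : ℝ} (hR : 0 < R) {x z : E d} (hx : 2 * R ≤ ‖x‖) (hz : ‖z‖ ≤ R) :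
    ‖Kr a (x - z) - Kr a x‖ ≤ C * (2 ^ (a + 1) + 1) * R * ‖x‖ ^ (-(a + 1)) := by
  have h0 : 0 < ‖x‖ := by linarith
  have h1 : ‖x‖ / 2 ≤ ‖x - z‖ := by linarith [norm_sub_norm_le x z]
  have h2 := hK 0 (x - z) x (by rw [max_eq_left (norm_nonneg _)]; linarith)
    (by rw [max_eq_left (norm_nonneg _)]; exact h0)
  rw [Kc_zero, max_eq_left (norm_nonneg _), max_eq_left (norm_nonneg _), sub_sub_cancel_left,
    norm_neg] at h2
  have h3 : ‖x - z‖ ^ (-(a + 1)) ≤ 2 ^ (a + 1) * ‖x‖ ^ (-(a + 1)) := by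
    refine (Real.rpow_le_rpow_of_nonpos (half_pos h0) h1 (by linarith)).trans_eq ?_
    rw [Real.div_rpow h0.le zero_le_two, Real.rpow_neg zero_le_two, div_inv_eq_mul, mul_comm]
  have h4 : 0 ≤ ‖x‖ ^ (-(a + 1)) := Real.rpow_nonneg h0.le _
  have h5 : (0 : ℝ) ≤ 2 ^ (a + 1) := Real.rpow_nonneg zero_le_two _
  calc _ ≤ _ := h2
    _ ≤ C * R * (2 ^ (a + 1) * ‖x‖ ^ (-(a + 1)) + ‖x‖ ^ (-(a + 1))) := by gcongr
    _ = _ := by ring

theorem sDecay (hI : S_Int) (hC : S_Conv) (hK : S_Ker) : S_Decay := by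
  intro d a ha had
  obtain ⟨C, C0, hK1, -⟩ := hK d a ha
  obtain ⟨c1, c2⟩ := hC d
  have li : LocallyIntegrable (Kr a : E d → E d) := Kc_zero (d := d) a ▸ c1 a 0 ha had le_rfl
  have C1 : 0 < C * (2 ^ (a + 1) + 1) := by positivity
  have key : ∀ (f : E d → ℝ) (R : ℝ), Continuous f → HasCompactSupport f → 0 < R →
      (∀ x, f x ≠ 0 → ‖x‖ ≤ R) → ∫ x, f x = 0 → ∀ x, 2 * R ≤ ‖x‖ →
        ‖conv (Kr a) f x‖ ≤ C * (2 ^ (a + 1) + 1) * R * ‖x‖ ^ (-(a + 1)) * ∫ z, |f z| := by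
    intro f R hf hs hR hb h0 x hx
    have i1 := ((c2 _ li).2 f hf hs).1 x
    have i2 : Integrable f := hf.integrable_of_hasCompactSupport hs
    have e : conv (Kr a) f x = ∫ z, f z • (Kr a (x - z) - Kr a x) := by
      simp only [smul_sub]
      rw [integral_sub i1 (i2.smul_const _), integral_smul_const, h0, zero_smul, sub_zero]
      rfl
    rw [e, ← integral_const_mul]
    refine norm_integral_le_of_norm_le (i2.abs.const_mul _) (ae_of_all _ fun z => ?_)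
    rw [norm_smul, Real.norm_eq_abs, mul_comm]
    by_cases hz : f z = 0
    · simp [hz]
    · exact mul_le_mul_of_nonneg_right (decay_pt ha C0 hK1 hR hx (hb z hz)) (abs_nonneg _)
  refine ⟨⟨_, C1, key⟩, fun f hf hs h0 => ?_⟩
  obtain ⟨R, hR, hb⟩ := hs.exists_pos_le_norm
  have hd : (0 : ℝ) < d := ha.trans had
  have p0 : 0 < (d : ℝ) / a := div_pos hd ha
  have ct : Continuous fun x => ‖conv (Kr a) f x‖ ^ ((d : ℝ) / a) :=
    ((c2 _ li).2 f hf hs).2.1.norm.rpow_const fun _ => Or.inr p0.le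
  have hb1 : (d : ℝ) < (a + 1) * (d / a) := by
    rw [add_mul, mul_div_cancel₀ _ ha.ne', one_mul]; linarith
  obtain ⟨D, -, hD, -⟩ := (hI d (Nat.cast_pos.1 hd) _ (hd.trans hb1)).2 hb1
  have hD1 := hD 0 (2 * R) (by positivity)
  simp only [sub_zero] at hD1
  have ms : MeasurableSet {x : E d | 2 * R ≤ ‖x‖} :=
    (isClosed_le continuous_const continuous_norm).measurableSet
  have i1 : IntegrableOn (fun x : E d => ‖x‖ ^ (-((a + 1) * (d / a)))) {x | 2 * R ≤ ‖x‖} :=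
    ⟨(measurable_norm.pow_const _).aestronglyMeasurable,
      (hasFiniteIntegral_iff_ofReal (ae_of_all _ fun x => Real.rpow_nonneg (norm_nonneg _) _)).2
        (hD1.trans_lt ENNReal.ofReal_lt_top)⟩
  have i2 : IntegrableOn (fun x => ‖conv (Kr a) f x‖ ^ ((d : ℝ) / a)) {x | 2 * R ≤ ‖x‖} := by
    refine Integrable.mono' (i1.const_mul
      ((C * (2 ^ (a + 1) + 1) * R * ∫ z, |f z|) ^ ((d : ℝ) / a))) ct.aestronglyMeasurable ?_
    refine (ae_restrict_iff' ms).2 (ae_of_all _ fun x hx => ?_)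
    have m0 : 0 ≤ ∫ z, |f z| := integral_nonneg fun _ => abs_nonneg _
    have h1 := key f R hf hs hR (fun z hz => le_of_not_ge fun h => hz (hb z h)) h0 x hx
    rw [Real.norm_of_nonneg (Real.rpow_nonneg (norm_nonneg _) _), ← neg_mul,
      Real.rpow_mul (norm_nonneg _), ← Real.mul_rpow (by positivity)
        (Real.rpow_nonneg (norm_nonneg _) _)]
    exact Real.rpow_le_rpow (norm_nonneg _) (h1.trans_eq (by ring)) p0.le
  have i3 := ct.continuousOn.integrableOn_compact (μ := volume)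
    (isCompact_closedBall (0 : E d) (2 * R))
  rw [← integrableOn_univ]
  refine (i2.union i3).mono_set fun x _ => ?_
  rcases le_total (2 * R) ‖x‖ with h | h
  · exact Or.inl h
  · exact Or.inr (mem_closedBall_zero_iff.2 h)

theorem sPolar : S_Polar := by
  intro d hd p N Φ _ hΦ _ h B r₁ r₂ _ _ _ _
  have : Nonempty (Fin d) := ⟨⟨0, hd⟩⟩
  have e1 : ∫ y, h ‖y‖ * Φ y =
      ∫ y : ({0}ᶜ : Set (E d)), h ‖y.1‖ * Φ y.1 ∂((volume : Measure (E d)).comap (↑)) := by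
    rw [integral_subtype_comap (measurableSet_singleton _).compl fun y => h ‖y‖ * Φ y,
      restrict_compl_singleton]
  have e2 := (volume : Measure (E d)).measurePreserving_homeomorphUnitSphereProd.integral_comp
    (Homeomorph.measurableEmbedding _)
    fun q : Metric.sphere (0 : E d) 1 × Ioi (0 : ℝ) => Φ q.1 * (h q.2 * q.2.1 ^ p)
  rw [integral_prod_mul (fun θ : Metric.sphere (0 : E d) 1 => Φ θ)
    fun r : Ioi (0 : ℝ) => h r * r.1 ^ p] at e2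
  have e3 : ∫ r : Ioi (0 : ℝ), h r * r.1 ^ p ∂(Measure.volumeIoiPow (Module.finrank ℝ (E d) - 1)) =
      ∫ r in Ioi (0 : ℝ), h r * r ^ (p + d - 1) := by
    simp only [Measure.volumeIoiPow, ENNReal.ofReal]
    rw [integral_withDensity_eq_integral_smul (measurable_subtype_coe.pow_const _).real_toNNReal,
      integral_subtype_comap measurableSet_Ioi
        fun r => Real.toNNReal (r ^ (Module.finrank ℝ (E d) - 1)) • (h r * r ^ p)]
    refine setIntegral_congr_fun measurableSet_Ioi fun r hr => ?_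
    have r0 : 0 < r := hr
    rw [NNReal.smul_def, Real.coe_toNNReal _ (pow_nonneg r0.le _), finrank_euclideanSpace_fin,
      smul_eq_mul, ← Real.rpow_natCast, Nat.cast_sub hd, Nat.cast_one, add_sub_assoc,
      Real.rpow_add r0]
    ring
  rw [e1, ← e3, mul_comm, ← e2]
  refine integral_congr_ae (ae_of_all _ fun y => ?_)
  have y0 : 0 < ‖y.1‖ := norm_pos_iff.2 y.2
  have := hΦ _ y0 (‖y.1‖⁻¹ • y.1)
  rw [smul_inv_smul₀ y0.ne'] at this
  simp only [homeomorphUnitSphereProd_apply_fst_coe, homeomorphUnitSphereProd_apply_snd_coe]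
  rw [this]
  ring

theorem decay_lip {p s t : ℝ} (hp : 1 ≤ p) (hs : s ∈ Icc (0 : ℝ) 5) (ht : t ∈ Icc (0 : ℝ) 5) :
    |s ^ p - t ^ p| ≤ p * 5 ^ (p - 1) * |s - t| := by
  refine (convex_Icc (0 : ℝ) 5).norm_image_sub_le_of_norm_hasDerivWithin_le
    (f := fun x => x ^ p) (f' := fun x => p * x ^ (p - 1))
    (fun x _ => (Real.hasDerivAt_rpow_const (Or.inr hp)).hasDerivWithinAt) (fun x hx => ?_) ht hs
  rw [Real.norm_of_nonneg (mul_nonneg (by linarith) (Real.rpow_nonneg hx.1 _))]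
  exact mul_le_mul_of_nonneg_left (Real.rpow_le_rpow hx.1 hx.2 (by linarith)) (by linarith)

theorem decay_dir {d : ℕ} {u v : E d} (hu : 1 / 4 ≤ ‖u‖) (hv : 1 / 4 ≤ ‖v‖) :
    ‖‖u‖⁻¹ • u - ‖v‖⁻¹ • v‖ ≤ 8 * ‖u - v‖ := by
  have u0 : 0 < ‖u‖ := by linarith
  have v0 : 0 < ‖v‖ := by linarith
  have e : ‖u‖⁻¹ • u - ‖v‖⁻¹ • v = ‖u‖⁻¹ • ((u - v) + (‖v‖ - ‖u‖) • ‖v‖⁻¹ • v) := by
    rw [sub_smul, smul_inv_smul₀ v0.ne', sub_add_sub_cancel, smul_sub, inv_smul_smul₀ u0.ne']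
  have h1 : ‖(‖v‖ - ‖u‖) • ‖v‖⁻¹ • v‖ ≤ ‖u - v‖ := by
    rw [norm_smul, norm_smul, norm_inv, norm_norm, inv_mul_cancel₀ v0.ne', mul_one, norm_sub_rev u]
    exact abs_norm_sub_norm_le v u
  have h2 : ‖u‖⁻¹ ≤ 4 := inv_le_of_inv_le₀ (by norm_num) (by linarith)
  rw [e, norm_smul, norm_inv, norm_norm]
  calc _ ≤ 4 * (‖u - v‖ + ‖u - v‖) := by
        gcongr
        exact (norm_add_le _ _).trans (by linarith)
    _ = _ := by ring

theorem sShell : S_Shell := by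
  intro d p β N Φ hp b0 b1 hΦ hH
  have z0 : Φ 0 = 0 := by
    have h1 := hΦ 2 two_pos 0
    have h2 : (1 : ℝ) < 2 ^ p := Real.one_lt_rpow one_lt_two (by linarith)
    rw [smul_zero] at h1
    by_contra h
    exact h2.ne (mul_right_cancel₀ h ((one_mul _).trans h1))
  have hH' : ∀ u v : E d, ‖u‖ = 1 → ‖v‖ = 1 → |Φ u - Φ v| ≤ |N| * ‖u - v‖ ^ β := fun u v hu hv =>
    (hH u v hu hv).trans (mul_le_mul_of_nonneg_right (le_abs_self N)
      (Real.rpow_nonneg (norm_nonneg _) _))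
  have pw : ∀ r c : ℝ, 0 ≤ r → r ≤ c → 1 ≤ c → ∀ b : ℝ, 0 ≤ b → b ≤ 1 → r ^ b ≤ c :=
    fun r c r0 rc c1 b h0 h1 => (Real.rpow_le_rpow r0 rc h0).trans
      ((Real.rpow_le_rpow_of_exponent_le c1 h1).trans_eq (Real.rpow_one c))
  obtain ⟨M, M0, hM⟩ : ∃ M : ℝ, 0 ≤ M ∧ ∀ u : E d, ‖u‖ = 1 → |Φ u| ≤ M := by
    by_cases h : ∃ v : E d, ‖v‖ = 1
    · obtain ⟨v, hv⟩ := h
      refine ⟨|N| * 2 + |Φ v|, by positivity, fun u hu => ?_⟩
      have h1 := pw ‖u - v‖ 2 (norm_nonneg _) ((norm_sub_le u v).trans (by linarith))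
        one_le_two β b0 b1
      have h2 := (hH' u v hu hv).trans (mul_le_mul_of_nonneg_left h1 (abs_nonneg N))
      linarith [abs_sub_abs_le_abs_sub (Φ u) (Φ v)]
    · exact ⟨0, le_rfl, fun u hu => absurd ⟨u, hu⟩ h⟩
  have un : ∀ v : E d, 0 < ‖v‖ → ‖‖v‖⁻¹ • v‖ = 1 ∧ Φ v = ‖v‖ ^ p * Φ (‖v‖⁻¹ • v) := fun v hv =>
    ⟨by rw [norm_smul, norm_inv, norm_norm, inv_mul_cancel₀ hv.ne'],
      by rw [← hΦ _ hv, smul_inv_smul₀ hv.ne']⟩
  have bd : ∀ v : E d, |Φ v| ≤ M * ‖v‖ ^ p := fun v => by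
    have h0 : 0 ≤ ‖v‖ ^ p := Real.rpow_nonneg (norm_nonneg _) _
    rcases (norm_nonneg v).eq_or_lt with h | h
    · rw [norm_eq_zero.1 h.symm, z0, abs_zero]; positivity
    · rw [(un v h).2, abs_mul, abs_of_nonneg h0, mul_comm]
      exact mul_le_mul_of_nonneg_right (hM _ (un v h).1) h0
  have q0 : (0 : ℝ) ≤ 5 ^ p := by positivity
  have q1 : 0 ≤ p * 5 ^ (p - 1) := by positivity
  have q2 : 0 ≤ M * 5 ^ p := by positivity
  have q3 : 0 ≤ 5 ^ p * (|N| * 8) + p * 5 ^ (p - 1) * 10 * M := by positivity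
  refine ⟨M + M * 5 ^ p + (5 ^ p * (|N| * 8) + p * 5 ^ (p - 1) * 10 * M), by positivity,
    fun v => (bd v).trans (mul_le_mul_of_nonneg_right (by linarith)
      (Real.rpow_nonneg (norm_nonneg _) _)), fun y hy => ?_, fun u v u1 u2 v1 v2 => ?_⟩
  · have := mul_le_mul_of_nonneg_left (Real.rpow_le_rpow (norm_nonneg y) hy (by linarith : 0 ≤ p))
      M0
    linarith [bd y]
  obtain ⟨a1, a2⟩ := un u (by linarith)
  obtain ⟨c1, c2⟩ := un v (by linarith)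
  have r0 : 0 ≤ ‖u - v‖ ^ β := Real.rpow_nonneg (norm_nonneg _) _
  have h1 : ‖‖u‖⁻¹ • u - ‖v‖⁻¹ • v‖ ^ β ≤ 8 * ‖u - v‖ ^ β := by
    refine (Real.rpow_le_rpow (norm_nonneg _) (decay_dir u1 v1) b0).trans ?_
    rw [Real.mul_rpow (by norm_num) (norm_nonneg _)]
    exact mul_le_mul_of_nonneg_right (pw 8 8 (by norm_num) le_rfl (by norm_num) β b0 b1) r0
  have h2 : ‖u - v‖ ≤ 10 * ‖u - v‖ ^ β := by
    have e : ‖u - v‖ = ‖u - v‖ ^ (1 - β) * ‖u - v‖ ^ β := by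
      rw [← Real.rpow_add' (norm_nonneg _) (by linarith), sub_add_cancel, Real.rpow_one]
    refine e.trans_le (mul_le_mul_of_nonneg_right (pw _ 10 (norm_nonneg _)
      ((norm_sub_le u v).trans (by linarith)) (by norm_num) _ (by linarith) (by linarith)) r0)
  have h3 := (decay_lip hp ⟨norm_nonneg u, u2⟩ ⟨norm_nonneg v, v2⟩).trans
    (mul_le_mul_of_nonneg_left ((abs_norm_sub_norm_le u v).trans h2) q1)
  have h4 := (hH' _ _ a1 c1).trans (mul_le_mul_of_nonneg_left h1 (abs_nonneg N))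
  have h5 : ‖u‖ ^ p ≤ 5 ^ p := Real.rpow_le_rpow (norm_nonneg u) u2 (by linarith)
  have e : Φ u - Φ v = ‖u‖ ^ p * (Φ (‖u‖⁻¹ • u) - Φ (‖v‖⁻¹ • v)) +
      (‖u‖ ^ p - ‖v‖ ^ p) * Φ (‖v‖⁻¹ • v) := by
    linarith
  calc |Φ u - Φ v| ≤ 5 ^ p * (|N| * (8 * ‖u - v‖ ^ β)) +
        p * 5 ^ (p - 1) * (10 * ‖u - v‖ ^ β) * M := by
        rw [e]
        refine (abs_add_le _ _).trans ?_
        rw [abs_mul, abs_mul, abs_of_nonneg (Real.rpow_nonneg (norm_nonneg u) p)]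
        exact add_le_add (mul_le_mul h5 h4 (abs_nonneg _) q0)
          (mul_le_mul h3 (hM _ c1) (abs_nonneg _) (by positivity))
    _ = (5 ^ p * (|N| * 8) + p * 5 ^ (p - 1) * 10 * M) * ‖u - v‖ ^ β := by ring
    _ ≤ _ := mul_le_mul_of_nonneg_right (by linarith) r0

end Pool.Agent.MP_40db9a_an.H47
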