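import Pool.Agent.MP_40db9a_an.H47.Spec

/-!
The determinant to first order, and the `L²` bound for symmetric Jacobians.
-/

open MeasureTheory Set

namespace Pool.Agent.MP_40db9a_an.H47

theorem det_prod {ι : Type} (s : Finset ι) : ∃ C : ℝ, 0 ≤ C ∧ ∀ (a : ι → ℝ) (e : ℝ), 0 ≤ e →
    e ≤ 1 → (∀ i, |a i| ≤ e) → |∏ i ∈ s, (1 + a i) - 1 - ∑ i ∈ s, a i| ≤ C * e ^ 2 := by
  classical
  induction s using Finset.induction_on with
  | empty => exact ⟨0, le_rfl, fun a e _ _ _ => by simp⟩
  | insert j s hj ih =>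
    obtain ⟨C, hC, h⟩ := ih
    refine ⟨2 * C + s.card, by positivity, fun a e h0 h1 ha => ?_⟩
    rw [Finset.prod_insert hj, Finset.sum_insert hj]
    have h2 := h a e h0 h1 ha
    have h3 : |∑ i ∈ s, a i| ≤ s.card * e := by
      refine (Finset.abs_sum_le_sum_abs _ _).trans ?_
      simpa using Finset.sum_le_card_nsmul s (fun i => |a i|) e fun i _ => ha i
    have h4 : |1 + a j| ≤ 2 := by
      have := abs_add_le 1 (a j)
      have := ha j
      rw [abs_one] at *
      linarith
    have e1 : (1 + a j) * ∏ i ∈ s, (1 + a i) - 1 - (a j + ∑ i ∈ s, a i) =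
        (1 + a j) * (∏ i ∈ s, (1 + a i) - 1 - ∑ i ∈ s, a i) + a j * ∑ i ∈ s, a i := by ring
    rw [e1]
    refine (abs_add_le _ _).trans ?_
    rw [abs_mul, abs_mul]
    have h5 : |1 + a j| * |∏ i ∈ s, (1 + a i) - 1 - ∑ i ∈ s, a i| ≤ 2 * (C * e ^ 2) :=
      mul_le_mul h4 h2 (abs_nonneg _) (by norm_num)
    have h6 : |a j| * |∑ i ∈ s, a i| ≤ e * (s.card * e) :=
      mul_le_mul (ha j) h3 (abs_nonneg _) h0
    nlinarith

theorem det_perm {d : ℕ} (M : Matrix (Fin d) (Fin d) ℝ) (e : ℝ) (h0 : 0 ≤ e) (h1 : e ≤ 1)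
    (hM : ∀ i j, |M i j| ≤ e) (σ : Equiv.Perm (Fin d)) (hσ : σ ≠ 1) :
    |∏ i, (1 + M) (σ i) i| ≤ 2 ^ d * e ^ 2 := by
  obtain ⟨i, hi⟩ : ∃ i, σ i ≠ i := by
    by_contra h
    push Not at h
    exact hσ (Equiv.ext h)
  have hj : σ (σ i) ≠ σ i := fun h => hi (σ.injective h)
  have hb : ∀ k, |(1 + M) (σ k) k| ≤ 2 := fun k => by
    rw [Matrix.add_apply]
    refine (abs_add_le _ _).trans ?_
    have h2 : |(1 : Matrix (Fin d) (Fin d) ℝ) (σ k) k| ≤ 1 := by
      rw [Matrix.one_apply]
      split_ifs <;> simp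
    have := hM (σ k) k
    linarith
  have hs : ∀ k, σ k ≠ k → |(1 + M) (σ k) k| ≤ e := fun k hk => by
    rw [Matrix.add_apply, Matrix.one_apply_ne hk, zero_add]
    exact hM _ _
  have hm : σ i ∈ Finset.univ.erase i := Finset.mem_erase.2 ⟨hi, Finset.mem_univ _⟩
  rw [Finset.abs_prod, ← Finset.mul_prod_erase _ _ (Finset.mem_univ i),
    ← Finset.mul_prod_erase _ _ hm]
  have h3 : ∏ k ∈ (Finset.univ.erase i).erase (σ i), |(1 + M) (σ k) k| ≤ 2 ^ d := by
    refine (Finset.prod_le_prod (fun k _ => abs_nonneg _) fun k _ => hb k).trans ?_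
    rw [Finset.prod_const]
    refine pow_le_pow_right₀ (by norm_num) ?_
    simpa using Finset.card_le_univ ((Finset.univ.erase i).erase (σ i))
  have h4 : |(1 + M) (σ (σ i)) (σ i)| * ∏ k ∈ (Finset.univ.erase i).erase (σ i),
      |(1 + M) (σ k) k| ≤ e * 2 ^ d :=
    mul_le_mul (hs _ hj) h3 (Finset.prod_nonneg fun k _ => abs_nonneg _) h0
  refine (mul_le_mul (hs _ hi) h4
    (mul_nonneg (abs_nonneg _) (Finset.prod_nonneg fun k _ => abs_nonneg _)) h0).trans ?_
  exact le_of_eq (by ring)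

theorem det_mat (d : ℕ) : ∃ C : ℝ, 0 < C ∧ ∀ (M : Matrix (Fin d) (Fin d) ℝ) (e : ℝ), 0 ≤ e →
    e ≤ 1 → (∀ i j, |M i j| ≤ e) → |(1 + M).det - 1 - ∑ i, M i i| ≤ C * e ^ 2 := by
  obtain ⟨C, hC, h⟩ := det_prod (Finset.univ : Finset (Fin d))
  refine ⟨C + Fintype.card (Equiv.Perm (Fin d)) * 2 ^ d + 1, by positivity,
    fun M e h0 h1 hM => ?_⟩
  rw [Matrix.det_apply', ← Finset.add_sum_erase _ _ (Finset.mem_univ (1 : Equiv.Perm (Fin d)))]
  have h2 := h (fun i => M i i) e h0 h1 fun i => hM i i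
  have h3 : |∑ σ ∈ Finset.univ.erase (1 : Equiv.Perm (Fin d)),
      ((Equiv.Perm.sign σ : ℤ) : ℝ) * ∏ i, (1 + M) (σ i) i| ≤
      Fintype.card (Equiv.Perm (Fin d)) * (2 ^ d * e ^ 2) := by
    refine (Finset.abs_sum_le_sum_abs _ _).trans ?_
    refine (Finset.sum_le_card_nsmul _ _ (2 ^ d * e ^ 2) fun σ hσ => ?_).trans ?_
    · have hs : |((Equiv.Perm.sign σ : ℤ) : ℝ)| = 1 := by
        rcases Int.units_eq_one_or (Equiv.Perm.sign σ) with e | e <;> simp [e]
      rw [abs_mul, hs, one_mul]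
      exact det_perm M e h0 h1 hM σ (Finset.mem_erase.1 hσ).1
    · rw [nsmul_eq_mul]
      refine mul_le_mul_of_nonneg_right ?_ (by positivity)
      exact_mod_cast Finset.card_le_univ _
  have e1 : ((Equiv.Perm.sign (1 : Equiv.Perm (Fin d)) : ℤ) : ℝ) *
      ∏ i, (1 + M) ((1 : Equiv.Perm (Fin d)) i) i = ∏ i, (1 + M i i) := by
    simp [Matrix.add_apply]
  rw [e1]
  have e2 : ∀ x y z : ℝ, x + y - 1 - z = (x - 1 - z) + y := fun x y z => by ring
  rw [e2]
  refine (abs_add_le _ _).trans ?_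
  nlinarith [sq_nonneg e]

theorem det_entry {d : ℕ} (L : E d →L[ℝ] E d) (i j : Fin d) :
    |L (EuclideanSpace.single j 1) i| ≤ ‖L‖ := by
  have h1 : |L (EuclideanSpace.single j 1) i| ≤ ‖L (EuclideanSpace.single j 1)‖ :=
    PiLp.norm_apply_le (L (EuclideanSpace.single j 1)) i
  have h2 := L.le_opNorm (EuclideanSpace.single j (1 : ℝ))
  rw [PiLp.norm_single, norm_one, mul_one] at h2
  exact h1.trans h2

theorem sDet : S_Det := by
  intro d
  obtain ⟨C, hC, h⟩ := det_mat d
  refine ⟨C, hC, fun L hL => ?_⟩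
  have h1 := h (Matrix.of fun i j => L (EuclideanSpace.single j 1) i) ‖L‖ (norm_nonneg _) hL
    fun i j => det_entry L i j
  have e : (ContinuousLinearMap.id ℝ (E d) + L).det =
      (1 + Matrix.of fun i j => L (EuclideanSpace.single j 1) i).det := by
    rw [ContinuousLinearMap.det,
      ← LinearMap.det_toMatrix (EuclideanSpace.basisFun (Fin d) ℝ).toBasis]
    congr 1
    ext i j
    rw [LinearMap.toMatrix_apply]
    simp [Matrix.one_apply, Matrix.add_apply]
  rw [e]
  exact h1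

/-- the operator norm and the entries -/
theorem det_norm {d : ℕ} (L : E d →L[ℝ] E d) :
    ‖L‖ ^ 2 ≤ d * ∑ i, ∑ j, L (EuclideanSpace.single i 1) j ^ 2 := by
  have h1 : ‖L‖ ≤ ∑ i, ‖L (EuclideanSpace.single i 1)‖ := by
    refine L.opNorm_le_bound (Finset.sum_nonneg fun i _ => norm_nonneg _) fun v => ?_
    have hv : v = ∑ i, v i • EuclideanSpace.single i (1 : ℝ) := by
      conv_lhs => rw [← (EuclideanSpace.basisFun (Fin d) ℝ).sum_repr v]
      simp
    conv_lhs => rw [hv]
    rw [map_sum, Finset.sum_mul]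
    refine (norm_sum_le _ _).trans (Finset.sum_le_sum fun i _ => ?_)
    rw [map_smul, norm_smul, mul_comm]
    exact mul_le_mul_of_nonneg_left (PiLp.norm_apply_le v i) (norm_nonneg _)
  refine (pow_le_pow_left₀ (norm_nonneg _) h1 2).trans ?_
  refine (sq_sum_le_card_mul_sum_sq (s := Finset.univ)
    (f := fun i => ‖L (EuclideanSpace.single i 1)‖)).trans (le_of_eq ?_)
  simp only [Finset.card_univ, Fintype.card_fin, EuclideanSpace.real_norm_sq_eq]

theorem det_c1 {d : ℕ} {f : E d → ℝ} (hf : ContDiff ℝ 2 f) (v : E d) :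
    ContDiff ℝ 1 fun x => fderiv ℝ f x v :=
  (hf.fderiv_right (m := 1) (by norm_num)).clm_apply contDiff_const

theorem det_cs {d : ℕ} {f : E d → ℝ} (hf : HasCompactSupport f) (v : E d) :
    HasCompactSupport fun x => fderiv ℝ f x v := hf.fderiv_apply ℝ v

theorem det_d2 {d : ℕ} {f : E d → ℝ} (hf : ContDiff ℝ 2 f) (x v w : E d) :
    fderiv ℝ (fun y => fderiv ℝ f y w) x v = fderiv ℝ (fderiv ℝ f) x v w := by
  have h : DifferentiableAt ℝ (fderiv ℝ f) x :=
    (hf.fderiv_right (m := 1) (by norm_num)).differentiable (by norm_num) x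
  rw [fderiv_clm_apply h (differentiableAt_const w)]
  simp

theorem det_ibp1 {d : ℕ} {f g : E d → ℝ} (hf : ContDiff ℝ 1 f) (hg : ContDiff ℝ 1 g)
    (hc : HasCompactSupport f) (v : E d) :
    ∫ x, f x * fderiv ℝ g x v = -∫ x, fderiv ℝ f x v * g x := by
  have c1 : Continuous fun x => fderiv ℝ f x v :=
    (hf.continuous_fderiv (by norm_num)).clm_apply continuous_const
  have c2 : Continuous fun x => fderiv ℝ g x v :=
    (hg.continuous_fderiv (by norm_num)).clm_apply continuous_const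
  refine integral_mul_fderiv_eq_neg_fderiv_mul_of_integrable ?_ ?_ ?_
    (fun x _ => hf.differentiable (by norm_num) x) fun x _ => hg.differentiable (by norm_num) x
  · exact (c1.mul hg.continuous).integrable_of_hasCompactSupport (det_cs hc v).mul_right
  · exact (hf.continuous.mul c2).integrable_of_hasCompactSupport hc.mul_right
  · exact (hf.continuous.mul hg.continuous).integrable_of_hasCompactSupport hc.mul_right

theorem det_ibp2 {d : ℕ} {f g : E d → ℝ} (hf : ContDiff ℝ 2 f) (hg : ContDiff ℝ 2 g)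
    (hc : HasCompactSupport f) (v w : E d) :
    ∫ x, fderiv ℝ f x v * fderiv ℝ g x w = ∫ x, fderiv ℝ f x w * fderiv ℝ g x v := by
  have h1 := det_ibp1 (hf.of_le (by norm_num)) (det_c1 hg w) hc v
  have h2 := det_ibp1 (hf.of_le (by norm_num)) (det_c1 hg v) hc w
  have h3 : ∀ x, fderiv ℝ (fun y => fderiv ℝ g y w) x v =
      fderiv ℝ (fun y => fderiv ℝ g y v) x w := fun x => by
    rw [det_d2 hg, det_d2 hg]
    exact (hg.contDiffAt.isSymmSndFDerivAt (by simp)) v w
  simp only [h3] at h1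
  linarith

theorem sL2 : S_L2 := by
  intro d
  refine ⟨d + 1, by positivity, fun U hU hc hs => ?_⟩
  have hu : ∀ j : Fin d, ContDiff ℝ 2 fun x => U x j := fun j =>
    (EuclideanSpace.proj (𝕜 := ℝ) j).contDiff.comp hU
  have hk : ∀ j : Fin d, HasCompactSupport fun x => U x j := fun j =>
    hc.comp_left (g := fun y : E d => y j) rfl
  have hd : ∀ (j : Fin d) (x v : E d), fderiv ℝ (fun x => U x j) x v = fderiv ℝ U x v j :=
    fun j x v => by
      have h := ((EuclideanSpace.proj (𝕜 := ℝ) j).hasFDerivAt.comp x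
        (hU.differentiable (by norm_num) x).hasFDerivAt).fderiv
      exact DFunLike.congr_fun h v
  set D : Fin d → Fin d → E d → ℝ := fun i j x => fderiv ℝ U x (EuclideanSpace.single i 1) j
    with hD
  have hDc : ∀ i j, Continuous (D i j) := fun i j => by
    have := (det_c1 (hu j) (EuclideanSpace.single i 1)).continuous
    simpa only [hd] using this
  have hDs : ∀ i j, HasCompactSupport (D i j) := fun i j => by
    have := det_cs (hk j) (EuclideanSpace.single i 1)
    simpa only [hd] using this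
  have hI : ∀ i j k l, Integrable fun x => D i j x * D k l x := fun i j k l =>
    ((hDc i j).mul (hDc k l)).integrable_of_hasCompactSupport (hDs i j).mul_right
  have key : ∀ i j, ∫ x, D i j x * D i j x = ∫ x, D i i x * D j j x := fun i j => by
    have h := det_ibp2 (hu i) (hu j) (hk i) (EuclideanSpace.single j 1)
      (EuclideanSpace.single i 1)
    simp only [hd] at h
    rw [← h]
    refine integral_congr_ae (Filter.Eventually.of_forall fun x => ?_)
    change D i j x * D i j x = D j i x * D i j x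
    rw [show D j i x = D i j x from hs x j i]
  have e1 : ∫ x, ∑ i, ∑ j, D i j x * D i j x = ∫ x, tr (fderiv ℝ U x) ^ 2 := by
    have e2 : ∀ x, tr (fderiv ℝ U x) ^ 2 = ∑ i, ∑ j, D i i x * D j j x := fun x => by
      rw [sq, tr, Finset.sum_mul_sum]
    simp only [e2]
    rw [integral_finsetSum _ fun i _ => integrable_finsetSum _ fun j _ => hI i j i j,
      integral_finsetSum _ fun i _ => integrable_finsetSum _ fun j _ => hI i i j j]
    refine Finset.sum_congr rfl fun i _ => ?_
    rw [integral_finsetSum _ fun j _ => hI i j i j, integral_finsetSum _ fun j _ => hI i i j j]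
    exact Finset.sum_congr rfl fun j _ => key i j
  have h0 : 0 ≤ ∫ x, tr (fderiv ℝ U x) ^ 2 := integral_nonneg fun x => sq_nonneg _
  have h1 : ∫ x, ‖fderiv ℝ U x‖ ^ 2 ≤ ∫ x, d * ∑ i, ∑ j, D i j x * D i j x := by
    refine integral_mono_of_nonneg (Filter.Eventually.of_forall fun x => sq_nonneg _)
      ((integrable_finsetSum _ fun i _ => integrable_finsetSum _ fun j _ =>
        hI i j i j).const_mul _) (Filter.Eventually.of_forall fun x => ?_)
    have := det_norm (fderiv ℝ U x)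
    simpa only [sq] using this
  rw [integral_const_mul, e1] at h1
  nlinarith

end Pool.Agent.MP_40db9a_an.H47
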