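import Pool.Agent.MP_40db9a_an.H47.Spec2

/-! The odd part of the integral over the symmetric domain is bounded. -/

open MeasureTheory Set

namespace Pool.Agent.MP_40db9a_an.H47

variable {d : ℕ}

theorem fd_pow {p A B M : ℝ} (hp : 1 ≤ p) (hA : 0 ≤ A) (hB : 0 ≤ B) (hAM : A ≤ M) (hBM : B ≤ M) :
    |A ^ p - B ^ p| ≤ p * M ^ (p - 1) * |A - B| := by
  have h := (convex_Icc (0 : ℝ) M).norm_image_sub_le_of_norm_hasDerivWithin_le
    (f := fun x : ℝ => x ^ p) (f' := fun x => p * x ^ (p - 1)) (C := p * M ^ (p - 1))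
    (fun x _ => (Real.hasDerivAt_rpow_const (Or.inr hp)).hasDerivWithinAt)
    (fun x hx => by
      rw [Real.norm_of_nonneg (mul_nonneg (by linarith) (Real.rpow_nonneg hx.1 _))]
      exact mul_le_mul_of_nonneg_left (Real.rpow_le_rpow hx.1 hx.2 (by linarith)) (by linarith))
    (x := B) (y := A) ⟨hB, hBM⟩ ⟨hA, hAM⟩
  simpa only [Real.norm_eq_abs] using h

theorem fd_meas (c : E d) (b : ℝ) :
    Measurable fun x : E d => ENNReal.ofReal (‖x - c‖ ^ b) := by
  fun_prop

theorem fd_near (hI : S_Int) {a : ℝ} (hd : 1 ≤ d) (ha : 0 < a) (had : a < d) :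
    ∃ K : ℝ, 0 < K ∧ ∀ (c : E d) (l : ℝ), 0 < l → ‖c‖ = l →
      ∫⁻ x in Metric.closedBall (0 : E d) (2 * l),
        ENNReal.ofReal (‖x‖ ^ (-((d : ℝ) - a)) * ‖x - c‖ ^ (-a)) ≤ ENNReal.ofReal K := by
  obtain ⟨C₁, p₁, h₁, -⟩ := (hI d hd (d - a) (by linarith)).1 (by linarith)
  obtain ⟨C₂, p₂, h₂, -⟩ := (hI d hd a ha).1 had
  refine ⟨C₁ * 4 ^ a + C₂ * 6 ^ ((d : ℝ) - a), by positivity, fun c l hl hc => ?_⟩
  have hl2 : 0 < l / 2 := by positivity
  have pt : ∀ x : E d, ENNReal.ofReal (‖x‖ ^ (-((d : ℝ) - a)) * ‖x - c‖ ^ (-a)) ≤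
      ENNReal.ofReal ((l / 2) ^ (-a)) * ENNReal.ofReal (‖x - 0‖ ^ (-((d : ℝ) - a))) +
        ENNReal.ofReal ((l / 2) ^ (-((d : ℝ) - a))) * ENNReal.ofReal (‖x - c‖ ^ (-a)) := by
    intro x
    rw [← ENNReal.ofReal_mul (by positivity), ← ENNReal.ofReal_mul (by positivity), sub_zero]
    rcases le_total (l / 2) ‖x - c‖ with h | h
    · refine le_add_right (ENNReal.ofReal_le_ofReal ?_)
      rw [mul_comm]
      exact mul_le_mul_of_nonneg_right (Real.rpow_le_rpow_of_nonpos hl2 h (by linarith))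
        (by positivity)
    · refine le_add_left (ENNReal.ofReal_le_ofReal ?_)
      have h3 : l / 2 ≤ ‖x‖ := by
        have := norm_sub_norm_le c x
        rw [norm_sub_rev] at this
        linarith
      exact mul_le_mul_of_nonneg_right (Real.rpow_le_rpow_of_nonpos hl2 h3 (by linarith))
        (by positivity)
  have hsub : Metric.closedBall (0 : E d) (2 * l) ⊆ Metric.closedBall c (3 * l) := by
    intro x hx
    rw [mem_closedBall_zero_iff] at hx
    rw [Metric.mem_closedBall, dist_eq_norm]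
    have := norm_sub_le x c
    linarith
  refine (lintegral_mono pt).trans ?_
  rw [lintegral_add_left ((fd_meas 0 _).const_mul _), lintegral_const_mul _ (fd_meas 0 _),
    lintegral_const_mul _ (fd_meas c _), ENNReal.ofReal_add (by positivity) (by positivity)]
  refine add_le_add ?_ ?_
  · refine (mul_le_mul_right (h₁ 0 (2 * l) (by positivity)) _).trans (le_of_eq ?_)
    rw [← ENNReal.ofReal_mul (by positivity)]
    congr 1
    rw [sub_sub_cancel, show 2 * l = 4 * (l / 2) by ring,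
      Real.mul_rpow (by norm_num) hl2.le, Real.rpow_neg hl2.le]
    have : (l / 2) ^ a ≠ 0 := by positivity
    field_simp
  · refine (mul_le_mul_right ((lintegral_mono_set hsub).trans
      (h₂ c (3 * l) (by positivity))) _).trans (le_of_eq ?_)
    rw [← ENNReal.ofReal_mul (by positivity)]
    congr 1
    rw [show 3 * l = 6 * (l / 2) by ring,
      Real.mul_rpow (by norm_num) hl2.le, Real.rpow_neg hl2.le]
    have : (l / 2) ^ ((d : ℝ) - a) ≠ 0 := by positivity
    field_simp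

theorem fd_far (hI : S_Int) (hd : 1 ≤ d) :
    ∃ K : ℝ, 0 < K ∧ ∀ l : ℝ, 0 < l →
      ∫⁻ x in {x : E d | 2 * l ≤ ‖x - 0‖},
        ENNReal.ofReal l * ENNReal.ofReal (‖x - 0‖ ^ (-((d : ℝ) + 1))) ≤ ENNReal.ofReal K := by
  obtain ⟨C₁, p₁, h₁, -⟩ := (hI d hd (d + 1) (by positivity)).2 (by linarith)
  refine ⟨C₁ / 2, by positivity, fun l hl => ?_⟩
  rw [lintegral_const_mul _ (fd_meas 0 _)]
  refine (mul_le_mul_right (h₁ 0 (2 * l) (by positivity)) _).trans (le_of_eq ?_)
  rw [← ENNReal.ofReal_mul hl.le]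
  congr 1
  rw [show (d : ℝ) - (d + 1) = -1 by ring, Real.rpow_neg_one]
  field_simp

theorem fd_one (hI : S_Int) {a C : ℝ} {kb : ℝ → E d → E d} (hd : 1 ≤ d) (ha : 0 < a)
    (had : a < d) (hC : 1 ≤ C) (hR : Rad a C kb) :
    ∃ K : ℝ, 0 < K ∧ ∀ (τ l : ℝ) (c : E d) (D : Set (E d)), 0 < τ → 2 * τ ≤ l → ‖c‖ = l →
      MeasurableSet D → (∀ x ∈ D, x - c ≠ 0 ∧ x + c ≠ 0) →
      ∫⁻ x in D, ENNReal.ofReal (‖x‖ ^ (-((d : ℝ) - a)) * ‖kb τ (x - c) - kb τ (x + c)‖) ≤
        ENNReal.ofReal K := by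
  obtain ⟨K₁, p₁, h₁⟩ := fd_near hI hd ha had
  obtain ⟨K₂, p₂, h₂⟩ := fd_far hI hd
  have hC0 : 0 < C := by linarith
  refine ⟨C * K₁ + C * K₁ + 4 * C * 2 ^ (a + 1) * K₂, by positivity,
    fun τ l c D hτ hl hc hD hne => ?_⟩
  have hl0 : 0 < l := by linarith
  have hk := (hR.1 τ hτ).2
  have hb : ∀ y : E d, y ≠ 0 → ‖kb τ y‖ ≤ C * ‖y‖ ^ (-a) := fun y hy =>
    (hk y).2.2.1.trans (mul_le_mul_of_nonneg_left
      (Real.rpow_le_rpow_of_nonpos (norm_pos_iff.2 hy) (le_max_left _ _) (by linarith)) hC0.le)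
  have hcov : D ⊆ (D ∩ Metric.closedBall (0 : E d) (2 * l)) ∪ {x : E d | 2 * l ≤ ‖x - 0‖} := by
    intro x hx
    rcases le_total ‖x‖ (2 * l) with h | h
    · exact Or.inl ⟨hx, mem_closedBall_zero_iff.2 h⟩
    · exact Or.inr (by simpa using h)
  have m : ∀ c : E d, Measurable fun x : E d =>
      ENNReal.ofReal (‖x‖ ^ (-((d : ℝ) - a)) * ‖x - c‖ ^ (-a)) := fun c => by fun_prop
  refine (lintegral_mono_set hcov).trans ((lintegral_union_le _ _ _).trans ?_)
  rw [ENNReal.ofReal_add (by positivity) (by positivity)]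
  refine add_le_add ?_ ?_
  · refine (setLIntegral_mono' (hD.inter measurableSet_closedBall) (g := fun x =>
      ENNReal.ofReal C * ENNReal.ofReal (‖x‖ ^ (-((d : ℝ) - a)) * ‖x - c‖ ^ (-a)) +
      ENNReal.ofReal C * ENNReal.ofReal (‖x‖ ^ (-((d : ℝ) - a)) * ‖x - -c‖ ^ (-a)))
      fun x hx => ?_).trans ((lintegral_mono_set inter_subset_right).trans ?_)
    · rw [← ENNReal.ofReal_mul hC0.le, ← ENNReal.ofReal_mul hC0.le,
        ← ENNReal.ofReal_add (by positivity) (by positivity), sub_neg_eq_add]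
      refine ENNReal.ofReal_le_ofReal ?_
      have h3 := (norm_sub_le (kb τ (x - c)) (kb τ (x + c))).trans
        (add_le_add (hb _ (hne x hx.1).1) (hb _ (hne x hx.1).2))
      refine (mul_le_mul_of_nonneg_left h3 (by positivity)).trans (le_of_eq ?_)
      ring
    · rw [lintegral_add_left ((m c).const_mul _), lintegral_const_mul _ (m c),
        lintegral_const_mul _ (m (-c)), ENNReal.ofReal_add (by positivity) (by positivity),
        ENNReal.ofReal_mul hC0.le]
      exact add_le_add (mul_le_mul_right (h₁ c l hl0 hc) _)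
        (mul_le_mul_right (h₁ (-c) l hl0 (by rw [norm_neg, hc])) _)
  · refine (setLIntegral_mono' (measurableSet_le measurable_const (by fun_prop)) (g := fun x =>
      ENNReal.ofReal (4 * C * 2 ^ (a + 1)) *
        (ENNReal.ofReal l * ENNReal.ofReal (‖x - 0‖ ^ (-((d : ℝ) + 1))))) fun x hx => ?_).trans ?_
    · rw [← ENNReal.ofReal_mul hl0.le, ← ENNReal.ofReal_mul (by positivity), sub_zero]
      refine ENNReal.ofReal_le_ofReal ?_
      have hx' : 2 * l ≤ ‖x‖ := by simpa using hx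
      have hx0 : 0 < ‖x‖ := by linarith
      have g1 : ‖x‖ / 2 ≤ ‖x - c‖ := by
        have := norm_sub_norm_le x c
        linarith
      have g2 : ‖x‖ / 2 ≤ ‖x + c‖ := by
        have := norm_sub_norm_le x (-c)
        rw [norm_neg, sub_neg_eq_add] at this
        linarith
      have g3 := (hk (x - c)).2.2.2.2 (x + c) (by linarith) (by linarith)
      have g4 : ‖x - c - (x + c)‖ = 2 * l := by
        rw [show x - c - (x + c) = -((2 : ℝ) • c) by rw [two_smul]; abel, norm_neg, norm_smul, hc]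
        simp
      have g5 : (‖x‖ / 2) ^ (-(a + 1)) = 2 ^ (a + 1) * ‖x‖ ^ (-(a + 1)) := by
        rw [Real.div_rpow hx0.le (by norm_num), Real.rpow_neg (show (0 : ℝ) ≤ 2 by norm_num),
          div_inv_eq_mul, mul_comm]
      have g6 := Real.rpow_le_rpow_of_nonpos (half_pos hx0) g1 (show -(a + 1) ≤ 0 by linarith)
      have g7 := Real.rpow_le_rpow_of_nonpos (half_pos hx0) g2 (show -(a + 1) ≤ 0 by linarith)
      rw [g5] at g6 g7
      rw [g4] at g3
      have g8 := g3.trans (mul_le_mul_of_nonneg_left (add_le_add g6 g7) (by positivity))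
      have g9 : ‖x‖ ^ (-((d : ℝ) + 1)) = ‖x‖ ^ (-((d : ℝ) - a)) * ‖x‖ ^ (-(a + 1)) := by
        rw [← Real.rpow_add hx0]
        congr 1
        ring
      refine (mul_le_mul_of_nonneg_left g8 (by positivity)).trans (le_of_eq ?_)
      rw [g9]
      ring
    · rw [lintegral_const_mul _ ((fd_meas 0 _).const_mul _),
        ENNReal.ofReal_mul (q := K₂) (by positivity)]
      exact mul_le_mul_right (h₂ l hl0) _

theorem fd_closed (e : E d) (ε : ℝ) (N : ℕ) : MeasurableSet (Dom e ε N) := by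
  refine IsClosed.measurableSet ?_
  simp only [Dom, ofPred_and, ofPred_forall]
  refine (isClosed_le continuous_const continuous_norm).inter
    ((isClosed_le continuous_norm continuous_const).inter
      (isClosed_iInter fun j => isClosed_iInter fun _ =>
        (isClosed_le continuous_const (by fun_prop)).inter
          (isClosed_le continuous_const (by fun_prop))))

theorem fd_symm (e : E d) (ε : ℝ) (N : ℕ) : Neg.neg ⁻¹' Dom e ε N = Dom e ε N := by
  ext x
  have h1 : ∀ c : E d, ‖-x - c‖ = ‖x + c‖ := fun c => by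
    rw [← norm_neg]; congr 1; abel
  have h2 : ∀ c : E d, ‖-x + c‖ = ‖x - c‖ := fun c => by
    rw [← norm_neg]; congr 1; abel
  simp only [Dom, mem_preimage, mem_ofPred_eq, norm_neg, h1, h2, and_comm]

theorem fd_odd {G φ : E d → ℝ} {D : Set (E d)} (hD : Neg.neg ⁻¹' D = D)
    (hφ : ∀ x, φ (-x) = -φ x) (h1 : IntegrableOn (fun x => G x * φ x) D)
    (h2 : IntegrableOn (fun x => G (-x) * φ x) D) :
    2 * ∫ x in D, G x * φ x = ∫ x in D, (G x - G (-x)) * φ x := by
  have h3 := (Measure.measurePreserving_neg (volume : Measure (E d))).setIntegral_preimage_emb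
    measurableEmbedding_neg (fun x => G x * φ x) D
  rw [hD] at h3
  simp only [hφ, mul_neg, integral_neg] at h3
  simp only [sub_mul]
  rw [integral_sub h1 h2]
  linarith

theorem sFD (hI : S_Int) (hA : S_Alg) (hU : S_FU) : S_FD := by
  intro d a C kb e hS
  obtain ⟨C₁, p₁, h₁⟩ := hU d a C kb e hS
  obtain ⟨hd, hda, had, hC, hR, he⟩ := hS
  have hd2 : (2 : ℝ) ≤ d := by exact_mod_cast hd
  have ha : 0 < a := by linarith
  have hC0 : 0 < C := by linarith
  have hp : 1 ≤ (d : ℝ) / a := by rw [le_div_iff₀ ha]; linarith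
  obtain ⟨K, pK, hK⟩ := fd_one hI (by omega) ha had hC hR
  obtain ⟨c₀, -, hA'⟩ := hA d (a + 1 - d) (by linarith) (by linarith)
  obtain ⟨mh, bh, -⟩ := hA' e he
  refine ⟨(d : ℝ) / a * C₁ ^ ((d : ℝ) / a - 1) * K, by positivity, fun ε N hs => ?_⟩
  have hU' := h₁ ε N hs
  obtain ⟨hε, hεN, hεd⟩ := hs
  set F := Fld a C kb e ε N with hF
  set φ : E d → ℝ := fun x => hh (a + 1 - d) e x - hh (a + 1 - d) e (-x) with hφ
  have hη : 0 < ε ^ (1 / (d : ℝ)) := by positivity
  have hη2 : ε ^ (1 / (d : ℝ)) ≤ 1 := Real.rpow_le_one hε.le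
    (hεd.trans (pow_le_one₀ (by norm_num) (by norm_num))) (by positivity)
  have hτ : ∀ j : ℕ, 0 < ε ^ (1 / (d : ℝ)) / (2 * C) * 4 ^ (j + 1) := fun j => by positivity
  have hτ0 : 0 < 1 / (4 * C) := by positivity
  have hτ1 : 0 < (8 * C) ^ (1 / a) * 4 ^ (N + 1) := by positivity
  have cF : Continuous F := by
    have c0 := (hR.1 _ hτ0).1
    have c1 := (hR.1 _ hτ1).1
    refine (c0.add (continuous_finsetSum _ fun j _ => ?_)).sub (c1.const_smul (1 + ε * N))
    exact ((hR.1 _ (hτ j)).1.comp (continuous_id.sub continuous_const)).const_smul ε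
  have mφ : Measurable φ := mh.sub (mh.comp measurable_neg)
  have bφ : ∀ x, |φ x| ≤ 2 := fun x => abs_le.2
    ⟨by have := bh x; have := bh (-x); simp only [hφ]; linarith,
      by have := bh x; have := bh (-x); simp only [hφ]; linarith⟩
  have mD := fd_closed e ε N
  have fD : volume (Dom e ε N) ≠ ⊤ := ((measure_mono fun x hx =>
    mem_closedBall_zero_iff.2 hx.2.1).trans_lt measure_closedBall_lt_top).ne
  have bF : ∀ x, ‖F x‖ ≤ C₁ := fun x => (hU' x).trans (mul_le_of_le_one_right p₁.le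
    (Real.rpow_le_one_of_one_le_of_nonpos (le_max_right _ _) (by linarith)))
  have ii : ∀ H : E d → E d, Continuous H → (∀ x, ‖H x‖ ≤ C₁) →
      IntegrableOn (fun x => ‖H x‖ ^ ((d : ℝ) / a) * φ x) (Dom e ε N) := fun H cH bH => by
    refine Measure.integrableOn_of_bounded (M := C₁ ^ ((d : ℝ) / a) * 2) fD
      ((cH.norm.measurable.pow_const _).mul mφ).aestronglyMeasurable
      (Filter.Eventually.of_forall fun x => ?_)
    rw [norm_mul, Real.norm_of_nonneg (by positivity), Real.norm_eq_abs]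
    exact mul_le_mul (Real.rpow_le_rpow (norm_nonneg _) (bH x) (by linarith)) (bφ x)
      (abs_nonneg _) (by positivity)
  have e2 := fd_odd (G := fun x => ‖F x‖ ^ ((d : ℝ) / a)) (φ := φ) (fd_symm e ε N)
    (fun x => by simp only [hφ, neg_neg, neg_sub]) (ii F cF bF)
    (ii (fun x => F (-x)) (cF.comp continuous_neg) fun x => bF _)
  have sumF : ∀ x, F x + F (-x) = ∑ j ∈ Finset.range N, ε •
      (kb (ε ^ (1 / (d : ℝ)) / (2 * C) * 4 ^ (j + 1)) (x - (4 : ℝ) ^ (j + 1) • e) -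
        kb (ε ^ (1 / (d : ℝ)) / (2 * C) * 4 ^ (j + 1)) (x + (4 : ℝ) ^ (j + 1) • e)) := by
    intro x
    have o : ∀ (j : ℕ) (c : E d), kb (ε ^ (1 / (d : ℝ)) / (2 * C) * 4 ^ (j + 1)) (-x - c) =
        -kb (ε ^ (1 / (d : ℝ)) / (2 * C) * 4 ^ (j + 1)) (x + c) := fun j c => by
      rw [← ((hR.1 _ (hτ j)).2 _).2.1]
      congr 1
      abel
    simp only [hF, Fld, o, ((hR.1 _ hτ0).2 x).2.1, ((hR.1 _ hτ1).2 x).2.1, smul_neg, smul_sub,
      Finset.sum_neg_distrib, Finset.sum_sub_distrib]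
    abel
  set A : ℝ := (d : ℝ) / a * C₁ ^ ((d : ℝ) / a - 1) with hAd
  have pA : 0 < A := by positivity
  set h : ℕ → E d → ℝ := fun j x => ‖x‖ ^ (-((d : ℝ) - a)) *
    ‖kb (ε ^ (1 / (d : ℝ)) / (2 * C) * 4 ^ (j + 1)) (x - (4 : ℝ) ^ (j + 1) • e) -
      kb (ε ^ (1 / (d : ℝ)) / (2 * C) * 4 ^ (j + 1)) (x + (4 : ℝ) ^ (j + 1) • e)‖ with hh'
  have h0 : ∀ j x, 0 ≤ h j x := fun j x => by simp only [hh']; positivity
  have mh' : ∀ j, Measurable fun x => ENNReal.ofReal (h j x) := fun j => by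
    have c := (hR.1 _ (hτ j)).1
    exact ((measurable_norm.pow_const _).mul ((c.comp (continuous_id.sub continuous_const)).sub
      (c.comp (continuous_id.add continuous_const))).norm.measurable).ennreal_ofReal
  have pt : ∀ x ∈ Dom e ε N,
      ENNReal.ofReal ‖(‖F x‖ ^ ((d : ℝ) / a) - ‖F (-x)‖ ^ ((d : ℝ) / a)) * φ x‖ ≤
        ∑ j ∈ Finset.range N, ENNReal.ofReal (2 * A * ε) * ENNReal.ofReal (h j x) := by
    intro x hx
    have hx0 : 0 < ‖x‖ := lt_of_lt_of_le one_pos hx.1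
    have u1 := hU' x
    have u2 := hU' (-x)
    rw [norm_neg] at u2
    rw [max_eq_left hx.1] at u1 u2
    have v1 := fd_pow hp (norm_nonneg _) (norm_nonneg _) u1 u2
    have v2 : |‖F x‖ - ‖F (-x)‖| ≤ ‖F x + F (-x)‖ := by
      have := abs_norm_sub_norm_le (F x) (-F (-x))
      rwa [norm_neg, sub_neg_eq_add] at this
    have v3 : (C₁ * ‖x‖ ^ (-a)) ^ ((d : ℝ) / a - 1) =
        C₁ ^ ((d : ℝ) / a - 1) * ‖x‖ ^ (-((d : ℝ) - a)) := by
      rw [Real.mul_rpow p₁.le (by positivity), ← Real.rpow_mul hx0.le]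
      congr 2
      field_simp
    have v4 := v2.trans ((congrArg norm (sumF x)).trans_le (norm_sum_le _ _))
    simp only [← ENNReal.ofReal_mul (show 0 ≤ 2 * A * ε by positivity)]
    rw [← ENNReal.ofReal_sum_of_nonneg fun j _ => mul_nonneg (by positivity) (h0 j x)]
    refine ENNReal.ofReal_le_ofReal ?_
    rw [norm_mul, Real.norm_eq_abs, Real.norm_eq_abs]
    rw [v3] at v1
    have v5 := v1.trans (mul_le_mul_of_nonneg_left v4 (by positivity))
    refine (mul_le_mul v5 (bφ x) (abs_nonneg _) ((abs_nonneg _).trans v5)).trans (le_of_eq ?_)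
    rw [Finset.mul_sum, Finset.sum_mul]
    refine Finset.sum_congr rfl fun j _ => ?_
    rw [norm_smul, Real.norm_of_nonneg hε.le]
    have al : ∀ P Q X Y : ℝ, P * (Q * X) * (ε * Y) * 2 = 2 * (P * Q) * ε * (X * Y) :=
      fun P Q X Y => by ring
    exact al _ _ _ _
  have hj : ∀ j ∈ Finset.range N, ∫⁻ x in Dom e ε N, ENNReal.ofReal (2 * A * ε) *
      ENNReal.ofReal (h j x) ≤ ENNReal.ofReal (2 * A * ε * K) := by
    intro j hj
    rw [lintegral_const_mul _ (mh' j), ENNReal.ofReal_mul (q := K) (by positivity)]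
    refine mul_le_mul_right (hK _ ((4 : ℝ) ^ (j + 1)) _ _ (hτ j) ?_ ?_ mD fun x hx => ?_) _
    · have : ε ^ (1 / (d : ℝ)) / (2 * C) ≤ 1 / 2 := by
        rw [div_le_iff₀ (by positivity)]
        linarith
      have h4 : (0 : ℝ) < 4 ^ (j + 1) := by positivity
      nlinarith
    · rw [norm_smul, he, mul_one, Real.norm_of_nonneg (by positivity)]
    · have := hx.2.2 j (Finset.mem_range.1 hj)
      have h4 : 0 < ε ^ (1 / (d : ℝ)) * 4 ^ (j + 1) := by positivity
      exact ⟨norm_pos_iff.1 (h4.trans_le this.1), norm_pos_iff.1 (h4.trans_le this.2)⟩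
  have tot : ∫⁻ x in Dom e ε N,
      ENNReal.ofReal ‖(‖F x‖ ^ ((d : ℝ) / a) - ‖F (-x)‖ ^ ((d : ℝ) / a)) * φ x‖ ≤
        ENNReal.ofReal (2 * (A * K)) := by
    refine (setLIntegral_mono' mD pt).trans ?_
    rw [lintegral_finsetSum _ fun j _ => (mh' j).const_mul _]
    refine (Finset.sum_le_sum hj).trans ?_
    rw [← ENNReal.ofReal_sum_of_nonneg fun j _ => by positivity]
    refine ENNReal.ofReal_le_ofReal ?_
    rw [Finset.sum_const, Finset.card_range, nsmul_eq_mul]
    have : 0 < A * K := by positivity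
    nlinarith
  have fin := (norm_integral_le_lintegral_norm _).trans
    (ENNReal.toReal_le_of_le_ofReal (by positivity) tot)
  rw [← e2, norm_mul, Real.norm_eq_abs, Real.norm_eq_abs, abs_two] at fin
  linarith

end Pool.Agent.MP_40db9a_an.H47
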