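import Pool.Agent.MP_40db9a_an.H47.Spec2

open MeasureTheory Set

namespace Pool.Agent.MP_40db9a_an.H47

variable {d : ℕ}

theorem fg_factor (x e : E d) (A : ℝ) (w L : ℕ → ℝ) (N : ℕ)
    (h : A + ∑ j ∈ Finset.range N, w j ≠ 0) :
    A • x + ∑ j ∈ Finset.range N, w j • (x - L j • e) =
      (A + ∑ j ∈ Finset.range N, w j) •
        (x - ((∑ j ∈ Finset.range N, w j * L j) / (A + ∑ j ∈ Finset.range N, w j)) • e) := by
  rw [smul_sub, smul_smul, mul_div_cancel₀ _ h, add_smul, Finset.sum_smul, Finset.sum_smul,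
    add_sub_assoc, ← Finset.sum_sub_distrib]
  congr 1
  refine Finset.sum_congr rfl fun j _ => ?_
  rw [smul_sub, smul_smul]

theorem fg_eta_pos {ε : ℝ} (hε : 0 < ε) : 0 < ε ^ (1 / (d : ℝ)) := Real.rpow_pos_of_pos hε _

theorem fg_eta_le {ε r : ℝ} (hd : 2 ≤ d) (hε : 0 < ε) (hr : 0 ≤ r) (h : ε ≤ r ^ d) :
    ε ^ (1 / (d : ℝ)) ≤ r := by
  have h1 : ε ^ (1 / (d : ℝ)) ≤ (r ^ d) ^ (1 / (d : ℝ)) :=
    Real.rpow_le_rpow hε.le h (by positivity)
  rwa [one_div, Real.pow_rpow_inv_natCast hr (by omega), ← one_div] at h1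

/-- the field is a positive multiple of `x - t e` with `t ≥ 0` -/
theorem fg_pos {a ε A : ℝ} {N : ℕ} {x e : E d} {k : ℕ → ℝ} (hε : 0 < ε) (hx : x ∈ Dom e ε N)
    (hA : ‖x‖ ^ (-(a + 1)) / 2 ≤ A)
    (hk : ∀ j < N, ‖x - (4 : ℝ) ^ (j + 1) • e‖ ^ (-(a + 1)) / 2 ≤ k j) :
    x ≠ 0 ∧ 0 < A ∧ ∀ j ∈ Finset.range N, 0 ≤ ε * k j := by
  have h0 : 0 < ‖x‖ := lt_of_lt_of_le one_pos hx.1
  refine ⟨norm_pos_iff.mp h0, lt_of_lt_of_le ?_ hA, fun j hj => ?_⟩
  · have := Real.rpow_pos_of_pos h0 (-(a + 1)); positivity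
  · refine mul_nonneg hε.le (le_trans ?_ (hk j (Finset.mem_range.mp hj)))
    have := Real.rpow_nonneg (norm_nonneg (x - (4 : ℝ) ^ (j + 1) • e)) (-(a + 1)); positivity

theorem sFM (hA : S_Alg) (hS : S_FS) : S_FM := by
  intro d a C kb e h0 ε N hs x hx
  obtain ⟨A, k, hA1, -, hk, hF⟩ := hS d a C kb e h0 ε N hs x hx
  obtain ⟨hd, h1, h2, -, -, he⟩ := h0
  have hd' : (2 : ℝ) ≤ d := by exact_mod_cast hd
  have ha : 0 < a := by linarith
  obtain ⟨c, -, hc⟩ := hA d (a + 1 - d) (by linarith) (by linarith)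
  obtain ⟨-, -, hom, -, mono, -⟩ := hc e he
  obtain ⟨hx0, hA0, hw⟩ := fg_pos hs.1 hx hA1 (fun j hj => (hk j hj).1)
  have hB : 0 ≤ ∑ j ∈ Finset.range N, ε * k j := Finset.sum_nonneg hw
  have hT : 0 ≤ ∑ j ∈ Finset.range N, ε * k j * (4 : ℝ) ^ (j + 1) :=
    Finset.sum_nonneg fun j hj => mul_nonneg (hw j hj) (by positivity)
  have hAB : 0 < A + ∑ j ∈ Finset.range N, ε * k j := by linarith
  rw [fg_factor x e A (fun j => ε * k j) (fun j => (4 : ℝ) ^ (j + 1)) N hAB.ne'] at hF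
  by_cases hz : Fld a C kb e ε N x = 0
  · have hp : (d : ℝ) / a ≠ 0 := by positivity
    simp [hz, PhiE, Real.zero_rpow hp]
  · have hne : x - ((∑ j ∈ Finset.range N, ε * k j * (4 : ℝ) ^ (j + 1)) /
        (A + ∑ j ∈ Finset.range N, ε * k j)) • e ≠ 0 := by
      intro h; rw [h, smul_zero] at hF; exact hz hF
    obtain ⟨m1, m2⟩ := mono x _ hx0 (div_nonneg hT hAB.le) hne
    unfold PhiE
    refine mul_le_mul_of_nonneg_left ?_ (Real.rpow_nonneg (norm_nonneg _) _)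
    rw [hF, ← smul_neg, hom _ _ hAB, hom _ _ hAB]
    linarith

theorem fg_geo {e u x : E d} (hu : ‖u‖ = 1) (hue : (inner ℝ u e : ℝ) = 0) {L ρ : ℝ}
    (hL : 0 < L) (hρ : 0 < ρ) (hx : ‖x - L • (e + ρ • u)‖ < L * ρ / 4) :
    3 / 4 * (ρ * L) ≤ ‖x - L • e‖ ∧ ‖x - L • e‖ ≤ 5 / 4 * (ρ * L) ∧
      3 / 4 * (ρ * L) ≤ ‖x - (inner ℝ x e : ℝ) • e‖ := by
  set w := x - L • (e + ρ • u) with hw
  have h1 : x - L • e = w + (ρ * L) • u := by
    rw [hw, smul_add, smul_smul, mul_comm L ρ]; abel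
  have h2 : ‖(ρ * L) • u‖ = ρ * L := by
    rw [norm_smul, hu, mul_one, Real.norm_eq_abs, abs_of_pos (by positivity)]
  have h3 := norm_add_le w ((ρ * L) • u)
  have h4 := norm_sub_norm_le ((ρ * L) • u) (-w)
  rw [sub_neg_eq_add, add_comm, norm_neg] at h4
  refine ⟨by rw [h1]; linarith, by rw [h1]; linarith, ?_⟩
  have h5 : x = w + (ρ * L) • u + L • e := by rw [← h1]; abel
  have h6 : (inner ℝ u (x - (inner ℝ x e : ℝ) • e) : ℝ) = inner ℝ u w + ρ * L := by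
    rw [inner_sub_right, inner_smul_right, hue, mul_zero, sub_zero]
    conv_lhs => rw [h5]
    rw [inner_add_right, inner_add_right, inner_smul_right, inner_smul_right, hue,
      real_inner_self_eq_norm_sq, hu]
    ring
  have h7 := real_inner_le_norm u (x - (inner ℝ x e : ℝ) • e)
  have h8 := abs_real_inner_le_norm u w
  rw [hu, one_mul] at h7 h8
  have h9 := neg_abs_le (inner ℝ u w : ℝ)
  linarith

theorem fg_far {e x : E d} (he : ‖e‖ = 1) {L : ℝ} (M : ℝ) :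
    |L - M| - ‖x - L • e‖ ≤ ‖x - M • e‖ := by
  have h1 : ‖(L - M) • e‖ = |L - M| := by rw [norm_smul, he, mul_one, Real.norm_eq_abs]
  have h2 := norm_sub_le (x - M • e) (x - L • e)
  rw [show x - M • e - (x - L • e) = (L - M) • e by rw [sub_smul]; abel, h1] at h2
  linarith

theorem fg_sep {i j : ℕ} (h : i ≠ j) :
    4 * (4 : ℝ) ^ (i + 1) ≤ 4 ^ (j + 1) ∨ 4 * (4 : ℝ) ^ (j + 1) ≤ 4 ^ (i + 1) := by
  rcases lt_or_gt_of_ne h with h | h
  · left; rw [← pow_succ']; exact pow_le_pow_right₀ (by norm_num) (by omega)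
  · right; rw [← pow_succ']; exact pow_le_pow_right₀ (by norm_num) (by omega)

theorem fg_far2 {e x : E d} (he : ‖e‖ = 1) {L M : ℝ} (hL : 0 < L) (hM : 0 < M)
    (hx : ‖x - L • e‖ ≤ 5 / 32 * L) (h : 4 * M ≤ L ∨ 4 * L ≤ M) :
    L / 2 ≤ ‖x - M • e‖ ∧ M / 2 ≤ ‖x - M • e‖ := by
  have h1 := fg_far (x := x) (L := L) he M
  have h2 := le_abs_self (L - M)
  have h3 := neg_le_abs (L - M)
  rcases h with h | h <;> constructor <;> linarith

theorem fg_up {g L ρ s : ℝ} (hg : 0 < g) (hL : 0 < L) (hρ : 0 < ρ) (hs : ρ * L / 2 ≤ s) :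
    s ^ (-g) ≤ 2 ^ g * (ρ ^ (-g) * L ^ (-g)) := by
  refine (Real.rpow_le_rpow_of_nonpos (by positivity) hs (by linarith)).trans (le_of_eq ?_)
  rw [Real.div_rpow (by positivity) (by norm_num), Real.mul_rpow hρ.le hL.le,
    Real.rpow_neg (show (0 : ℝ) ≤ 2 by norm_num), div_inv_eq_mul, mul_comm]

theorem fg_lo {g L ρ s : ℝ} (hg : 0 < g) (hL : 0 < L) (hρ : 0 < ρ) (hs0 : 0 < s)
    (hs : s ≤ 2 * (ρ * L)) : ρ ^ (-g) * L ^ (-g) / 2 ^ g ≤ s ^ (-g) := by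
  refine le_trans (le_of_eq ?_) (Real.rpow_le_rpow_of_nonpos hs0 hs (by linarith))
  rw [Real.mul_rpow (by norm_num) (by positivity), Real.mul_rpow hρ.le hL.le,
    Real.rpow_neg (show (0 : ℝ) ≤ 2 by norm_num), div_eq_inv_mul]

theorem fg_up2 {a L s : ℝ} (ha : 0 < a) (hL : 0 < L) (hs : L / 2 ≤ s) :
    s ^ (-(a + 1)) * s ≤ 2 ^ (a + 1) * L ^ (-(a + 1)) * L := by
  have hs0 : 0 < s := lt_of_lt_of_le (by positivity) hs
  have e : ∀ r : ℝ, 0 < r → r ^ (-(a + 1)) * r = r ^ (-a) := fun r hr => by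
    rw [show -(a + 1) = -a - 1 by ring, Real.rpow_sub_one hr.ne']; field_simp
  have h1 : s ^ (-a) ≤ (L / 2) ^ (-a) :=
    Real.rpow_le_rpow_of_nonpos (by positivity) hs (by linarith)
  have h2 := fg_up (g := a + 1) (ρ := 1) (s := L / 2) (by linarith) hL one_pos (by linarith)
  rw [Real.one_rpow, one_mul] at h2
  rw [e s hs0]
  refine h1.trans ?_
  rw [← e (L / 2) (by positivity)]
  exact mul_le_mul h2 (by linarith) (by positivity) (by positivity)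

theorem fg_sum {N j : ℕ} (hj : j < N) (w : ℕ → ℝ) {ε δ K : ℝ}
    (h1 : w j ≤ (ε + δ) * K) (h2 : ∀ i < N, i ≠ j → w i ≤ ε * K) :
    ∑ i ∈ Finset.range N, w i ≤ (ε * N + δ) * K := by
  have h : ∀ i ∈ Finset.range N, w i ≤ ε * K + if i = j then δ * K else 0 := by
    intro i hi
    split_ifs with h
    · rw [h]; linarith
    · have := h2 i (Finset.mem_range.mp hi) h; linarith
  refine (Finset.sum_le_sum h).trans (le_of_eq ?_)
  rw [Finset.sum_add_distrib, Finset.sum_ite_eq', if_pos (Finset.mem_range.mpr hj),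
    Finset.sum_const, Finset.card_range, nsmul_eq_mul]
  ring

theorem fg_dom {e x : E d} (hd : 2 ≤ d) (he : ‖e‖ = 1) {ε ρ : ℝ} {N j : ℕ} (hs : Small d ε N)
    (hj : j < N) (hρ : 0 < ρ) (hρ8 : ρ ≤ 1 / 8) (hε : ε ≤ (3 / 4 * ρ) ^ d)
    (g1 : 3 / 4 * (ρ * 4 ^ (j + 1)) ≤ ‖x - (4 : ℝ) ^ (j + 1) • e‖)
    (g2 : ‖x - (4 : ℝ) ^ (j + 1) • e‖ ≤ 5 / 32 * 4 ^ (j + 1)) : x ∈ Dom e ε N := by
  have η1 := fg_eta_le hd hs.1 (by norm_num) hs.2.2
  have η2 := fg_eta_le hd hs.1 (by positivity) hε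
  have η0 := fg_eta_pos (d := d) hs.1
  have hL4 : (4 : ℝ) ≤ 4 ^ (j + 1) := le_self_pow₀ (by norm_num) (by omega)
  have hLN : 4 * (4 : ℝ) ^ (j + 1) ≤ 4 ^ (N + 1) := by
    rw [← pow_succ']; exact pow_le_pow_right₀ (by norm_num) (by omega)
  have n1 := fg_far (x := x) (L := (4 : ℝ) ^ (j + 1)) he 0
  rw [sub_zero, zero_smul, sub_zero, abs_of_pos (by positivity)] at n1
  have n2 := norm_sub_norm_le x ((4 : ℝ) ^ (j + 1) • e)
  rw [norm_smul, he, mul_one, Real.norm_eq_abs, abs_of_pos (by positivity)] at n2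
  refine ⟨by linarith, by linarith, fun i hi => ⟨?_, ?_⟩⟩
  · by_cases h : i = j
    · subst h
      have := mul_le_mul_of_nonneg_right η2 (show (0 : ℝ) ≤ 4 ^ (i + 1) by positivity)
      linarith
    · have h1 := (fg_far2 he (by positivity) (by positivity) g2 (fg_sep h)).2
      have := mul_le_mul_of_nonneg_right η1 (show (0 : ℝ) ≤ 4 ^ (i + 1) by positivity)
      linarith
  · have h1 := fg_far (x := x) (L := (4 : ℝ) ^ (j + 1)) he (-(4 : ℝ) ^ (i + 1))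
    rw [neg_smul, sub_neg_eq_add, sub_neg_eq_add, abs_of_pos (by positivity)] at h1
    have h2 : (0 : ℝ) ≤ 4 ^ (i + 1) := by positivity
    have := mul_le_mul_of_nonneg_right η1 h2
    linarith

theorem sFG (hA : S_Alg) (hS : S_FS) : S_FG := by
  intro d a C kb e h0
  have h0' := h0
  obtain ⟨hd, h1, h2, -, -, he⟩ := h0'
  have hd' : (2 : ℝ) ≤ d := by exact_mod_cast hd
  have ha : 0 < a := by linarith
  have hg : 0 < a + 1 := by linarith
  have hb : 0 < a + 1 - d := by linarith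
  obtain ⟨c, hc0, hc⟩ := hA d (a + 1 - d) hb (by linarith)
  obtain ⟨-, -, hom, -, mono, gain⟩ := hc e he
  set q : ℝ := 2 ^ (a + 1) with hq
  have hq1 : 1 ≤ q := Real.one_le_rpow (by norm_num) hg.le
  have hq0 : 0 < q := by linarith
  have hp : 0 < (d : ℝ) / a := by positivity
  have hk1 : 0 < (1 / (8 * q)) ^ ((d : ℝ) / a) := Real.rpow_pos_of_pos (by positivity) _
  have hk2 : 0 < (1 / 2 : ℝ) ^ (a + 1 - d) := Real.rpow_pos_of_pos (by norm_num) _
  refine ⟨1 / (24 * q ^ 2), min (1 / (24 * q ^ 2)) ((3 / 4) ^ d),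
    (1 / (8 * q)) ^ ((d : ℝ) / a) * (c * (1 / 2 : ℝ) ^ (a + 1 - d) / (6 * q ^ 2)),
    by positivity, by positivity, by positivity, ?_⟩
  intro ε N hs hεN u hu hue j hj ρ hρ hρ8 hε x hx
  have hε0 := hs.1
  set L : ℝ := 4 ^ (j + 1) with hL
  have hL0 : 0 < L := by positivity
  rw [Metric.mem_ball, dist_eq_norm] at hx
  obtain ⟨g1, g2, g3⟩ := fg_geo hu hue hL0 hρ hx
  have hρL : ρ * L ≤ 1 / 8 * L := mul_le_mul_of_nonneg_right hρ8 hL0.le
  have hρL0 : 0 < ρ * L := by positivity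
  have g2' : ‖x - L • e‖ ≤ 5 / 32 * L := by linarith
  have hρg : 0 < ρ ^ (a + 1) := Real.rpow_pos_of_pos hρ _
  have hεd : ε ≤ (3 / 4 * ρ) ^ d := by
    have e1 : ρ ^ (a + 1) ≤ ρ ^ d := by
      rw [← Real.rpow_natCast]
      exact Real.rpow_le_rpow_of_exponent_ge hρ (by linarith) h1.le
    rw [mul_pow]
    exact hε.trans (mul_le_mul (min_le_right _ _) e1 hρg.le (by positivity))
  have hdom : x ∈ Dom e ε N := fg_dom hd he hs hj hρ hρ8 hεd g1 g2'
  refine ⟨hdom, ?_⟩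
  obtain ⟨A, k, hA1, hA2, hk, hF⟩ := hS d a C kb e h0 ε N hs x hdom
  obtain ⟨hx0, hA0, hw⟩ := fg_pos hε0 hdom hA1 (fun j hj => (hk j hj).1)
  set P : ℝ := L ^ (-(a + 1)) with hP
  have hP0 : 0 < P := Real.rpow_pos_of_pos hL0 _
  set δ : ℝ := ε * ρ ^ (-(a + 1)) with hδ
  have hρn : 0 < ρ ^ (-(a + 1)) := Real.rpow_pos_of_pos hρ _
  have hδ0 : 0 < δ := by positivity
  have hδ1 : δ ≤ 1 / (24 * q ^ 2) := by
    rw [hδ, Real.rpow_neg hρ.le, ← div_eq_mul_inv, div_le_iff₀ hρg]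
    exact hε.trans (mul_le_mul_of_nonneg_right (min_le_left _ _) hρg.le)
  have hq2 : 1 ≤ q ^ 2 := one_le_pow₀ hq1
  have hsm : ε * N + δ ≤ 1 / (12 * q ^ 2) := by
    have : 1 / (12 * q ^ 2) = 1 / (24 * q ^ 2) + 1 / (24 * q ^ 2) := by field_simp; norm_num
    linarith
  have hsm1 : 1 / (12 * q ^ 2) ≤ 1 := by rw [div_le_one (by positivity)]; linarith
  -- size of x
  have n1 := fg_far (x := x) (L := L) he 0
  rw [sub_zero, zero_smul, sub_zero, abs_of_pos hL0] at n1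
  have n2 := norm_sub_norm_le x (L • e)
  rw [norm_smul, he, mul_one, Real.norm_eq_abs, abs_of_pos hL0] at n2
  have xup := fg_up (ρ := 1) (s := ‖x‖) hg hL0 one_pos (by linarith)
  have xlo := fg_lo (ρ := 1) (s := ‖x‖) hg hL0 one_pos (by linarith) (by linarith)
  rw [Real.one_rpow, one_mul, ← hq, ← hP] at xup xlo
  have rup := fg_up (s := ‖x - L • e‖) hg hL0 hρ (by linarith)
  have rlo := fg_lo (s := ‖x - L • e‖) hg hL0 hρ (by linarith) (by linarith)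
  rw [← hq, ← hP] at rup rlo
  obtain ⟨kj1, kj2⟩ := hk j hj
  rw [← hL] at kj1 kj2
  have wj2 : ε * k j ≤ δ * (3 / 2 * (q * P)) := by
    have : k j ≤ 3 / 2 * (q * (ρ ^ (-(a + 1)) * P)) := by linarith
    calc ε * k j ≤ ε * (3 / 2 * (q * (ρ ^ (-(a + 1)) * P))) :=
          mul_le_mul_of_nonneg_left this hε0.le
      _ = _ := by rw [hδ]; ring
  have wj1 : δ * P / (2 * q) ≤ ε * k j := by
    have : ρ ^ (-(a + 1)) * P / q / 2 ≤ k j := by linarith
    calc δ * P / (2 * q) = ε * (ρ ^ (-(a + 1)) * P / q / 2) := by rw [hδ]; field_simp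
      _ ≤ _ := mul_le_mul_of_nonneg_left this hε0.le
  have hqP : 0 < q * P := by positivity
  have hfar : ∀ i, i ≠ j → L / 2 ≤ ‖x - (4 : ℝ) ^ (i + 1) • e‖ := fun i h =>
    (fg_far2 he hL0 (by positivity) g2' (fg_sep h)).1
  have hB2 : ∑ i ∈ Finset.range N, ε * k i ≤ (ε * N + δ) * (3 / 2 * (q * P)) := by
    refine fg_sum hj (fun i => ε * k i) ?_ fun i hi h => ?_
    · have : 0 ≤ ε * (3 / 2 * (q * P)) := by positivity
      linarith
    · have h3 := fg_up (ρ := 1) hg hL0 one_pos (by simpa using hfar i h)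
      rw [Real.one_rpow, one_mul, ← hq, ← hP] at h3
      exact mul_le_mul_of_nonneg_left (by linarith [(hk i hi).2]) hε0.le
  have hR : ∑ i ∈ Finset.range N, ε * k i * ‖x - (4 : ℝ) ^ (i + 1) • e‖ ≤
      (ε * N + δ) * (3 / 2 * (q * P) * L) := by
    refine fg_sum hj (fun i => ε * k i * ‖x - (4 : ℝ) ^ (i + 1) • e‖) ?_ fun i hi h => ?_
    · have h3 : 0 ≤ ε * (3 / 2 * (q * P) * L) := by positivity
      have h4 : ε * k j * ‖x - L • e‖ ≤ δ * (3 / 2 * (q * P)) * L :=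
        mul_le_mul wj2 (by linarith) (norm_nonneg _) (by positivity)
      show ε * k j * ‖x - L • e‖ ≤ _
      linarith
    · have h3 := fg_up2 ha hL0 (hfar i h)
      rw [← hq, ← hP] at h3
      have h4 := mul_le_mul_of_nonneg_right (hk i hi).2
        (norm_nonneg (x - (4 : ℝ) ^ (i + 1) • e))
      show ε * k i * _ ≤ _
      rw [mul_assoc]
      exact mul_le_mul_of_nonneg_left (by linarith) hε0.le
  have hFlo : 1 / (8 * q) * (P * L) ≤ ‖Fld a C kb e ε N x‖ := by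
    have h3 : ‖∑ i ∈ Finset.range N, (ε * k i) • (x - (4 : ℝ) ^ (i + 1) • e)‖ ≤
        ∑ i ∈ Finset.range N, ε * k i * ‖x - (4 : ℝ) ^ (i + 1) • e‖ :=
      (norm_sum_le _ _).trans (Finset.sum_le_sum fun i hi => by
        rw [norm_smul, Real.norm_eq_abs, abs_of_nonneg (hw i hi)])
    have h4 := norm_sub_le (Fld a C kb e ε N x)
      (∑ i ∈ Finset.range N, (ε * k i) • (x - (4 : ℝ) ^ (i + 1) • e))
    have h5 : Fld a C kb e ε N x -
        ∑ i ∈ Finset.range N, (ε * k i) • (x - (4 : ℝ) ^ (i + 1) • e) = A • x := by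
      rw [hF]; abel
    rw [h5, norm_smul, Real.norm_eq_abs, abs_of_pos hA0] at h4
    have h6 : P / q / 2 * (L / 2) ≤ A * ‖x‖ :=
      mul_le_mul (by linarith) (by linarith) (by positivity) hA0.le
    have h7 : (ε * N + δ) * (3 / 2 * (q * P) * L) ≤ 1 / (12 * q ^ 2) * (3 / 2 * (q * P) * L) :=
      mul_le_mul_of_nonneg_right hsm (by positivity)
    have h8 : 1 / (12 * q ^ 2) * (3 / 2 * (q * P) * L) = 1 / (8 * q) * (P * L) := by
      field_simp; norm_num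
    have h9 : P / q / 2 * (L / 2) = 2 * (1 / (8 * q) * (P * L)) := by field_simp; norm_num
    linarith
  have hF0 : Fld a C kb e ε N x ≠ 0 := norm_pos_iff.mp (lt_of_lt_of_le (by positivity) hFlo)
  have hB : 0 ≤ ∑ i ∈ Finset.range N, ε * k i := Finset.sum_nonneg hw
  have hT : δ * P / (2 * q) * L ≤ ∑ i ∈ Finset.range N, ε * k i * (4 : ℝ) ^ (i + 1) :=
    (mul_le_mul_of_nonneg_right wj1 hL0.le).trans
      (Finset.single_le_sum (f := fun i => ε * k i * (4 : ℝ) ^ (i + 1))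
        (fun i hi => mul_nonneg (hw i hi) (by positivity)) (Finset.mem_range.mpr hj))
  have hAB : 0 < A + ∑ i ∈ Finset.range N, ε * k i := by linarith
  have hAB2 : A + ∑ i ∈ Finset.range N, ε * k i ≤ 3 * (q * P) := by
    have : (ε * N + δ) * (3 / 2 * (q * P)) ≤ 1 * (3 / 2 * (q * P)) :=
      mul_le_mul_of_nonneg_right (by linarith) (by positivity)
    linarith
  rw [fg_factor x e A (fun j => ε * k j) (fun j => (4 : ℝ) ^ (j + 1)) N hAB.ne'] at hF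
  set S := A + ∑ i ∈ Finset.range N, ε * k i with hSdef
  set t := (∑ i ∈ Finset.range N, ε * k i * (4 : ℝ) ^ (i + 1)) / S with ht
  set t₀ := δ / (6 * q ^ 2) with ht₀
  have ht₀0 : 0 < t₀ := by positivity
  have ht₀1 : t₀ ≤ 1 / 2 := by
    rw [ht₀, div_le_iff₀ (by positivity)]
    have : 0 ≤ ε * N := by positivity
    linarith
  have htt : t₀ * L ≤ t := by
    rw [ht, le_div_iff₀ hAB]
    refine le_trans ?_ hT
    calc t₀ * L * S ≤ t₀ * L * (3 * (q * P)) := mul_le_mul_of_nonneg_left hAB2 (by positivity)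
      _ = _ := by rw [ht₀]; field_simp; norm_num
  have ht0 : 0 ≤ t := le_trans (by positivity) htt
  have hne : x - t • e ≠ 0 := by intro h; rw [h, smul_zero] at hF; exact hF0 hF
  obtain ⟨-, m2⟩ := mono x t hx0 ht0 hne
  have hne2 : x - (t₀ * L) • e ≠ 0 := by
    intro h
    have h3 : ‖x‖ = t₀ * L := by
      rw [sub_eq_zero.mp h, norm_smul, he, mul_one, Real.norm_eq_abs, abs_of_pos (by positivity)]
    have := mul_le_mul_of_nonneg_right ht₀1 hL0.le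
    linarith
  have e3 : x - (t₀ * L) • e - (t - t₀ * L) • e = x - t • e := by rw [sub_smul]; abel
  obtain ⟨m1, -⟩ := mono (x - (t₀ * L) • e) (t - t₀ * L) hne2 (by linarith) (by rwa [e3])
  rw [e3] at m1
  have hLi : 0 < L⁻¹ := inv_pos.mpr hL0
  have s1 : ∀ r : ℝ, L⁻¹ • x - r • e = L⁻¹ • (x - (r * L) • e) := fun r => by
    rw [smul_sub, smul_smul]; congr 2; field_simp
  have gn := gain (L⁻¹ • x) t₀ (by
    have := s1 1
    rw [one_smul, one_mul] at this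
    rw [this, norm_smul, Real.norm_eq_abs, abs_of_pos hLi, inv_mul_le_iff₀ hL0]
    linarith) ht₀0.le ht₀1
  rw [s1 t₀, hom _ _ hLi, hom _ _ hLi] at gn
  have g4 : 1 / 2 * ρ ≤ ‖L⁻¹ • x - (inner ℝ (L⁻¹ • x) e : ℝ) • e‖ := by
    rw [real_inner_smul_left, ← smul_smul, ← smul_sub, norm_smul, Real.norm_eq_abs,
      abs_of_pos hLi, le_inv_mul_iff₀ hL0]
    linarith
  have g5 := Real.rpow_le_rpow (by positivity) g4 hb.le
  rw [Real.mul_rpow (by norm_num) hρ.le] at g5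
  have g6 := mul_le_mul_of_nonneg_left g5 (show 0 ≤ c * t₀ by positivity)
  have g7 := Real.rpow_le_rpow (by positivity) hFlo hp.le
  have e4 : (P * L) ^ ((d : ℝ) / a) = (L ^ d)⁻¹ := by
    rw [hP, show -(a + 1) = -a - 1 by ring, Real.rpow_sub_one hL0.ne', div_mul_cancel₀ _ hL0.ne',
      ← Real.rpow_mul hL0.le, show -a * ((d : ℝ) / a) = -(d : ℝ) by field_simp,
      Real.rpow_neg hL0.le, Real.rpow_natCast]
  have e5 : ρ ^ (-(a + 1)) * ρ ^ (a + 1 - d) = (ρ ^ d)⁻¹ := by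
    rw [← Real.rpow_add hρ, show -(a + 1) + (a + 1 - d) = -(d : ℝ) by ring,
      Real.rpow_neg hρ.le, Real.rpow_natCast]
  rw [Real.mul_rpow (by positivity) (by positivity), e4] at g7
  have hρb : 0 < ρ ^ (a + 1 - d) := Real.rpow_pos_of_pos hρ _
  have e6 : (1 / (8 * q)) ^ ((d : ℝ) / a) * (c * (1 / 2 : ℝ) ^ (a + 1 - d) / (6 * q ^ 2)) * ε /
      (L * ρ) ^ d = ((1 / (8 * q)) ^ ((d : ℝ) / a) * (L ^ d)⁻¹) *
        (c * t₀ * ((1 / 2 : ℝ) ^ (a + 1 - d) * ρ ^ (a + 1 - d))) := by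
    rw [mul_pow, div_eq_mul_inv _ (L ^ d * ρ ^ d), mul_inv, ← e5, ht₀, hδ]
    ring
  have g8 := mul_le_mul_of_nonneg_right g7
    (show 0 ≤ c * t₀ * ((1 / 2 : ℝ) ^ (a + 1 - d) * ρ ^ (a + 1 - d)) by positivity)
  rw [e6]
  refine (add_le_add le_rfl g8).trans ?_
  unfold PhiE
  rw [← mul_add]
  refine mul_le_mul_of_nonneg_left ?_ (Real.rpow_nonneg (norm_nonneg _) _)
  rw [hF, ← smul_neg, hom _ _ hAB, hom _ _ hAB]
  linarith

end Pool.Agent.MP_40db9a_an.H47
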