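import Pool.Agent.MP_40db9a_an.H47.Spec2

/-!
Rows FR and FO of the failure example: the field comes from a test function, and the part of
the integral outside the domain is bounded.
-/

open MeasureTheory Set

namespace Pool.Agent.MP_40db9a_an.H47

variable {d : ℕ}

theorem fo_eta_pow (hd : 2 ≤ d) {ε : ℝ} (hε : 0 < ε) : (ε ^ (1 / (d : ℝ))) ^ d = ε := by
  have h : d ≠ 0 := by omega
  rw [one_div]
  exact Real.rpow_inv_natCast_pow hε.le h

theorem fo_eta_le (hd : 2 ≤ d) {ε : ℝ} (hε : 0 < ε) (h : ε ≤ (1 / 2) ^ d) :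
    ε ^ (1 / (d : ℝ)) ≤ 1 / 2 := by
  have h0 : d ≠ 0 := by omega
  have h1 : (ε ^ (1 / (d : ℝ))) ^ d ≤ (1 / 2 : ℝ) ^ d := by rw [fo_eta_pow hd hε]; exact h
  exact (pow_le_pow_iff_left₀ (Real.rpow_nonneg hε.le _) (by norm_num) h0).1 h1

theorem fo_one_le {a C : ℝ} (ha : 0 < a) (hC : 1 ≤ C) : 1 ≤ (8 * C) ^ (1 / a) :=
  Real.one_le_rpow (by linarith) (by positivity)

theorem fo_a_pos {a C : ℝ} {kb : ℝ → E d → E d} {e : E d} (h : Set0 a C kb e) : 0 < a := by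
  obtain ⟨hd, h1, -⟩ := h
  have : (2 : ℝ) ≤ d := by exact_mod_cast hd
  linarith

theorem sFR : S_FR := by
  intro d a C kb e h0 ε N hS
  have ha := fo_a_pos h0
  obtain ⟨hd, -, -, hC, hR, he⟩ := h0
  obtain ⟨hε, hεN, hεd⟩ := hS
  have hη := fo_eta_le hd hε hεd
  have hη0 : 0 < ε ^ (1 / (d : ℝ)) := Real.rpow_pos_of_pos hε _
  have h8 := fo_one_le ha hC
  have hC0 : 0 < C := by linarith
  have h4 : (1 : ℝ) ≤ 4 ^ (N + 1) := one_le_pow₀ (by norm_num)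
  have hR1 : (4 : ℝ) ^ (N + 1) ≤ (8 * C) ^ (1 / a) * 4 ^ (N + 1) :=
    le_mul_of_one_le_left (by positivity) h8
  let c : Option (Option (Fin N)) → ℝ := fun i =>
    match i with
    | none => 1
    | some none => -(1 + ε * N)
    | some (some _) => ε
  let τ : Option (Option (Fin N)) → ℝ := fun i =>
    match i with
    | none => 1 / (4 * C)
    | some none => (8 * C) ^ (1 / a) * 4 ^ (N + 1)
    | some (some j) => ε ^ (1 / (d : ℝ)) / (2 * C) * 4 ^ ((j : ℕ) + 1)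
  let y : Option (Option (Fin N)) → E d := fun i =>
    match i with
    | none => 0
    | some none => 0
    | some (some j) => (4 : ℝ) ^ ((j : ℕ) + 1) • e
  have hcond : ∀ i, 0 < τ i ∧ ‖y i‖ + τ i ≤ (8 * C) ^ (1 / a) * 4 ^ (N + 1) := by
    intro i
    rcases i with _ | _ | j
    · refine ⟨by simp only [τ]; positivity, ?_⟩
      have : 1 / (4 * C) ≤ 1 := by rw [div_le_one (by positivity)]; linarith
      simp only [τ, y, norm_zero, zero_add]
      linarith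
    · refine ⟨by simp only [τ]; positivity, ?_⟩
      simp only [τ, y, norm_zero, zero_add, le_refl]
    · refine ⟨by simp only [τ]; positivity, ?_⟩
      have hj : (4 : ℝ) ^ ((j : ℕ) + 1) ≤ 4 ^ N := pow_le_pow_right₀ (by norm_num) j.2
      have hq : ε ^ (1 / (d : ℝ)) / (2 * C) ≤ 1 := by rw [div_le_one (by positivity)]; linarith
      have hp : (0 : ℝ) < 4 ^ ((j : ℕ) + 1) := by positivity
      have hn : ‖(4 : ℝ) ^ ((j : ℕ) + 1) • e‖ = 4 ^ ((j : ℕ) + 1) := by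
        rw [norm_smul, he, mul_one, Real.norm_of_nonneg hp.le]
      have h5 : ε ^ (1 / (d : ℝ)) / (2 * C) * 4 ^ ((j : ℕ) + 1) ≤ 4 ^ ((j : ℕ) + 1) :=
        mul_le_of_le_one_left hp.le hq
      have h6 : (4 : ℝ) ^ (N + 1) = 4 * 4 ^ N := by ring
      have h7 : (0 : ℝ) < 4 ^ N := by positivity
      simp only [τ, y, hn]
      linarith
  obtain ⟨f, hf, hfc, hfs, hf0, hf1, hfv⟩ := hR.2 (Option (Option (Fin N))) c τ y _ hcond
  have hN0 : (0 : ℝ) ≤ ε * N := by positivity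
  refine ⟨f, hf, hfc, hfs, ?_, ?_, fun x => ?_⟩
  · rw [hf0]
    simp only [Fintype.sum_option, c, Finset.sum_const, Finset.card_univ, Fintype.card_fin,
      nsmul_eq_mul]
    ring
  · refine hf1.trans ?_
    simp only [Fintype.sum_option, c, Finset.sum_const, Finset.card_univ, Fintype.card_fin,
      nsmul_eq_mul, abs_neg, abs_one, abs_of_pos hε, abs_of_nonneg (by linarith : 0 ≤ 1 + ε * N)]
    linarith
  · rw [hfv x]
    simp only [Fintype.sum_option, c, τ, y, sub_zero, one_smul, neg_smul, Fld]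
    rw [Fin.sum_univ_eq_sum_range (fun j : ℕ =>
      ε • kb (ε ^ (1 / (d : ℝ)) / (2 * C) * 4 ^ (j + 1)) (x - (4 : ℝ) ^ (j + 1) • e)) N]
    abel

/-- volume of the unit ball -/
noncomputable def fo_V (d : ℕ) : ℝ := (volume (Metric.ball (0 : E d) 1)).toReal

theorem fo_V_nonneg (d : ℕ) : 0 ≤ fo_V d := ENNReal.toReal_nonneg

theorem fo_piece (g : E d → ℝ) (S : Set (E d)) (c : E d) (r K : ℝ) (hr : 0 ≤ r) (hK : 0 ≤ K)
    (hS : S ⊆ Metric.closedBall c r) (hg : ∀ x ∈ S, g x ≤ K) :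
    ∫⁻ x in S, ENNReal.ofReal (g x) ≤ ENNReal.ofReal (K * r ^ d * fo_V d) := by
  have h1 : ∫⁻ x in S, ENNReal.ofReal (g x) ≤ ∫⁻ _ in S, ENNReal.ofReal K :=
    setLIntegral_mono measurable_const fun x hx => ENNReal.ofReal_le_ofReal (hg x hx)
  refine h1.trans ?_
  rw [setLIntegral_const]
  have h2 : volume S ≤ ENNReal.ofReal (r ^ d * fo_V d) := by
    refine (measure_mono hS).trans ?_
    rw [Measure.addHaar_closedBall volume c hr, finrank_euclideanSpace_fin,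
      ENNReal.ofReal_mul (by positivity), fo_V, ENNReal.ofReal_toReal measure_ball_lt_top.ne]
  rw [mul_assoc, ENNReal.ofReal_mul hK]
  gcongr

/-- the upper bound raised to the power `d / a` -/
theorem fo_sup {a C₁ m : ℝ} (ha : 0 < a) (hC : 0 < C₁) (hm : 0 < m) {v x : E d}
    (hv : ‖v‖ ≤ C₁ * (max ‖x‖ 1) ^ (-a)) (hx : m ≤ max ‖x‖ 1) :
    ‖v‖ ^ ((d : ℝ) / a) ≤ C₁ ^ ((d : ℝ) / a) / m ^ d := by
  have hp : 0 ≤ (d : ℝ) / a := by positivity
  have h1 : ‖v‖ ≤ C₁ * m ^ (-a) :=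
    hv.trans (mul_le_mul_of_nonneg_left
      (Real.rpow_le_rpow_of_nonpos hm hx (by linarith)) hC.le)
  refine (Real.rpow_le_rpow (norm_nonneg _) h1 hp).trans (le_of_eq ?_)
  rw [Real.mul_rpow hC.le (Real.rpow_nonneg hm.le _), ← Real.rpow_mul hm.le,
    show -a * ((d : ℝ) / a) = -(d : ℝ) by field_simp, Real.rpow_neg hm.le, Real.rpow_natCast]
  rfl

theorem fo_cover (e : E d) (ε R : ℝ) (N : ℕ) :
    (Dom e ε N)ᶜ ⊆ Metric.closedBall 0 1 ∪
      ((⋃ j : Fin N, Metric.closedBall ((4 : ℝ) ^ ((j : ℕ) + 1) • e)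
          (ε ^ (1 / (d : ℝ)) * 4 ^ ((j : ℕ) + 1))) ∪
        ((⋃ j : Fin N, Metric.closedBall (-((4 : ℝ) ^ ((j : ℕ) + 1) • e))
          (ε ^ (1 / (d : ℝ)) * 4 ^ ((j : ℕ) + 1))) ∪
          ({x | 4 ^ (N + 1) ≤ ‖x‖ ∧ ‖x‖ ≤ 2 * R} ∪ {x | 2 * R ≤ ‖x - 0‖}))) := by
  intro x hx
  by_contra hn
  simp only [mem_union, mem_iUnion, Metric.mem_closedBall, dist_eq_norm, mem_setOf_eq, not_or,
    not_exists, not_le, not_and, sub_zero, sub_neg_eq_add] at hn
  obtain ⟨h1, h2, h3, h4, h5⟩ := hn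
  refine hx ⟨h1.le, ?_, fun j hj => ⟨(h2 ⟨j, hj⟩).le, (h3 ⟨j, hj⟩).le⟩⟩
  by_contra h6
  have := h4 (not_le.1 h6).le
  linarith

/-- the small balls -/
theorem fo_balls (hd : 2 ≤ d) {a C₁ ε : ℝ} {N : ℕ} (ha : 0 < a) (hC : 0 < C₁) (hS : Small d ε N)
    (W : E d → E d) (hW : ∀ x, ‖W x‖ ≤ C₁ * (max ‖x‖ 1) ^ (-a)) (c : Fin N → E d)
    (hc : ∀ j, ‖c j‖ = 4 ^ ((j : ℕ) + 1)) :
    ∫⁻ x in ⋃ j : Fin N, Metric.closedBall (c j) (ε ^ (1 / (d : ℝ)) * 4 ^ ((j : ℕ) + 1)),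
      ENNReal.ofReal (‖W x‖ ^ ((d : ℝ) / a)) ≤
      ENNReal.ofReal (C₁ ^ ((d : ℝ) / a) * 2 ^ d * fo_V d) := by
  obtain ⟨hε, hεN, hεd⟩ := hS
  have hη := fo_eta_le hd hε hεd
  have hη0 : 0 < ε ^ (1 / (d : ℝ)) := Real.rpow_pos_of_pos hε _
  have hK : 0 < C₁ ^ ((d : ℝ) / a) := Real.rpow_pos_of_pos hC _
  have hV := fo_V_nonneg d
  have hj : ∀ j : Fin N,
      ∫⁻ x in Metric.closedBall (c j) (ε ^ (1 / (d : ℝ)) * 4 ^ ((j : ℕ) + 1)),
        ENNReal.ofReal (‖W x‖ ^ ((d : ℝ) / a)) ≤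
        ENNReal.ofReal (ε * (C₁ ^ ((d : ℝ) / a) * 2 ^ d * fo_V d)) := by
    intro j
    have hp : (0 : ℝ) < 4 ^ ((j : ℕ) + 1) := by positivity
    refine (fo_piece (fun x => ‖W x‖ ^ ((d : ℝ) / a)) _ (c j) _
      (C₁ ^ ((d : ℝ) / a) / (4 ^ ((j : ℕ) + 1) / 2) ^ d) (by positivity) (by positivity)
      subset_rfl fun x hx => ?_).trans (le_of_eq ?_)
    · refine fo_sup ha hC (by positivity) (hW x) (le_max_of_le_left ?_)
      rw [Metric.mem_closedBall, dist_eq_norm] at hx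
      have h1 : ‖c j‖ ≤ ‖x‖ + ‖x - c j‖ := by
        calc ‖c j‖ = ‖x - (x - c j)‖ := by rw [sub_sub_cancel]
          _ ≤ ‖x‖ + ‖x - c j‖ := norm_sub_le _ _
      have h2 : ε ^ (1 / (d : ℝ)) * 4 ^ ((j : ℕ) + 1) ≤ 1 / 2 * 4 ^ ((j : ℕ) + 1) :=
        mul_le_mul_of_nonneg_right hη hp.le
      rw [hc j] at h1
      linarith
    · congr 1
      rw [mul_pow, fo_eta_pow hd hε, div_pow]
      field_simp
  refine (lintegral_iUnion_le _ _).trans ?_
  rw [tsum_fintype]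
  refine (Finset.sum_le_sum fun j _ => hj j).trans ?_
  rw [Finset.sum_const, Finset.card_univ, Fintype.card_fin, nsmul_eq_mul,
    ← ENNReal.ofReal_natCast, ← ENNReal.ofReal_mul (Nat.cast_nonneg _)]
  refine ENNReal.ofReal_le_ofReal ?_
  rw [← mul_assoc, mul_comm (N : ℝ) ε]
  exact mul_le_of_le_one_left (by positivity) hεN

theorem sFO (hI : S_Int) (hD : S_Decay) (hU : S_FU) : S_FO := by
  intro d a C kb e h0
  have ha := fo_a_pos h0
  obtain ⟨C₁, hC₁, hU⟩ := hU d a C kb e h0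
  have hFR := sFR d a C kb e h0
  obtain ⟨hd, -, had, hC, -, he⟩ := h0
  obtain ⟨⟨CD, hCD, hD⟩, -⟩ := hD d a ha had
  have hd0 : (0 : ℝ) < d := by linarith
  have hp : 0 < (d : ℝ) / a := by positivity
  obtain ⟨CI, hCI, hI, -⟩ :=
    (hI d (by omega) ((d : ℝ) + d / a) (by positivity)).2 (by linarith)
  have h8 := fo_one_le ha hC
  have hK : 0 < C₁ ^ ((d : ℝ) / a) := Real.rpow_pos_of_pos hC₁ _
  have hV := fo_V_nonneg d
  have hT : 0 < (2 * CD) ^ ((d : ℝ) / a) * CI := by positivity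
  refine ⟨C₁ ^ ((d : ℝ) / a) * fo_V d + (C₁ ^ ((d : ℝ) / a) * 2 ^ d * fo_V d +
    (C₁ ^ ((d : ℝ) / a) * 2 ^ d * fo_V d +
      (C₁ ^ ((d : ℝ) / a) * (2 * (8 * C) ^ (1 / a)) ^ d * fo_V d +
        (2 * CD) ^ ((d : ℝ) / a) * CI))), by positivity, fun ε N hS => ?_⟩
  obtain ⟨f, hf, hfc, hfs, hf0, hf1, hfv⟩ := hFR ε N hS
  have hW := hU ε N hS
  have h4 : (0 : ℝ) < 4 ^ (N + 1) := by positivity
  have hR : (0 : ℝ) < (8 * C) ^ (1 / a) * 4 ^ (N + 1) := by positivity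
  have hn : ∀ j : ℕ, ‖(4 : ℝ) ^ (j + 1) • e‖ = 4 ^ (j + 1) := fun j => by
    rw [norm_smul, he, mul_one, Real.norm_of_nonneg (by positivity)]
  refine (lintegral_mono_set (fo_cover e ε ((8 * C) ^ (1 / a) * 4 ^ (N + 1)) N)).trans ?_
  rw [ENNReal.ofReal_add (by positivity) (by positivity)]
  refine (lintegral_union_le _ _ _).trans (add_le_add ?_ ?_)
  · refine (fo_piece (fun x => ‖Fld a C kb e ε N x‖ ^ ((d : ℝ) / a)) _ 0 1
      (C₁ ^ ((d : ℝ) / a) / 1 ^ d) zero_le_one (by positivity) subset_rfl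
      fun x _ => fo_sup ha hC₁ one_pos (hW x) (le_max_right _ _)).trans (le_of_eq ?_)
    simp
  rw [ENNReal.ofReal_add (by positivity) (by positivity)]
  refine (lintegral_union_le _ _ _).trans (add_le_add ?_ ?_)
  · exact fo_balls hd ha hC₁ hS _ hW (fun j => (4 : ℝ) ^ ((j : ℕ) + 1) • e) fun j => hn j
  rw [ENNReal.ofReal_add (by positivity) (by positivity)]
  refine (lintegral_union_le _ _ _).trans (add_le_add ?_ ?_)
  · exact fo_balls hd ha hC₁ hS _ hW (fun j => -((4 : ℝ) ^ ((j : ℕ) + 1) • e)) fun j => by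
      rw [norm_neg, hn j]
  rw [ENNReal.ofReal_add (by positivity) (by positivity)]
  refine (lintegral_union_le _ _ _).trans (add_le_add ?_ ?_)
  · refine (fo_piece (fun x => ‖Fld a C kb e ε N x‖ ^ ((d : ℝ) / a)) _ 0
      (2 * ((8 * C) ^ (1 / a) * 4 ^ (N + 1)))
      (C₁ ^ ((d : ℝ) / a) / (4 ^ (N + 1)) ^ d) (by positivity) (by positivity)
      (fun x hx => mem_closedBall_zero_iff.2 hx.2)
      fun x hx => fo_sup ha hC₁ h4 (hW x) (le_max_of_le_left hx.1)).trans (le_of_eq ?_)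
    congr 1
    rw [← mul_assoc 2, mul_pow (2 * (8 * C) ^ (1 / a))]
    field_simp
  · generalize (8 * C) ^ (1 / a) * 4 ^ (N + 1) = R at hR hfs ⊢
    have hm : MeasurableSet {x : E d | 2 * R ≤ ‖x - 0‖} :=
      measurableSet_le measurable_const (by fun_prop)
    have hb : ∀ x ∈ {x : E d | 2 * R ≤ ‖x - 0‖},
        ENNReal.ofReal (‖Fld a C kb e ε N x‖ ^ ((d : ℝ) / a)) ≤
          ENNReal.ofReal ((4 * CD * R) ^ ((d : ℝ) / a)) *
            ENNReal.ofReal (‖x - 0‖ ^ (-((d : ℝ) + d / a))) := by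
      intro x hx
      rw [mem_setOf_eq, sub_zero] at hx
      have hx0 : 0 < ‖x‖ := by linarith
      rw [← ENNReal.ofReal_mul (by positivity), sub_zero]
      refine ENNReal.ofReal_le_ofReal ?_
      have h1 : ‖Fld a C kb e ε N x‖ ≤ 4 * CD * R * ‖x‖ ^ (-(a + 1)) := by
        rw [← hfv x]
        refine (hD f R hf.continuous hfc hR hfs hf0 x hx).trans ?_
        have h2 : 0 ≤ CD * R * ‖x‖ ^ (-(a + 1)) := by positivity
        calc CD * R * ‖x‖ ^ (-(a + 1)) * ∫ z, |f z| ≤ CD * R * ‖x‖ ^ (-(a + 1)) * 4 :=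
              mul_le_mul_of_nonneg_left hf1 h2
          _ = 4 * CD * R * ‖x‖ ^ (-(a + 1)) := by ring
      refine (Real.rpow_le_rpow (norm_nonneg _) h1 hp.le).trans (le_of_eq ?_)
      rw [Real.mul_rpow (by positivity) (by positivity), ← Real.rpow_mul hx0.le,
        show -(a + 1) * ((d : ℝ) / a) = -((d : ℝ) + d / a) by field_simp]
    refine (setLIntegral_mono' hm hb).trans ?_
    rw [lintegral_const_mul' _ _ ENNReal.ofReal_ne_top]
    refine (mul_le_mul_right (hI 0 (2 * R) (by positivity)) _).trans ?_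
    rw [← ENNReal.ofReal_mul (by positivity)]
    refine ENNReal.ofReal_le_ofReal (le_of_eq ?_)
    have h3 : (4 * CD * R) = (2 * CD) * (2 * R) := by ring
    have h5 : 0 < (2 * R) ^ ((d : ℝ) / a) := by positivity
    rw [h3, Real.mul_rpow (by positivity) (by positivity),
      show (d : ℝ) - (d + d / a) = -(d / a) by ring, Real.rpow_neg (by positivity)]
    field_simp

end Pool.Agent.MP_40db9a_an.H47
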