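import Pool.Agent.MP_40db9a_an.H47.Spec2

open MeasureTheory Set

namespace Pool.Agent.MP_40db9a_an.H47

variable {d : ℕ}

lemma fail_dom_meas (e : E d) (ε : ℝ) (N : ℕ) : MeasurableSet (Dom e ε N) := by
  have : Dom e ε N = {x : E d | 1 ≤ ‖x‖} ∩ ({x : E d | ‖x‖ ≤ 4 ^ (N + 1)} ∩
      ⋂ j : ℕ, ⋂ _ : j < N,
        ({x : E d | ε ^ (1 / (d : ℝ)) * 4 ^ (j + 1) ≤ ‖x - (4 : ℝ) ^ (j + 1) • e‖} ∩
        {x : E d | ε ^ (1 / (d : ℝ)) * 4 ^ (j + 1) ≤ ‖x + (4 : ℝ) ^ (j + 1) • e‖})) := by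
    ext x; simp [Dom]
  rw [this]
  refine IsClosed.measurableSet ?_
  refine (isClosed_le continuous_const continuous_norm).inter
    ((isClosed_le continuous_norm continuous_const).inter
      (isClosed_iInter fun j => isClosed_iInter fun _ => ?_))
  exact (isClosed_le continuous_const (by fun_prop)).inter
    (isClosed_le continuous_const (by fun_prop))

lemma fail_ball {e u x : E d} (he : ‖e‖ = 1) (hu : ‖u‖ = 1) {l ρ : ℝ} (hl : 0 < l) (hρ : 0 < ρ)
    (hρ8 : ρ ≤ 1 / 8) (hx : x ∈ Metric.ball (l • (e + ρ • u)) (l * ρ / 4)) :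
    3 / 4 * (l * ρ) < ‖x - l • e‖ ∧ ‖x - l • e‖ < 5 / 4 * (l * ρ) ∧
      27 / 32 * l < ‖x‖ ∧ ‖x‖ < 37 / 32 * l := by
  rw [mem_ball_iff_norm] at hx
  have h1 : ‖(l * ρ) • u‖ = l * ρ := by
    rw [norm_smul, hu, mul_one, Real.norm_eq_abs, abs_of_pos (by positivity)]
  have h2 : ‖l • e‖ = l := by
    rw [norm_smul, he, mul_one, Real.norm_eq_abs, abs_of_pos hl]
  have e1 : x - l • e = (x - l • (e + ρ • u)) + (l * ρ) • u := by
    rw [smul_add, smul_smul]; abel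
  have e2 : (l * ρ) • u = (x - l • e) - (x - l • (e + ρ • u)) := by rw [e1]; abel
  have a1 : ‖x - l • e‖ ≤ ‖x - l • (e + ρ • u)‖ + l * ρ := by
    rw [e1]; exact (norm_add_le _ _).trans (by rw [h1])
  have a2 : l * ρ ≤ ‖x - l • e‖ + ‖x - l • (e + ρ • u)‖ := by
    rw [← h1, e2]; exact norm_sub_le _ _
  have a3 : ‖x‖ ≤ ‖x - l • e‖ + l := by
    calc ‖x‖ = ‖(x - l • e) + l • e‖ := by rw [sub_add_cancel]
      _ ≤ _ := (norm_add_le _ _).trans (by rw [h2])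
  have a4 : l ≤ ‖x‖ + ‖x - l • e‖ := by
    calc l = ‖x - (x - l • e)‖ := by rw [sub_sub_cancel, h2]
      _ ≤ _ := norm_sub_le _ _
  have a5 : l * ρ ≤ l / 8 := by nlinarith
  refine ⟨by linarith, by linarith, by linarith, by linarith⟩

lemma fail_disj {e u : E d} (he : ‖e‖ = 1) (hu : ‖u‖ = 1) :
    Pairwise (Function.onFun Disjoint fun q : ℕ × ℕ =>
      Metric.ball ((4 : ℝ) ^ (q.1 + 1) • (e + ((1 / 2 : ℝ) ^ (q.2 + 3)) • u))
        (4 ^ (q.1 + 1) * (1 / 2 : ℝ) ^ (q.2 + 3) / 4)) := by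
  have hρ : ∀ i : ℕ, (1 / 2 : ℝ) ^ (i + 3) ≤ 1 / 8 := fun i => by
    rw [pow_add]
    have : (1 / 2 : ℝ) ^ i ≤ 1 := pow_le_one₀ (by norm_num) (by norm_num)
    nlinarith
  have key : ∀ q q' : ℕ × ℕ, (q.1 < q'.1 ∨ (q.1 = q'.1 ∧ q.2 < q'.2)) → ∀ x : E d,
      x ∈ Metric.ball ((4 : ℝ) ^ (q.1 + 1) • (e + ((1 / 2 : ℝ) ^ (q.2 + 3)) • u))
        (4 ^ (q.1 + 1) * (1 / 2 : ℝ) ^ (q.2 + 3) / 4) →
      x ∈ Metric.ball ((4 : ℝ) ^ (q'.1 + 1) • (e + ((1 / 2 : ℝ) ^ (q'.2 + 3)) • u))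
        (4 ^ (q'.1 + 1) * (1 / 2 : ℝ) ^ (q'.2 + 3) / 4) → False := by
    intro q q' h x h1 h2
    have b1 := fail_ball he hu (by positivity) (by positivity) (hρ _) h1
    have b2 := fail_ball he hu (by positivity) (by positivity) (hρ _) h2
    rcases h with h | ⟨h, h'⟩
    · have : (4 : ℝ) ^ (q.1 + 1 + 1) ≤ 4 ^ (q'.1 + 1) :=
        pow_le_pow_right₀ (by norm_num) (by omega)
      rw [pow_succ] at this
      have h0 : (0 : ℝ) < 4 ^ (q.1 + 1) := by positivity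
      linarith [b1.2.2.2, b2.2.2.1]
    · rw [← h] at b2
      have : (1 / 2 : ℝ) ^ (q'.2 + 3) ≤ (1 / 2) ^ (q.2 + 3 + 1) :=
        pow_le_pow_of_le_one (by norm_num) (by norm_num) (by omega)
      rw [pow_succ _ (q.2 + 3)] at this
      have h0 : (0 : ℝ) < 4 ^ (q.1 + 1) := by positivity
      have h3 : (0 : ℝ) < (1 / 2) ^ (q.2 + 3) := by positivity
      have h4 := mul_le_mul_of_nonneg_left this h0.le
      have h5 := mul_pos h0 h3
      linarith [b1.1, b2.2.1]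
  intro q q' hne
  rw [Function.onFun, Set.disjoint_left]
  intro x h1 h2
  rcases lt_trichotomy q.1 q'.1 with h | h | h
  · exact key q q' (Or.inl h) x h1 h2
  · rcases lt_trichotomy q.2 q'.2 with h' | h' | h'
    · exact key q q' (Or.inr ⟨h, h'⟩) x h1 h2
    · exact hne (Prod.ext h h')
    · exact key q' q (Or.inr ⟨h.symm, h'⟩) x h2 h1
  · exact key q' q (Or.inl h) x h2 h1

theorem sFail (hC : S_Conv) (hD : S_Decay) (hR : S_Rad) (hA : S_Alg) (hM : S_FM) (hG : S_FG)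
    (hFR : S_FR) (hO : S_FO) (hFD : S_FD) : S_Fail := by
  intro d hd a ha1 had
  have hd2 : (2 : ℝ) ≤ d := by exact_mod_cast hd
  have ha : 0 < a := by linarith
  set e : E d := EuclideanSpace.single ⟨0, by omega⟩ 1 with he_def
  set u : E d := EuclideanSpace.single ⟨1, by omega⟩ 1 with hu_def
  have he : ‖e‖ = 1 := by simp [he_def]
  have hu : ‖u‖ = 1 := by simp [hu_def]
  have hue : (inner ℝ u e : ℝ) = 0 := by
    simp [he_def, hu_def, EuclideanSpace.inner_single_left]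
  refine ⟨e, he, ?_⟩
  rintro ⟨K, hK⟩
  obtain ⟨C, kb, hC1, hRad⟩ := hR d a ha had
  have hS : Set0 a C kb e := ⟨hd, ha1, had, hC1, hRad, he⟩
  obtain ⟨c₂, c₃, c₄, hc₂, hc₃, hc₄, hgain⟩ := hG d a C kb e hS
  obtain ⟨C₂, hC₂, hout⟩ := hO d a C kb e hS
  obtain ⟨C₃, hC₃, hodd⟩ := hFD d a C kb e hS
  obtain ⟨c, -, hc⟩ := hA d (a + 1 - d) (by linarith) (by linarith)
  obtain ⟨hmeas, hbd, -⟩ := hc e he
  set p : ℝ := (d : ℝ) / a with hp
  have hp0 : 0 < p := by positivity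
  set c' : ℝ := min c₂ 1 with hc'
  have hc'0 : 0 < c' := lt_min hc₂ one_pos
  set V : ℝ := (volume : Measure (E d)).real (Metric.ball 0 1) with hV
  have hV0 : 0 < V := ENNReal.toReal_pos (Metric.measure_ball_pos _ _ one_pos).ne'
    measure_ball_lt_top.ne
  set c₅ : ℝ := c₄ * c' * V / 4 ^ d with hc₅
  have hc₅0 : 0 < c₅ := by positivity
  obtain ⟨m, hm⟩ := exists_nat_gt ((|K| * 4 ^ p + 2 * C₂ + C₃) / c₅)
  rw [div_lt_iff₀ hc₅0] at hm
  set δ : ℝ := min ((1 / 2) ^ d) (c₃ * ((1 / 2 : ℝ) ^ (m + 3)) ^ (a + 1)) with hδ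
  have hδ0 : 0 < δ := lt_min (by positivity) (by positivity)
  obtain ⟨N, hN⟩ := exists_nat_gt (c' / δ)
  have hN0 : (0 : ℝ) < N := lt_trans (by positivity) hN
  set ε : ℝ := c' / N with hε
  have hε0 : 0 < ε := by positivity
  have hεN : ε * N = c' := by rw [hε]; field_simp
  have hεδ : ε ≤ δ := by
    rw [hε, div_le_iff₀ hN0]
    rw [div_lt_iff₀ hδ0] at hN
    linarith
  have hSm : Small d ε N := ⟨hε0, hεN ▸ min_le_right _ _, hεδ.trans (min_le_left _ _)⟩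
  obtain ⟨f, hf, hfc, -, hf0, hf4, hfF⟩ := hFR d a C kb e hS ε N hSm
  set F : E d → E d := Fld a C kb e ε N with hF
  have hFe : conv (Kr a) f = F := funext hfF
  have hl : LocallyIntegrable (Kr a : E d → E d) := by
    rw [← Kc_zero]; exact (hC d).1 a 0 ha had le_rfl
  have hFc : Continuous F := hFe ▸ (((hC d).2 _ hl).2 f hf.continuous hfc).2.1
  have hFi : Integrable fun x => ‖F x‖ ^ p := by
    have := (hD d a ha had).2 f hf.continuous hfc hf0
    rwa [hFe] at this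
  have hφm : Measurable fun v : E d => hh (a + 1 - d) e v - hh (a + 1 - d) e (-v) :=
    hmeas.sub (hmeas.comp measurable_neg)
  have hφb : ∀ v : E d, |hh (a + 1 - d) e v - hh (a + 1 - d) e (-v)| ≤ 2 := fun v => by
    rw [abs_le]
    constructor <;> linarith [(hbd v).1, (hbd v).2, (hbd (-v)).1, (hbd (-v)).2]
  have hnm : Measurable fun x => ‖F x‖ ^ p := hFc.measurable.norm.pow_const _
  have hnn : ∀ x, 0 ≤ ‖F x‖ ^ p := fun x => Real.rpow_nonneg (norm_nonneg _) _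
  have hb1 : ∀ x, |PhiE a e (F x)| ≤ 2 * ‖F x‖ ^ p := fun x => by
    unfold PhiE
    rw [abs_mul, abs_of_nonneg (hnn x), mul_comm]
    exact mul_le_mul_of_nonneg_right (hφb _) (hnn x)
  have hI1 : Integrable fun x => PhiE a e (F x) :=
    (hFi.const_mul 2).mono' (hnm.mul (hφm.comp hFc.measurable)).aestronglyMeasurable
      (Filter.Eventually.of_forall fun x => by rw [Real.norm_eq_abs]; exact hb1 x)
  have hI2 : Integrable fun x =>
      ‖F x‖ ^ p * (hh (a + 1 - d) e x - hh (a + 1 - d) e (-x)) :=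
    (hFi.const_mul 2).mono' (hnm.mul hφm).aestronglyMeasurable
      (Filter.Eventually.of_forall fun x => by
        rw [Real.norm_eq_abs, abs_mul, abs_of_nonneg (hnn x), mul_comm]
        exact mul_le_mul_of_nonneg_right (hφb _) (hnn x))
  set G : E d → ℝ := fun x =>
    PhiE a e (F x) - ‖F x‖ ^ p * (hh (a + 1 - d) e x - hh (a + 1 - d) e (-x)) with hGd
  have hGi : Integrable G := hI1.sub hI2
  have hDm := fail_dom_meas e ε N
  -- outside
  have o1 : |∫ x in (Dom e ε N)ᶜ, PhiE a e (F x)| ≤ 2 * C₂ := by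
    have t1 : ∫ x in (Dom e ε N)ᶜ, ‖F x‖ ^ p ≤ C₂ := by
      rw [integral_eq_lintegral_of_nonneg_ae (Filter.Eventually.of_forall hnn)
        hnm.aestronglyMeasurable]
      exact ENNReal.toReal_le_of_le_ofReal hC₂.le (hout ε N hSm)
    calc |∫ x in (Dom e ε N)ᶜ, PhiE a e (F x)| ≤ ∫ x in (Dom e ε N)ᶜ, |PhiE a e (F x)| :=
          abs_integral_le_integral_abs
      _ ≤ ∫ x in (Dom e ε N)ᶜ, 2 * ‖F x‖ ^ p :=
          integral_mono hI1.abs.integrableOn (hFi.const_mul 2).integrableOn hb1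
      _ ≤ 2 * C₂ := by rw [integral_const_mul]; linarith
  -- gain
  set B : ℕ × ℕ → Set (E d) := fun q =>
    Metric.ball ((4 : ℝ) ^ (q.1 + 1) • (e + ((1 / 2 : ℝ) ^ (q.2 + 3)) • u))
      (4 ^ (q.1 + 1) * (1 / 2 : ℝ) ^ (q.2 + 3) / 4) with hB
  set T : Finset (ℕ × ℕ) := Finset.range N ×ˢ Finset.range m with hT
  have hgq : ∀ q ∈ T, ∀ x ∈ B q, x ∈ Dom e ε N ∧
      c₄ * ε / (4 ^ (q.1 + 1) * (1 / 2 : ℝ) ^ (q.2 + 3)) ^ d ≤ G x := by
    intro q hq x hx
    rw [hT, Finset.mem_product, Finset.mem_range, Finset.mem_range] at hq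
    have r1 : (1 / 2 : ℝ) ^ (q.2 + 3) ≤ 1 / 8 := by
      rw [pow_add]
      have : (1 / 2 : ℝ) ^ q.2 ≤ 1 := pow_le_one₀ (by norm_num) (by norm_num)
      nlinarith
    have r2 : ε ≤ c₃ * ((1 / 2 : ℝ) ^ (q.2 + 3)) ^ (a + 1) := by
      refine (hεδ.trans (min_le_right _ _)).trans (mul_le_mul_of_nonneg_left ?_ hc₃.le)
      exact Real.rpow_le_rpow (by positivity)
        (pow_le_pow_of_le_one (by norm_num) (by norm_num) (by omega)) (by linarith)
    obtain ⟨t1, t2⟩ := hgain ε N hSm (hεN ▸ min_le_left _ _) u hu hue q.1 hq.1 _ (by positivity)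
      r1 r2 x hx
    exact ⟨t1, by simp only [hGd]; linarith⟩
  have g1 : ∀ q ∈ T, c₄ * ε * V / 4 ^ d ≤ ∫ x in B q, G x := by
    intro q hq
    have hr : (0 : ℝ) < 4 ^ (q.1 + 1) * (1 / 2 : ℝ) ^ (q.2 + 3) := by positivity
    have v1 : (volume : Measure (E d)).real (B q) =
        (4 ^ (q.1 + 1) * (1 / 2 : ℝ) ^ (q.2 + 3) / 4) ^ d * V := by
      rw [hB, hV, Measure.real, Measure.addHaar_ball_of_pos _ _ (by positivity),
        finrank_euclideanSpace_fin, ENNReal.toReal_mul, ENNReal.toReal_ofReal (by positivity)]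
      rfl
    have v2 := setIntegral_ge_of_const_le_real (μ := volume) (s := B q) (f := G)
      (c := c₄ * ε / (4 ^ (q.1 + 1) * (1 / 2 : ℝ) ^ (q.2 + 3)) ^ d)
      Metric.isOpen_ball.measurableSet measure_ball_lt_top.ne (fun x hx => (hgq q hq x hx).2)
      hGi.integrableOn
    refine le_trans (le_of_eq ?_) v2
    rw [v1]
    generalize (4 : ℝ) ^ (q.1 + 1) * (1 / 2 : ℝ) ^ (q.2 + 3) = r at hr
    rw [div_pow]
    field_simp
  have g2 : c₅ * m ≤ ∫ x in Dom e ε N, G x := by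
    have s1 : ∫ x in ⋃ q ∈ T, B q, G x = ∑ q ∈ T, ∫ x in B q, G x :=
      integral_biUnion_finset T (fun q _ => Metric.isOpen_ball.measurableSet)
        (fun q _ q' _ h => fail_disj he hu h) (fun q _ => hGi.integrableOn)
    have s2 : ∫ x in ⋃ q ∈ T, B q, G x ≤ ∫ x in Dom e ε N, G x := by
      refine setIntegral_mono_set hGi.integrableOn ?_ (LE.le.eventuallyLE ?_)
      · refine (ae_restrict_iff' hDm).mpr (Filter.Eventually.of_forall fun x hx => ?_)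
        have := hM d a C kb e hS ε N hSm x hx
        simp only [hGd, Pi.zero_apply]
        linarith
      · intro x hx
        simp only [mem_iUnion] at hx
        obtain ⟨q, hq, hx⟩ := hx
        exact (hgq q hq x hx).1
    have s3 : ∑ _q ∈ T, c₄ * ε * V / 4 ^ d ≤ ∑ q ∈ T, ∫ x in B q, G x := Finset.sum_le_sum g1
    rw [Finset.sum_const, hT, Finset.card_product, Finset.card_range, Finset.card_range,
      nsmul_eq_mul] at s3
    have s4 : c₅ * m = ((N * m : ℕ) : ℝ) * (c₄ * ε * V / 4 ^ d) := by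
      rw [hc₅, ← hεN]; push_cast; ring
    rw [s4]
    exact s3.trans (s1 ▸ s2)
  have t1 : ∫ x in Dom e ε N, G x = (∫ x in Dom e ε N, PhiE a e (F x)) -
      ∫ x in Dom e ε N, ‖F x‖ ^ p * (hh (a + 1 - d) e x - hh (a + 1 - d) e (-x)) :=
    integral_sub hI1.integrableOn hI2.integrableOn
  have t2 := integral_add_compl hDm hI1
  have t3 := hodd ε N hSm
  have t4 := hK f hf hfc hf0
  rw [hFe] at t4
  have t5 : K * (∫ x, |f x|) ^ p ≤ |K| * 4 ^ p := by
    have h0 : 0 ≤ ∫ x, |f x| := integral_nonneg fun x => abs_nonneg _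
    exact (mul_le_mul_of_nonneg_right (le_abs_self K) (Real.rpow_nonneg h0 _)).trans
      (mul_le_mul_of_nonneg_left (Real.rpow_le_rpow h0 hf4 hp0.le) (abs_nonneg K))
  rw [abs_le] at o1 t3 t4
  linarith [o1.1, t3.1, t4.2]

end Pool.Agent.MP_40db9a_an.H47
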