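import Pool.Agent.MP_40db9a_an.H47.Spec

/-!
Row Field: the normalised remainder field is controlled by `ε(0,1)`.
-/

open MeasureTheory Set

namespace Pool.Agent.MP_40db9a_an.H47

variable {d : ℕ}

/-- splitting a function with a bump -/
theorem field_split (f : E d → ℝ) (hf : ContDiff ℝ 1 f) (hc : HasCompactSupport f) (r R : ℝ)
    (hr : 0 < r) (hR : r < R) :
    ∃ g h : E d → ℝ, ContDiff ℝ 1 g ∧ HasCompactSupport g ∧ ContDiff ℝ 1 h ∧
      HasCompactSupport h ∧ (∀ z, f z = g z + h z) ∧ (∀ z, |g z| ≤ |f z|) ∧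
      (∀ z, |h z| ≤ |f z|) ∧ (∀ z, g z ≠ 0 → ‖z‖ ≤ R) ∧ (∀ z, h z ≠ 0 → r ≤ ‖z‖) := by
  let ψ : ContDiffBump (0 : E d) := ⟨r, R, hr, hR⟩
  have hψ : ContDiff ℝ 1 (ψ : E d → ℝ) := ψ.contDiff
  refine ⟨fun z => ψ z * f z, fun z => (1 - ψ z) * f z, hψ.mul hf, hc.mul_left,
    (contDiff_const.sub hψ).mul hf, hc.mul_left, fun z => by ring, fun z => ?_, fun z => ?_,
    fun z hz => ?_, fun z hz => ?_⟩
  · have h0 : 0 ≤ ψ z := ψ.nonneg
    have h1 : ψ z ≤ 1 := ψ.le_one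
    rw [abs_mul, abs_of_nonneg h0]
    exact mul_le_of_le_one_left (abs_nonneg _) h1
  · have h0 : 0 ≤ ψ z := ψ.nonneg
    have h1 : ψ z ≤ 1 := ψ.le_one
    rw [abs_mul, abs_of_nonneg (by linarith : (0 : ℝ) ≤ 1 - ψ z)]
    exact mul_le_of_le_one_left (abs_nonneg _) (by linarith)
  · by_contra hn
    have h2 : ψ z = 0 := ψ.zero_of_le_dist (by
      rw [dist_zero_right]; exact (not_le.mp hn).le)
    exact hz (by simp [h2])
  · by_contra hn
    have h2 : ψ z = 1 := ψ.one_of_mem_closedBall (by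
      rw [mem_closedBall_zero_iff]; exact (not_le.mp hn).le)
    exact hz (by simp [h2])

theorem field_conv_add (hC : S_Conv) {k : E d → E d} (hk : LocallyIntegrable k)
    {f g h : E d → ℝ} (hg : Continuous g) (hgc : HasCompactSupport g) (hh : Continuous h)
    (hhc : HasCompactSupport h) (hfgh : ∀ z, f z = g z + h z) (x : E d) :
    conv k f x = conv k g x + conv k h x := by
  have h1 := (((hC d).2 k hk).2 g hg hgc).1 x
  have h2 := (((hC d).2 k hk).2 h hh hhc).1 x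
  unfold conv
  rw [← integral_add h1 h2]
  refine integral_congr_ae (Filter.Eventually.of_forall fun z => ?_)
  simp only [hfgh z, add_smul]

theorem field_int_le {u v : E d → ℝ} {c : ℝ} (hv : Integrable v) (hu : ∀ z, 0 ≤ u z)
    (h : ∀ z, u z ≤ c * v z) : ∫ z, u z ≤ c * ∫ z, v z := by
  rw [← integral_const_mul]
  exact integral_mono_of_nonneg (Filter.Eventually.of_forall hu) (hv.const_mul c)
    (Filter.Eventually.of_forall h)

/-- `1 ≤ L ^ b * (1 + t) ^ (-b)` when `1 + t ≤ L` -/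
theorem field_one_le {t L b : ℝ} (ht : 0 ≤ t) (hL : 1 + t ≤ L) (hb : 0 ≤ b) :
    1 ≤ L ^ b * (1 + t) ^ (-b) := by
  have h0 : 0 < 1 + t := by linarith
  have h1 : (1 + t) ^ b ≤ L ^ b := Real.rpow_le_rpow h0.le hL hb
  have h2 : 0 < (1 + t) ^ b := Real.rpow_pos_of_pos h0 b
  rw [Real.rpow_neg h0.le, ← div_eq_mul_inv, le_div_iff₀ h2, one_mul]
  exact h1

theorem field_far {t a : ℝ} (ht : 1 / 16 ≤ t) :
    (1 + t) ^ (-a) ≤ 17 * ((1 + t) ^ (-(a + 1)) * t) := by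
  have h0 : 0 < 1 + t := by linarith
  have h1 : (1 + t) ^ (-a) = (1 + t) ^ (-(a + 1)) * (1 + t) := by
    rw [← Real.rpow_add_one h0.ne']; congr 1; ring
  have h2 : 0 < (1 + t) ^ (-(a + 1)) := Real.rpow_pos_of_pos h0 _
  rw [h1]
  nlinarith

theorem field_nn (a : ℝ) (f : E d → ℝ) :
    nn a f 0 1 = ∫ w, (1 + ‖w‖) ^ (-a) * |f w| := by
  simp [nn]

theorem field_ee (a : ℝ) (f : E d → ℝ) :
    ee a f 0 1 = ∫ w, (1 + ‖w‖) ^ (-(a + 1)) * ‖w‖ * |f w| := by
  simp [ee]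

theorem field_meas_Ann : MeasurableSet (Ann d) := by
  have h : Ann d = (fun x : E d => ‖x‖) ⁻¹' (Icc (1 / 2) 4) := rfl
  rw [h]
  exact measurable_norm measurableSet_Icc

theorem field_lint_smul {b : ℝ} (hb : 0 ≤ b) (V : E d → E d) {e : ℝ}
    (h : ∫⁻ x in Ann d, ‖V x‖ₑ ≤ ENNReal.ofReal e) :
    ∫⁻ x in Ann d, ‖‖x‖ ^ b • V x‖ₑ ≤ ENNReal.ofReal (4 ^ b * e) := by
  have h4 : (0 : ℝ) ≤ 4 ^ b := Real.rpow_nonneg (by norm_num) b
  calc ∫⁻ x in Ann d, ‖‖x‖ ^ b • V x‖ₑ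
      ≤ ∫⁻ x in Ann d, ENNReal.ofReal (4 ^ b) * ‖V x‖ₑ := by
        refine setLIntegral_mono' field_meas_Ann fun x hx => ?_
        rw [enorm_smul]
        gcongr
        rw [← ofReal_norm_eq_enorm]
        refine ENNReal.ofReal_le_ofReal ?_
        rw [Real.norm_of_nonneg (Real.rpow_nonneg (norm_nonneg _) _)]
        exact Real.rpow_le_rpow (norm_nonneg _) hx.2 hb
    _ = ENNReal.ofReal (4 ^ b) * ∫⁻ x in Ann d, ‖V x‖ₑ :=
        lintegral_const_mul' _ _ ENNReal.ofReal_ne_top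
    _ ≤ ENNReal.ofReal (4 ^ b) * ENNReal.ofReal e := by gcongr
    _ = ENNReal.ofReal (4 ^ b * e) := (ENNReal.ofReal_mul h4).symm

theorem field_lint_add (V W : E d → E d) (hW : Continuous W) {e e' : ℝ} (he : 0 ≤ e)
    (he' : 0 ≤ e') (h : ∫⁻ x in Ann d, ‖V x‖ₑ ≤ ENNReal.ofReal e)
    (h' : ∫⁻ x in Ann d, ‖W x‖ₑ ≤ ENNReal.ofReal e') :
    ∫⁻ x in Ann d, ‖V x + W x‖ₑ ≤ ENNReal.ofReal (e + e') := by
  calc ∫⁻ x in Ann d, ‖V x + W x‖ₑ ≤ ∫⁻ x in Ann d, ‖V x‖ₑ + ‖W x‖ₑ :=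
        lintegral_mono fun x => enorm_add_le _ _
    _ = (∫⁻ x in Ann d, ‖V x‖ₑ) + ∫⁻ x in Ann d, ‖W x‖ₑ :=
        lintegral_add_right _ hW.measurable.enorm
    _ ≤ ENNReal.ofReal e + ENNReal.ofReal e' := add_le_add h h'
    _ = ENNReal.ofReal (e + e') := (ENNReal.ofReal_add he he').symm

theorem field_Kr_loc (hC : S_Conv) {a : ℝ} (ha : 0 < a) (had : a < d) :
    LocallyIntegrable (Kr a : E d → E d) := by
  rw [← Kc_zero]
  exact (hC d).1 a 0 ha had le_rfl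

theorem field_Kr_cont (a : ℝ) : ContinuousOn (Kr a : E d → E d) (Ann d) := by
  unfold Kr
  refine ContinuousOn.smul (ContinuousOn.rpow_const continuous_norm.continuousOn ?_)
    continuousOn_id
  intro x hx
  left
  have := hx.1
  intro h0
  rw [h0] at this
  norm_num at this

/-- the mass away from the origin, for `α ≥ 1` -/
theorem field_rest (hC : S_Conv) (hB : S_Basic) (hG : S_Calc) (hS : S_Src) (hZ : S_CZ)
    (hd : 2 ≤ d) {a : ℝ} (ha : 0 < a) (had : a + 1 ≤ d) :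
    ∃ C : ℝ, 0 < C ∧ ∀ g : E d → ℝ, ContDiff ℝ 1 g → HasCompactSupport g →
      Good (conv (Kr a) g) (C * ∫ z, (1 + ‖z‖) ^ (-a) * |g z|) := by
  have had' : a < d := by linarith
  obtain ⟨C₁, hC₁, h₁⟩ := hS d a ha had'
  rcases had.lt_or_eq with hlt | heq
  · exact ⟨C₁, hC₁, fun g hg hgc => (h₁ g hg hgc).2.1 (Or.inl hlt)⟩
  obtain ⟨C₂, hC₂, h₂⟩ := hZ d hd
  have hae : (d : ℝ) - 1 = a := by linarith
  rw [hae] at h₂
  have h17 : (0 : ℝ) < 17 ^ a := Real.rpow_pos_of_pos (by norm_num) a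
  refine ⟨2 * (C₂ * 17 ^ a + C₁), by positivity, fun g hg hgc => ?_⟩
  obtain ⟨u, v, hu, huc, hv, hvc, huv, hug, hvg, hus, hvs⟩ :=
    field_split g hg hgc 8 16 (by norm_num) (by norm_num)
  have hint : Integrable fun z : E d => (1 + ‖z‖) ^ (-a) * |g z| := by
    have := ((hB d a ha had' g hg.continuous hgc).2.2.2.1 0 1 one_pos).1
    simpa using this
  have hw : ∀ z : E d, 0 ≤ (1 + ‖z‖) ^ (-a) := fun z => Real.rpow_nonneg (by positivity) _
  have hn : 0 ≤ ∫ z : E d, (1 + ‖z‖) ^ (-a) * |g z| :=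
    integral_nonneg fun z => mul_nonneg (hw z) (abs_nonneg _)
  have e1 : ∫ z, |u z| ≤ 17 ^ a * ∫ z : E d, (1 + ‖z‖) ^ (-a) * |g z| := by
    refine field_int_le hint (fun z => abs_nonneg _) fun z => ?_
    by_cases hz : u z = 0
    · rw [hz, abs_zero]
      exact mul_nonneg h17.le (mul_nonneg (hw z) (abs_nonneg _))
    · have h1 := field_one_le (norm_nonneg z) (L := 17) (by linarith [hus z hz]) ha.le
      calc |u z| ≤ 1 * |g z| := by rw [one_mul]; exact hug z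
        _ ≤ 17 ^ a * (1 + ‖z‖) ^ (-a) * |g z| := by gcongr
        _ = _ := by ring
  have e2 : ∫ z : E d, (1 + ‖z‖) ^ (-a) * |v z| ≤ 1 * ∫ z : E d, (1 + ‖z‖) ^ (-a) * |g z| := by
    refine field_int_le hint (fun z => mul_nonneg (hw z) (abs_nonneg _)) fun z => ?_
    rw [one_mul]
    exact mul_le_mul_of_nonneg_left (hvg z) (hw z)
  have g1 := (hG d).1 _ _ _ (mul_le_mul_of_nonneg_left e1 hC₂.le) (h₂ u hu huc hus)
  have g2 := (hG d).1 _ _ _ (mul_le_mul_of_nonneg_left e2 hC₁.le)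
    ((h₁ v hv hvc).2.1 (Or.inr hvs))
  have g3 := (hG d).2.1 _ _ _ _ (by positivity) (by positivity) g1 g2
  have hfun : conv (Kr a) g = fun x => conv (Kr a) u x + conv (Kr a) v x :=
    funext fun x => field_conv_add hC (field_Kr_loc hC ha had') hu.continuous huc hv.continuous
      hvc huv x
  rw [hfun]
  refine (hG d).1 _ _ _ (le_of_eq ?_) g3
  ring

theorem sField (hC : S_Conv) (hB : S_Basic) (hG : S_Calc) (hS : S_Src) (hZ : S_CZ) :
    S_Field := by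
  intro d hd a ha had
  obtain ⟨C₁, hC₁, h₁⟩ := hS d a ha had
  obtain ⟨C₃, hC₃, h₃⟩ := (hG d).2.2.2.1 (a + 1)
  obtain ⟨C₂, hC₂, h₂⟩ : ∃ C : ℝ, 0 < C ∧ (a + 1 ≤ d → ∀ g : E d → ℝ, ContDiff ℝ 1 g →
      HasCompactSupport g → Good (conv (Kr a) g) (C * ∫ z, (1 + ‖z‖) ^ (-a) * |g z|)) := by
    by_cases h : a + 1 ≤ d
    · obtain ⟨C, hC0, h'⟩ := field_rest hC hB hG hS hZ hd ha h
      exact ⟨C, hC0, fun _ => h'⟩
    · exact ⟨1, one_pos, fun h' => absurd h' h⟩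
  have h2a : (0 : ℝ) < 2 ^ a := Real.rpow_pos_of_pos (by norm_num) _
  have h2b : (0 : ℝ) < 2 ^ (a + 1) := Real.rpow_pos_of_pos (by norm_num) _
  have h4b : (0 : ℝ) < 4 ^ (a + 1) := Real.rpow_pos_of_pos (by norm_num) _
  obtain ⟨A, hA⟩ : ∃ A : ℝ, A = C₁ * 2 ^ (a + 1) := ⟨_, rfl⟩
  have hA0 : 0 < A := by rw [hA]; positivity
  obtain ⟨T, hT⟩ : ∃ T : ℝ, T = 4 ^ (a + 1) := ⟨_, rfl⟩
  have hT0 : 0 < T := by rw [hT]; exact h4b
  obtain ⟨C, hCdef⟩ : ∃ C : ℝ, C = 2 ^ a + C₃ * (2 * (A + C₂ * 17)) + C₃ * (2 * (A + C₁ * 17)) +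
    T * (A + C₁ * 17) := ⟨_, rfl⟩
  have p1 : 0 < C₃ * (2 * (A + C₂ * 17)) := by positivity
  have p2 : 0 < C₃ * (2 * (A + C₁ * 17)) := by positivity
  have p3 : 0 < T * (A + C₁ * 17) := by positivity
  have p4 : 0 < T * A := by positivity
  have c1 : 2 ^ a ≤ C := by linarith
  have c2 : C₃ * (2 * (A + C₂ * 17)) ≤ C := by linarith
  have c3 : C₃ * (2 * (A + C₁ * 17)) ≤ C := by linarith
  have c4 : T * (A + C₁ * 17) ≤ C := by linarith
  have c5 : T * (C₁ * 17) ≤ C := by nlinarith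
  refine ⟨C, by linarith, fun f hf hfc => ?_⟩
  obtain ⟨g, h, hg, hgc, hh, hhc, hgh, hgf, hhf, hgs, hhs⟩ :=
    field_split f hf hfc (1 / 16) (1 / 8) (by norm_num) (by norm_num)
  have hbas := (hB d a ha had f hf.continuous hfc).2.2.2.1 0 1 one_pos
  have hint : Integrable fun z : E d => (1 + ‖z‖) ^ (-a) * |f z| := by simpa using hbas.1
  have hint' : Integrable fun z : E d => (1 + ‖z‖) ^ (-(a + 1)) * ‖z‖ * |f z| := by
    simpa only [sub_zero, div_one] using hbas.2.1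
  have he0 : 0 ≤ ee a f 0 1 := hbas.2.2.1
  have hn0 : 0 ≤ nn a f 0 1 := he0.trans hbas.2.2.2.1
  have hw : ∀ (b : ℝ) (z : E d), 0 ≤ (1 + ‖z‖) ^ b := fun b z =>
    Real.rpow_nonneg (by positivity) _
  -- the three mass bounds
  have m1 : ∫ z, |g z| ≤ 2 ^ a * nn a f 0 1 := by
    rw [field_nn]
    refine field_int_le hint (fun z => abs_nonneg _) fun z => ?_
    by_cases hz : g z = 0
    · rw [hz, abs_zero]
      exact mul_nonneg h2a.le (mul_nonneg (hw _ z) (abs_nonneg _))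
    · have h1 := field_one_le (norm_nonneg z) (L := 2) (by linarith [hgs z hz]) ha.le
      calc |g z| ≤ 1 * |f z| := by rw [one_mul]; exact hgf z
        _ ≤ 2 ^ a * (1 + ‖z‖) ^ (-a) * |f z| := by gcongr
        _ = _ := by ring
  have m2 : ∫ z, ‖z‖ * |g z| ≤ 2 ^ (a + 1) * ee a f 0 1 := by
    rw [field_ee]
    refine field_int_le hint' (fun z => by positivity) fun z => ?_
    by_cases hz : g z = 0
    · rw [hz, abs_zero, mul_zero]
      exact mul_nonneg h2b.le (mul_nonneg (mul_nonneg (hw _ z) (norm_nonneg _)) (abs_nonneg _))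
    · have h1 := field_one_le (norm_nonneg z) (L := 2) (b := a + 1) (by linarith [hgs z hz])
        (by linarith)
      calc ‖z‖ * |g z| ≤ 1 * (‖z‖ * |f z|) := by
            rw [one_mul]; exact mul_le_mul_of_nonneg_left (hgf z) (norm_nonneg _)
        _ ≤ 2 ^ (a + 1) * (1 + ‖z‖) ^ (-(a + 1)) * (‖z‖ * |f z|) := by gcongr
        _ = _ := by ring
  have m3 : ∫ z : E d, (1 + ‖z‖) ^ (-a) * |h z| ≤ 17 * ee a f 0 1 := by
    rw [field_ee]
    refine field_int_le hint' (fun z => mul_nonneg (hw _ z) (abs_nonneg _)) fun z => ?_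
    by_cases hz : h z = 0
    · rw [hz, abs_zero, mul_zero]
      exact mul_nonneg (by norm_num)
        (mul_nonneg (mul_nonneg (hw _ z) (norm_nonneg _)) (abs_nonneg _))
    · have h1 := field_far (a := a) (hhs z hz)
      calc (1 + ‖z‖) ^ (-a) * |h z| ≤ 17 * ((1 + ‖z‖) ^ (-(a + 1)) * ‖z‖) * |f z| :=
            mul_le_mul h1 (hhf z) (abs_nonneg _)
              (mul_nonneg (by norm_num) (mul_nonneg (hw _ z) (norm_nonneg _)))
        _ = _ := by ring
  obtain ⟨e, hedef⟩ : ∃ e : ℝ, e = ee a f 0 1 := ⟨_, rfl⟩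
  rw [← hedef] at he0 m2 m3 ⊢
  have hKl := field_Kr_loc hC ha had
  have hsplit : ∀ x, conv (Kr a) f x - (∫ z, g z) • Kr a x =
      (conv (Kr a) g x - (∫ z, g z) • Kr a x) + conv (Kr a) h x := fun x => by
    rw [field_conv_add hC hKl hg.continuous hgc hh.continuous hhc hgh x]
    abel
  have core : Good (fun x => conv (Kr a) g x - (∫ z, g z) • Kr a x) (A * e) := by
    refine (hG d).1 _ _ _ ?_ ((h₁ g hg hgc).1 hgs)
    rw [hA, mul_assoc]
    exact mul_le_mul_of_nonneg_left m2 hC₁.le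
  refine ⟨∫ z, g z, ?_, ?_, ?_⟩
  · calc |∫ z, g z| ≤ ∫ z, |g z| := abs_integral_le_integral_abs
      _ ≤ 2 ^ a * nn a f 0 1 := m1
      _ ≤ C * nn a f 0 1 := mul_le_mul_of_nonneg_right c1 hn0
  · intro hα
    have r1 := (hG d).1 _ _ _ (mul_le_mul_of_nonneg_left m3 hC₂.le) (h₂ (by linarith) h hh hhc)
    have r2 := (hG d).2.1 _ _ _ _ (by positivity) (by positivity) core r1
    have r3 := h₃ _ _ (by positivity) r2
    simp only [hsplit]
    refine (hG d).1 _ _ _ ?_ r3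
    calc C₃ * (2 * (A * e + C₂ * (17 * e))) = C₃ * (2 * (A + C₂ * 17)) * e := by ring
      _ ≤ C * e := mul_le_mul_of_nonneg_right c2 he0
  · intro hα
    have hda : (d : ℝ) < a + 1 := by linarith
    have hch : Continuous (conv (Kr a) h) := (((hC d).2 _ hKl).2 h hh.continuous hhc).2.1
    have hcf : Continuous (conv (Kr a) f) := (((hC d).2 _ hKl).2 f hf.continuous hfc).2.1
    refine ⟨?_, ?_, fun ρ hρ hρ1 => ?_⟩
    · refine ContinuousOn.smul (ContinuousOn.rpow_const continuous_norm.continuousOn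
        fun x _ => Or.inr (by linarith)) (hcf.continuousOn.sub ?_)
      exact (field_Kr_cont (d := d) a).const_smul (∫ z, g z)
    · simp only [hsplit]
      have r1 : ∫⁻ x in Ann d, ‖conv (Kr a) h x‖ₑ ≤ ENNReal.ofReal (C₁ * (17 * e)) :=
        (h₁ h hh hhc).2.2.2.trans
          (ENNReal.ofReal_le_ofReal (mul_le_mul_of_nonneg_left m3 hC₁.le))
      have r2 := field_lint_add _ _ hch (by positivity) (by positivity) core.2.1 r1
      have r3 := field_lint_smul (b := a + 1) (by linarith) _ r2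
      refine r3.trans (ENNReal.ofReal_le_ofReal ?_)
      rw [← hT]
      calc T * (A * e + C₁ * (17 * e)) = T * (A + C₁ * 17) * e := by ring
        _ ≤ C * e := mul_le_mul_of_nonneg_right c4 he0
    · obtain ⟨q1, q2⟩ := (h₁ h hh hhc).2.2.1 hda ρ hρ hρ1
      have hρa : 1 ≤ ρ ^ ((d : ℝ) - a - 1) :=
        Real.one_le_rpow_of_pos_of_le_one_of_nonpos hρ hρ1 (by linarith)
      have hρb : 0 < ρ ^ ((d : ℝ) - a) := Real.rpow_pos_of_pos hρ _
      obtain ⟨P, hP⟩ : ∃ P : ℝ, P = ρ ^ ((d : ℝ) - a - 1) := ⟨_, rfl⟩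
      obtain ⟨Q, hQ⟩ : ∃ Q : ℝ, Q = ρ ^ ((d : ℝ) - a) := ⟨_, rfl⟩
      rw [← hP] at q1 hρa ⊢
      rw [← hQ] at q2 hρb ⊢
      have hP0 : 0 < P := by linarith
      have r1 := (hG d).1 _ _ _
        (mul_le_mul_of_nonneg_left m3 (by positivity : 0 ≤ C₁ * P)) q1
      have core' : Good (fun x => conv (Kr a) g x - (∫ z, g z) • Kr a x) (P * (A * e)) :=
        (hG d).1 _ _ _ (le_mul_of_one_le_left (by positivity) hρa) core
      have r2 := (hG d).2.1 _ _ _ _ (by positivity) (by positivity) core' r1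
      have r3 := h₃ _ _ (by positivity) r2
      refine ⟨_, (hG d).1 _ _ _ ?_ r3, ?_⟩
      · calc C₃ * (2 * (P * (A * e) + C₁ * P * (17 * e)))
            = P * (C₃ * (2 * (A + C₁ * 17)) * e) := by ring
          _ ≤ P * (C * e) :=
            mul_le_mul_of_nonneg_left (mul_le_mul_of_nonneg_right c3 he0) hP0.le
      · have r4 : ∫⁻ x in Ann d, ‖conv (Kr a) h x - conv (Kc a ρ) h x‖ₑ ≤
            ENNReal.ofReal (C₁ * Q * (17 * e)) :=
          q2.trans (ENNReal.ofReal_le_ofReal (mul_le_mul_of_nonneg_left m3 (by positivity)))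
        have r5 := field_lint_smul (b := a + 1) (by linarith) _ r4
        have hfun : ∀ x : E d, ‖x‖ ^ (a + 1) • (conv (Kr a) f x - (∫ z, g z) • Kr a x) -
            ‖x‖ ^ (a + 1) • (conv (Kr a) g x - (∫ z, g z) • Kr a x + conv (Kc a ρ) h x) =
            ‖x‖ ^ (a + 1) • (conv (Kr a) h x - conv (Kc a ρ) h x) := fun x => by
          rw [hsplit x, ← smul_sub]
          congr 1
          abel
        simp only [hfun]
        refine r5.trans (ENNReal.ofReal_le_ofReal ?_)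
        rw [← hT]
        calc T * (C₁ * Q * (17 * e)) = Q * (T * (C₁ * 17) * e) := by ring
          _ ≤ Q * (C * e) :=
            mul_le_mul_of_nonneg_left (mul_le_mul_of_nonneg_right c5 he0) hρb.le

end Pool.Agent.MP_40db9a_an.H47
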