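import Pool.Agent.MP_40db9a_an.H47.Spec

open MeasureTheory Set Filter Topology

namespace Pool.Agent.MP_40db9a_an.H47

variable {d : ℕ}

theorem g1_pt (a t s : ℝ) (ht : 0 ≤ t) :
    HasDerivAt (fun s => (1 + t / Real.exp s) ^ (-a))
      (a * ((1 + t / Real.exp s) ^ (-(a + 1)) * (t / Real.exp s))) s := by
  have he : 0 < Real.exp s := Real.exp_pos s
  have h1 : HasDerivAt (fun s => 1 + t / Real.exp s) (-(t / Real.exp s)) s := by
    have h2 := ((hasDerivAt_const s t).div (Real.hasDerivAt_exp s) he.ne').const_add 1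
    refine h2.congr_deriv ?_
    field_simp
    ring
  have hpos : 0 < 1 + t / Real.exp s := by positivity
  have h3 := h1.rpow_const (p := -a) (Or.inl hpos.ne')
  refine h3.congr_deriv ?_
  have : -a - 1 = -(a + 1) := by ring
  rw [this]; ring

theorem g1_le_one (a u : ℝ) (ha : 0 < a) (hu : 0 ≤ u) : (1 + u) ^ (-(a + 1)) * u ≤ 1 := by
  have h1 : (1 : ℝ) ≤ 1 + u := by linarith
  have h2 : (1 + u) ^ (-(a + 1)) ≤ (1 + u) ^ (-1 : ℝ) :=
    Real.rpow_le_rpow_of_exponent_le h1 (by linarith)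
  rw [Real.rpow_neg_one] at h2
  calc (1 + u) ^ (-(a + 1)) * u ≤ (1 + u)⁻¹ * u := by gcongr
    _ ≤ (1 + u)⁻¹ * (1 + u) := by gcongr; linarith
    _ = 1 := inv_mul_cancel₀ (by linarith)

theorem g1_deriv (hB : S_Basic) (a : ℝ) (ha : 0 < a) (had : a < d) (f : E d → ℝ)
    (hf : Continuous f) (hc : HasCompactSupport f) (z : E d) (s : ℝ) :
    HasDerivAt (fun s => nn a f z (Real.exp s)) (a * ee a f z (Real.exp s)) s := by
  obtain ⟨-, -, -, h4, -⟩ := hB d a ha had f hf hc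
  have hfi : Integrable (fun w => a * |f w|) :=
    ((hf.integrable_of_hasCompactSupport hc).abs).const_mul a
  have key := hasDerivAt_integral_of_dominated_loc_of_deriv_le (μ := (volume : Measure (E d)))
    (F := fun s w => (1 + ‖w - z‖ / Real.exp s) ^ (-a) * |f w|)
    (F' := fun s w => a * ((1 + ‖w - z‖ / Real.exp s) ^ (-(a + 1)) * (‖w - z‖ / Real.exp s) * |f w|))
    (x₀ := s) (s := univ) (bound := fun w => a * |f w|) univ_mem
    (Eventually.of_forall fun s => (h4 z _ (Real.exp_pos s)).1.aestronglyMeasurable)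
    (h4 z _ (Real.exp_pos s)).1
    ((h4 z _ (Real.exp_pos s)).2.1.const_mul a).aestronglyMeasurable
    (Eventually.of_forall fun w s _ => by
      have hu : 0 ≤ ‖w - z‖ / Real.exp s := by positivity
      have h1 := g1_le_one a _ ha hu
      have h0 : 0 ≤ (1 + ‖w - z‖ / Real.exp s) ^ (-(a + 1)) * (‖w - z‖ / Real.exp s) := by positivity
      rw [Real.norm_eq_abs, abs_of_nonneg (by positivity)]
      have : (1 + ‖w - z‖ / Real.exp s) ^ (-(a + 1)) * (‖w - z‖ / Real.exp s) * |f w| ≤ 1 * |f w| := by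
        gcongr
      rw [one_mul] at this
      gcongr)
    hfi
    (Eventually.of_forall fun w s _ => by
      have h1 := (g1_pt a ‖w - z‖ s (norm_nonneg _)).mul_const |f w|
      refine h1.congr_deriv ?_
      ring)
  have h2 := key.2
  rw [integral_const_mul] at h2
  exact h2

theorem sG1 (hB : S_Basic) : S_G1 := by
  intro d a p ha had hp f hf hc hM z
  obtain ⟨-, -, -, h4, h5, h6, h7⟩ := hB d a ha had f hf hc
  have hpos : ∀ s, 0 < nn a f z (Real.exp s) := fun s => (h7 hM).2 z _ (Real.exp_pos s)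
  have hcn : Continuous fun s => nn a f z (Real.exp s) :=
    h5.comp (f := fun s : ℝ => (z, s)) (by fun_prop)
  have hce : Continuous fun s => ee a f z (Real.exp s) :=
    h6.comp (f := fun s : ℝ => (z, s)) (by fun_prop)
  set g : ℝ → ℝ := fun s => nn a f z (Real.exp s) ^ (p - 2) * ee a f z (Real.exp s) with hg
  have hgc : Continuous g := (hcn.rpow_const fun s => Or.inl (hpos s).ne').mul hce
  have hg0 : ∀ s, 0 ≤ g s := fun s =>
    mul_nonneg (Real.rpow_nonneg (hpos s).le _) (h4 z _ (Real.exp_pos s)).2.2.1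
  have hap : 0 < a * (p - 1) := mul_pos ha (by linarith)
  have hder : ∀ s, HasDerivAt (fun s => nn a f z (Real.exp s) ^ (p - 1) / (a * (p - 1))) (g s) s := by
    intro s
    have h1 := ((g1_deriv hB a ha had f hf hc z s).rpow_const (p := p - 1)
      (Or.inl (hpos s).ne')).div_const (a * (p - 1))
    refine h1.congr_deriv ?_
    have e : p - 1 - 1 = p - 2 := by ring
    have hp1 : p - 1 ≠ 0 := by linarith
    simp only [hg, e]
    field_simp
  have hbd : ∀ R : ℝ, ∫ s in (-R)..R, g s ≤ (∫ x, |f x|) ^ (p - 1) / (a * (p - 1)) := by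
    intro R
    rw [intervalIntegral.integral_eq_sub_of_hasDerivAt (fun s _ => hder s)
      (hgc.intervalIntegrable _ _)]
    have h1 : nn a f z (Real.exp R) ^ (p - 1) ≤ (∫ x, |f x|) ^ (p - 1) :=
      Real.rpow_le_rpow (hpos R).le (h4 z _ (Real.exp_pos R)).2.2.2.2 (by linarith)
    have h2 : 0 ≤ nn a f z (Real.exp (-R)) ^ (p - 1) / (a * (p - 1)) :=
      div_nonneg (Real.rpow_nonneg (hpos _).le _) hap.le
    have h3 : nn a f z (Real.exp R) ^ (p - 1) / (a * (p - 1)) ≤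
        (∫ x, |f x|) ^ (p - 1) / (a * (p - 1)) := by gcongr
    linarith
  have hint : Integrable g := by
    refine integrable_of_intervalIntegral_norm_bounded (l := atTop) (a := fun R : ℝ => -R)
      (b := fun R : ℝ => R) ((∫ x, |f x|) ^ (p - 1) / (a * (p - 1)))
      (fun R => (hgc.integrableOn_Icc).mono_set Ioc_subset_Icc_self) tendsto_neg_atTop_atBot
      tendsto_id (Eventually.of_forall fun R => ?_)
    have : (fun s => ‖g s‖) = g := funext fun s => by rw [Real.norm_eq_abs, abs_of_nonneg (hg0 s)]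
    rw [this]; exact hbd R
  have hle : ∫ s, g s ≤ (∫ x, |f x|) ^ (p - 1) / (a * (p - 1)) :=
    le_of_tendsto' (intervalIntegral_tendsto_integral hint tendsto_neg_atTop_atBot tendsto_id) hbd
  rw [← ofReal_integral_eq_lintegral_ofReal hint (Eventually.of_forall hg0)]
  exact ENNReal.ofReal_le_ofReal hle

/-- the set where the outer tail has mass at most `c` has mass at most `c` -/
theorem g1_tail {X : Type*} [MeasurableSpace X] (μ : Measure X) (r : X → ℝ) (c : ENNReal) :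
    μ {z | μ {w | r z ≤ r w} ≤ c} ≤ c := by
  by_cases hm : ∃ z, μ {w | r z ≤ r w} ≤ c ∧ ∀ z', μ {w | r z' ≤ r w} ≤ c → r z ≤ r z'
  · obtain ⟨z, hz, hmin⟩ := hm
    exact (measure_mono fun z' hz' => hmin z' hz').trans hz
  · push Not at hm
    have hsub : {z | μ {w | r z ≤ r w} ≤ c} ⊆
        ⋃ q : {q : ℚ // μ {w | (q : ℝ) ≤ r w} ≤ c}, {w | ((q : ℚ) : ℝ) ≤ r w} := by
      intro z hz
      obtain ⟨z', hz', hlt⟩ := hm z hz
      obtain ⟨q, hq1, hq2⟩ := exists_rat_btwn hlt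
      exact mem_iUnion.2 ⟨⟨q, (measure_mono fun w (hw : (q : ℝ) ≤ r w) =>
        (hq1.le.trans hw : r z' ≤ r w)).trans hz'⟩, hq2.le⟩
    refine (measure_mono hsub).trans ?_
    rw [Directed.measure_iUnion]
    · exact iSup_le fun q => q.2
    · intro q q'
      rcases le_total q.1 q'.1 with h | h
      · exact ⟨q, subset_rfl, fun w (hw : ((q'.1 : ℚ) : ℝ) ≤ r w) =>
          (le_trans (by exact_mod_cast h) hw : ((q.1 : ℚ) : ℝ) ≤ r w)⟩
      · exact ⟨q', fun w (hw : ((q.1 : ℚ) : ℝ) ≤ r w) =>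
          (le_trans (by exact_mod_cast h) hw : ((q'.1 : ℚ) : ℝ) ≤ r w), subset_rfl⟩

theorem g1_ker (a ρ t : ℝ) (ha : 0 < a) (hρ : 0 < ρ) (ht : ρ ≤ t) :
    t ^ (-a) ≤ 2 ^ a * ρ ^ (-a) * (1 + t / ρ) ^ (-a) := by
  have ht0 : 0 < t := hρ.trans_le ht
  have h1 : (2 : ℝ) ^ a = (2⁻¹ : ℝ) ^ (-a) := by
    rw [Real.inv_rpow (by norm_num), Real.rpow_neg (by norm_num), inv_inv]
  rw [h1, ← Real.mul_rpow (by norm_num) hρ.le, ← Real.mul_rpow (by positivity) (by positivity)]
  refine Real.rpow_le_rpow_of_nonpos (by positivity) ?_ (by linarith)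
  have : 2⁻¹ * ρ * (1 + t / ρ) = (ρ + t) / 2 := by field_simp
  rw [this]; linarith

theorem sG2 (hB : S_Basic) : S_G2 := by
  intro d a ha had
  set p : ℝ := (d : ℝ) / a with hpdef
  have hp : 1 < p := by rw [hpdef, lt_div_iff₀ ha]; linarith
  have hap : a * p = d := by rw [hpdef]; field_simp
  refine ⟨2 ^ p * (2 ^ a) ^ (p - 1), by positivity, fun f hf hc x => ?_⟩
  obtain ⟨h1, -, -, h4, -⟩ := hB d a ha had f hf hc
  set φ : E d → ℝ := fun z => ‖x - z‖ ^ (-a) * |f z| with hφ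
  have hφ0 : ∀ z, 0 ≤ φ z := fun z => by simp only [hφ]; positivity
  have hφi : Integrable φ := h1 x
  have hI0 : 0 ≤ pot a f x := integral_nonneg hφ0
  set I := pot a f x with hI
  set μ : Measure (E d) := volume.withDensity fun z => ENNReal.ofReal (φ z) with hμ
  have hμu : μ univ = ENNReal.ofReal I := by
    rw [hμ, withDensity_apply _ MeasurableSet.univ, Measure.restrict_univ,
      ← ofReal_integral_eq_lintegral_ofReal hφi (Eventually.of_forall hφ0)]
    rfl
  set S : Set (E d) := {z | μ {w | ‖x - z‖ ≤ ‖x - w‖} ≤ ENNReal.ofReal (I / 2)} with hS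
  have hSle : μ S ≤ ENNReal.ofReal (I / 2) := g1_tail μ (fun z => ‖x - z‖) _
  have hSm : MeasurableSet S := by
    have hA : IsUpperSet {ρ : ℝ | μ {w | ρ ≤ ‖x - w‖} ≤ ENNReal.ofReal (I / 2)} := by
      intro ρ ρ' h hρ
      exact (measure_mono fun w (hw : ρ' ≤ ‖x - w‖) => (h.trans hw : ρ ≤ ‖x - w‖)).trans hρ
    have hc' : Continuous fun z : E d => ‖x - z‖ := by fun_prop
    exact hc'.measurable hA.ordConnected.measurableSet
  have hSc : ENNReal.ofReal (I / 2) ≤ μ Sᶜ := by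
    have h2 : ENNReal.ofReal (I / 2) + ENNReal.ofReal (I / 2) ≤ ENNReal.ofReal (I / 2) + μ Sᶜ := by
      rw [← ENNReal.ofReal_add (by positivity) (by positivity), add_halves, ← hμu,
        ← measure_add_measure_compl hSm]
      gcongr
    exact (ENNReal.add_le_add_iff_left ENNReal.ofReal_ne_top).1 h2
  have htail : ∀ ρ : ℝ, 0 < ρ →
      μ {w | ρ ≤ ‖x - w‖} ≤ ENNReal.ofReal (2 ^ a * ρ ^ (-a) * nn a f x ρ) := by
    intro ρ hρ
    have hm : MeasurableSet {w : E d | ρ ≤ ‖x - w‖} :=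
      (isClosed_le continuous_const (by fun_prop)).measurableSet
    have hi := (h4 x ρ hρ).1.const_mul (2 ^ a * ρ ^ (-a))
    rw [hμ, withDensity_apply _ hm, nn, ← integral_const_mul,
      ofReal_integral_eq_lintegral_ofReal hi (Eventually.of_forall fun w => by positivity)]
    refine le_trans (setLIntegral_mono' hm fun w hw => ?_) (setLIntegral_le_lintegral _ _)
    refine ENNReal.ofReal_le_ofReal ?_
    have h3 := g1_ker a ρ ‖x - w‖ ha hρ hw
    rw [norm_sub_rev w x, ← mul_assoc]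
    exact mul_le_mul_of_nonneg_right h3 (abs_nonneg _)
  have hpt : ∀ z ∈ Sᶜ, ENNReal.ofReal ((I / 2) ^ (p - 1)) * ENNReal.ofReal (φ z) ≤
      ENNReal.ofReal ((2 ^ a) ^ (p - 1)) *
        ENNReal.ofReal (‖x - z‖ ^ (-(d : ℝ)) * nn a f x ‖x - z‖ ^ (p - 1) * |f z|) := by
    intro z hz
    rcases (norm_nonneg (x - z)).eq_or_lt with h0 | hρ
    · have : φ z = 0 := by
        simp only [hφ]; rw [← h0, Real.zero_rpow (by linarith), zero_mul]
      rw [this]; simp
    · have hz' : ENNReal.ofReal (I / 2) < μ {w | ‖x - z‖ ≤ ‖x - w‖} := not_le.1 hz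
      have hn0 : 0 ≤ nn a f x ‖x - z‖ := (h4 x _ hρ).2.2.1.trans (h4 x _ hρ).2.2.2.1
      have h3 : I / 2 ≤ 2 ^ a * ‖x - z‖ ^ (-a) * nn a f x ‖x - z‖ :=
        (ENNReal.ofReal_le_ofReal_iff (by positivity)).1 (hz'.le.trans (htail _ hρ))
      have h5 : (I / 2) ^ (p - 1) ≤ (2 ^ a * ‖x - z‖ ^ (-a) * nn a f x ‖x - z‖) ^ (p - 1) :=
        Real.rpow_le_rpow (by positivity) h3 (by linarith)
      rw [← ENNReal.ofReal_mul (by positivity), ← ENNReal.ofReal_mul (by positivity)]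
      refine ENNReal.ofReal_le_ofReal ?_
      have h6 : (‖x - z‖ ^ (-a)) ^ (p - 1) * ‖x - z‖ ^ (-a) = ‖x - z‖ ^ (-(d : ℝ)) := by
        rw [← Real.rpow_mul hρ.le, ← Real.rpow_add hρ, ← hap]
        congr 1; ring
      rw [Real.mul_rpow (by positivity) hn0, Real.mul_rpow (by positivity) (by positivity)] at h5
      calc (I / 2) ^ (p - 1) * φ z
          ≤ ((2 ^ a) ^ (p - 1) * (‖x - z‖ ^ (-a)) ^ (p - 1) * nn a f x ‖x - z‖ ^ (p - 1)) * φ z :=
            mul_le_mul_of_nonneg_right h5 (hφ0 z)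
        _ = (2 ^ a) ^ (p - 1) * (((‖x - z‖ ^ (-a)) ^ (p - 1) * ‖x - z‖ ^ (-a)) *
              nn a f x ‖x - z‖ ^ (p - 1) * |f z|) := by simp only [hφ]; ring
        _ = _ := by rw [h6]
  have hI : I ^ p = 2 ^ p * ((I / 2) ^ (p - 1) * (I / 2)) := by
    have e1 : (I / 2) ^ (p - 1) * (I / 2) = (I / 2) ^ p := by
      rw [← Real.rpow_add_one' (by positivity) (by linarith)]
      congr 1
      ring
    rw [e1, ← Real.mul_rpow (by norm_num : (0 : ℝ) ≤ 2) (by positivity : (0 : ℝ) ≤ I / 2)]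
    congr 1
    ring
  calc ENNReal.ofReal (I ^ p)
      = ENNReal.ofReal (2 ^ p) * (ENNReal.ofReal ((I / 2) ^ (p - 1)) * ENNReal.ofReal (I / 2)) := by
        rw [hI, ENNReal.ofReal_mul (by positivity), ENNReal.ofReal_mul (by positivity)]
    _ ≤ ENNReal.ofReal (2 ^ p) * (ENNReal.ofReal ((I / 2) ^ (p - 1)) * μ Sᶜ) := by gcongr
    _ = ENNReal.ofReal (2 ^ p) *
          ∫⁻ z in Sᶜ, ENNReal.ofReal ((I / 2) ^ (p - 1)) * ENNReal.ofReal (φ z) := by
        rw [lintegral_const_mul' _ _ ENNReal.ofReal_ne_top, hμ, withDensity_apply _ hSm.compl]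
    _ ≤ ENNReal.ofReal (2 ^ p) * ∫⁻ z, ENNReal.ofReal ((2 ^ a) ^ (p - 1)) *
          ENNReal.ofReal (‖x - z‖ ^ (-(d : ℝ)) * nn a f x ‖x - z‖ ^ (p - 1) * |f z|) := by
        exact mul_le_mul' le_rfl
          ((setLIntegral_mono' hSm.compl hpt).trans (setLIntegral_le_lintegral _ _))
    _ = _ := by
        rw [lintegral_const_mul' _ _ ENNReal.ofReal_ne_top, ENNReal.ofReal_mul (by positivity),
          mul_assoc]

end Pool.Agent.MP_40db9a_an.H47
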