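import Pool.Agent.MP_40db9a_an.H47.Spec

open MeasureTheory Set

namespace Pool.Agent.MP_40db9a_an.H47

theorem g3_tent_nonneg (u : ℝ) : 0 ≤ tent u := le_max_left _ _

theorem g3_tent_cont : Continuous tent := by
  unfold tent; fun_prop

theorem g3_tent_supp {u : ℝ} (h : tent u ≠ 0) : 0 < u ∧ u < 1 := by
  unfold tent at h
  have h1 : 0 < 2 - |4 * u - 2| := by
    by_contra h2
    exact h (max_eq_left (not_lt.mp h2))
  have h3 : |4 * u - 2| < 2 := by linarith
  rw [abs_lt] at h3
  constructor <;> linarith [h3.1, h3.2]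

theorem g3_tent_integrable : Integrable tent := by
  refine g3_tent_cont.integrable_of_hasCompactSupport ?_
  refine HasCompactSupport.intro (isCompact_Icc (a := (0 : ℝ)) (b := 1)) ?_
  intro x hx
  by_contra h
  have := g3_tent_supp h
  exact hx ⟨this.1.le, this.2.le⟩

theorem g3_tent_integral : ∫ u, tent u = 1 := by
  have h1 : ∫ u, tent u = ∫ u in (0 : ℝ)..1, tent u := by
    rw [intervalIntegral.integral_of_le zero_le_one]
    symm
    apply setIntegral_eq_integral_of_forall_compl_eq_zero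
    intro x hx
    by_contra h
    have := g3_tent_supp h
    exact hx ⟨this.1, this.2.le⟩
  have h2 : ∫ u in (0 : ℝ)..(1 / 2), tent u = ∫ u in (0 : ℝ)..(1 / 2), 4 * u := by
    apply intervalIntegral.integral_congr
    intro u hu
    rw [uIcc_of_le (by norm_num)] at hu
    have : |4 * u - 2| = 2 - 4 * u := by
      rw [abs_of_nonpos (by linarith [hu.2])]; ring
    simp only [tent, this]
    rw [max_eq_right (by linarith [hu.1])]; ring
  have h3 : ∫ u in (1 / 2 : ℝ)..1, tent u = ∫ u in (1 / 2 : ℝ)..1, (4 - 4 * u) := by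
    apply intervalIntegral.integral_congr
    intro u hu
    rw [uIcc_of_le (by norm_num)] at hu
    have : |4 * u - 2| = 4 * u - 2 := by
      rw [abs_of_nonneg (by linarith [hu.1])]
    simp only [tent, this]
    rw [max_eq_right (by linarith [hu.2])]; ring
  rw [h1, ← intervalIntegral.integral_add_adjacent_intervals (b := 1 / 2)
    (g3_tent_cont.intervalIntegrable _ _) (g3_tent_cont.intervalIntegrable _ _), h2, h3]
  rw [intervalIntegral.integral_sub (by simp) (by
    exact (by fun_prop : Continuous fun u : ℝ => 4 * u).intervalIntegrable _ _)]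
  rw [intervalIntegral.integral_const_mul, intervalIntegral.integral_const_mul, integral_id,
    integral_id, intervalIntegral.integral_const]
  norm_num

theorem g3_tent_shift (c : ℝ) : ∫ s, tent (c - s) = 1 := by
  rw [integral_sub_left_eq_self tent volume c, g3_tent_integral]

theorem g3_tent_shift_int (c : ℝ) : Integrable fun s => tent (c - s) :=
  g3_tent_integrable.comp_sub_left c

variable {d : ℕ}

theorem g3_ind_cases (a Λ : ℝ) (f : E d → ℝ) (x z : E d) (s : ℝ) :
    (pot a f x ≤ Λ * Real.exp (-a * s) * nn a f z (Real.exp s) ∧ ind a Λ f x z s = 1) ∨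
      ind a Λ f x z s = 0 := by
  unfold ind
  split_ifs with h
  · exact Or.inl ⟨h, rfl⟩
  · exact Or.inr rfl

/-- the dominating function -/
noncomputable def g3_G (a Λ : ℝ) (f : E d → ℝ) (x : E d) (q : E d × ℝ) : ℝ :=
  Real.exp a * Λ / pot a f x * (‖x - q.1‖ ^ (-a) * |f q.1|) * tent (Real.log ‖x - q.1‖ - q.2)

theorem g3_le {a Λ : ℝ} (ha : 0 < a) (hΛ : 0 < Λ) {f : E d → ℝ} {x : E d}
    (hp : 0 < pot a f x) (hn : ∀ z r, 0 < r → 0 < nn a f z r) {q : E d × ℝ} (hq : q.1 ≠ x) :
    wt a Λ f x q ≤ g3_G a Λ f x q := by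
  have hr : 0 < ‖x - q.1‖ := norm_pos_iff.mpr (sub_ne_zero.mpr hq.symm)
  have hG : 0 ≤ g3_G a Λ f x q := by
    unfold g3_G
    have := g3_tent_nonneg (Real.log ‖x - q.1‖ - q.2)
    positivity
  by_cases ht : tent (Real.log ‖x - q.1‖ - q.2) = 0
  · have : wt a Λ f x q = 0 := by simp [wt, ht]
    rw [this]; exact hG
  rcases g3_ind_cases a Λ f x q.1 q.2 with ⟨h1, h2⟩ | h2
  · have hs := g3_tent_supp ht
    have hn' := hn q.1 _ (Real.exp_pos q.2)
    have h3 : Real.exp (-a * q.2) ≤ Real.exp a * ‖x - q.1‖ ^ (-a) := by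
      rw [Real.rpow_def_of_pos hr, ← Real.exp_add]
      apply Real.exp_le_exp.mpr
      nlinarith [hs.2]
    have h4 : 1 / nn a f q.1 (Real.exp q.2) ≤
        Real.exp a * Λ / pot a f x * ‖x - q.1‖ ^ (-a) := by
      rw [div_le_iff₀ hn', div_mul_eq_mul_div, div_mul_eq_mul_div, le_div_iff₀ hp, one_mul]
      calc pot a f x ≤ Λ * Real.exp (-a * q.2) * nn a f q.1 (Real.exp q.2) := h1
        _ ≤ Λ * (Real.exp a * ‖x - q.1‖ ^ (-a)) * nn a f q.1 (Real.exp q.2) := by gcongr
        _ = _ := by ring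
    have h5 := g3_tent_nonneg (Real.log ‖x - q.1‖ - q.2)
    calc wt a Λ f x q = 1 / nn a f q.1 (Real.exp q.2) *
          (|f q.1| * tent (Real.log ‖x - q.1‖ - q.2)) := by
          unfold wt; rw [h2]; ring
      _ ≤ Real.exp a * Λ / pot a f x * ‖x - q.1‖ ^ (-a) *
          (|f q.1| * tent (Real.log ‖x - q.1‖ - q.2)) := by gcongr
      _ = _ := by unfold g3_G; ring
  · have : wt a Λ f x q = 0 := by simp [wt, h2]
    rw [this]; exact hG

theorem g3_G_meas (a Λ : ℝ) {f : E d → ℝ} (hf : Continuous f) (x : E d) :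
    Measurable (g3_G a Λ f x) := by
  unfold g3_G
  have h1 : Measurable fun q : E d × ℝ => ‖x - q.1‖ := by fun_prop
  have h2 : Measurable fun q : E d × ℝ => |f q.1| := (by fun_prop : Continuous _).measurable
  exact (measurable_const.mul ((h1.pow_const _).mul h2)).mul
    (g3_tent_cont.measurable.comp (h1.log.sub measurable_snd))

theorem g3_G_inner (a Λ : ℝ) (f : E d → ℝ) (x z : E d) :
    ∫ s, g3_G a Λ f x (z, s) = Real.exp a * Λ / pot a f x * (‖x - z‖ ^ (-a) * |f z|) := by
  unfold g3_G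
  dsimp only
  rw [integral_const_mul, g3_tent_shift, mul_one]

theorem g3_G_int {a Λ : ℝ} (hΛ : 0 < Λ) {f : E d → ℝ} (hf : Continuous f) {x : E d}
    (hp : 0 < pot a f x) (hi : Integrable fun z => ‖x - z‖ ^ (-a) * |f z|) :
    Integrable (g3_G a Λ f x) := by
  rw [Measure.volume_eq_prod, integrable_prod_iff (g3_G_meas a Λ hf x).aestronglyMeasurable]
  refine ⟨Filter.Eventually.of_forall fun z => ?_, ?_⟩
  · unfold g3_G
    dsimp only
    exact (g3_tent_shift_int _).const_mul _
  · have : (fun z => ∫ s, ‖g3_G a Λ f x (z, s)‖) =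
        fun z => Real.exp a * Λ / pot a f x * (‖x - z‖ ^ (-a) * |f z|) := by
      funext z
      rw [← g3_G_inner]
      congr 1
      funext s
      rw [Real.norm_of_nonneg]
      unfold g3_G
      have := g3_tent_nonneg (Real.log ‖x - z‖ - s)
      positivity
    rw [this]
    exact hi.const_mul _

theorem g3_wt_meas (a Λ : ℝ) {f : E d → ℝ} (hf : Continuous f) (hp : Continuous (pot a f))
    (hn : Continuous (fun q : E d × ℝ => nn a f q.1 (Real.exp q.2))) :
    Measurable (fun y : E d × (E d × ℝ) => wt a Λ f y.1 y.2) := by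
  have h1 : Measurable fun y : E d × (E d × ℝ) => ‖y.1 - y.2.1‖ := by fun_prop
  have h2 : Measurable fun y : E d × (E d × ℝ) => |f y.2.1| :=
    (by fun_prop : Continuous _).measurable
  have h3 : Continuous fun y : E d × (E d × ℝ) => nn a f y.2.1 (Real.exp y.2.2) :=
    hn.comp continuous_snd
  have h4 : Measurable fun y : E d × (E d × ℝ) => ind a Λ f y.1 y.2.1 y.2.2 := by
    unfold ind
    refine Measurable.ite ?_ measurable_const measurable_const
    refine measurableSet_le (hp.comp continuous_fst).measurable ?_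
    exact ((by fun_prop : Continuous fun y : E d × (E d × ℝ) =>
      Λ * Real.exp (-a * y.2.2)).mul h3).measurable
  unfold wt
  exact (((g3_tent_cont.measurable.comp (h1.log.sub (measurable_snd.comp measurable_snd))).mul
    h4).div h3.measurable).mul h2

theorem sG3 (hB : S_Basic) : S_G3 := by
  intro d a Λ ha had hΛ f hf hc hpos
  obtain ⟨hi, hpc, -, -, hnc, -, hpp⟩ := hB d a ha had f hf hc
  obtain ⟨hp, hn⟩ := hpp hpos
  have hm := g3_wt_meas a Λ hf hpc hnc
  have hd : 0 < d := by
    have : (0 : ℝ) < d := ha.trans had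
    exact_mod_cast this
  have : Nonempty (Fin d) := ⟨⟨0, hd⟩⟩
  have : Nontrivial (E d) := inferInstance
  refine ⟨hm, (hm.stronglyMeasurable.integral_prod_right' (ν := volume)).measurable, fun x => ?_⟩
  have h0 : ∀ q, 0 ≤ wt a Λ f x q := by
    intro q
    unfold wt
    have h1 := g3_tent_nonneg (Real.log ‖x - q.1‖ - q.2)
    have h2 := (hn q.1 _ (Real.exp_pos q.2)).le
    have h3 : 0 ≤ ind a Λ f x q.1 q.2 := by
      rcases g3_ind_cases a Λ f x q.1 q.2 with ⟨-, h⟩ | h <;> rw [h] <;> norm_num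
    positivity
  have hae : ∀ᵐ q : E d × ℝ, wt a Λ f x q ≤ g3_G a Λ f x q := by
    have hnull : (volume : Measure (E d × ℝ)) (({x} : Set (E d)) ×ˢ (univ : Set ℝ)) = 0 := by
      rw [Measure.volume_eq_prod, Measure.prod_prod]
      simp
    filter_upwards [measure_eq_zero_iff_ae_notMem.mp hnull] with q hq
    apply g3_le ha hΛ (hp x) hn
    intro h
    exact hq ⟨h, mem_univ _⟩
  have hG := g3_G_int hΛ hf (hp x) (hi x)
  have hw : Integrable (wt a Λ f x) := by
    refine hG.mono' (hm.comp (measurable_prodMk_left (x := x))).aestronglyMeasurable ?_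
    filter_upwards [hae] with q hq
    rwa [Real.norm_of_nonneg (h0 q)]
  have hS : ∀ S : Set (E d), MeasurableSet S →
      ∫ q in S ×ˢ (univ : Set ℝ), wt a Λ f x q ≤
        Real.exp a * Λ * (∫ z in S, ‖x - z‖ ^ (-a) * |f z|) / pot a f x := by
    intro S _
    calc ∫ q in S ×ˢ (univ : Set ℝ), wt a Λ f x q
        ≤ ∫ q in S ×ˢ (univ : Set ℝ), g3_G a Λ f x q :=
          setIntegral_mono_ae hw.integrableOn hG.integrableOn hae
      _ = ∫ z in S, ∫ s in (univ : Set ℝ), g3_G a Λ f x (z, s) := by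
          rw [Measure.volume_eq_prod] at hG ⊢
          exact setIntegral_prod _ hG.integrableOn
      _ = ∫ z in S, Real.exp a * Λ / pot a f x * (‖x - z‖ ^ (-a) * |f z|) := by
          simp only [Measure.restrict_univ, g3_G_inner]
      _ = _ := by rw [integral_const_mul]; ring
  refine ⟨h0, hw, integral_nonneg h0, ?_, hS⟩
  have h1 := hS univ MeasurableSet.univ
  rw [univ_prod_univ, Measure.restrict_univ, Measure.restrict_univ] at h1
  have h2 : (∫ z, ‖x - z‖ ^ (-a) * |f z|) = pot a f x := rfl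
  rw [h2, mul_div_assoc, div_self (hp x).ne', mul_one] at h1
  exact h1

end Pool.Agent.MP_40db9a_an.H47
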