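import Pool.Agent.MP_40db9a_an.H47.Spec

/-! The mean of `|1 - Ω|` over an annulus. -/

open MeasureTheory Set

namespace Pool.Agent.MP_40db9a_an.H47

variable {d : ℕ}

theorem g4_t0 (u : ℝ) : 0 ≤ tent u := le_max_left _ _

theorem g4_t2 (u : ℝ) : tent u ≤ 2 := max_le (by norm_num) (by linarith [abs_nonneg (4 * u - 2)])

theorem g4_ts {u : ℝ} (h : tent u ≠ 0) : 0 < u ∧ u < 1 := by
  have h1 : |4 * u - 2| < 2 := by
    by_contra h2
    exact h (max_eq_left (by linarith [not_lt.mp h2]))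
  obtain ⟨h2, h3⟩ := abs_lt.mp h1
  constructor <;> linarith

theorem g4_tc : Continuous tent := by
  unfold tent
  fun_prop

theorem g4_ti : Integrable tent ∧ ∫ u, tent u = 1 := by
  have hs : Function.support tent ⊆ Ioc 0 1 := fun u hu => ⟨(g4_ts hu).1, (g4_ts hu).2.le⟩
  constructor
  · refine g4_tc.integrable_of_hasCompactSupport ?_
    exact HasCompactSupport.intro (isCompact_Icc (a := (0 : ℝ)) (b := 1)) fun u hu => by
      by_contra h
      exact hu (Ioc_subset_Icc_self (hs h))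
  · rw [← intervalIntegral.integral_eq_integral_of_support_subset hs,
      ← intervalIntegral.integral_add_adjacent_intervals (b := 1 / 2)
        (g4_tc.intervalIntegrable _ _) (g4_tc.intervalIntegrable _ _)]
    have h1 : ∫ u in (0 : ℝ)..(1 / 2), tent u = ∫ u in (0 : ℝ)..(1 / 2), 4 * u := by
      refine intervalIntegral.integral_congr fun u hu => ?_
      rw [uIcc_of_le (by norm_num)] at hu
      unfold tent
      rw [abs_of_nonpos (by linarith [hu.2]), max_eq_right (by linarith [hu.1])]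
      ring
    have h2 : ∫ u in (1 / 2 : ℝ)..1, tent u = ∫ u in (1 / 2 : ℝ)..1, (4 - 4 * u) := by
      refine intervalIntegral.integral_congr fun u hu => ?_
      rw [uIcc_of_le (by norm_num)] at hu
      unfold tent
      rw [abs_of_nonneg (by linarith [hu.1]), max_eq_right (by linarith [hu.2])]
      ring
    rw [h1, h2, intervalIntegral.integral_sub (by simp) (Continuous.intervalIntegrable
      (by fun_prop) _ _)]
    have h3 : ∀ b c : ℝ, ∫ u in b..c, 4 * u = 2 * (c ^ 2 - b ^ 2) := fun b c => by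
      have h4 := intervalIntegral.integral_const_mul (a := b) (b := c) (μ := volume) (4 : ℝ)
        fun u : ℝ => u
      rw [h4, integral_id]
      ring
    rw [h3, h3, intervalIntegral.integral_const]
    norm_num

theorem g4_fub (x : E d) (h : E d → ℝ) (hh : Integrable h) :
    Integrable (fun q : E d × ℝ => tent (Real.log ‖x - q.1‖ - q.2) * h q.1) ∧
      ∫ q : E d × ℝ, tent (Real.log ‖x - q.1‖ - q.2) * h q.1 = ∫ z, h z := by
  have h1 : ∀ c : ℝ, Integrable (fun s => tent (c - s)) ∧ ∫ s, tent (c - s) = 1 := fun c =>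
    ⟨g4_ti.1.comp_sub_left c, by rw [integral_sub_left_eq_self tent volume c, g4_ti.2]⟩
  have hm : AEStronglyMeasurable (fun q : E d × ℝ => tent (Real.log ‖x - q.1‖ - q.2) * h q.1)
      ((volume : Measure (E d)).prod (volume : Measure ℝ)) := by
    refine AEStronglyMeasurable.mul (Measurable.aestronglyMeasurable ?_) hh.1.comp_fst
    have h2 : Continuous fun q : E d × ℝ => ‖x - q.1‖ := by fun_prop
    have h3 : Measurable fun q : E d × ℝ => Real.log ‖x - q.1‖ - q.2 :=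
      h2.measurable.log.sub measurable_snd
    exact g4_tc.measurable.comp h3
  have hi : Integrable (fun q : E d × ℝ => tent (Real.log ‖x - q.1‖ - q.2) * h q.1)
      ((volume : Measure (E d)).prod (volume : Measure ℝ)) := by
    rw [integrable_prod_iff hm]
    refine ⟨ae_of_all _ fun z => (h1 (Real.log ‖x - z‖)).1.mul_const (h z), ?_⟩
    refine hh.norm.congr (ae_of_all _ fun z => ?_)
    simp only [norm_mul, Real.norm_eq_abs, abs_of_nonneg (g4_t0 _)]
    rw [integral_mul_const, (h1 _).2, one_mul]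
  refine ⟨hi, ?_⟩
  rw [Measure.volume_eq_prod, integral_prod _ hi]
  refine integral_congr_ae (ae_of_all _ fun z => ?_)
  simp only
  rw [integral_mul_const, (h1 _).2, one_mul]

theorem g4_rp {a u : ℝ} (ha : 0 ≤ a) (hu : 0 < u) (h4 : u ≤ 4) : ((4 : ℝ) ^ a)⁻¹ ≤ u ^ (-a) := by
  rw [← Real.rpow_neg (by norm_num)]
  exact Real.rpow_le_rpow_of_nonpos hu h4 (by linarith)

theorem g4_bern {a u : ℝ} (ha : 0 ≤ a) (hu : 0 ≤ u) :
    1 - a * u ≤ (1 + u) ^ (-a) ∧ (1 + u) ^ (-a) ≤ 1 := by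
  constructor
  · rw [Real.rpow_def_of_pos (by linarith)]
    have h1 := Real.add_one_le_exp (Real.log (1 + u) * -a)
    have h2 : Real.log (1 + u) ≤ u := by
      have := Real.log_le_sub_one_of_pos (show 0 < 1 + u by linarith)
      linarith
    nlinarith
  · exact Real.rpow_le_one_of_one_le_of_nonpos (by linarith) (by linarith)

theorem g4_far {a u v : ℝ} (ha : 0 ≤ a) (hv : 0 < v) (h : v ≤ 4 * u) :
    u ^ (-a) ≤ 4 ^ a * v ^ (-a) := by
  have h1 : u ^ (-a) ≤ (v / 4) ^ (-a) :=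
    Real.rpow_le_rpow_of_nonpos (by positivity) (by linarith) (by linarith)
  rw [Real.div_rpow hv.le (by norm_num), Real.rpow_neg (by norm_num : (0 : ℝ) ≤ 4),
    div_inv_eq_mul, mul_comm] at h1
  exact h1

theorem g4_int {f : E d → ℝ} (hf : Continuous f) (hc : HasCompactSupport f) {φ : E d → ℝ}
    (hφ : Continuous φ) : Integrable fun w => φ w * |f w| :=
  (hφ.mul hf.abs).integrable_of_hasCompactSupport hc.abs.mul_left

theorem g4_cn (b : ℝ) (z : E d) {r : ℝ} (hr : 0 < r) :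
    Continuous fun w : E d => (1 + ‖w - z‖ / r) ^ b :=
  Continuous.rpow_const (by fun_prop) fun w => Or.inl (by positivity)

theorem g4_c1 (b : ℝ) : Continuous fun w : E d => (1 + ‖w‖) ^ b :=
  Continuous.rpow_const (by fun_prop) fun w => Or.inl (by positivity)

/-- the core -/
def g4_S (d : ℕ) : Set (E d) := Metric.closedBall 0 (1 / 8)

theorem g4_Sm : MeasurableSet (g4_S d) := measurableSet_closedBall

theorem g4_mem {w : E d} : w ∈ g4_S d ↔ ‖w‖ ≤ 1 / 8 := mem_closedBall_zero_iff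

theorem g4_rest {a : ℝ} (ha : 0 < a) {f : E d → ℝ} (hf : Continuous f)
    (hc : HasCompactSupport f) :
    ∫ w in (g4_S d)ᶜ, (1 + ‖w‖) ^ (-a) * |f w| ≤ 9 * ee a f 0 1 ∧
    ∫ w in g4_S d, ‖w‖ * |f w| ≤ 4 * 4 ^ a * ee a f 0 1 ∧
    nn a f 0 1 ≤ (∫ w in g4_S d, |f w|) + 9 * ee a f 0 1 := by
  have he : ee a f 0 1 = ∫ w, (1 + ‖w‖) ^ (-(a + 1)) * ‖w‖ * |f w| := by simp [ee]
  have hn : nn a f 0 1 = ∫ w, (1 + ‖w‖) ^ (-a) * |f w| := by simp [nn]
  have i1 := g4_int hf hc (g4_c1 (d := d) (-a))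
  have i2 : Integrable fun w : E d => (1 + ‖w‖) ^ (-(a + 1)) * ‖w‖ * |f w| :=
    g4_int hf hc ((g4_c1 _).mul continuous_norm)
  have i3 : Integrable fun w : E d => ‖w‖ * |f w| := g4_int hf hc continuous_norm
  have i4 : Integrable fun w : E d => |f w| := (hf.integrable_of_hasCompactSupport hc).abs
  have p2 : ∀ w : E d, 0 ≤ (1 + ‖w‖) ^ (-(a + 1)) * ‖w‖ * |f w| := fun w => by positivity
  have hA : ∫ w in (g4_S d)ᶜ, (1 + ‖w‖) ^ (-a) * |f w| ≤ 9 * ee a f 0 1 := by
    rw [he, ← integral_const_mul]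
    refine le_trans (setIntegral_mono_on i1.integrableOn (i2.const_mul 9).integrableOn
      g4_Sm.compl fun w hw => ?_)
      (setIntegral_le_integral (i2.const_mul 9) (ae_of_all _ fun w => by
        have := p2 w
        positivity))
    have h1 : 1 / 8 < ‖w‖ := not_le.mp fun h => hw (g4_mem.mpr h)
    have h2 : (1 + ‖w‖) ^ (-a) = (1 + ‖w‖) ^ (-(a + 1)) * (1 + ‖w‖) := by
      rw [← Real.rpow_add_one (by positivity)]
      congr 1
      ring
    have h3 : 0 ≤ (1 + ‖w‖) ^ (-(a + 1)) * |f w| := by positivity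
    rw [h2]
    nlinarith
  refine ⟨hA, ?_, ?_⟩
  · rw [he, ← integral_const_mul]
    refine le_trans (setIntegral_mono_on i3.integrableOn (i2.const_mul _).integrableOn
      g4_Sm fun w hw => ?_)
      (setIntegral_le_integral (i2.const_mul (4 * 4 ^ a)) (ae_of_all _ fun w => by
        have := p2 w
        positivity))
    have h1 := g4_mem.mp hw
    have h2 := g4_rp (a := a + 1) (u := 1 + ‖w‖) (by linarith) (by positivity) (by linarith)
    rw [Real.rpow_add_one (by norm_num), inv_le_iff_one_le_mul₀ (by positivity)] at h2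
    have h3 : 0 ≤ ‖w‖ * |f w| := by positivity
    nlinarith
  · rw [hn, ← integral_add_compl g4_Sm i1]
    refine add_le_add (setIntegral_mono_on i1.integrableOn i4.integrableOn g4_Sm fun w _ => ?_) hA
    have := (g4_bern ha.le (norm_nonneg w)).2
    nlinarith [abs_nonneg (f w)]

theorem g4_nn {a : ℝ} (ha : 0 < a) {f : E d → ℝ} (hf : Continuous f) (hc : HasCompactSupport f)
    (he : 0 ≤ ee a f 0 1) {z : E d} (hz : z ∈ g4_S d) {r : ℝ} (h1 : 1 / 4 ≤ r) (h2 : r ≤ 4) :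
    ((4 : ℝ) ^ a)⁻¹ * (∫ w in g4_S d, |f w|) ≤ nn a f z r ∧
    |nn a f z r - ∫ w in g4_S d, abs (f w)| ≤
      ((16 * a + 9) * 4 ^ a + 4 * a) * (ee a f 0 1 + ‖z‖ * ∫ w in g4_S d, |f w|) := by
  have hr : 0 < r := by linarith
  have hz' := g4_mem.mp hz
  obtain ⟨r1, r2, -⟩ := g4_rest ha hf hc
  have i0 := g4_int hf hc (g4_cn (-a) z hr)
  have i1 := g4_int hf hc (g4_c1 (d := d) (-a))
  have i3 : Integrable fun w : E d => ‖w‖ * |f w| := g4_int hf hc continuous_norm
  have i4 : Integrable fun w : E d => |f w| := (hf.integrable_of_hasCompactSupport hc).abs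
  have hu : ∀ w : E d, ‖w - z‖ / r ≤ 4 * (‖w‖ + ‖z‖) := fun w => by
    rw [div_le_iff₀ hr]
    have := norm_sub_le w z
    nlinarith [norm_nonneg w, norm_nonneg z]
  have a0 : 0 ≤ ∫ w in (g4_S d)ᶜ, (1 + ‖w - z‖ / r) ^ (-a) * |f w| :=
    integral_nonneg fun w => by positivity
  have a1 : ((4 : ℝ) ^ a)⁻¹ * (∫ w in g4_S d, |f w|) ≤
      ∫ w in g4_S d, (1 + ‖w - z‖ / r) ^ (-a) * |f w| := by
    rw [← integral_const_mul]
    refine setIntegral_mono_on (i4.const_mul _).integrableOn i0.integrableOn g4_Sm fun w hw => ?_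
    have := g4_mem.mp hw
    exact mul_le_mul_of_nonneg_right (g4_rp ha.le (by positivity) (by linarith [hu w]))
      (abs_nonneg _)
  have a2 : ∫ w in g4_S d, (1 + ‖w - z‖ / r) ^ (-a) * |f w| ≤ ∫ w in g4_S d, |f w| := by
    refine setIntegral_mono_on i0.integrableOn i4.integrableOn g4_Sm fun w _ => ?_
    have := (g4_bern ha.le (show 0 ≤ ‖w - z‖ / r by positivity)).2
    nlinarith [abs_nonneg (f w)]
  have a3 : (1 - 4 * a * ‖z‖) * (∫ w in g4_S d, |f w|) - 4 * a * ∫ w in g4_S d, ‖w‖ * |f w| ≤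
      ∫ w in g4_S d, (1 + ‖w - z‖ / r) ^ (-a) * |f w| := by
    rw [← integral_const_mul, ← integral_const_mul,
      ← integral_sub (i4.const_mul _).integrableOn (i3.const_mul _).integrableOn]
    refine setIntegral_mono_on ((i4.const_mul _).sub (i3.const_mul _)).integrableOn
      i0.integrableOn g4_Sm fun w _ => ?_
    have h3 := (g4_bern ha.le (show 0 ≤ ‖w - z‖ / r by positivity)).1
    have h4 := mul_le_mul_of_nonneg_left (hu w) ha.le
    have h5 : 1 - 4 * a * ‖z‖ - 4 * a * ‖w‖ ≤ (1 + ‖w - z‖ / r) ^ (-a) := by linarith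
    have h6 := mul_le_mul_of_nonneg_right h5 (abs_nonneg (f w))
    linarith
  have a4 : ∫ w in (g4_S d)ᶜ, (1 + ‖w - z‖ / r) ^ (-a) * |f w| ≤
      4 ^ a * ∫ w in (g4_S d)ᶜ, (1 + ‖w‖) ^ (-a) * |f w| := by
    rw [← integral_const_mul]
    refine setIntegral_mono_on i0.integrableOn (i1.const_mul _).integrableOn g4_Sm.compl
      fun w _ => ?_
    rw [← mul_assoc]
    refine mul_le_mul_of_nonneg_right (g4_far ha.le (by positivity) ?_) (abs_nonneg _)
    have h3 : ‖w‖ - ‖z‖ ≤ ‖w - z‖ := norm_sub_norm_le w z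
    have h4 : ‖w - z‖ / 4 ≤ ‖w - z‖ / r := div_le_div_of_nonneg_left (norm_nonneg _) hr h2
    linarith
  have hm : 0 ≤ ∫ w in g4_S d, |f w| := integral_nonneg fun w => abs_nonneg _
  have hP : (0 : ℝ) < 4 ^ a := by positivity
  unfold nn
  rw [← integral_add_compl g4_Sm i0]
  refine ⟨by linarith, ?_⟩
  generalize (∫ w in g4_S d, |f w|) = m at *
  generalize ee a f 0 1 = e at *
  generalize (4 : ℝ) ^ a = P at *
  have b1 := mul_le_mul_of_nonneg_left r1 hP.le
  have b2 := mul_le_mul_of_nonneg_left r2 (show 0 ≤ 4 * a by positivity)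
  have b3 : 0 ≤ ‖z‖ * m := by positivity
  have b4 : 0 ≤ a * P * e := by positivity
  have b5 : 0 ≤ a * e := by positivity
  have b6 : 0 ≤ P * e := by positivity
  have b7 : 0 ≤ a * P * (‖z‖ * m) := by positivity
  have b8 : 0 ≤ P * (‖z‖ * m) := by positivity
  have b9 : 0 ≤ a * (‖z‖ * m) := by positivity
  rw [abs_le]
  constructor <;> nlinarith

theorem g4_core {a Λ K e : ℝ} (ha : 0 < a) (hΛ : 0 < Λ) {f : E d → ℝ} {x : E d} {m : ℝ}
    (hm : 0 < m) (hx : 1 ≤ ‖x‖) (hx' : ‖x‖ ≤ 3)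
    (hn : ∀ z ∈ g4_S d, ∀ r : ℝ, 1 / 4 ≤ r → r ≤ 4 → ((4 : ℝ) ^ a)⁻¹ * m ≤ nn a f z r ∧
      |nn a f z r - m| ≤ K * (e + ‖z‖ * m))
    (hp : pot a f x ≤ Λ * ((4 : ℝ) ^ a)⁻¹ * (((4 : ℝ) ^ a)⁻¹ * m)) (q : E d × ℝ) :
    |(g4_S d ×ˢ (univ : Set ℝ)).indicator (wt a Λ f x) q -
      tent (Real.log ‖x - q.1‖ - q.2) * (g4_S d).indicator (fun z => m⁻¹ * |f z|) q.1| ≤
      tent (Real.log ‖x - q.1‖ - q.2) *
        (g4_S d).indicator (fun z => 4 ^ a * K / m ^ 2 * ((e + ‖z‖ * m) * |f z|)) q.1 := by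
  by_cases hq : q.1 ∈ g4_S d
  swap
  · rw [indicator_of_notMem hq, indicator_of_notMem hq, indicator_of_notMem fun h => hq h.1]
    simp
  rw [indicator_of_mem hq, indicator_of_mem hq,
    indicator_of_mem (show q ∈ g4_S d ×ˢ (univ : Set ℝ) from ⟨hq, mem_univ _⟩)]
  unfold wt
  by_cases ht : tent (Real.log ‖x - q.1‖ - q.2) = 0
  · simp [ht]
  obtain ⟨t1, t2⟩ := g4_ts ht
  have hz := g4_mem.mp hq
  have l1 : 7 / 8 ≤ ‖x - q.1‖ := by linarith [norm_sub_norm_le x q.1]
  have l2 : ‖x - q.1‖ ≤ 4 := by linarith [norm_sub_le x q.1]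
  have l0 : 0 < ‖x - q.1‖ := by linarith
  have r2 : Real.exp q.2 ≤ 4 := by
    have := (Real.lt_log_iff_exp_lt l0).mp (show q.2 < Real.log ‖x - q.1‖ by linarith)
    linarith
  have r1 : 1 / 4 ≤ Real.exp q.2 := by
    have h1 := (Real.log_lt_iff_lt_exp l0).mp (show Real.log ‖x - q.1‖ < q.2 + 1 by linarith)
    rw [Real.exp_add] at h1
    have h2 := Real.exp_one_lt_three
    nlinarith [Real.exp_pos q.2]
  obtain ⟨n1, n2⟩ := hn q.1 hq _ r1 r2
  have hP : (0 : ℝ) < 4 ^ a := by positivity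
  have hi : ind a Λ f x q.1 q.2 = 1 := by
    unfold ind
    rw [if_pos]
    have h1 : ((4 : ℝ) ^ a)⁻¹ ≤ Real.exp (-a * q.2) := by
      rw [mul_comm, Real.exp_mul]
      exact g4_rp ha.le (Real.exp_pos _) r2
    exact hp.trans (mul_le_mul (mul_le_mul_of_nonneg_left h1 hΛ.le) n1 (by positivity)
      (by positivity))
  rw [hi]
  have hT := g4_t0 (Real.log ‖x - q.1‖ - q.2)
  generalize tent (Real.log ‖x - q.1‖ - q.2) = T at *
  generalize nn a f q.1 (Real.exp q.2) = N at *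
  generalize (4 : ℝ) ^ a = P at *
  have hN : 0 < N := lt_of_lt_of_le (by positivity) n1
  have hF := abs_nonneg (f q.1)
  generalize |f q.1| = F at *
  have e1 : T * 1 / N * F - T * (m⁻¹ * F) = -(T * F / (N * m) * (N - m)) := by
    field_simp
    ring
  have h0 : 0 ≤ K * (e + ‖q.1‖ * m) := (abs_nonneg _).trans n2
  have h1 : T * F / (N * m) ≤ T * F / (P⁻¹ * m * m) :=
    div_le_div_of_nonneg_left (by positivity) (by positivity)
      (mul_le_mul_of_nonneg_right n1 hm.le)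
  rw [e1, abs_neg, abs_mul, abs_of_nonneg (show 0 ≤ T * F / (N * m) by positivity)]
  calc T * F / (N * m) * |N - m| ≤ T * F / (P⁻¹ * m * m) * (K * (e + ‖q.1‖ * m)) :=
        mul_le_mul h1 n2 (abs_nonneg _) (by positivity)
    _ = _ := by field_simp

theorem g4_pt (hB : S_Basic) (h3 : S_G3) {a Λ : ℝ} (ha : 0 < a) (had : a < d) (hΛ : 0 < Λ)
    {f : E d → ℝ} (hf : Continuous f) (hc : HasCompactSupport f) (hM : 0 < ∫ x, |f x|)
    (hm : 0 < ∫ w in g4_S d, |f w|) {x : E d} (hx : 1 ≤ ‖x‖) (hx' : ‖x‖ ≤ 3)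
    (hp : pot a f x ≤ Λ * ((4 : ℝ) ^ a)⁻¹ * (((4 : ℝ) ^ a)⁻¹ * ∫ w in g4_S d, |f w|)) :
    |1 - Om a Λ f x| ≤
      4 ^ a * ((16 * a + 9) * 4 ^ a + 4 * a) * (1 + 4 * 4 ^ a) * ee a f 0 1 /
        (∫ w in g4_S d, |f w|) +
      Real.exp a * Λ * 4 ^ a * (∫ z in (g4_S d)ᶜ, ‖x - z‖ ^ (-a) * |f z|) /
        ∫ w in g4_S d, |f w| := by
  obtain ⟨b1, -, -, b4, -⟩ := hB d a ha had f hf hc
  obtain ⟨-, -, g3⟩ := h3 d a Λ ha had hΛ f hf hc hM
  obtain ⟨w0, wi, -, -, wS⟩ := g3 x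
  have he := (b4 0 1 one_pos).2.2.1
  have r2 := (g4_rest ha hf hc).2.1
  have hco := g4_core ha hΛ hm hx hx' (fun z hz r h1 h2 => g4_nn ha hf hc he hz h1 h2) hp
  have i3 : Integrable fun w : E d => ‖w‖ * |f w| := g4_int hf hc continuous_norm
  have i4 : Integrable fun w : E d => |f w| := (hf.integrable_of_hasCompactSupport hc).abs
  have hP : (0 : ℝ) < 4 ^ a := by positivity
  have hpot : ((4 : ℝ) ^ a)⁻¹ * (∫ w in g4_S d, |f w|) ≤ pot a f x := by
    rw [← integral_const_mul]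
    refine le_trans (setIntegral_mono_on (i4.const_mul _).integrableOn (b1 x).integrableOn g4_Sm
      fun w hw => ?_) (setIntegral_le_integral (b1 x) (ae_of_all _ fun w => by positivity))
    have hz := g4_mem.mp hw
    exact mul_le_mul_of_nonneg_right (g4_rp ha.le (by linarith [norm_sub_norm_le x w])
      (by linarith [norm_sub_le x w])) (abs_nonneg _)
  have hJ : 0 ≤ ∫ z in (g4_S d)ᶜ, ‖x - z‖ ^ (-a) * |f z| := integral_nonneg fun w => by positivity
  have hSS : MeasurableSet (g4_S d ×ˢ (univ : Set ℝ)) := g4_Sm.prod MeasurableSet.univ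
  have hcompl : (g4_S d ×ˢ (univ : Set ℝ))ᶜ = (g4_S d)ᶜ ×ˢ (univ : Set ℝ) := by
    ext q
    simp
  have c0 : 0 ≤ ∫ q in (g4_S d)ᶜ ×ˢ (univ : Set ℝ), wt a Λ f x q := integral_nonneg w0
  have c1 := wS _ (g4_Sm (d := d)).compl
  have e1 : ∫ w in g4_S d, (ee a f 0 1 + ‖w‖ * ∫ w in g4_S d, |f w|) * |f w| =
      ee a f 0 1 * (∫ w in g4_S d, |f w|) +
        (∫ w in g4_S d, |f w|) * ∫ w in g4_S d, ‖w‖ * |f w| := by
    rw [← integral_const_mul (ee a f 0 1), ← integral_const_mul _ fun w : E d => ‖w‖ * |f w|,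
      ← integral_add (i4.const_mul _).integrableOn (i3.const_mul _).integrableOn]
    exact integral_congr_ae (ae_of_all _ fun w => by ring)
  unfold Om
  rw [← integral_add_compl hSS wi, hcompl, ← integral_indicator hSS]
  generalize hmm : (∫ w in g4_S d, |f w|) = m at *
  generalize ee a f 0 1 = e at *
  have hK : 0 ≤ (16 * a + 9) * 4 ^ a + 4 * a := by positivity
  generalize (16 * a + 9) * 4 ^ a + 4 * a = K at *
  obtain ⟨j1, j2⟩ := g4_fub x _ ((i4.const_mul m⁻¹).indicator g4_Sm)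
  obtain ⟨j3, j4⟩ := g4_fub x _ (((g4_int hf hc (φ := fun z => e + ‖z‖ * m)
    (by fun_prop)).const_mul (4 ^ a * K / m ^ 2)).indicator g4_Sm)
  rw [integral_indicator g4_Sm, integral_const_mul, hmm, inv_mul_cancel₀ hm.ne'] at j2
  rw [integral_indicator g4_Sm, integral_const_mul, e1] at j4
  have k1 := (abs_integral_le_integral_abs).trans
    (integral_mono ((wi.indicator hSS).sub j1).abs j3 hco)
  simp only [Pi.sub_apply] at k1
  rw [integral_sub (wi.indicator hSS) j1, j2, j4] at k1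
  generalize (4 : ℝ) ^ a = P at *
  generalize (∫ z in (g4_S d)ᶜ, ‖x - z‖ ^ (-a) * |f z|) = J at *
  generalize (∫ w in g4_S d, ‖w‖ * |f w|) = J' at *
  have k2 : P * K / m ^ 2 * (e * m + m * J') ≤ P * K * (1 + 4 * P) * e / m := by
    calc _ ≤ P * K / m ^ 2 * (e * m + m * (4 * P * e)) := by gcongr
      _ = _ := by field_simp
  have k3 : Real.exp a * Λ * J / pot a f x ≤ Real.exp a * Λ * P * J / m := by
    calc _ ≤ Real.exp a * Λ * J / (P⁻¹ * m) :=
          div_le_div_of_nonneg_left (by positivity) (by positivity) hpot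
      _ = _ := by field_simp
  have k4 : 0 ≤ Real.exp a * Λ * P * J / m := by positivity
  obtain ⟨k5, k6⟩ := abs_le.mp (k1.trans k2)
  rw [abs_le]
  constructor <;> linarith

theorem g4_red {u : E d → ℝ} {G : E d → ENNReal}
    (h : ∀ x, 1 ≤ ‖x‖ → ‖x‖ ≤ 3 → ENNReal.ofReal (2 * |u x|) ≤ G x) :
    ∫⁻ x : E d, ENNReal.ofReal (tent (Real.log ‖x - 0‖ - 0) * ‖x - 0‖ ^ (-(d : ℝ)) * |u x|) ≤
      ∫⁻ x in Metric.closedBall (0 : E d) 4, G x := by
  rw [← lintegral_indicator measurableSet_closedBall]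
  refine lintegral_mono fun x => ?_
  simp only [sub_zero]
  by_cases ht : tent (Real.log ‖x‖) = 0
  · simp [ht]
  obtain ⟨t1, t2⟩ := g4_ts ht
  have h1 : 1 < ‖x‖ := (Real.log_pos_iff (norm_nonneg x)).mp t1
  have h2 : ‖x‖ ≤ 3 := by
    have := (Real.log_lt_iff_lt_exp (by linarith)).mp t2
    linarith [Real.exp_one_lt_three]
  rw [indicator_of_mem (mem_closedBall_zero_iff.mpr (by linarith))]
  refine le_trans (ENNReal.ofReal_le_ofReal ?_) (h x h1.le h2)
  have h3 : ‖x‖ ^ (-(d : ℝ)) ≤ 1 :=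
    Real.rpow_le_one_of_one_le_of_nonpos h1.le (neg_nonpos.mpr (Nat.cast_nonneg d))
  have h4 : tent (Real.log ‖x‖) * ‖x‖ ^ (-(d : ℝ)) ≤ 2 * 1 :=
    mul_le_mul (g4_t2 _) h3 (by positivity) (by norm_num)
  exact mul_le_mul_of_nonneg_right (by linarith) (abs_nonneg _)

theorem g4_ton {a C : ℝ} (ha : 0 < a) (hC : 0 < C) {f : E d → ℝ} (hf : Continuous f)
    (hc : HasCompactSupport f)
    (hI : ∀ z : E d, ∫⁻ x in Metric.closedBall (0 : E d) 4, ENNReal.ofReal (‖x - z‖ ^ (-a)) ≤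
      ENNReal.ofReal (C * (1 + ‖z‖) ^ (-a))) :
    ∫⁻ x in Metric.closedBall (0 : E d) 4, ∫⁻ z in (g4_S d)ᶜ,
      ENNReal.ofReal (‖x - z‖ ^ (-a) * |f z|) ≤ ENNReal.ofReal (C * (9 * ee a f 0 1)) := by
  have i1 := g4_int hf hc (g4_c1 (d := d) (-a))
  have m1 : Measurable fun q : E d × E d => ENNReal.ofReal (‖q.1 - q.2‖ ^ (-a) * |f q.2|) := by
    have h1 : Continuous fun q : E d × E d => ‖q.1 - q.2‖ := by fun_prop
    have h2 : Continuous fun q : E d × E d => |f q.2| := by fun_prop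
    exact ((h1.measurable.pow_const _).mul h2.measurable).ennreal_ofReal
  rw [lintegral_lintegral_swap m1.aemeasurable]
  calc _ ≤ ∫⁻ z in (g4_S d)ᶜ, ENNReal.ofReal (C * ((1 + ‖z‖) ^ (-a) * |f z|)) := by
        refine lintegral_mono fun z => ?_
        have h1 : ∀ x : E d, ENNReal.ofReal (‖x - z‖ ^ (-a) * |f z|) =
            ENNReal.ofReal (‖x - z‖ ^ (-a)) * ENNReal.ofReal |f z| := fun x =>
          ENNReal.ofReal_mul (by positivity)
        simp only [h1]
        rw [lintegral_mul_const' _ _ ENNReal.ofReal_ne_top, ← mul_assoc,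
          ENNReal.ofReal_mul (by positivity)]
        exact mul_le_mul_left (hI z) _
    _ = ENNReal.ofReal (∫ z in (g4_S d)ᶜ, C * ((1 + ‖z‖) ^ (-a) * |f z|)) :=
        (ofReal_integral_eq_lintegral_ofReal (i1.const_mul C).integrableOn
          (ae_of_all _ fun z => by positivity)).symm
    _ ≤ _ := by
        rw [integral_const_mul]
        exact ENNReal.ofReal_le_ofReal (mul_le_mul_of_nonneg_left (g4_rest ha hf hc).1 hC.le)

theorem sG4 (hI : S_Int) (hB : S_Basic) (h3 : S_G3) (hT : S_Tail) : S_G4 := by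
  intro d a ha had
  have hd : 1 ≤ d := by
    have : (0 : ℝ) < d := ha.trans had
    exact_mod_cast this
  obtain ⟨CI, hCI, -, hI2⟩ := (hI d hd a ha).1 had
  obtain ⟨L, CT, hL, hCT, hT2⟩ := hT d a ha had
  have hP : (0 : ℝ) < 4 ^ a := by positivity
  refine ⟨2 * L * 4 ^ a * 4 ^ a, by positivity, fun Λ hΛ => ?_⟩
  have hΛ0 : 0 < Λ := lt_of_lt_of_le (by positivity) hΛ
  obtain ⟨V, hV0, hV⟩ : ∃ V : ℝ, 0 ≤ V ∧
      volume (Metric.closedBall (0 : E d) 4) = ENNReal.ofReal V :=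
    ⟨_, ENNReal.toReal_nonneg, (ENNReal.ofReal_toReal measure_closedBall_lt_top.ne).symm⟩
  obtain ⟨K₁, hK₁, e₁⟩ : ∃ K : ℝ, 0 < K ∧ K = 1 + Real.exp a * Λ := ⟨_, by positivity, rfl⟩
  obtain ⟨K₃, hK₃, e₃⟩ : ∃ K : ℝ, 0 < K ∧
      K = 4 ^ a * ((16 * a + 9) * 4 ^ a + 4 * a) * (1 + 4 * 4 ^ a) := ⟨_, by positivity, rfl⟩
  obtain ⟨K₄, hK₄, e₄⟩ : ∃ K : ℝ, 0 < K ∧ K = Real.exp a * Λ * 4 ^ a := ⟨_, by positivity, rfl⟩
  refine ⟨36 * K₁ * V + 2 * K₁ * CT + 4 * K₃ * V + 36 * K₄ * CI, by positivity,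
    fun f hf hc hM => ?_⟩
  obtain ⟨b1, b2, -, b4, -, -, b7⟩ := hB d a ha had f hf hc
  obtain ⟨-, -, g3⟩ := h3 d a Λ ha had hΛ0 f hf hc hM
  have he := (b4 0 1 one_pos).2.2.1
  have hn := (b7 hM).2 0 1 one_pos
  have r3 := (g4_rest ha hf hc).2.2
  have hO : ∀ x, 2 * |1 - Om a Λ f x| ≤ 2 * K₁ := fun x => by
    obtain ⟨-, -, h1, h2, -⟩ := g3 x
    have h4 : |1 - Om a Λ f x| ≤ K₁ := by
      rw [abs_le]
      constructor <;> nlinarith [Real.exp_pos a]
    linarith
  have hpt := fun hm x => g4_pt hB h3 ha had hΛ0 hf hc hM hm (x := x)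
  have hton := g4_ton ha hCI hf hc hI2
  have hbad := hT2 f hf hc hM
  rw [Real.exp_zero]
  rw [← e₃, ← e₄] at hpt
  generalize (∫ w in g4_S d, |f w|) = m at *
  generalize ee a f 0 1 = e at *
  generalize nn a f 0 1 = n at *
  have q1 : 0 ≤ K₁ * V * (e / n) := by positivity
  have q2 : 0 ≤ K₁ * CT * (e / n) := by positivity
  have q3 : 0 ≤ K₃ * V * (e / n) := by positivity
  have q4 : 0 ≤ K₄ * CI * (e / n) := by positivity
  by_cases hen : n ≤ 18 * e
  · refine (g4_red (G := fun _ => ENNReal.ofReal (2 * K₁))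
      fun x _ _ => ENNReal.ofReal_le_ofReal (hO x)).trans ?_
    rw [setLIntegral_const, hV, ← ENNReal.ofReal_mul (by positivity)]
    refine ENNReal.ofReal_le_ofReal ?_
    have h1 : 1 ≤ 18 * (e / n) := by
      rw [← mul_div_assoc, le_div_iff₀ hn]
      linarith
    have h2 := mul_le_mul_of_nonneg_left h1 (show 0 ≤ 2 * K₁ * V by positivity)
    rw [mul_div_assoc]
    nlinarith
  have hmn : n ≤ 2 * m := by linarith
  have hm : 0 < m := by linarith
  have hinv : m⁻¹ ≤ 2 * n⁻¹ := by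
    rw [← div_eq_mul_inv, inv_eq_one_div, div_le_div_iff₀ hm hn]
    linarith
  have hBm : MeasurableSet {x : E d | x ∈ Ann d ∧ L * n < pot a f x} := by
    refine MeasurableSet.inter (s₁ := Ann d) ?_ (measurableSet_lt measurable_const b2.measurable)
    exact (measurableSet_le measurable_const measurable_norm).inter
      (measurableSet_le measurable_norm measurable_const)
  refine (g4_red (G := fun x =>
    ({x : E d | x ∈ Ann d ∧ L * n < pot a f x}.indicator (fun _ => ENNReal.ofReal (2 * K₁)) x +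
      ENNReal.ofReal (4 * K₃ * (e / n))) + ENNReal.ofReal (4 * K₄ * n⁻¹) *
        ∫⁻ z in (g4_S d)ᶜ, ENNReal.ofReal (‖x - z‖ ^ (-a) * |f z|)) fun x hx hx' => ?_).trans ?_
  · by_cases hb : L * n < pot a f x
    · rw [indicator_of_mem (show x ∈ {x : E d | x ∈ Ann d ∧ L * n < pot a f x} from
        ⟨⟨by linarith, by linarith⟩, hb⟩), add_assoc]
      exact (ENNReal.ofReal_le_ofReal (hO x)).trans le_self_add
    · have h1 : L * n ≤ Λ * ((4 : ℝ) ^ a)⁻¹ * (((4 : ℝ) ^ a)⁻¹ * m) := by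
        calc L * n ≤ L * (2 * m) := by gcongr
          _ = 2 * L * 4 ^ a * 4 ^ a * ((4 : ℝ) ^ a)⁻¹ * (((4 : ℝ) ^ a)⁻¹ * m) := by field_simp
          _ ≤ _ := by gcongr
      have h2 := hpt hm x hx hx' ((not_lt.mp hb).trans h1)
      have hJ : 0 ≤ ∫ z in (g4_S d)ᶜ, ‖x - z‖ ^ (-a) * |f z| :=
        integral_nonneg fun w => by positivity
      rw [← ofReal_integral_eq_lintegral_ofReal (b1 x).integrableOn
        (ae_of_all _ fun z => by positivity), add_assoc, ← ENNReal.ofReal_mul (by positivity)]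
      generalize (∫ z in (g4_S d)ᶜ, ‖x - z‖ ^ (-a) * |f z|) = J at *
      rw [← ENNReal.ofReal_add (by positivity) (by positivity)]
      refine le_trans (ENNReal.ofReal_le_ofReal ?_) le_add_self
      have h4 := mul_le_mul_of_nonneg_left hinv (show 0 ≤ K₃ * e by positivity)
      have h5 := mul_le_mul_of_nonneg_left hinv (show 0 ≤ K₄ * J by positivity)
      simp only [div_eq_mul_inv] at h2 ⊢
      nlinarith
  · rw [lintegral_add_left ((measurable_const.indicator hBm).add_const _),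
      lintegral_add_left (measurable_const.indicator hBm), setLIntegral_const, hV,
      lintegral_const_mul' _ _ ENNReal.ofReal_ne_top]
    have h1 : ∫⁻ x in Metric.closedBall (0 : E d) 4,
        {x : E d | x ∈ Ann d ∧ L * n < pot a f x}.indicator
          (fun _ => ENNReal.ofReal (2 * K₁)) x ≤ ENNReal.ofReal (2 * K₁ * (CT * e / n)) := by
      refine (setLIntegral_le_lintegral _ _).trans ?_
      rw [lintegral_indicator_const hBm, ENNReal.ofReal_mul (p := 2 * K₁) (by positivity)]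
      exact mul_le_mul_right hbad _
    refine (add_le_add (add_le_add h1 le_rfl) (mul_le_mul_right hton _)).trans ?_
    rw [← ENNReal.ofReal_mul (by positivity), ← ENNReal.ofReal_mul (by positivity),
      ← ENNReal.ofReal_add (by positivity) (by positivity),
      ← ENNReal.ofReal_add (by positivity) (by positivity)]
    refine ENNReal.ofReal_le_ofReal ?_
    simp only [div_eq_mul_inv] at q1 ⊢
    nlinarith

end Pool.Agent.MP_40db9a_an.H47
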