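import Pool.Agent.MP_40db9a_an.H47.Spec

/-! The global argument: from the local estimate to the inequality. -/

open MeasureTheory Set

namespace Pool.Agent.MP_40db9a_an.H47

variable {d : ℕ}

theorem g5_tent : Continuous tent := by
  unfold tent
  fun_prop

theorem g5_tent_nonneg (u : ℝ) : 0 ≤ tent u := le_max_left _ _

theorem g5_real {x y : ℝ} (hy : 0 ≤ y) (h : ‖x‖ₑ ≤ ENNReal.ofReal y) : |x| ≤ y := by
  rwa [Real.enorm_eq_ofReal_abs, ENNReal.ofReal_le_ofReal_iff hy] at h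

theorem g5_nn (hB : S_Basic) {a : ℝ} (ha : 0 < a) (had : a < d) {f : E d → ℝ} (hf : Continuous f)
    (hs : HasCompactSupport f) (x z : E d) {r ρ : ℝ} (hr : 0 < r) (hρ : 0 < ρ) (h : r ≤ 3 * ρ)
    (hx : ‖x - z‖ ≤ r) : nn a f x r ≤ 4 ^ a * nn a f z ρ := by
  have H := (hB d a ha had f hf hs).2.2.2.1
  unfold nn
  rw [← integral_const_mul]
  refine integral_mono (H x r hr).1 ((H z ρ hρ).1.const_mul _) fun w => ?_
  have h0 : 0 ≤ ‖w - x‖ / r := by positivity
  have h1 : ‖w - z‖ ≤ ‖w - x‖ + r := by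
    have := norm_sub_le_norm_sub_add_norm_sub w x z
    linarith
  have h2 : ‖w - z‖ / ρ ≤ 3 * (‖w - x‖ / r) + 3 := by
    rw [div_le_iff₀ hρ]
    have e : ‖w - x‖ = ‖w - x‖ / r * r := by field_simp
    nlinarith
  have h3 : (4 * (1 + ‖w - x‖ / r)) ^ (-a) ≤ (1 + ‖w - z‖ / ρ) ^ (-a) :=
    Real.rpow_le_rpow_of_nonpos (by positivity) (by linarith) (by linarith)
  rw [Real.mul_rpow (by norm_num) (by positivity)] at h3
  have h4 : (4 : ℝ) ^ a * 4 ^ (-a) = 1 := by
    rw [← Real.rpow_add (by norm_num), add_neg_cancel, Real.rpow_zero]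
  have h5 : (1 + ‖w - x‖ / r) ^ (-a) ≤ 4 ^ a * (1 + ‖w - z‖ / ρ) ^ (-a) := by
    have := mul_le_mul_of_nonneg_left h3 (show (0 : ℝ) ≤ 4 ^ a by positivity)
    rwa [← mul_assoc, h4, one_mul] at this
  change _ ≤ 4 ^ a * (_ * _)
  rw [← mul_assoc]
  exact mul_le_mul_of_nonneg_right h5 (abs_nonneg _)

theorem g5_pt (hB : S_Basic) {a p : ℝ} (ha : 0 < a) (had : a < d) (hp : 1 < p) {f : E d → ℝ}
    (hf : Continuous f) (hs : HasCompactSupport f) (x z : E d) {o : ℝ} (ho : 0 ≤ o) :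
    ENNReal.ofReal (‖x - z‖ ^ (-(d : ℝ)) * nn a f x ‖x - z‖ ^ (p - 1) * |f z|) * ENNReal.ofReal o ≤
      ∫⁻ s : ℝ, ENNReal.ofReal (tent (Real.log ‖x - z‖ - s) * ‖x - z‖ ^ (-(d : ℝ)) * o) *
        ENNReal.ofReal (2 * (4 ^ a) ^ (p - 1) * (nn a f z (Real.exp s) ^ (p - 1) * |f z|)) := by
  have H := (hB d a ha had f hf hs).2.2.2.1
  rcases (norm_nonneg (x - z)).eq_or_lt with h0 | hr
  · rw [← h0, Real.zero_rpow (by linarith : -(d : ℝ) ≠ 0)]
    simp
  set r := ‖x - z‖ with hrd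
  set u := Real.log r with hu
  have hn : 0 ≤ nn a f x r := (H x r hr).2.2.1.trans (H x r hr).2.2.2.1
  have hA : 0 ≤ r ^ (-(d : ℝ)) * nn a f x r ^ (p - 1) * |f z| := by positivity
  rw [← ENNReal.ofReal_mul hA]
  calc ENNReal.ofReal (r ^ (-(d : ℝ)) * nn a f x r ^ (p - 1) * |f z| * o)
      = ∫⁻ _ in Icc (u - 3 / 4) (u - 1 / 4),
          ENNReal.ofReal (2 * (r ^ (-(d : ℝ)) * nn a f x r ^ (p - 1) * |f z| * o)) := by
        rw [setLIntegral_const, Real.volume_Icc, ← ENNReal.ofReal_mul (by positivity)]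
        congr 1
        ring
    _ ≤ _ := by
        refine le_trans (setLIntegral_mono' measurableSet_Icc fun s hs' => ?_)
          (setLIntegral_le_lintegral _ _)
        have ht : 1 ≤ tent (u - s) := by
          refine le_trans ?_ (le_max_right _ _)
          have : |4 * (u - s) - 2| ≤ 1 := abs_le.2 ⟨by linarith [hs'.2], by linarith [hs'.1]⟩
          linarith
        have he : r ≤ 3 * Real.exp s := by
          have h1 : r = Real.exp (u - s) * Real.exp s := by
            rw [← Real.exp_add, sub_add_cancel, hu, Real.exp_log hr]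
          have h2 : Real.exp (u - s) ≤ Real.exp 1 := Real.exp_le_exp.2 (by linarith [hs'.1])
          have h3 := Real.exp_one_lt_d9
          rw [h1]
          exact mul_le_mul_of_nonneg_right (by linarith) (Real.exp_pos s).le
        have h1 := g5_nn hB ha had hf hs x z hr (Real.exp_pos s) he le_rfl
        have hn' : 0 ≤ nn a f z (Real.exp s) :=
          (H z _ (Real.exp_pos s)).2.2.1.trans (H z _ (Real.exp_pos s)).2.2.2.1
        have h2 := Real.rpow_le_rpow hn h1 (show 0 ≤ p - 1 by linarith)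
        rw [Real.mul_rpow (by positivity) hn'] at h2
        rw [← ENNReal.ofReal_mul (by positivity)]
        refine ENNReal.ofReal_le_ofReal ?_
        have h3 : 0 ≤ 2 * (r ^ (-(d : ℝ)) * |f z| * o) := by positivity
        have h4 : nn a f x r ^ (p - 1) ≤
            tent (u - s) * ((4 ^ a) ^ (p - 1) * nn a f z (Real.exp s) ^ (p - 1)) :=
          h2.trans (le_mul_of_one_le_left (by positivity) ht)
        have := mul_le_mul_of_nonneg_left h4 h3
        linarith

theorem g5_J (h1 : S_G1) {a p : ℝ} (ha : 0 < a) (had : a < d) (hp : 1 < p)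
    {f : E d → ℝ} (hf : Continuous f) (hs : HasCompactSupport f) (hM : 0 < ∫ x, |f x|) {c : ℝ}
    (hc : 0 ≤ c) :
    ∫⁻ q : E d × ℝ, ENNReal.ofReal (c * |f q.1| *
      (nn a f q.1 (Real.exp q.2) ^ (p - 2) * ee a f q.1 (Real.exp q.2))) ≤
      ENNReal.ofReal (c * (∫ x, |f x|) ^ p / (a * (p - 1))) := by
  have hi : Integrable fun x => |f x| := (hf.integrable_of_hasCompactSupport hs).abs
  have hp' : 0 < p - 1 := by linarith
  refine (lintegral_prod_le _).trans ?_
  calc _ ≤ ∫⁻ z, ENNReal.ofReal ((c * ((∫ x, |f x|) ^ (p - 1) / (a * (p - 1)))) * |f z|) := by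
        refine lintegral_mono fun z => ?_
        simp only
        simp_rw [ENNReal.ofReal_mul (show 0 ≤ c * |f z| by positivity)]
        rw [lintegral_const_mul' _ _ ENNReal.ofReal_ne_top]
        refine (mul_le_mul_right (h1 d a p ha had hp f hf hs hM z) _).trans ?_
        rw [← ENNReal.ofReal_mul (by positivity)]
        exact ENNReal.ofReal_le_ofReal (le_of_eq (by ring))
    _ = _ := by
        rw [← ofReal_integral_eq_lintegral_ofReal (hi.const_mul _)
          (Filter.Eventually.of_forall fun z => by positivity), integral_const_mul]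
        congr 1
        have : (∫ x, |f x|) ^ p = (∫ x, |f x|) ^ (p - 1) * ∫ x, |f x| := by
          rw [← Real.rpow_add_one hM.ne', sub_add_cancel]
        rw [this]
        ring

theorem g5_two (hB : S_Basic) (h1 : S_G1) (h3 : S_G3) {a Λ B : ℝ} (ha : 0 < a) (had : a < d)
    (hΛ : 0 < Λ) (hB0 : 0 ≤ B) {Φ : E d → ℝ} (hL : ∀ z s, LocAt a Λ Φ B z s) {f : E d → ℝ}
    (hf : ContDiff ℝ 1 f) (hs : HasCompactSupport f) (hM : 0 < ∫ x, |f x|)
    (hi : Integrable fun x => Φ (conv (Kr a) f x)) :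
    Integrable (fun x => Φ (conv (Kr a) f x) * Om a Λ f x) ∧
    |∫ x, Φ (conv (Kr a) f x) * Om a Λ f x| ≤
      B * (∫ x, |f x|) ^ ((d : ℝ) / a) / (a * ((d : ℝ) / a - 1)) := by
  have hp : 1 < (d : ℝ) / a := (one_lt_div ha).2 had
  have hp' : 0 < (d : ℝ) / a - 1 := by linarith
  obtain ⟨m1, m2, H⟩ := h3 d a Λ ha had hΛ f hf.continuous hs hM
  have hpos := ((hB d a ha had f hf.continuous hs).2.2.2.2.2.2 hM).2
  have hO : ∀ x, ‖Om a Λ f x‖ ≤ Real.exp a * Λ := fun x => by
    rw [Real.norm_of_nonneg (H x).2.2.1]; exact (H x).2.2.2.1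
  have i1 : Integrable fun x => Φ (conv (Kr a) f x) * Om a Λ f x :=
    hi.mul_bdd m2.aestronglyMeasurable (Filter.Eventually.of_forall hO)
  refine ⟨i1, ?_⟩
  have i2 : Integrable (Function.uncurry fun x (q : E d × ℝ) => Φ (conv (Kr a) f x) * wt a Λ f x q)
      (volume.prod volume) := by
    refine (integrable_prod_iff
      (hi.aestronglyMeasurable.comp_fst.mul m1.aestronglyMeasurable)).2
      ⟨Filter.Eventually.of_forall fun x => (H x).2.1.const_mul (Φ (conv (Kr a) f x)),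
        i1.norm.congr ?_⟩
    refine Filter.Eventually.of_forall fun x => ?_
    simp only [Pi.mul_apply, norm_mul]
    rw [integral_const_mul, Real.norm_of_nonneg (H x).2.2.1, Om]
    congr 2
    funext q
    exact (Real.norm_of_nonneg ((H x).1 q)).symm
  have e : ∫ x, Φ (conv (Kr a) f x) * Om a Λ f x =
      ∫ q : E d × ℝ, |f q.1| / nn a f q.1 (Real.exp q.2) * TT a Λ Φ f q.1 q.2 := by
    simp only [Om, ← integral_const_mul, TT]
    rw [integral_integral_swap i2]
    congr 1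
    funext q
    congr 1
    funext x
    rw [wt]
    ring
  rw [e]
  refine g5_real (by positivity) ((enorm_integral_le_lintegral_enorm _).trans
    (le_trans (lintegral_mono fun q => ?_) (g5_J h1 ha had hp hf.continuous hs hM hB0)))
  have hn := hpos q.1 _ (Real.exp_pos q.2)
  rw [Real.enorm_eq_ofReal_abs, abs_mul, abs_of_nonneg (by positivity)]
  refine ENNReal.ofReal_le_ofReal ((mul_le_mul_of_nonneg_left (hL q.1 q.2 f hf hs hM)
    (by positivity)).trans (le_of_eq ?_))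
  rw [show (d : ℝ) / a - 1 = (d : ℝ) / a - 2 + 1 by ring, Real.rpow_add_one hn.ne']
  field_simp

theorem g5_one (hB : S_Basic) (h1 : S_G1) (h3 : S_G3) {a Λ N C₂ C₄ : ℝ} (ha : 0 < a) (had : a < d)
    (hΛ : 0 < Λ) (hN : 0 ≤ N) (hC₂ : 0 < C₂) (hC₄ : 0 < C₄) {Φ : E d → ℝ}
    (hΦ : ∀ v, |Φ v| ≤ N * ‖v‖ ^ ((d : ℝ) / a)) (h4 : ∀ (z : E d) s, G4At a Λ C₄ z s)
    {f : E d → ℝ} (hf : Continuous f) (hs : HasCompactSupport f) (hM : 0 < ∫ x, |f x|)
    (h2 : ∀ x : E d, ENNReal.ofReal (pot a f x ^ ((d : ℝ) / a)) ≤ ENNReal.ofReal C₂ *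
      ∫⁻ z, ENNReal.ofReal (‖x - z‖ ^ (-(d : ℝ)) * nn a f x ‖x - z‖ ^ ((d : ℝ) / a - 1) * |f z|)) :
    |∫ x, Φ (conv (Kr a) f x) * (1 - Om a Λ f x)| ≤
      N * C₂ * (C₄ * (2 * (4 ^ a) ^ ((d : ℝ) / a - 1)) * (∫ x, |f x|) ^ ((d : ℝ) / a) /
        (a * ((d : ℝ) / a - 1))) := by
  have hp : 1 < (d : ℝ) / a := (one_lt_div ha).2 had
  have hp' : 0 < (d : ℝ) / a - 1 := by linarith
  obtain ⟨-, m2, -⟩ := h3 d a Λ ha had hΛ f hf hs hM
  obtain ⟨-, -, b3, b4, b5, -, b7⟩ := hB d a ha had f hf hs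
  have hpos := (b7 hM).2
  set p := (d : ℝ) / a with hpd
  let F : E d → E d × ℝ → ENNReal := fun x q =>
    ENNReal.ofReal (tent (Real.log ‖x - q.1‖ - q.2) * ‖x - q.1‖ ^ (-(d : ℝ)) * |1 - Om a Λ f x|) *
      ENNReal.ofReal (2 * (4 ^ a) ^ (p - 1) * (nn a f q.1 (Real.exp q.2) ^ (p - 1) * |f q.1|))
  have mF : Measurable (Function.uncurry F) := by
    have t1 := g5_tent.measurable
    have t2 := b5.measurable
    have t3 := hf.measurable
    have t4 : Measurable fun y : E d × (E d × ℝ) => nn a f y.2.1 (Real.exp y.2.2) :=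
      t2.comp measurable_snd
    refine Measurable.mul (Measurable.ennreal_ofReal ?_) (Measurable.ennreal_ofReal ?_)
    · fun_prop
    · fun_prop
  refine g5_real (by positivity) ((enorm_integral_le_lintegral_enorm _).trans ?_)
  calc _ ≤ ∫⁻ x, ENNReal.ofReal (N * C₂) * ∫⁻ q, F x q := by
        refine lintegral_mono fun x => ?_
        have e1 : |Φ (conv (Kr a) f x)| ≤ N * pot a f x ^ p :=
          (hΦ _).trans (mul_le_mul_of_nonneg_left
            (Real.rpow_le_rpow (norm_nonneg _) (b3 x) (by linarith)) hN)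
        have e2 : ∫⁻ q, F x q = ∫⁻ z, ∫⁻ s, F x (z, s) :=
          lintegral_prod _ (mF.of_uncurry_left (x := x)).aemeasurable
        simp only
        rw [Real.enorm_eq_ofReal_abs, abs_mul, ENNReal.ofReal_mul (abs_nonneg _), e2,
          ENNReal.ofReal_mul hN]
        calc _ ≤ ENNReal.ofReal N * (ENNReal.ofReal C₂ * ∫⁻ z, ENNReal.ofReal
              (‖x - z‖ ^ (-(d : ℝ)) * nn a f x ‖x - z‖ ^ (p - 1) * |f z|)) *
              ENNReal.ofReal |1 - Om a Λ f x| := by
              refine mul_le_mul_left ((ENNReal.ofReal_le_ofReal e1).trans ?_) _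
              rw [ENNReal.ofReal_mul hN]
              exact mul_le_mul_right (h2 x) _
          _ ≤ _ := by
              rw [mul_assoc, mul_assoc, mul_assoc,
                ← lintegral_mul_const' _ _ ENNReal.ofReal_ne_top]
              exact mul_le_mul_right (mul_le_mul_right (lintegral_mono fun z =>
                g5_pt hB ha had hp hf hs x z (abs_nonneg _)) _) _
    _ = ENNReal.ofReal (N * C₂) * ∫⁻ q, ∫⁻ x, F x q := by
        rw [lintegral_const_mul' _ _ ENNReal.ofReal_ne_top,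
          lintegral_lintegral_swap mF.aemeasurable]
    _ ≤ _ := by
        rw [ENNReal.ofReal_mul (p := N * C₂) (by positivity)]
        refine mul_le_mul_right (le_trans (lintegral_mono fun q => ?_)
          (g5_J h1 ha had hp hf hs hM (by positivity))) _
        have hn := hpos q.1 _ (Real.exp_pos q.2)
        have he := (b4 q.1 _ (Real.exp_pos q.2)).2.2.1
        simp only [F]
        rw [lintegral_mul_const' _ _ ENNReal.ofReal_ne_top]
        refine (mul_le_mul_left (h4 q.1 q.2 f hf hs hM) _).trans ?_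
        rw [← ENNReal.ofReal_mul (by positivity)]
        refine ENNReal.ofReal_le_ofReal (le_of_eq ?_)
        rw [show nn a f q.1 (Real.exp q.2) ^ (p - 1) =
          nn a f q.1 (Real.exp q.2) ^ (p - 2) * nn a f q.1 (Real.exp q.2) by
            rw [← Real.rpow_add_one hn.ne']; congr 1; ring]
        field_simp

theorem sG5 (hB : S_Basic) (_hC : S_Conv) (h1 : S_G1) (h2 : S_G2) (h3 : S_G3) (h4 : S_G4)
    (hS : S_Scale) : S_G5 := by
  intro d a ha had
  have hp : 1 < (d : ℝ) / a := (one_lt_div ha).2 had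
  have hp' : 0 < (d : ℝ) / a - 1 := by linarith
  obtain ⟨Λ₀, hΛ₀, H4⟩ := h4 d a ha had
  obtain ⟨C₂, hC₂, H2⟩ := h2 d a ha had
  refine ⟨Λ₀, hΛ₀, fun Λ hΛ => ?_⟩
  obtain ⟨C₄, hC₄, H4⟩ := H4 Λ hΛ
  have hΛ' : 0 < Λ := hΛ₀.trans_le hΛ
  refine ⟨(C₂ * (C₄ * (2 * (4 ^ a) ^ ((d : ℝ) / a - 1))) + 1) / (a * ((d : ℝ) / a - 1)),
    by positivity, fun Φ N B hN hB0 _ hΦ hL f hf hs hi => ?_⟩
  have hM0 : 0 ≤ ∫ x, |f x| := integral_nonneg fun x => abs_nonneg _
  rcases hM0.eq_or_lt with hM | hM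
  · have i0 : Integrable fun x => |f x| := (hf.continuous.integrable_of_hasCompactSupport hs).abs
    have e1 := (integral_eq_zero_iff_of_nonneg (fun x => abs_nonneg (f x)) i0).1 hM.symm
    have e2 := (Continuous.ae_eq_iff_eq volume hf.continuous.abs continuous_zero).1 e1
    have e3 : ∀ x, f x = 0 := fun x => abs_eq_zero.1 (congrFun e2 x)
    have e4 : Φ 0 = 0 := by
      have := hΦ 0
      rw [norm_zero, Real.zero_rpow (by linarith), mul_zero] at this
      exact abs_nonpos_iff.1 this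
    have e5 : ∀ x, Φ (conv (Kr a) f x) = 0 := fun x => by simp [conv, e3, e4]
    simp only [e5, integral_zero, abs_zero]
    positivity
  obtain ⟨i1, k2⟩ := g5_two hB h1 h3 ha had hΛ' hB0 hL hf hs hM hi
  have k1 := g5_one hB h1 h3 ha had hΛ' hN hC₂ hC₄ hΦ ((hS d a Λ ha had).2 C₄ H4) hf.continuous hs
    hM (H2 f hf.continuous hs)
  have e : ∫ x, Φ (conv (Kr a) f x) * (1 - Om a Λ f x) =
      (∫ x, Φ (conv (Kr a) f x)) - ∫ x, Φ (conv (Kr a) f x) * Om a Λ f x := by
    rw [← integral_sub hi i1]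
    congr 1
    funext x
    ring
  rw [e] at k1
  have k3 := abs_add_le ((∫ x, Φ (conv (Kr a) f x)) - ∫ x, Φ (conv (Kr a) f x) * Om a Λ f x)
    (∫ x, Φ (conv (Kr a) f x) * Om a Λ f x)
  rw [sub_add_cancel] at k3
  refine (k3.trans (add_le_add k1 k2)).trans ?_
  set c := C₄ * (2 * (4 ^ a) ^ ((d : ℝ) / a - 1)) with hc
  have hc0 : 0 ≤ c := by positivity
  set m := (∫ x, |f x|) ^ ((d : ℝ) / a) with hm
  have hm0 : 0 ≤ m := by positivity
  set t := a * ((d : ℝ) / a - 1) with ht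
  have ht0 : 0 < t := by positivity
  have : (C₂ * c + 1) / t * (N + B) * m - (N * C₂ * (c * m / t) + B * m / t) =
      (N + C₂ * c * B) * m / t := by ring
  have h0 : 0 ≤ (N + C₂ * c * B) * m / t := by positivity
  linarith

end Pool.Agent.MP_40db9a_an.H47
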