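import Pool.Agent.MP_40db9a_an.H47.Spec

/-! The good part of the decomposition: Lipschitz bound off a small set. -/

open MeasureTheory Set

namespace Pool.Agent.MP_40db9a_an.H47

variable {d : ℕ}

/-- an entry of a matrix, as a continuous linear form -/
noncomputable def gp_ent (i j : Fin d) : (E d →L[ℝ] E d) →L[ℝ] ℝ :=
  (EuclideanSpace.proj j : E d →L[ℝ] ℝ).comp
    (ContinuousLinearMap.apply ℝ (E d) (EuclideanSpace.single i 1))

theorem gp_ent_apply (i j : Fin d) (A : E d →L[ℝ] E d) :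
    gp_ent i j A = A (EuclideanSpace.single i 1) j := rfl

/-- the trace, as a continuous linear form -/
noncomputable def gp_tr (d : ℕ) : (E d →L[ℝ] E d) →L[ℝ] ℝ := ∑ i, gp_ent i i

theorem gp_tr_apply (A : E d →L[ℝ] E d) : gp_tr d A = tr A := by
  simp only [gp_tr, tr, sum_apply, gp_ent_apply]

theorem gp_supp {γ : E d → ℝ} (hs : ∀ x, γ x ≠ 0 → ‖x‖ ≤ 50) : HasCompactSupport γ :=
  HasCompactSupport.intro (isCompact_closedBall (0 : E d) 50) fun x hx => by
    by_contra h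
    exact hx (mem_closedBall_zero_iff.2 (hs x h))

theorem gp_int {γ : E d → ℝ} {t : ℝ} (hm : Measurable γ) (hb : ∀ x, |γ x| ≤ t)
    (hs : ∀ x, γ x ≠ 0 → ‖x‖ ≤ 50) : Integrable γ := by
  have h1 : IntegrableOn γ (Metric.closedBall (0 : E d) 50) :=
    Measure.integrableOn_of_bounded (M := t) measure_closedBall_lt_top.ne
      hm.aestronglyMeasurable (Filter.Eventually.of_forall fun x => hb x)
  exact h1.integrable_of_forall_notMem_eq_zero fun x hx => by
    by_contra h
    exact hx (mem_closedBall_zero_iff.2 (hs x h))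

theorem gp_form {γ : E d → ℝ} (hγ : Integrable γ) {k : E d → E d} (hk : ContDiff ℝ 2 k)
    (hc : HasCompactSupport k) (l : (E d →L[ℝ] E d) →L[ℝ] ℝ) (x : E d) :
    l (fderiv ℝ (conv k γ) x) = ∫ z, γ z * l (fderiv ℝ k (x - z)) := by
  have h1 : ContDiff ℝ 1 k := hk.of_le (by norm_num)
  have h2 := (hc.hasFDerivAt_convolution_right (ContinuousLinearMap.lsmul ℝ ℝ)
    hγ.locallyIntegrable h1 x).fderiv
  have h3 := (hc.fderiv ℝ).convolutionExists_right
    ((ContinuousLinearMap.lsmul ℝ ℝ : ℝ →L[ℝ] E d →L[ℝ] E d).precompR (E d))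
    hγ.locallyIntegrable (h1.continuous_fderiv one_ne_zero) x
  have h4 : conv k γ = convolution γ k (ContinuousLinearMap.lsmul ℝ ℝ) volume := rfl
  rw [h4, h2, convolution_def, ← l.integral_comp_comm h3]
  refine integral_congr_ae (Filter.Eventually.of_forall fun z => ?_)
  have h5 : ((ContinuousLinearMap.lsmul ℝ ℝ : ℝ →L[ℝ] E d →L[ℝ] E d).precompR (E d)) (γ z)
      (fderiv ℝ k (x - z)) = γ z • fderiv ℝ k (x - z) := by
    ext v
    simp
  simp only [h5, map_smul, smul_eq_mul]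

theorem gp_sym {γ : E d → ℝ} (hγ : Integrable γ) {k : E d → E d} (hk : ContDiff ℝ 2 k)
    (hc : HasCompactSupport k) (hS : Sym k) : Sym (conv k γ) := by
  intro x i j
  rw [← gp_ent_apply, ← gp_ent_apply, gp_form hγ hk hc, gp_form hγ hk hc]
  refine integral_congr_ae (Filter.Eventually.of_forall fun z => ?_)
  simp only [gp_ent_apply, hS (x - z) i j]

theorem gp_sq {γ : E d → ℝ} {t C : ℝ} (ht : 0 < t) (hγ : Integrable γ) (hb : ∀ x, |γ x| ≤ t)
    {k : E d → E d} (hk : ContDiff ℝ 2 k) (hc : HasCompactSupport k)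
    (hC : ∫ u, |tr (fderiv ℝ k u)| ≤ C) :
    ∫ x, tr (fderiv ℝ (conv k γ) x) ^ 2 ≤ C ^ 2 * t * ∫ x, |γ x| := by
  have h1 : ContDiff ℝ 1 k := hk.of_le (by norm_num)
  set T : E d → ℝ := fun u => |gp_tr d (fderiv ℝ k u)| with hT
  have hTc : Continuous T := ((gp_tr d).continuous.comp (h1.continuous_fderiv one_ne_zero)).abs
  have hTs : HasCompactSupport T :=
    (hc.fderiv ℝ).comp_left (g := fun A => |gp_tr d A|) (by simp)
  have hTi : Integrable T := hTc.integrable_of_hasCompactSupport hTs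
  have hT0 : ∀ u, 0 ≤ T u := fun u => abs_nonneg _
  have hTC : ∫ u, T u ≤ C := by simpa only [hT, gp_tr_apply] using hC
  have hI0 : 0 ≤ ∫ u, T u := integral_nonneg hT0
  have hC0 : 0 ≤ C := hI0.trans hTC
  set W : E d → ℝ := convolution (fun z => |γ z|) T (ContinuousLinearMap.mul ℝ ℝ) volume with hW
  have hWi : Integrable W := hγ.abs.integrable_convolution _ hTi
  have hWI : ∫ x, W x = (∫ x, |γ x|) * ∫ u, T u := by
    rw [hW, integral_convolution _ hγ.abs hTi]
    rfl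
  have hle : ∀ x, |tr (fderiv ℝ (conv k γ) x)| ≤ W x := by
    intro x
    rw [← gp_tr_apply, gp_form hγ hk hc, hW, convolution_mul]
    refine abs_integral_le_integral_abs.trans (le_of_eq ?_)
    simp only [abs_mul, hT]
  have hWt : ∀ x, W x ≤ t * C := by
    intro x
    rw [hW, convolution_mul]
    calc ∫ z, |γ z| * T (x - z) ≤ ∫ z, t * T (x - z) :=
          integral_mono_of_nonneg
            (Filter.Eventually.of_forall fun z => mul_nonneg (abs_nonneg _) (hT0 _))
            ((hTi.comp_sub_left x).const_mul t)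
            (Filter.Eventually.of_forall fun z => mul_le_mul_of_nonneg_right (hb z) (hT0 _))
      _ = t * ∫ u, T u := by rw [integral_const_mul, integral_sub_left_eq_self]
      _ ≤ t * C := mul_le_mul_of_nonneg_left hTC ht.le
  have hg0 : 0 ≤ ∫ x, |γ x| := integral_nonneg fun x => abs_nonneg _
  calc ∫ x, tr (fderiv ℝ (conv k γ) x) ^ 2 ≤ ∫ x, t * C * W x := by
        refine integral_mono_of_nonneg (Filter.Eventually.of_forall fun x => sq_nonneg _)
          (hWi.const_mul _) (Filter.Eventually.of_forall fun x => ?_)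
        have h2 := hle x
        have h3 := hWt x
        have h4 := abs_nonneg (tr (fderiv ℝ (conv k γ) x))
        show tr (fderiv ℝ (conv k γ) x) ^ 2 ≤ t * C * W x
        rw [← sq_abs, sq]
        exact mul_le_mul (h2.trans h3) h2 h4 (mul_nonneg ht.le hC0)
    _ = t * C * ((∫ x, |γ x|) * ∫ u, T u) := by rw [integral_const_mul, hWI]
    _ ≤ t * C * ((∫ x, |γ x|) * C) :=
        mul_le_mul_of_nonneg_left (mul_le_mul_of_nonneg_left hTC hg0) (mul_nonneg ht.le hC0)
    _ = C ^ 2 * t * ∫ x, |γ x| := by ring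

theorem gp_close {γ : E d → ℝ} {t η : ℝ} (ht : 0 < t) (hη : 0 < η) (hb : ∀ x, |γ x| ≤ t)
    (hs : ∀ x, γ x ≠ 0 → ‖x‖ ≤ 50) {K k : E d → E d} {x : E d} (hx : ‖x‖ ≤ 50)
    (hK : Integrable fun z => γ z • K (x - z)) (hk : Integrable fun z => γ z • k (x - z))
    (h : ∫⁻ u in Metric.closedBall (0 : E d) 100, ‖K u - k u‖ₑ ≤ ENNReal.ofReal η) :
    ‖conv K γ x - conv k γ x‖ ≤ t * η := by
  set G : E d → ENNReal :=
    (Metric.closedBall (0 : E d) 100).indicator fun u => ‖K u - k u‖ₑ with hG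
  have h1 : ∀ z, ‖γ z • K (x - z) - γ z • k (x - z)‖ₑ ≤ ENNReal.ofReal t * G (x - z) := by
    intro z
    by_cases hz : γ z = 0
    · simp [hz]
    · have hm : x - z ∈ Metric.closedBall (0 : E d) 100 := by
        rw [mem_closedBall_zero_iff]
        have := norm_sub_le x z
        have := hs z hz
        linarith
      rw [← smul_sub, enorm_smul, hG, indicator_of_mem hm]
      refine mul_le_mul_left ?_ _
      rw [← ofReal_norm]
      exact ENNReal.ofReal_le_ofReal (hb z)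
  have h2 : ‖conv K γ x - conv k γ x‖ₑ ≤ ENNReal.ofReal (t * η) := by
    rw [conv, conv, ← integral_sub hK hk]
    calc ‖∫ z, (γ z • K (x - z) - γ z • k (x - z))‖ₑ
        ≤ ∫⁻ z, ‖γ z • K (x - z) - γ z • k (x - z)‖ₑ := enorm_integral_le_lintegral_enorm _
      _ ≤ ∫⁻ z, ENNReal.ofReal t * G (x - z) := lintegral_mono h1
      _ = ENNReal.ofReal t * ∫⁻ z, G (x - z) := lintegral_const_mul' _ _ ENNReal.ofReal_ne_top
      _ = ENNReal.ofReal t * ∫⁻ u in Metric.closedBall (0 : E d) 100, ‖K u - k u‖ₑ := by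
          rw [lintegral_sub_left_eq_self G x, hG, lintegral_indicator measurableSet_closedBall]
      _ ≤ ENNReal.ofReal t * ENNReal.ofReal η := mul_le_mul_right h _
      _ = ENNReal.ofReal (t * η) := (ENNReal.ofReal_mul ht.le).symm
  rw [← ofReal_norm] at h2
  exact (ENNReal.ofReal_le_ofReal_iff (mul_pos ht hη).le).1 h2

theorem gp_two {V U U' : E d → E d} (hU : Continuous U) {x y : E d} {t δ : ℝ} (ht : 0 < t)
    (hδ : 0 ≤ δ) (hx : ‖x‖ ≤ 4) (hy : ‖y‖ ≤ 4) (hne : x ≠ y)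
    (h1 : ∀ w, ‖w‖ ≤ 50 → ‖V w - U w‖ ≤ δ) (h2 : ∀ w, ‖w‖ ≤ 50 → ‖V w - U' w‖ ≤ δ)
    (ha : ∀ r : ℝ, 0 < r → ∫⁻ w in Metric.ball x r, ‖U w - U x‖ₑ ≤
      ENNReal.ofReal (r * t) * volume (Metric.ball x r))
    (hb : ∀ r : ℝ, 0 < r → ∫⁻ w in Metric.ball y r, ‖U' w - U' y‖ₑ ≤
      ENNReal.ofReal (r * t) * volume (Metric.ball y r)) :
    ‖V x - V y‖ ≤ (1 + 2 * 2 ^ d) * t * ‖x - y‖ + 4 * δ := by
  set r := ‖x - y‖ with hr
  have hr0 : 0 < r := norm_pos_iff.2 (sub_ne_zero.2 hne)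
  have hr8 : r ≤ 8 := by
    have := norm_sub_le x y
    linarith
  set v := volume (Metric.ball x r) with hv
  have hv0 : v ≠ 0 := (Metric.measure_ball_pos volume x hr0).ne'
  have hvt : v ≠ ⊤ := measure_ball_lt_top.ne
  have hv2 : volume (Metric.ball y (2 * r)) = ENNReal.ofReal (2 ^ d) * v := by
    rw [hv, Measure.addHaar_ball_of_pos volume y (by positivity : 0 < 2 * r),
      Measure.addHaar_ball_of_pos volume x hr0, finrank_euclideanSpace_fin, mul_pow,
      ENNReal.ofReal_mul (by positivity), mul_assoc]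
  have hsub : Metric.ball x r ⊆ Metric.ball y (2 * r) := by
    intro w hw
    rw [mem_ball_iff_norm] at hw ⊢
    have := norm_sub_le_norm_sub_add_norm_sub w x y
    linarith
  have hpt : ∀ w ∈ Metric.ball x r, ‖V x - V y‖ₑ ≤
      ‖U w - U x‖ₑ + (ENNReal.ofReal (4 * δ) + ‖U' w - U' y‖ₑ) := by
    intro w hw
    have hw50 : ‖w‖ ≤ 50 := by
      rw [mem_ball_iff_norm] at hw
      have := norm_sub_norm_le w x
      linarith
    have e1 := h1 x (by linarith)
    have e2 := h1 w hw50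
    have e3 := h2 w hw50
    have e4 := h2 y (by linarith)
    have hsum : V x - V y = (V x - U x) - (U w - U x) - (V w - U w) + (V w - U' w) +
        (U' w - U' y) - (V y - U' y) := by abel
    have hn : ‖V x - V y‖ ≤ ‖U w - U x‖ + (4 * δ + ‖U' w - U' y‖) := by
      have a1 := norm_sub_le (V x - U x) (U w - U x)
      have a2 := norm_sub_le ((V x - U x) - (U w - U x)) (V w - U w)
      have a3 := norm_add_le ((V x - U x) - (U w - U x) - (V w - U w)) (V w - U' w)
      have a4 := norm_add_le ((V x - U x) - (U w - U x) - (V w - U w) + (V w - U' w))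
        (U' w - U' y)
      have a5 := norm_sub_le ((V x - U x) - (U w - U x) - (V w - U w) + (V w - U' w) +
        (U' w - U' y)) (V y - U' y)
      rw [hsum]
      linarith
    rw [← ofReal_norm, ← ofReal_norm, ← ofReal_norm,
      ← ENNReal.ofReal_add (by positivity) (norm_nonneg _),
      ← ENNReal.ofReal_add (norm_nonneg _) (by positivity)]
    exact ENNReal.ofReal_le_ofReal hn
  have hm : Measurable fun w => ‖U w - U x‖ₑ := (hU.sub continuous_const).enorm.measurable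
  have key : ‖V x - V y‖ₑ * v ≤ ENNReal.ofReal ((1 + 2 * 2 ^ d) * t * r + 4 * δ) * v :=
    calc ‖V x - V y‖ₑ * v = ∫⁻ _w in Metric.ball x r, ‖V x - V y‖ₑ :=
          (setLIntegral_const _ _).symm
      _ ≤ ∫⁻ w in Metric.ball x r,
            (‖U w - U x‖ₑ + (ENNReal.ofReal (4 * δ) + ‖U' w - U' y‖ₑ)) :=
          setLIntegral_mono' measurableSet_ball hpt
      _ = (∫⁻ w in Metric.ball x r, ‖U w - U x‖ₑ) + (ENNReal.ofReal (4 * δ) * v +
            ∫⁻ w in Metric.ball x r, ‖U' w - U' y‖ₑ) := by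
          rw [lintegral_add_left hm, lintegral_add_left measurable_const, setLIntegral_const]
      _ ≤ ENNReal.ofReal (r * t) * v + (ENNReal.ofReal (4 * δ) * v +
            ENNReal.ofReal (2 * r * t) * (ENNReal.ofReal (2 ^ d) * v)) := by
          refine add_le_add (ha r hr0) (add_le_add le_rfl ?_)
          rw [← hv2]
          exact (lintegral_mono_set hsub).trans (hb (2 * r) (by positivity))
      _ = ENNReal.ofReal ((1 + 2 * 2 ^ d) * t * r + 4 * δ) * v := by
          rw [← mul_assoc, ← add_mul, ← add_mul, ← ENNReal.ofReal_mul (by positivity),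
            ← ENNReal.ofReal_add (by positivity) (by positivity),
            ← ENNReal.ofReal_add (by positivity) (by positivity)]
          congr 2
          ring
  have h3 := (ENNReal.mul_le_mul_iff_left hv0 hvt).1 key
  rw [← ofReal_norm] at h3
  exact (ENNReal.ofReal_le_ofReal_iff (by positivity)).1 h3

theorem sGP (hC : S_Conv) (hL : S_L2) (hR : S_Reg) (hM : S_Max) : S_GP := by
  intro d hd
  obtain ⟨CL, hCL, hL⟩ := hL d
  obtain ⟨CR, hCR, hR⟩ := hR d hd
  obtain ⟨CM, hCM, hM⟩ := hM d (by omega)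
  refine ⟨CM * CL * CR ^ 2 + (5 + 2 * 2 ^ d), by positivity, ?_⟩
  intro γ t ht hm hb hs
  have hγ := gp_int hm hb hs
  have hg0 : 0 ≤ ∫ x, |γ x| := integral_nonneg fun x => abs_nonneg _
  have hd2 : (2 : ℝ) ≤ d := by exact_mod_cast hd
  have hKl : LocallyIntegrable (Kr ((d : ℝ) - 1) : E d → E d) := by
    rw [← Kc_zero]
    exact (hC d).1 _ 0 (by linarith) (by linarith) le_rfl
  have step : ∀ j : ℕ, ∃ (U : E d → E d) (O : Set (E d)), Continuous U ∧
      volume O ≤ ENNReal.ofReal (CM * CL * CR ^ 2 * (∫ x, |γ x|) / t) ∧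
      (∀ w, ‖w‖ ≤ 50 → ‖conv (Kr ((d : ℝ) - 1)) γ w - U w‖ ≤ t * (1 / ((j : ℝ) + 1))) ∧
      ∀ x, x ∉ O → ∀ r : ℝ, 0 < r → ∫⁻ y in Metric.ball x r, ‖U y - U x‖ₑ ≤
        ENNReal.ofReal (r * t) * volume (Metric.ball x r) := by
    intro j
    have hη : (0 : ℝ) < 1 / ((j : ℝ) + 1) := by positivity
    obtain ⟨k, hk, hc, hS, htr, hcl⟩ := hR _ hη
    have hU : ContDiff ℝ 2 (conv k γ) :=
      hc.contDiff_convolution_right (n := 2) (ContinuousLinearMap.lsmul ℝ ℝ)
        hγ.locallyIntegrable hk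
    have hUc : HasCompactSupport (conv k γ) :=
      (gp_supp hs).convolution (ContinuousLinearMap.lsmul ℝ ℝ) hc
    obtain ⟨O, hO, hav⟩ := hM _ (hU.of_le (by norm_num)) hUc t ht
    refine ⟨conv k γ, O, hU.continuous, hO.trans (ENNReal.ofReal_le_ofReal ?_), ?_, hav⟩
    · have h1 := (hL _ hU hUc (gp_sym hγ hk hc hS)).trans
        (mul_le_mul_of_nonneg_left (gp_sq ht hγ hb hk hc htr) hCL.le)
      calc CM * (∫ x, ‖fderiv ℝ (conv k γ) x‖ ^ 2) / t ^ 2
          ≤ CM * (CL * (CR ^ 2 * t * ∫ x, |γ x|)) / t ^ 2 := by gcongr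
        _ = CM * CL * CR ^ 2 * (∫ x, |γ x|) / t := by field_simp
    · intro w hw
      exact gp_close ht hη hb hs hw (((hC d).2 _ hKl).1 γ t 50 hm hb hs w)
        (((hC d).2 _ hk.continuous.locallyIntegrable).1 γ t 50 hm hb hs w) hcl
  choose U O hUc hO hcl hav using step
  refine ⟨{x | x ∈ Ann d ∧ ∀ J : ℕ, ∃ j, J ≤ j ∧ x ∉ O j}, fun x hx => hx.1, ?_, ?_⟩
  · have hsub : Ann d \ {x | x ∈ Ann d ∧ ∀ J : ℕ, ∃ j, J ≤ j ∧ x ∉ O j} ⊆
        ⋃ J : ℕ, {x | ∀ j, J ≤ j → x ∈ O j} := by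
      intro x hx
      by_contra h
      refine hx.2 ⟨hx.1, fun J => ?_⟩
      by_contra h2
      refine h (mem_iUnion.2 ⟨J, fun j hj => ?_⟩)
      by_contra h3
      exact h2 ⟨j, hj, h3⟩
    have hmono : Monotone fun J : ℕ => {x | ∀ j, J ≤ j → x ∈ O j} :=
      fun J J' hJ x hx j hj => hx j (hJ.trans hj)
    refine (measure_mono hsub).trans ?_
    rw [hmono.measure_iUnion]
    have hin : ∀ J : ℕ, {x | ∀ j, J ≤ j → x ∈ O j} ⊆ O J := fun J x hx => hx J le_rfl
    refine iSup_le fun J => (measure_mono (hin J)).trans ((hO J).trans ?_)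
    refine ENNReal.ofReal_le_ofReal ?_
    gcongr
    exact le_add_of_nonneg_right (by positivity)
  · intro x hx y hy
    rcases eq_or_ne x y with rfl | hne
    · simp
    have hr0 : 0 < ‖x - y‖ := norm_pos_iff.2 (sub_ne_zero.2 hne)
    obtain ⟨J, hJ⟩ := exists_nat_one_div_lt hr0
    obtain ⟨j, hj, hxj⟩ := hx.2 J
    obtain ⟨j', hj', hyj⟩ := hy.2 J
    have hle : ∀ i : ℕ, J ≤ i → t * (1 / ((i : ℝ) + 1)) ≤ t * ‖x - y‖ := fun i hi =>
      mul_le_mul_of_nonneg_left ((Nat.one_div_le_one_div hi).trans hJ.le) ht.le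
    have h := gp_two (V := conv (Kr ((d : ℝ) - 1)) γ) (hUc j) ht (mul_pos ht hr0).le hx.1.2 hy.1.2
      hne (fun w hw => (hcl j w hw).trans (hle j hj))
      (fun w hw => (hcl j' w hw).trans (hle j' hj')) (hav j x hxj) (hav j' y hyj)
    have h0 : 0 ≤ CM * CL * CR ^ 2 * (t * ‖x - y‖) := by positivity
    calc _ ≤ _ := h
      _ = (5 + 2 * 2 ^ d) * t * ‖x - y‖ := by ring
      _ ≤ _ := by nlinarith

end Pool.Agent.MP_40db9a_an.H47
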