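import Pool.Agent.MP_40db9a_an.H47.Spec

/-! Row Int: integrals of powers of the norm. -/

open MeasureTheory Set

namespace Pool.Agent.MP_40db9a_an.H47

variable {d : ℕ}

theorem int_scale (g : E d → ENNReal) (hg : Measurable g) (c : E d) {ρ : ℝ} (hρ : 0 < ρ) :
    ∫⁻ x, g (ρ⁻¹ • (x - c)) = ENNReal.ofReal (ρ ^ (d : ℝ)) * ∫⁻ x, g x := by
  rw [lintegral_sub_right_eq_self (fun x => g (ρ⁻¹ • x)) c,
    ← lintegral_map hg (measurable_const_smul ρ⁻¹),
    Measure.map_addHaar_smul volume (inv_ne_zero hρ.ne'), lintegral_smul_measure, smul_eq_mul]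
  congr 2
  rw [finrank_euclideanSpace_fin, inv_pow, inv_inv, abs_of_pos (pow_pos hρ d), Real.rpow_natCast]

/-- a function that is `ρ ^ (-b)` times a rescaled profile -/
theorem int_scale' (g : E d → ENNReal) (hg : Measurable g) (c : E d) {ρ b C : ℝ} (hρ : 0 < ρ)
    (hC : ∫⁻ x, g x ≤ ENNReal.ofReal C) (f : E d → ENNReal)
    (hf : ∀ x, f x ≤ ENNReal.ofReal (ρ ^ (-b)) * g (ρ⁻¹ • (x - c))) :
    ∫⁻ x, f x ≤ ENNReal.ofReal (C * ρ ^ ((d : ℝ) - b)) := by
  refine (lintegral_mono hf).trans ?_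
  rw [lintegral_const_mul' _ _ ENNReal.ofReal_ne_top, int_scale g hg c hρ, ← mul_assoc,
    ← ENNReal.ofReal_mul (Real.rpow_pos_of_pos hρ _).le, ← Real.rpow_add hρ,
    ENNReal.ofReal_mul' (Real.rpow_pos_of_pos hρ _).le, mul_comm, neg_add_eq_sub]
  exact mul_le_mul_left hC _

theorem int_fin {x : ENNReal} (h : x ≠ ⊤) : ∃ C : ℝ, 0 < C ∧ x ≤ ENNReal.ofReal C :=
  ⟨x.toReal + 1, by positivity, by
    conv_lhs => rw [← ENNReal.ofReal_toReal h]
    exact ENNReal.ofReal_le_ofReal (by linarith)⟩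

theorem int_norm (x c : E d) {ρ : ℝ} (hρ : 0 < ρ) : ‖x - c‖ = ρ * ‖ρ⁻¹ • (x - c)‖ := by
  rw [norm_smul, norm_inv, Real.norm_of_nonneg hρ.le, mul_inv_cancel_left₀ hρ.ne']

theorem int_near (hd : 1 ≤ d) {b : ℝ} (hb : b < d) : ∃ C : ℝ, 0 < C ∧
    ∀ (c : E d) (ρ : ℝ), 0 < ρ →
      ∫⁻ x in Metric.closedBall c ρ, ENNReal.ofReal (‖x - c‖ ^ (-b)) ≤
        ENNReal.ofReal (C * ρ ^ ((d : ℝ) - b)) := by
  have hm : Measurable fun x : E d => ‖x‖ ^ (-b) := by fun_prop
  have h1 : IntegrableOn (fun x : E d => ‖x‖ ^ (-b)) (Metric.ball 0 2) volume :=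
    integrableOn_ball_of_norm_le_rpow (C := 1) (α := b) (by simpa using hd) (by simpa using hb)
      (Filter.Eventually.of_forall fun x => by
        rw [one_mul, Real.norm_of_nonneg (by positivity)]) hm.aestronglyMeasurable
  obtain ⟨C, C0, hC⟩ := int_fin h1.setLIntegral_lt_top.ne
  refine ⟨C, C0, fun c ρ hρ => ?_⟩
  rw [← lintegral_indicator Metric.isOpen_ball.measurableSet] at hC
  rw [← lintegral_indicator Metric.isClosed_closedBall.measurableSet]
  refine int_scale' _ (hm.ennreal_ofReal.indicator Metric.isOpen_ball.measurableSet) c hρ hC _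
    fun x => ?_
  by_cases hx : x ∈ Metric.closedBall c ρ
  · have h2 := int_norm x c hρ
    have h3 : ρ⁻¹ • (x - c) ∈ Metric.ball (0 : E d) 2 := by
      rw [mem_closedBall_iff_norm, h2] at hx
      rw [mem_ball_zero_iff]
      nlinarith
    rw [indicator_of_mem hx, indicator_of_mem h3,
      ← ENNReal.ofReal_mul (Real.rpow_pos_of_pos hρ _).le, ← Real.mul_rpow hρ.le (norm_nonneg _),
      ← h2]
  · rw [indicator_of_notMem hx]
    exact zero_le

theorem int_max {b : ℝ} (hb0 : 0 < b) (hb : (d : ℝ) < b) : ∃ C : ℝ, 0 < C ∧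
    ∀ (c : E d) (ρ : ℝ), 0 < ρ →
      ∫⁻ x, ENNReal.ofReal ((max ‖x - c‖ ρ) ^ (-b)) ≤ ENNReal.ofReal (C * ρ ^ ((d : ℝ) - b)) := by
  have hm : Measurable fun x : E d => ENNReal.ofReal ((1 + ‖x‖) ^ (-b)) := by fun_prop
  obtain ⟨C, C0, hC⟩ := int_fin
    (finite_integral_one_add_norm (E := E d) (μ := volume) (r := b) (by simpa using hb)).ne
  refine ⟨C * 2 ^ b, by positivity, fun c ρ hρ => ?_⟩
  refine int_scale' (fun x => ENNReal.ofReal (2 ^ b) * ENNReal.ofReal ((1 + ‖x‖) ^ (-b)))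
    (hm.const_mul _) c hρ ?_ _ fun x => ?_
  · rw [lintegral_const_mul' _ _ ENNReal.ofReal_ne_top, mul_comm C,
      ENNReal.ofReal_mul (by positivity)]
    exact mul_le_mul_right hC _
  · rw [← ENNReal.ofReal_mul (by positivity), ← ENNReal.ofReal_mul (by positivity)]
    refine ENNReal.ofReal_le_ofReal ?_
    have h2 := int_norm x c hρ
    have h3 := norm_nonneg (ρ⁻¹ • (x - c))
    generalize ‖ρ⁻¹ • (x - c)‖ = t at h2 h3
    have h4 : ρ * (2⁻¹ * (1 + t)) ≤ max ‖x - c‖ ρ := by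
      have := le_max_left ‖x - c‖ ρ
      have := le_max_right ‖x - c‖ ρ
      nlinarith
    refine (Real.rpow_le_rpow_of_nonpos (by positivity) h4 (by linarith)).trans (le_of_eq ?_)
    rw [Real.mul_rpow hρ.le (by positivity), Real.mul_rpow (by positivity) (by positivity),
      Real.inv_rpow two_pos.le, Real.rpow_neg two_pos.le, inv_inv]

/-- far centres -/
theorem int_far {b : ℝ} (hb : 0 < b) : ∃ C : ℝ, 0 < C ∧ ∀ (z : E d) (f : E d → ℝ), 8 ≤ ‖z‖ →
    (∀ x, ‖x - z‖ ≤ f x) → ∫⁻ x in Metric.closedBall (0 : E d) 4, ENNReal.ofReal (f x ^ (-b)) ≤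
      ENNReal.ofReal (C * (1 + ‖z‖) ^ (-b)) := by
  obtain ⟨C, C0, hC⟩ := int_fin
    (measure_closedBall_lt_top (μ := (volume : Measure (E d))) (x := 0) (r := 4)).ne
  refine ⟨C * 4 ^ b, by positivity, fun z f hz hf => ?_⟩
  refine (setLIntegral_mono' Metric.isClosed_closedBall.measurableSet
    (g := fun _ => ENNReal.ofReal (4 ^ b * (1 + ‖z‖) ^ (-b))) fun x hx => ?_).trans ?_
  · refine ENNReal.ofReal_le_ofReal ?_
    have h1 : 4⁻¹ * (1 + ‖z‖) ≤ f x := by
      have a1 := norm_sub_norm_le z x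
      rw [norm_sub_rev] at a1
      have a2 := mem_closedBall_zero_iff.1 hx
      linarith [hf x]
    refine (Real.rpow_le_rpow_of_nonpos (by positivity) h1 (by linarith)).trans (le_of_eq ?_)
    rw [Real.mul_rpow (by positivity) (by positivity), Real.inv_rpow (by norm_num),
      Real.rpow_neg (by norm_num), inv_inv]
  · rw [setLIntegral_const, mul_assoc, ENNReal.ofReal_mul C0.le, mul_comm]
    exact mul_le_mul_left hC _

theorem int_close {b : ℝ} (hb : 0 < b) {t : ℝ} (h0 : 0 ≤ t) (ht : t ≤ 8) :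
    1 ≤ 9 ^ b * (1 + t) ^ (-b) := by
  have h1 := Real.rpow_le_rpow_of_nonpos (by positivity) (show 1 + t ≤ 9 by linarith)
    (show -b ≤ 0 by linarith)
  have h2 : (9 : ℝ) ^ b * 9 ^ (-b) = 1 := by
    rw [← Real.rpow_add (by norm_num), add_neg_cancel, Real.rpow_zero]
  exact h2.symm.trans_le (mul_le_mul_of_nonneg_left h1 (by positivity))

theorem sInt : S_Int := by
  intro d hd b hb
  obtain ⟨C₂, C20, h2⟩ := int_far (d := d) hb
  refine ⟨fun hbd => ?_, fun hbd => ?_⟩
  · obtain ⟨C₁, C10, h1⟩ := int_near hd hbd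
    have p1 : (0 : ℝ) < C₁ * 12 ^ ((d : ℝ) - b) := by positivity
    have p2 : (0 : ℝ) < 9 ^ b := by positivity
    refine ⟨C₁ + C₂ + C₁ * 12 ^ ((d : ℝ) - b) * 9 ^ b, by positivity, fun c ρ hρ => ?_,
      fun z => ?_⟩
    · refine (h1 c ρ hρ).trans (ENNReal.ofReal_le_ofReal ?_)
      exact mul_le_mul_of_nonneg_right (by nlinarith) (by positivity)
    · have p3 : 0 < (1 + ‖z‖) ^ (-b) := by positivity
      rcases le_total 8 ‖z‖ with hz | hz
      · refine (h2 z _ hz fun x => le_rfl).trans (ENNReal.ofReal_le_ofReal ?_)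
        exact mul_le_mul_of_nonneg_right (by nlinarith) p3.le
      · refine ((lintegral_mono_set (t := Metric.closedBall z 12) fun x hx => ?_).trans
          (h1 z 12 (by norm_num))).trans (ENNReal.ofReal_le_ofReal ?_)
        · rw [mem_closedBall_iff_norm]
          linarith [norm_sub_le x z, mem_closedBall_zero_iff.1 hx]
        · have := mul_le_mul_of_nonneg_left (int_close hb (norm_nonneg z) hz) p1.le
          nlinarith [mul_pos C10 p3, mul_pos C20 p3]
  · obtain ⟨C₁, C10, h1⟩ := int_max hb hbd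
    have p2 : (0 : ℝ) < C₁ * 9 ^ b := by positivity
    refine ⟨C₁ + C₂ + C₁ * 9 ^ b, by positivity, fun c ρ hρ => ?_, fun z ρ hρ hρ1 => ?_⟩
    · have hs : MeasurableSet {x : E d | ρ ≤ ‖x - c‖} :=
        measurableSet_le measurable_const (by fun_prop)
      refine ((setLIntegral_mono' hs (g := fun x => ENNReal.ofReal ((max ‖x - c‖ ρ) ^ (-b)))
        fun x hx => ?_).trans ((setLIntegral_le_lintegral _ _).trans (h1 c ρ hρ))).trans
        (ENNReal.ofReal_le_ofReal ?_)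
      · rw [max_eq_left hx]
      · exact mul_le_mul_of_nonneg_right (by linarith) (by positivity)
    · have p3 : 0 < (1 + ‖z‖) ^ (-b) := by positivity
      have p4 : 1 ≤ ρ ^ ((d : ℝ) - b) :=
        Real.one_le_rpow_of_pos_of_le_one_of_nonpos hρ hρ1 (by linarith)
      rcases le_total 8 ‖z‖ with hz | hz
      · refine (h2 z _ hz fun x => le_max_left _ _).trans (ENNReal.ofReal_le_ofReal ?_)
        exact mul_le_mul_of_nonneg_right (by nlinarith) p3.le
      · refine ((setLIntegral_le_lintegral _ _).trans (h1 z ρ hρ)).trans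
          (ENNReal.ofReal_le_ofReal ?_)
        have p5 : 0 < ρ ^ ((d : ℝ) - b) := by linarith
        have := mul_le_mul_of_nonneg_left (int_close hb (norm_nonneg z) hz) (mul_pos C10 p5).le
        nlinarith [mul_pos (mul_pos C10 p5) p3, mul_pos (mul_pos C20 p5) p3]

end Pool.Agent.MP_40db9a_an.H47
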