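import Pool.Agent.MP_40db9a_an.H47.Spec

/-! The local lemma at the unit scale. -/

open MeasureTheory Set

namespace Pool.Agent.MP_40db9a_an.H47

variable {d : ℕ}

theorem loc_est (u v : E d → ℝ) (A S : Set (E d)) (W : E d → E d) (c₁ c₂ e₁ e₂ : ℝ)
    (hu : Measurable u) (hv : Integrable v) (hA : MeasurableSet A) (hS : MeasurableSet S)
    (hW : Measurable W) (hc₁ : 0 ≤ c₁) (hc₂ : 0 ≤ c₂) (he₁ : 0 ≤ e₁) (he₂ : 0 ≤ e₂)
    (h1 : volume S ≤ ENNReal.ofReal e₁) (h2 : ∫⁻ x in A, ‖W x‖ₑ ≤ ENNReal.ofReal e₂)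
    (hb : ∀ x, |u x - v x| ≤
      S.indicator (fun _ => c₁) x + A.indicator (fun x => c₂ * ‖W x‖) x) :
    |∫ x, u x| ≤ |∫ x, v x| + (c₁ * e₁ + c₂ * e₂) := by
  have i1 : Integrable (S.indicator fun _ : E d => c₁) :=
    (integrable_indicator_iff hS).2
      (integrableOn_const (ne_top_of_le_ne_top ENNReal.ofReal_ne_top h1))
  have i0 : IntegrableOn W A :=
    ⟨hW.aestronglyMeasurable, lt_of_le_of_lt h2 ENNReal.ofReal_lt_top⟩
  have i2 : Integrable (A.indicator fun x : E d => c₂ * ‖W x‖) :=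
    (integrable_indicator_iff hA).2 (Integrable.const_mul i0.norm c₂)
  have i3 : Integrable fun x => u x - v x :=
    (i1.add i2).mono' (hu.aestronglyMeasurable.sub hv.aestronglyMeasurable)
      (Filter.Eventually.of_forall hb)
  have e1 : ∫ x, u x = (∫ x, v x) + ∫ x, (u x - v x) := by
    rw [← integral_add hv i3]
    simp
  have e2 : |∫ x, (u x - v x)| ≤
      ∫ x, (S.indicator (fun _ => c₁) x + A.indicator (fun x => c₂ * ‖W x‖) x) :=
    norm_integral_le_of_norm_le (f := fun x => u x - v x) (i1.add i2)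
      (Filter.Eventually.of_forall hb)
  rw [integral_add i1 i2, integral_indicator hS, integral_indicator hA, setIntegral_const,
    integral_const_mul, integral_norm_eq_lintegral_enorm hW.aestronglyMeasurable,
    smul_eq_mul] at e2
  have e3 : (volume : Measure (E d)).real S ≤ e₁ := ENNReal.toReal_le_of_le_ofReal he₁ h1
  have e4 : (∫⁻ x in A, ‖W x‖ₑ).toReal ≤ e₂ := ENNReal.toReal_le_of_le_ofReal he₂ h2
  have e5 := mul_le_mul_of_nonneg_left e3 hc₁
  have e6 := mul_le_mul_of_nonneg_left e4 hc₂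
  rw [e1]
  refine (abs_add_le _ _).trans ?_
  linarith

theorem loc_tent_nonneg (u : ℝ) : 0 ≤ tent u := le_max_left _ _

theorem loc_tent_le (u : ℝ) : tent u ≤ 2 :=
  max_le (by norm_num) (by linarith [abs_nonneg (4 * u - 2)])

theorem loc_tent_cont : Continuous tent := by
  unfold tent
  fun_prop

theorem loc_supp {x : E d} (h : tent (Real.log ‖x‖) ≠ 0) : 1 ≤ ‖x‖ ∧ ‖x‖ ≤ 4 := by
  have h1 : 0 < 2 - |4 * Real.log ‖x‖ - 2| := by
    by_contra h2
    exact h (max_eq_left (not_lt.1 h2))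
  have h3 := abs_lt.1 (sub_pos.1 h1)
  have h4 : 0 < Real.log ‖x‖ := by linarith [h3.1]
  have h5 : Real.log ‖x‖ < 1 := by linarith [h3.2]
  have h6 : 1 < ‖x‖ := (Real.log_pos_iff (norm_nonneg _)).1 h4
  refine ⟨h6.le, ?_⟩
  have h7 : ‖x‖ < Real.exp 1 := (Real.log_lt_iff_lt_exp (by linarith)).1 h5
  linarith [Real.exp_one_lt_three]

theorem loc_ann : MeasurableSet (Ann d) :=
  (measurableSet_le measurable_const measurable_norm).inter
    (measurableSet_le measurable_norm measurable_const)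

theorem loc_ann_fin : volume (Ann d) ≠ ⊤ := by
  refine ne_top_of_le_ne_top (measure_closedBall_lt_top (x := (0 : E d)) (r := 4)).ne
    (measure_mono fun x hx => ?_)
  simpa using hx.2

theorem loc_Kr (a : ℝ) : Measurable (Kr a : E d → E d) :=
  (measurable_norm.pow_const _).smul measurable_id

/-- the field in terms of the normalized remainder -/
theorem loc_repr (a s : ℝ) (P x : E d) (hx : x ≠ 0) :
    P = ‖x‖ ^ (-(a + 1)) • (s • x + ‖x‖ ^ (a + 1) • (P - s • Kr a x)) := by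
  have h0 : 0 < ‖x‖ := norm_pos_iff.2 hx
  have h1 : ‖x‖ ^ (-(a + 1)) * ‖x‖ ^ (a + 1) = 1 := by
    rw [← Real.rpow_add h0, neg_add_cancel, Real.rpow_zero]
  rw [smul_add, smul_smul _ (‖x‖ ^ (a + 1)), h1, one_smul, Kr, smul_comm s]
  abel

theorem loc_norm (a s : ℝ) (ha : 0 < a) (P x : E d) (h1 : 1 ≤ ‖x‖) (h4 : ‖x‖ ≤ 4) :
    ‖P‖ ≤ 4 * |s| + ‖‖x‖ ^ (a + 1) • (P - s • Kr a x)‖ := by
  have hx : x ≠ 0 := norm_pos_iff.1 (by linarith)
  have h2 : ‖x‖ ^ (-(a + 1)) ≤ 1 := Real.rpow_le_one_of_one_le_of_nonpos h1 (by linarith)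
  have h3 : 0 ≤ ‖x‖ ^ (-(a + 1)) := Real.rpow_nonneg (norm_nonneg _) _
  have h5 := congrArg norm (loc_repr a s P x hx)
  rw [norm_smul, Real.norm_of_nonneg h3] at h5
  have h6 := norm_add_le (s • x) (‖x‖ ^ (a + 1) • (P - s • Kr a x))
  rw [norm_smul s x, Real.norm_eq_abs] at h6
  have h7 := mul_le_mul_of_nonneg_left h4 (abs_nonneg s)
  have h8 := mul_le_of_le_one_left (norm_nonneg (s • x + ‖x‖ ^ (a + 1) • (P - s • Kr a x))) h2
  linarith

/-- the integrand in the variables of the model -/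
theorem loc_model_pt (a s t : ℝ) (Φ Θ : E d → ℝ) (hΦ : Hom ((d : ℝ) / a) Φ) (hs : s ≠ 0)
    (ht : s = |s| * t) (hΘ : ∀ y, Θ y = Φ (t • y)) (P x : E d) :
    tent (Real.log ‖x‖) * Φ P = |s| ^ ((d : ℝ) / a) *
      (gw a x * Θ (x + s⁻¹ • ‖x‖ ^ (a + 1) • (P - s • Kr a x))) := by
  by_cases h : tent (Real.log ‖x‖) = 0
  · rw [gw, h]; simp
  have hx : 0 < ‖x‖ := by linarith [(loc_supp h).1]
  have h1 : 0 < ‖x‖ ^ (-(a + 1)) := Real.rpow_pos_of_pos hx _
  have h2 : 0 < |s| := abs_pos.2 hs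
  have h3 : P = (‖x‖ ^ (-(a + 1)) * |s|) •
      t • (x + s⁻¹ • ‖x‖ ^ (a + 1) • (P - s • Kr a x)) := by
    rw [mul_smul, smul_smul |s| t, ← ht, smul_add, smul_inv_smul₀ hs]
    exact loc_repr a s P x (norm_pos_iff.1 hx)
  have h4 : Φ P = (‖x‖ ^ (-(a + 1)) * |s|) ^ ((d : ℝ) / a) *
      Θ (x + s⁻¹ • ‖x‖ ^ (a + 1) • (P - s • Kr a x)) := by
    rw [hΘ, ← hΦ _ (mul_pos h1 h2), ← h3]
  rw [h4, Real.mul_rpow h1.le h2.le, ← Real.rpow_mul hx.le, gw, neg_mul]
  ring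

/-- the set on which the model applies -/
theorem loc_set (hG : S_Calc) (a s B e : ℝ) (Φ : E d → ℝ) (Ψ : E d → E d) (hB : 0 ≤ B)
    (he : 0 ≤ e) (hΨ : Measurable Ψ) (hΦ : Hom ((d : ℝ) / a) Φ) (m1 : Model a Φ B)
    (m2 : Model a (fun v => Φ (-v)) B)
    (hW : GG ((d : ℝ) - a) (fun x => ‖x‖ ^ (a + 1) • (Ψ x - s • Kr a x)) e) :
    ∃ F ⊆ Ann d, MeasurableSet F ∧
      (∀ x ∈ F, 8 * ‖‖x‖ ^ (a + 1) • (Ψ x - s • Kr a x)‖ ≤ |s|) ∧
      (∀ x ∈ Ann d, x ∉ F → |s| ≤ 8 * ‖‖x‖ ^ (a + 1) • (Ψ x - s • Kr a x)‖) ∧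
      |∫ x in F, tent (Real.log ‖x‖) * Φ (Ψ x)| ≤ B * |s| ^ ((d : ℝ) / a - 1) * e := by
  by_cases hs : s = 0
  · refine ⟨∅, empty_subset _, MeasurableSet.empty, fun x hx => hx.elim, fun x _ _ => ?_, ?_⟩
    · rw [hs, abs_zero]; positivity
    · rw [setIntegral_empty, abs_zero]; positivity
  have h2 : 0 < |s| := abs_pos.2 hs
  have hm : Measurable fun x : E d => s⁻¹ • ‖x‖ ^ (a + 1) • (Ψ x - s • Kr a x) :=
    ((measurable_norm.pow_const _).smul (hΨ.sub ((loc_Kr a).const_smul s))).const_smul s⁻¹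
  have hn : ∀ y : E d, ‖s⁻¹ • y‖ ≤ 1 / 8 ↔ 8 * ‖y‖ ≤ |s| := fun y => by
    rw [norm_smul, Real.norm_eq_abs, abs_inv, inv_mul_le_iff₀ h2]
    constructor <;> intro h <;> linarith
  obtain ⟨t, Θ, ht, hΘ, m⟩ : ∃ (t : ℝ) (Θ : E d → ℝ), s = |s| * t ∧ (∀ y, Θ y = Φ (t • y)) ∧
      Model a Θ B := by
    rcases lt_or_gt_of_ne hs with h | h
    · exact ⟨-1, _, by rw [abs_of_neg h]; ring, fun y => by rw [neg_one_smul], m2⟩
    · exact ⟨1, _, by rw [abs_of_pos h]; ring, fun y => by rw [one_smul], m1⟩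
  refine ⟨Fs fun x => s⁻¹ • ‖x‖ ^ (a + 1) • (Ψ x - s • Kr a x), fun x hx => hx.1,
    loc_ann.inter (measurableSet_le hm.norm measurable_const), fun x hx => (hn _).1 hx.2,
    fun x hx hF => (not_le.1 fun h => hF ⟨hx, (hn _).2 h⟩).le, ?_⟩
  have h3 := m _ _ (mul_nonneg (abs_nonneg _) he) ((hG d).2.2.2.2.2 _ _ e s⁻¹ he hW).1
  simp_rw [loc_model_pt a s t Φ Θ hΦ hs ht hΘ]
  rw [integral_const_mul, abs_mul, abs_of_pos (Real.rpow_pos_of_pos h2 _)]
  refine (mul_le_mul_of_nonneg_left h3 (Real.rpow_pos_of_pos h2 _).le).trans (le_of_eq ?_)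
  rw [Real.rpow_sub_one h2.ne', abs_inv]
  ring

theorem sLoc (hC : S_Conv) (hB : S_Basic) (hG : S_Calc) (hF : S_Field) (hT : S_Tail) :
    S_Loc := by
  intro d hd a ha had
  obtain ⟨Λ₁, CT, hΛ₁, hCT, hT'⟩ := hT d a ha had
  obtain ⟨CF, hCF, hF'⟩ := hF d hd a ha had
  refine ⟨Λ₁, hΛ₁, fun Λ hΛ => ?_⟩
  have hΛ0 : 0 < Λ := hΛ₁.trans_le hΛ
  obtain ⟨p, hp⟩ : ∃ p : ℝ, p = (d : ℝ) / a := ⟨_, rfl⟩
  have hp1 : 1 < p := by rw [hp, one_lt_div ha]; exact had
  refine ⟨CF ^ (p - 1) * CF + (2 * (5 * CF) ^ p * CT + 66 * Λ ^ (p - 1) * CF), by positivity,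
    fun Φ N B hN hB0 hΦm hΦ hΦb m1 m2 f hf hfc hf0 => ?_⟩
  obtain ⟨-, b2, b3, b4, -, -, b7⟩ := hB d a ha had f hf.continuous hfc
  obtain ⟨s, hs, hW⟩ := hF' f hf hfc
  have hv := hT' f hf.continuous hfc hf0
  have hn := (b7 hf0).2 0 1 one_pos
  have he := (b4 0 1 one_pos).2.2.1
  have hΨ : Continuous (conv (Kr a) f) :=
    (((hC d).2 _ (Kc_zero (d := d) a ▸ (hC d).1 a 0 ha had le_rfl)).2 f hf.continuous hfc).2.1
  have e0 : TT a Λ Φ f 0 0 = ∫ x, tent (Real.log ‖x‖) *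
      (if pot a f x ≤ Λ * nn a f 0 1 then 1 else 0) * Φ (conv (Kr a) f x) := by
    simp only [TT, ind, sub_zero, mul_zero, Real.exp_zero, mul_one]
  rw [e0, Real.exp_zero, ← hp]
  rw [← hp] at hΦb
  obtain ⟨F, hFA, hFm, f1, f2, f3⟩ := loc_set hG a s B _ Φ _ hB0 (mul_nonneg hCF.le he)
    hΨ.measurable hΦ m1 m2 hW
  rw [← hp] at f3
  have hWi := ((hG d).2.2.2.2.2 _ _ _ 1 (mul_nonneg hCF.le he) hW).2.2
  generalize nn a f 0 1 = n at *
  generalize ee a f 0 1 = ε at *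
  generalize conv (Kr a) f = Ψ at *
  have hχ : Measurable fun x : E d => tent (Real.log ‖x‖) :=
    loc_tent_cont.measurable.comp measurable_norm.log
  have hΦΨ : Measurable fun x => Φ (Ψ x) := hΦm.comp hΨ.measurable
  have hb : ∀ x, |tent (Real.log ‖x‖) * Φ (Ψ x)| ≤ 2 * N * ‖Ψ x‖ ^ p := fun x => by
    rw [abs_mul, abs_of_nonneg (loc_tent_nonneg _), mul_assoc]
    exact mul_le_mul (loc_tent_le _) (hΦb _) (abs_nonneg _) (by norm_num)
  have hbF : ∀ x ∈ F, |tent (Real.log ‖x‖) * Φ (Ψ x)| ≤ 2 * N * (5 * CF * n) ^ p := by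
    intro x hx
    by_cases h : tent (Real.log ‖x‖) = 0
    · rw [h, zero_mul, abs_zero]; positivity
    refine (hb x).trans (mul_le_mul_of_nonneg_left
      (Real.rpow_le_rpow (norm_nonneg _) ?_ (by linarith)) (by positivity))
    have h1 := loc_norm a s ha (Ψ x) x (loc_supp h).1 (loc_supp h).2
    have h2 := f1 x hx
    have h3 := abs_nonneg s
    linarith
  have hi : Integrable (F.indicator fun x => tent (Real.log ‖x‖) * Φ (Ψ x)) :=
    (integrable_indicator_iff hFm).2 (Measure.integrableOn_of_bounded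
      (ne_top_of_le_ne_top loc_ann_fin (measure_mono hFA)) (hχ.mul hΦΨ).aestronglyMeasurable
      ((ae_restrict_iff' hFm).2 (Filter.Eventually.of_forall hbF)))
  have key := loc_est (fun x => tent (Real.log ‖x‖) * (if pot a f x ≤ Λ * n then 1 else 0) *
    Φ (Ψ x)) _ (Ann d) {x | x ∈ Ann d ∧ Λ₁ * n < pot a f x}
    (fun x => ‖x‖ ^ (a + 1) • (Ψ x - s • Kr a x)) (2 * N * (5 * CF * n) ^ p)
    (66 * N * (Λ * n) ^ (p - 1)) _ _
    ((hχ.mul (Measurable.ite (measurableSet_le b2.measurable measurable_const) measurable_const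
      measurable_const)).mul hΦΨ) hi loc_ann
    (loc_ann.inter (measurableSet_lt measurable_const b2.measurable))
    ((measurable_norm.pow_const _).smul (hΨ.measurable.sub ((loc_Kr a).const_smul s)))
    (by positivity) (by positivity) (by positivity) (by positivity) hv hWi (fun x => by
      have p1 : 0 ≤ {x | x ∈ Ann d ∧ Λ₁ * n < pot a f x}.indicator
          (fun _ => 2 * N * (5 * CF * n) ^ p) x := indicator_nonneg (fun _ _ => by positivity) x
      have p2 : 0 ≤ (Ann d).indicator (fun x => 66 * N * (Λ * n) ^ (p - 1) *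
          ‖‖x‖ ^ (a + 1) • (Ψ x - s • Kr a x)‖) x := indicator_nonneg (fun _ _ => by positivity) x
      by_cases h : tent (Real.log ‖x‖) = 0
      · have h0 : F.indicator (fun x => tent (Real.log ‖x‖) * Φ (Ψ x)) x = 0 :=
          indicator_apply_eq_zero.2 fun _ => by rw [h, zero_mul]
        rw [h0, h, zero_mul, zero_mul, sub_self, abs_zero]
        exact add_nonneg p1 p2
      have hx := loc_supp h
      have hA : x ∈ Ann d := ⟨by linarith [hx.1], hx.2⟩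
      by_cases hxG : pot a f x ≤ Λ * n <;> by_cases hxF : x ∈ F
      · rw [if_pos hxG, indicator_of_mem hxF, mul_one, sub_self, abs_zero]
        exact add_nonneg p1 p2
      · rw [if_pos hxG, indicator_of_notMem hxF, mul_one, sub_zero, indicator_of_mem hA]
        refine (hb x).trans (le_add_of_nonneg_of_le p1 ?_)
        have h1 := loc_norm a s ha (Ψ x) x hx.1 hx.2
        have h2 := f2 x hA hxF
        have h3 : ‖Ψ x‖ ^ p = ‖Ψ x‖ ^ (p - 1) * ‖Ψ x‖ := by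
          rw [← Real.rpow_add_one' (norm_nonneg _) (by linarith), sub_add_cancel]
        have h4 : ‖Ψ x‖ ^ (p - 1) ≤ (Λ * n) ^ (p - 1) :=
          Real.rpow_le_rpow (norm_nonneg _) ((b3 x).trans hxG) (by linarith)
        have h5 : ‖Ψ x‖ ^ (p - 1) * ‖Ψ x‖ ≤
            (Λ * n) ^ (p - 1) * (33 * ‖‖x‖ ^ (a + 1) • (Ψ x - s • Kr a x)‖) :=
          mul_le_mul h4 (by linarith) (norm_nonneg _) (by positivity)
        rw [h3]
        refine (mul_le_mul_of_nonneg_left h5 (by positivity)).trans (le_of_eq ?_)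
        ring
      · have hS : x ∈ {x | x ∈ Ann d ∧ Λ₁ * n < pot a f x} :=
          ⟨hA, (mul_le_mul_of_nonneg_right hΛ hn.le).trans_lt (not_le.1 hxG)⟩
        rw [if_neg hxG, indicator_of_mem hxF, mul_zero, zero_mul, zero_sub, abs_neg,
          indicator_of_mem hS]
        exact le_add_of_le_of_nonneg (hbF x hxF) p2
      · rw [if_neg hxG, indicator_of_notMem hxF, mul_zero, zero_mul, sub_self, abs_zero]
        exact add_nonneg p1 p2)
  rw [integral_indicator hFm] at key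
  have g1 : |s| ^ (p - 1) ≤ CF ^ (p - 1) * n ^ (p - 1) := by
    rw [← Real.mul_rpow hCF.le hn.le]
    exact Real.rpow_le_rpow (abs_nonneg _) hs (by linarith)
  have g2 : B * |s| ^ (p - 1) * (CF * ε) ≤ B * (CF ^ (p - 1) * n ^ (p - 1)) * (CF * ε) :=
    mul_le_mul_of_nonneg_right (mul_le_mul_of_nonneg_left g1 hB0) (by positivity)
  have g3 : 2 * N * (5 * CF * n) ^ p * (CT * ε / n) =
      N * (2 * (5 * CF) ^ p * CT) * (n ^ (p - 1) * ε) := by
    rw [Real.mul_rpow (by positivity) hn.le, Real.rpow_sub_one hn.ne']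
    ring
  have g4 : 66 * N * (Λ * n) ^ (p - 1) * (CF * ε) =
      N * (66 * Λ ^ (p - 1) * CF) * (n ^ (p - 1) * ε) := by
    rw [Real.mul_rpow hΛ0.le hn.le]
    ring
  rw [g3, g4] at key
  have g5 : 0 ≤ N * (CF ^ (p - 1) * CF) * (n ^ (p - 1) * ε) := by positivity
  have g6 : 0 ≤ B * (2 * (5 * CF) ^ p * CT + 66 * Λ ^ (p - 1) * CF) * (n ^ (p - 1) * ε) := by
    positivity
  refine key.trans ?_
  nlinarith [f3, g2, g5, g6]

end Pool.Agent.MP_40db9a_an.H47
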