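import Pool.Agent.MP_40db9a_an.H47.Spec

/-! The maximal function of the square of the derivative. -/

open MeasureTheory Set Metric

namespace Pool.Agent.MP_40db9a_an.H47

variable {d : ℕ}

theorem max_weak (hd : 1 ≤ d) (G : E d → ENNReal) (m c : ℝ) (hm : 0 ≤ m) (hc : 0 < c)
    (hG : ∫⁻ x, G x ≤ ENNReal.ofReal m) :
    volume {x : E d | ∃ r : ℝ, 0 < r ∧
      ENNReal.ofReal c * volume (ball x r) < ∫⁻ y in ball x r, G y} ≤
        ENNReal.ofReal (4 ^ d * m / c) := by
  set O := {x : E d | ∃ r : ℝ, 0 < r ∧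
      ENNReal.ofReal c * volume (ball x r) < ∫⁻ y in ball x r, G y} with hO
  have hex : ∀ x : E d, ∃ r : ℝ, x ∈ O → 0 < r ∧
      ENNReal.ofReal c * volume (ball x r) < ∫⁻ y in ball x r, G y := by
    intro x
    by_cases hx : x ∈ O
    · obtain ⟨r, hr⟩ := hx
      exact ⟨r, fun _ => hr⟩
    · exact ⟨1, fun h => absurd h hx⟩
  choose r hr using hex
  have hfin : volume (ball (0 : E d) 1) ≠ ⊤ := measure_ball_lt_top.ne
  have hpos : volume (ball (0 : E d) 1) ≠ 0 := (measure_ball_pos volume _ one_pos).ne'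
  obtain ⟨ω, hω0, hω⟩ : ∃ ω : ℝ, 0 < ω ∧ volume (ball (0 : E d) 1) = ENNReal.ofReal ω :=
    ⟨_, ENNReal.toReal_pos hpos hfin, (ENNReal.ofReal_toReal hfin).symm⟩
  have hR : ∀ x ∈ O, r x ≤ 1 + m / (c * ω) := by
    intro x hx
    obtain ⟨h1, h2⟩ := hr x hx
    have h0 : 0 ≤ m / (c * ω) := by positivity
    by_cases h3 : r x ≤ 1
    · linarith
    rw [not_le] at h3
    have h4 := (h2.trans_le (setLIntegral_le_lintegral _ _)).trans_le hG
    rw [Measure.addHaar_ball_of_pos _ _ h1, hω, ← ENNReal.ofReal_mul (by positivity),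
      ← ENNReal.ofReal_mul hc.le, ENNReal.ofReal_lt_ofReal_iff_of_nonneg (by positivity),
      finrank_euclideanSpace, Fintype.card_fin] at h4
    have h5 : r x ≤ r x ^ d := le_self_pow₀ h3.le (by omega)
    have h6 : r x ≤ m / (c * ω) := by
      rw [le_div_iff₀ (by positivity)]
      have : r x * (c * ω) ≤ r x ^ d * (c * ω) := by gcongr
      nlinarith
    linarith
  obtain ⟨u, hu, hdis, hcov⟩ := Vitali.exists_disjoint_subfamily_covering_enlargement_ball O
    (fun x => x) r _ hR 4 (by norm_num)
  have hcount : u.Countable := hdis.countable_of_isOpen (fun _ _ => isOpen_ball)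
    fun a ha => nonempty_ball.2 (hr a (hu ha)).1
  have hsub : O ⊆ ⋃ b ∈ u, ball b (4 * r b) := by
    intro x hx
    obtain ⟨b, hb, h⟩ := hcov x hx
    exact mem_biUnion hb (h (mem_ball_self (hr x hx).1))
  have hterm : ∀ b : u, volume (ball (b : E d) (4 * r b)) ≤
      ENNReal.ofReal (4 ^ d / c) * ∫⁻ y in ball (b : E d) (r b), G y := by
    intro b
    have h2 := (hr b (hu b.2)).2.le
    refine le_trans (le_of_eq ?_) (mul_le_mul_right h2 _)
    rw [Measure.addHaar_ball_mul_of_pos _ _ (by norm_num : (0 : ℝ) < 4), ← mul_assoc,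
      ← ENNReal.ofReal_mul (by positivity), div_mul_cancel₀ _ hc.ne', finrank_euclideanSpace,
      Fintype.card_fin, Measure.addHaar_ball_center volume (b : E d)]
  calc volume O ≤ ∑' b : u, volume (ball (b : E d) (4 * r b)) :=
        (measure_mono hsub).trans (measure_biUnion_le volume hcount _)
    _ ≤ ∑' b : u, ENNReal.ofReal (4 ^ d / c) * ∫⁻ y in ball (b : E d) (r b), G y :=
        ENNReal.tsum_le_tsum hterm
    _ = ENNReal.ofReal (4 ^ d / c) * ∫⁻ y in ⋃ b ∈ u, ball b (r b), G y := by
        rw [ENNReal.tsum_mul_left, lintegral_biUnion hcount (fun _ _ => measurableSet_ball) hdis]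
    _ ≤ ENNReal.ofReal (4 ^ d / c) * ENNReal.ofReal m :=
        mul_le_mul_right ((setLIntegral_le_lintegral _ _).trans hG) _
    _ = ENNReal.ofReal (4 ^ d * m / c) := by
        rw [← ENNReal.ofReal_mul (by positivity)]
        congr 1
        ring

theorem max_scale (H : E d → ENNReal) (hH : Measurable H) (x : E d) (r s : ℝ) (hs : 0 < s) :
    ∫⁻ y in ball x r, H (x + s • (y - x)) =
      ENNReal.ofReal (s ^ d)⁻¹ * ∫⁻ z in ball x (s * r), H z := by
  have hF : Measurable ((ball x (s * r)).indicator H) := hH.indicator measurableSet_ball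
  have e1 : ∫⁻ y in ball x r, H (x + s • (y - x)) =
      ∫⁻ y, (ball x (s * r)).indicator H (x + s • (y - x)) := by
    rw [← lintegral_indicator measurableSet_ball]
    refine lintegral_congr fun y => ?_
    have : y ∈ ball x r ↔ x + s • (y - x) ∈ ball x (s * r) := by
      rw [mem_ball_iff_norm, mem_ball_iff_norm, add_sub_cancel_left, norm_smul, Real.norm_eq_abs,
        abs_of_pos hs, mul_lt_mul_iff_right₀ hs]
    by_cases hy : y ∈ ball x r
    · rw [indicator_of_mem hy, indicator_of_mem (this.1 hy)]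
    · rw [indicator_of_notMem hy, indicator_of_notMem fun h => hy (this.2 h)]
  have e2 := lintegral_sub_right_eq_self (μ := (volume : Measure (E d)))
    (fun y => (ball x (s * r)).indicator H (x + s • y)) x
  have e3 := lintegral_map (μ := (volume : Measure (E d)))
    (f := fun z => (ball x (s * r)).indicator H (x + z)) (g := fun y : E d => s • y)
    (hF.comp (measurable_const_add x)) (measurable_const_smul s)
  rw [Measure.map_addHaar_smul _ hs.ne', lintegral_smul_measure, lintegral_add_left_eq_self,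
    lintegral_indicator measurableSet_ball, finrank_euclideanSpace, Fintype.card_fin,
    abs_of_pos (by positivity), smul_eq_mul] at e3
  rw [e1, e2, ← e3]

theorem max_seg (U : E d → E d) (hU : ContDiff ℝ 1 U) (x y : E d) :
    ‖U y - U x‖ₑ ≤ ∫⁻ s in Ioc (0 : ℝ) 1, ‖y - x‖ₑ * ‖fderiv ℝ U (x + s • (y - x))‖ₑ := by
  have hc : ContDiff ℝ 1 fun s : ℝ => x + s • (y - x) :=
    contDiff_const.add (contDiff_id.smul contDiff_const)
  have h1 := enorm_sub_le_lintegral_deriv_of_contDiffOn_Icc
    (f := fun s : ℝ => U (x + s • (y - x))) (a := 0) (b := 1) (hU.comp hc).contDiffOn zero_le_one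
  simp only [one_smul, zero_smul, add_zero, add_sub_cancel] at h1
  rw [← setLIntegral_congr Ioc_ae_eq_Icc] at h1
  refine h1.trans (lintegral_mono fun s => ?_)
  have h2 : HasDerivAt (fun s : ℝ => x + s • (y - x)) (y - x) s := by
    simpa using ((hasDerivAt_id s).smul_const (y - x)).const_add x
  have h3 : HasDerivAt (fun s : ℝ => U (x + s • (y - x)))
      (fderiv ℝ U (x + s • (y - x)) (y - x)) s :=
    (hU.differentiable one_ne_zero _).hasFDerivAt.comp_hasDerivAt s h2
  rw [h3.deriv, mul_comm]
  exact ContinuousLinearMap.le_opENorm _ _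

theorem max_avg (H : E d → ℝ) (hH : Continuous H) (x : E d) (r t : ℝ) (ht : 0 < t)
    (h : ∫⁻ y in ball x r, ENNReal.ofReal (H y ^ 2) ≤ ENNReal.ofReal (t ^ 2) * volume (ball x r)) :
    ∫⁻ y in ball x r, ENNReal.ofReal (H y) ≤ ENNReal.ofReal t * volume (ball x r) := by
  have hm : Measurable fun y => ENNReal.ofReal (H y ^ 2) := (hH.pow 2).measurable.ennreal_ofReal
  calc ∫⁻ y in ball x r, ENNReal.ofReal (H y)
      ≤ ∫⁻ y in ball x r, (ENNReal.ofReal (t / 2) +
          ENNReal.ofReal (1 / (2 * t)) * ENNReal.ofReal (H y ^ 2)) := by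
        refine lintegral_mono fun y => ?_
        rw [← ENNReal.ofReal_mul (by positivity),
          ← ENNReal.ofReal_add (by positivity) (by positivity)]
        refine ENNReal.ofReal_le_ofReal ?_
        have e : t / 2 + 1 / (2 * t) * H y ^ 2 - H y = (H y - t) ^ 2 / (2 * t) := by
          field_simp
          ring
        have : 0 ≤ (H y - t) ^ 2 / (2 * t) := by positivity
        linarith
    _ = ENNReal.ofReal (t / 2) * volume (ball x r) +
          ENNReal.ofReal (1 / (2 * t)) * ∫⁻ y in ball x r, ENNReal.ofReal (H y ^ 2) := by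
        rw [lintegral_add_left measurable_const, lintegral_const_mul _ hm, setLIntegral_const]
    _ ≤ ENNReal.ofReal (t / 2) * volume (ball x r) +
          ENNReal.ofReal (1 / (2 * t)) * (ENNReal.ofReal (t ^ 2) * volume (ball x r)) := by
        gcongr
    _ = ENNReal.ofReal t * volume (ball x r) := by
        rw [← mul_assoc, ← add_mul, ← ENNReal.ofReal_mul (by positivity),
          ← ENNReal.ofReal_add (by positivity) (by positivity)]
        congr 2
        field_simp
        ring

theorem sMax : S_Max := by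
  intro d hd
  refine ⟨4 ^ d, by positivity, fun U hU hK t ht => ?_⟩
  have hD : Continuous (fderiv ℝ U) := hU.continuous_fderiv one_ne_zero
  have hN : Continuous fun x => ‖fderiv ℝ U x‖ := hD.norm
  have hint : Integrable fun x => ‖fderiv ℝ U x‖ ^ 2 := by
    have h1 : HasCompactSupport (fderiv ℝ U) := hK.fderiv ℝ
    have h2 : HasCompactSupport fun x => ‖fderiv ℝ U x‖ ^ 2 := by
      refine HasCompactSupport.intro h1 fun x hx => ?_
      rw [image_eq_zero_of_notMem_tsupport hx, norm_zero, zero_pow two_ne_zero]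
    exact (hN.pow 2).integrable_of_hasCompactSupport h2
  refine ⟨_, max_weak hd (fun x => ENNReal.ofReal (‖fderiv ℝ U x‖ ^ 2)) _ (t ^ 2)
    (integral_nonneg fun x => by positivity) (by positivity)
    (ofReal_integral_eq_lintegral_ofReal hint
      (Filter.Eventually.of_forall fun x => by positivity)).ge, fun x hx r hr => ?_⟩
  have hav : ∀ ρ : ℝ, 0 < ρ →
      ∫⁻ y in ball x ρ, ‖fderiv ℝ U y‖ₑ ≤ ENNReal.ofReal t * volume (ball x ρ) := by
    intro ρ hρ
    have := max_avg _ hN x ρ t ht (not_lt.1 fun h => hx ⟨ρ, hρ, h⟩)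
    simpa only [ofReal_norm] using this
  have hE : Continuous fun z => ‖fderiv ℝ U z‖ₑ := hD.enorm
  have hj : Measurable fun q : E d × ℝ => ‖fderiv ℝ U (x + q.2 • (q.1 - x))‖ₑ :=
    (hE.comp (continuous_const.add (continuous_snd.smul
      (continuous_fst.sub continuous_const)))).measurable
  calc ∫⁻ y in ball x r, ‖U y - U x‖ₑ
      ≤ ∫⁻ y in ball x r, ∫⁻ s in Ioc (0 : ℝ) 1,
          ENNReal.ofReal r * ‖fderiv ℝ U (x + s • (y - x))‖ₑ := by
        refine setLIntegral_mono' measurableSet_ball fun y hy => ?_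
        refine (max_seg U hU x y).trans (lintegral_mono fun s => ?_)
        refine mul_le_mul_left ?_ _
        rw [← ofReal_norm]
        exact ENNReal.ofReal_le_ofReal (mem_ball_iff_norm.1 hy).le
    _ = ∫⁻ s in Ioc (0 : ℝ) 1, ∫⁻ y in ball x r,
          ENNReal.ofReal r * ‖fderiv ℝ U (x + s • (y - x))‖ₑ :=
        lintegral_lintegral_swap (hj.const_mul _).aemeasurable
    _ ≤ ∫⁻ _ in Ioc (0 : ℝ) 1, ENNReal.ofReal (r * t) * volume (ball x r) := by
        refine setLIntegral_mono' measurableSet_Ioc fun s hs => ?_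
        have hs0 : 0 < s := hs.1
        rw [lintegral_const_mul' _ _ ENNReal.ofReal_ne_top,
          max_scale (fun z => ‖fderiv ℝ U z‖ₑ) hE.measurable x r s hs0,
          ENNReal.ofReal_mul hr.le, mul_assoc]
        refine mul_le_mul_right ?_ _
        refine (mul_le_mul_right (hav _ (mul_pos hs0 hr)) _).trans (le_of_eq ?_)
        rw [Measure.addHaar_ball_mul_of_pos _ _ hs0, finrank_euclideanSpace, Fintype.card_fin,
          Measure.addHaar_ball_center volume x, mul_left_comm, ← mul_assoc (ENNReal.ofReal _⁻¹),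
          ← ENNReal.ofReal_mul (by positivity), inv_mul_cancel₀ (by positivity),
          ENNReal.ofReal_one, one_mul]
    _ = ENNReal.ofReal (r * t) * volume (ball x r) := by
        rw [setLIntegral_const, Real.volume_Ioc, sub_zero, ENNReal.ofReal_one, mul_one]

end Pool.Agent.MP_40db9a_an.H47
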