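import Pool.Agent.MP_40db9a_an.H47.Spec

/-!
Row Model: the model estimate in both regimes, from `S_Core`.
-/

open MeasureTheory Set Filter Topology

namespace Pool.Agent.MP_40db9a_an.H47

variable {d : ℕ}

theorem model_gw_nonneg (a : ℝ) (x : E d) : 0 ≤ gw a x :=
  mul_nonneg (le_max_left _ _) (Real.rpow_nonneg (norm_nonneg _) _)

theorem model_tent_supp {u : ℝ} (h : tent u ≠ 0) : 0 < u ∧ u < 1 := by
  unfold tent at h
  have h1 : 0 < 2 - |4 * u - 2| := by
    by_contra hn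
    exact h (max_eq_left (not_lt.mp hn))
  have h2 : |4 * u - 2| < 2 := by linarith
  rw [abs_lt] at h2
  constructor <;> linarith [h2.1, h2.2]

theorem model_gw_supp (a : ℝ) {x : E d} (h : gw a x ≠ 0) : 1 < ‖x‖ ∧ ‖x‖ < 3 := by
  have h1 := model_tent_supp (left_ne_zero_of_mul h)
  have hx : 0 < ‖x‖ := by
    rcases (norm_nonneg x).lt_or_eq with h0 | h0
    · exact h0
    · rw [← h0, Real.log_zero] at h1; exact absurd h1.1 (lt_irrefl _)
  refine ⟨(Real.log_pos_iff hx.le).mp h1.1, ?_⟩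
  have h2 : ‖x‖ < Real.exp 1 := (Real.log_lt_iff_lt_exp hx).mp h1.2
  exact h2.trans (Real.exp_one_lt_d9.trans (by norm_num))

theorem model_gw_meas (a : ℝ) : Measurable (gw a : E d → ℝ) := by
  unfold gw tent
  refine Measurable.mul ?_ (measurable_norm.pow_const _)
  refine measurable_const.max (measurable_const.sub ?_)
  exact ((Real.measurable_log.comp measurable_norm).const_mul 4).sub_const 2 |>.abs

theorem model_gw_le (a : ℝ) (ha : 0 < a) (x : E d) : gw a x ≤ 2 := by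
  by_cases h : gw a x = 0
  · rw [h]; norm_num
  have h1 := model_gw_supp a h
  have h2 : ‖x‖ ^ (-((a + 1) * ((d : ℝ) / a))) ≤ 1 :=
    Real.rpow_le_one_of_one_le_of_nonpos h1.1.le (neg_nonpos.mpr (by positivity))
  have h3 : tent (Real.log ‖x‖) ≤ 2 :=
    max_le (by norm_num) (by linarith [abs_nonneg (4 * Real.log ‖x‖ - 2)])
  calc gw a x ≤ 2 * 1 :=
        mul_le_mul h3 h2 (Real.rpow_nonneg (norm_nonneg _) _) (by norm_num)
    _ = 2 := by norm_num

theorem model_gw_int (a : ℝ) (ha : 0 < a) : Integrable (gw a : E d → ℝ) := by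
  have h1 : Integrable ((Metric.closedBall (0 : E d) 3).indicator fun _ => (2 : ℝ)) :=
    (integrable_indicator_iff measurableSet_closedBall).mpr
      (integrableOn_const measure_closedBall_lt_top.ne)
  refine h1.mono' (model_gw_meas a).aestronglyMeasurable (Eventually.of_forall fun x => ?_)
  rw [Real.norm_of_nonneg (model_gw_nonneg a x)]
  by_cases h : gw a x = 0
  · rw [h]; exact indicator_nonneg (fun _ _ => by norm_num) _
  · rw [indicator_of_mem (mem_closedBall_zero_iff.mpr (model_gw_supp a h).2.le)]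
    exact model_gw_le a ha x

theorem model_exists_norm (hd : 1 ≤ d) (r : ℝ) (hr : 0 ≤ r) : ∃ x : E d, ‖x‖ = r :=
  ⟨EuclideanSpace.single ⟨0, hd⟩ r, by simp [abs_of_nonneg hr]⟩

theorem model_gw_pos (hd : 1 ≤ d) (a : ℝ) (ha : 0 < a) : 0 < ∫ x : E d, gw a x := by
  rw [integral_pos_iff_support_of_nonneg (fun x => model_gw_nonneg a x) (model_gw_int a ha)]
  have ho : IsOpen {x : E d | 1 < ‖x‖ ∧ ‖x‖ < 2} :=
    (isOpen_lt continuous_const continuous_norm).inter (isOpen_lt continuous_norm continuous_const)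
  obtain ⟨x0, hx0⟩ := model_exists_norm hd (3 / 2) (by norm_num)
  refine (ho.measure_pos volume ⟨x0, by rw [mem_ofPred_eq, hx0]; norm_num⟩).trans_le
    (measure_mono fun x hx => ?_)
  have hx0' : 0 < ‖x‖ := lt_trans one_pos hx.1
  have h1 : 0 < Real.log ‖x‖ := Real.log_pos hx.1
  have h2 : Real.log ‖x‖ < 1 := by
    rw [Real.log_lt_iff_lt_exp hx0']
    exact hx.2.trans (lt_trans (by norm_num) Real.exp_one_gt_d9)
  have h3 : 0 < tent (Real.log ‖x‖) := by
    refine lt_max_of_lt_right ?_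
    have : |4 * Real.log ‖x‖ - 2| < 2 := by rw [abs_lt]; constructor <;> linarith
    linarith
  exact (mul_pos h3 (Real.rpow_pos_of_pos hx0' _)).ne'

/-- bounded by `M` on the shell -/
def ModelBd (P : E d → ℝ) (M : ℝ) : Prop := ∀ y, 1 / 4 ≤ ‖y‖ → ‖y‖ ≤ 5 → |P y| ≤ M

theorem model_pt (a : ℝ) {P : E d → ℝ} {M : ℝ} (hb : ModelBd P M) (y : E d) :
    |gw a y * P y| ≤ gw a y * M := by
  by_cases h : gw a y = 0
  · simp [h]
  have h1 := model_gw_supp a h
  rw [abs_mul, abs_of_nonneg (model_gw_nonneg a y)]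
  exact mul_le_mul_of_nonneg_left (hb y (by linarith [h1.1]) (by linarith [h1.2]))
    (model_gw_nonneg a y)

theorem model_int0 (a : ℝ) (ha : 0 < a) {P : E d → ℝ} {M : ℝ} (hm : Measurable P)
    (hb : ModelBd P M) : Integrable fun y => gw a y * P y :=
  ((model_gw_int a ha).mul_const M).mono' ((model_gw_meas a).mul hm).aestronglyMeasurable
    (Eventually.of_forall fun y => model_pt a hb y)

theorem model_bd0 (a : ℝ) (ha : 0 < a) {P : E d → ℝ} {M : ℝ}
    (hb : ModelBd P M) : |∫ y, gw a y * P y| ≤ (∫ y : E d, gw a y) * M := by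
  rw [← integral_mul_const]
  exact norm_integral_le_of_norm_le (f := fun y => gw a y * P y)
    ((model_gw_int a ha).mul_const M) (Eventually.of_forall fun y => model_pt a hb y)

theorem model_Ann_closed : IsClosed (Ann d) :=
  (isClosed_le continuous_const continuous_norm).inter
    (isClosed_le continuous_norm continuous_const)

theorem model_Fs_meas {w : E d → E d} (hw : ContinuousOn w (Ann d)) : MeasurableSet (Fs w) :=
  (hw.norm.preimage_isClosed_of_isClosed model_Ann_closed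
    (isClosed_Iic (a := (1 / 8 : ℝ)))).measurableSet

theorem model_shell {x v : E d} (hx : x ∈ Ann d) (hv : ‖v‖ ≤ 1 / 8) :
    1 / 4 ≤ ‖x + v‖ ∧ ‖x + v‖ ≤ 5 := by
  have h1 := norm_add_le x v
  have h2 := norm_sub_le (x + v) v
  rw [add_sub_cancel_right] at h2
  constructor <;> linarith [hx.1, hx.2]

theorem model_pt1 (a : ℝ) {w : E d → E d} {P : E d → ℝ} {M : ℝ} (hb : ModelBd P M) {x : E d}
    (hx : x ∈ Fs w) : |gw a x * P (x + w x)| ≤ gw a x * M := by
  have h1 := model_shell hx.1 hx.2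
  rw [abs_mul, abs_of_nonneg (model_gw_nonneg a x)]
  exact mul_le_mul_of_nonneg_left (hb _ h1.1 h1.2) (model_gw_nonneg a x)

theorem model_int1 (a : ℝ) (ha : 0 < a) {w : E d → E d} (hw : ContinuousOn w (Ann d))
    {P : E d → ℝ} {M : ℝ} (hm : Measurable P) (hb : ModelBd P M) :
    IntegrableOn (fun x => gw a x * P (x + w x)) (Fs w) := by
  have h1 : AEMeasurable (fun x => x + w x) (volume.restrict (Fs w)) :=
    (continuousOn_id.add (hw.mono fun x hx => hx.1)).aemeasurable (model_Fs_meas hw)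
  refine ((model_gw_int a ha).mul_const M).integrableOn.mono'
    ((model_gw_meas a).aemeasurable.mul (hm.comp_aemeasurable h1)).aestronglyMeasurable ?_
  exact (ae_restrict_iff' (model_Fs_meas hw)).mpr
    (Eventually.of_forall fun x hx => model_pt1 a hb hx)

theorem model_bd1 (a : ℝ) (ha : 0 < a) {w : E d → E d} (hw : ContinuousOn w (Ann d))
    {P : E d → ℝ} {M : ℝ} (hM : 0 ≤ M) (hb : ModelBd P M) :
    |∫ x in Fs w, gw a x * P (x + w x)| ≤ (∫ y : E d, gw a y) * M := by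
  have h1 : |∫ x in Fs w, gw a x * P (x + w x)| ≤ ∫ x in Fs w, gw a x * M :=
    norm_integral_le_of_norm_le (f := fun x => gw a x * P (x + w x))
      ((model_gw_int a ha).mul_const M).integrableOn
      ((ae_restrict_iff' (model_Fs_meas hw)).mpr
        (Eventually.of_forall fun x hx => model_pt1 a hb hx))
  refine h1.trans ?_
  rw [← integral_mul_const]
  exact setIntegral_le_integral ((model_gw_int a ha).mul_const M)
    (Eventually.of_forall fun x => mul_nonneg (model_gw_nonneg a x) hM)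

/-- weighted mean -/
noncomputable def modelMean (a : ℝ) (P : E d → ℝ) : ℝ :=
  (∫ y, gw a y * P y) / ∫ y : E d, gw a y

/-- the functional applied to the centred function -/
noncomputable def modelJ (a : ℝ) (w : E d → E d) (P : E d → ℝ) : ℝ :=
  ∫ x in Fs w, gw a x * (P (x + w x) - modelMean a P)

theorem model_mean_le (hd : 1 ≤ d) (a : ℝ) (ha : 0 < a) {P : E d → ℝ} {M : ℝ}
    (hb : ModelBd P M) : |modelMean a P| ≤ M := by
  have hG := model_gw_pos hd a ha
  unfold modelMean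
  rw [abs_div, abs_of_pos hG, div_le_iff₀ hG, mul_comm]
  exact model_bd0 a ha hb

theorem model_cent_bd (hd : 1 ≤ d) (a : ℝ) (ha : 0 < a) {P : E d → ℝ} {M : ℝ}
    (hb : ModelBd P M) : ModelBd (fun y => P y - modelMean a P) (2 * M) := fun y h1 h2 => by
  have h3 := abs_sub (P y) (modelMean a P)
  linarith [hb y h1 h2, model_mean_le hd a ha hb]

theorem model_cent_zero (hd : 1 ≤ d) (a : ℝ) (ha : 0 < a) {P : E d → ℝ} {M : ℝ}
    (hm : Measurable P) (hb : ModelBd P M) : ∫ y, gw a y * (P y - modelMean a P) = 0 := by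
  have hG := model_gw_pos hd a ha
  simp only [mul_sub]
  rw [integral_sub (model_int0 a ha hm hb) ((model_gw_int a ha).mul_const _), integral_mul_const]
  unfold modelMean
  field_simp
  ring

theorem model_J_triv (hd : 1 ≤ d) (a : ℝ) (ha : 0 < a) {w : E d → E d}
    (hw : ContinuousOn w (Ann d)) {P : E d → ℝ} {M : ℝ} (hM : 0 ≤ M) (hb : ModelBd P M) :
    |modelJ a w P| ≤ (∫ y : E d, gw a y) * (2 * M) :=
  model_bd1 a ha hw (P := fun y => P y - modelMean a P) (by positivity)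
    (model_cent_bd hd a ha hb)

theorem model_J_sub (hd : 1 ≤ d) (a : ℝ) (ha : 0 < a) {w : E d → E d}
    (hw : ContinuousOn w (Ann d)) {P Q : E d → ℝ} {M M' : ℝ} (hP : Measurable P)
    (hQ : Measurable Q) (hb : ModelBd P M) (hb' : ModelBd Q M') :
    modelJ a w (fun y => P y - Q y) = modelJ a w P - modelJ a w Q := by
  have h1 : modelMean a (fun y => P y - Q y) = modelMean a P - modelMean a Q := by
    unfold modelMean
    simp only [mul_sub]
    rw [integral_sub (model_int0 a ha hP hb) (model_int0 a ha hQ hb'), sub_div]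
  have h2 := model_int1 a ha hw (hP.sub_const (modelMean a P)) (model_cent_bd hd a ha hb)
  have h3 := model_int1 a ha hw (hQ.sub_const (modelMean a Q)) (model_cent_bd hd a ha hb')
  unfold modelJ
  rw [← integral_sub h2 h3, h1]
  refine integral_congr_ae (Eventually.of_forall fun x => ?_)
  ring

theorem model_rpow_le {t ρ β : ℝ} (ht : 0 ≤ t) (hρ : 0 < ρ) (h0 : 0 ≤ β) (h1 : β ≤ 1) :
    t ^ β ≤ ρ ^ β + ρ ^ (β - 1) * t := by
  rcases le_total t ρ with h | h
  · have := Real.rpow_le_rpow ht h h0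
    have h2 : 0 ≤ ρ ^ (β - 1) * t := by positivity
    linarith
  · have ht' : 0 < t := hρ.trans_le h
    have h2 : t ^ (β - 1) ≤ ρ ^ (β - 1) := Real.rpow_le_rpow_of_nonpos hρ h (by linarith)
    have h3 : t ^ β = t ^ (β - 1) * t := by
      rw [Real.rpow_sub_one ht'.ne']; field_simp
    have h4 : 0 ≤ ρ ^ β := by positivity
    have h5 := mul_le_mul_of_nonneg_right h2 ht
    linarith

/-- inf-convolution -/
theorem model_inf (hd : 1 ≤ d) {Θ : E d → ℝ} {N β ρ : ℝ} (hN : 0 ≤ N) (hρ : 0 < ρ)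
    (h0 : 0 ≤ β) (h1 : β ≤ 1) (hb : ModelBd Θ N)
    (hH : ∀ u v, 1 / 4 ≤ ‖u‖ → ‖u‖ ≤ 5 → 1 / 4 ≤ ‖v‖ → ‖v‖ ≤ 5 → |Θ u - Θ v| ≤ N * ‖u - v‖ ^ β) :
    ∃ T : E d → ℝ, (∀ y y', |T y - T y'| ≤ N * ρ ^ (β - 1) * ‖y - y'‖) ∧
      ∀ y, 1 / 4 ≤ ‖y‖ → ‖y‖ ≤ 5 → T y ≤ Θ y ∧ Θ y - N * ρ ^ β ≤ T y := by
  set L : ℝ := N * ρ ^ (β - 1) with hL
  have hL0 : 0 ≤ L := by positivity
  obtain ⟨x0, hx0⟩ := model_exists_norm hd 1 zero_le_one
  have : Nonempty {u : E d // 1 / 4 ≤ ‖u‖ ∧ ‖u‖ ≤ 5} := ⟨⟨x0, by rw [hx0]; norm_num⟩⟩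
  have hbd : ∀ y : E d, BddBelow (range fun u : {u : E d // 1 / 4 ≤ ‖u‖ ∧ ‖u‖ ≤ 5} =>
      Θ u + L * ‖y - u‖) := fun y => ⟨-N, by
    rintro _ ⟨u, rfl⟩
    have h2 := (abs_le.mp (hb u u.2.1 u.2.2)).1
    have h3 : 0 ≤ L * ‖y - u‖ := by positivity
    linarith⟩
  set T : E d → ℝ := fun y => ⨅ u : {u : E d // 1 / 4 ≤ ‖u‖ ∧ ‖u‖ ≤ 5}, Θ u + L * ‖y - u‖
    with hT
  have key : ∀ y y', T y - L * ‖y - y'‖ ≤ T y' := fun y y' => by
    refine le_ciInf fun u => ?_
    have h2 : T y ≤ Θ u + L * ‖y - u‖ := ciInf_le (hbd y) u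
    have h3 : ‖y - u‖ ≤ ‖y - y'‖ + ‖y' - u‖ := norm_sub_le_norm_sub_add_norm_sub _ _ _
    have h4 := mul_le_mul_of_nonneg_left h3 hL0
    linarith
  refine ⟨T, fun y y' => ?_, fun y hy1 hy2 => ⟨?_, ?_⟩⟩
  · have h2 := key y y'
    have h3 := key y' y
    rw [norm_sub_rev] at h3
    rw [abs_le]
    constructor <;> linarith
  · have h2 : T y ≤ Θ y + L * ‖y - y‖ := ciInf_le (hbd y) ⟨y, hy1, hy2⟩
    simpa using h2
  · refine le_ciInf fun u => ?_
    have h2 := (abs_le.mp (hH y u hy1 hy2 u.2.1 u.2.2)).2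
    have h3 := mul_le_mul_of_nonneg_left (model_rpow_le (norm_nonneg (y - u)) hρ h0 h1) hN
    have h4 : L * ‖y - u‖ = N * (ρ ^ (β - 1) * ‖y - u‖) := by rw [hL]; ring
    linarith

theorem model_lip_meas {T : E d → ℝ} {L : ℝ} (hL : 0 ≤ L)
    (h : ∀ y y', |T y - T y'| ≤ L * ‖y - y'‖) : Measurable T := by
  have : LipschitzWith ⟨L, hL⟩ T := LipschitzWith.of_dist_le_mul fun y y' => by
    rw [Real.dist_eq, dist_eq_norm]; exact h y y'
  exact this.continuous.measurable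

/-- the statement of `S_Core` with fixed parameters -/
def ModelCore (d : ℕ) (a C : ℝ) : Prop :=
  ∀ (Θ : E d → ℝ) (N L : ℝ) (w w' : E d → E d) (e₁ e₂ : ℝ), 0 ≤ N → 0 ≤ L → 0 ≤ e₁ → 0 ≤ e₂ →
    Measurable Θ → (∀ y, 1 / 4 ≤ ‖y‖ → ‖y‖ ≤ 5 → |Θ y| ≤ N) → ∫ y, gw a y * Θ y = 0 →
    ContinuousOn w (Ann d) → Good w' e₁ → ∫⁻ x in Ann d, ‖w x - w' x‖ₑ ≤ ENNReal.ofReal e₂ →
    (∀ x ∈ Ann d, ‖w x‖ ≤ 1 / 8 → ‖w' x‖ ≤ 1 / 8 →
      |Θ (x + w x) - Θ (x + w' x)| ≤ L * ‖w x - w' x‖) →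
    |∫ x in Fs w, gw a x * Θ (x + w x)| ≤ C * (N * (e₁ + e₂) + L * e₂)

/-- one Lipschitz piece at scale `ρ` -/
theorem model_piece (hd : 1 ≤ d) {a C α β e N ρ : ℝ} (ha : 0 < a) (hC : 0 < C)
    (hcore : ModelCore d a C) {w : E d → E d} (he : 0 ≤ e) (hw : GS α w e) (hN : 0 ≤ N)
    (hρ : 0 < ρ) (hρ1 : ρ ≤ 1) {P : E d → ℝ} (hb : ModelBd P (2 * N * ρ ^ β))
    (hL : ∀ y y', |P y - P y'| ≤ 3 * N * ρ ^ (β - 1) * ‖y - y'‖) :
    |modelJ a w P| ≤ 11 * C * N * e * ρ ^ (α + β - 1) := by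
  obtain ⟨w', hg, hd'⟩ := hw.2.2 ρ hρ hρ1
  have hm : Measurable P := model_lip_meas (by positivity) hL
  have h1 := hcore (fun y => P y - modelMean a P) (2 * (2 * N * ρ ^ β)) (3 * N * ρ ^ (β - 1))
    w w' (ρ ^ (α - 1) * e) (ρ ^ α * e) (by positivity) (by positivity) (by positivity)
    (by positivity) (hm.sub_const _) (model_cent_bd hd a ha hb) (model_cent_zero hd a ha hm hb)
    hw.1 hg hd' (fun x _ _ _ => by
      have := hL (x + w x) (x + w' x)
      simpa [add_sub_add_left_eq_sub, sub_sub_sub_cancel_right] using this)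
  refine le_trans h1 ?_
  have e1 : ρ ^ β * ρ ^ (α - 1) = ρ ^ (α + β - 1) := by
    rw [← Real.rpow_add hρ]; congr 1; ring
  have e2 : ρ ^ (β - 1) * ρ ^ α = ρ ^ (α + β - 1) := by
    rw [← Real.rpow_add hρ]; congr 1; ring
  have e3 : ρ ^ β * ρ ^ α ≤ ρ ^ (α + β - 1) := by
    rw [← Real.rpow_add hρ]
    exact Real.rpow_le_rpow_of_exponent_ge hρ hρ1 (by linarith)
  have e4 : C * (2 * (2 * N * ρ ^ β) * (ρ ^ (α - 1) * e + ρ ^ α * e) +
      3 * N * ρ ^ (β - 1) * (ρ ^ α * e)) = C * N * e * (4 * (ρ ^ β * ρ ^ (α - 1)) +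
      4 * (ρ ^ β * ρ ^ α) + 3 * (ρ ^ (β - 1) * ρ ^ α)) := by ring
  rw [e4, e1, e2]
  have e5 : 0 ≤ C * N * e := by positivity
  nlinarith [mul_le_mul_of_nonneg_left e3 e5]

theorem model_small (hd : 1 ≤ d) {a C α β e N : ℝ} (ha : 0 < a) (hC : 0 < C)
    (hcore : ModelCore d a C) {w : E d → E d} (he : 0 ≤ e) (hw : GS α w e) (hN : 0 ≤ N)
    (hβ : 0 < β) (hβ1 : β ≤ 1) (hq : 1 < α + β) {Θ : E d → ℝ} (hm : Measurable Θ)
    (hb : ModelBd Θ N)
    (hH : ∀ u v, 1 / 4 ≤ ‖u‖ → ‖u‖ ≤ 5 → 1 / 4 ≤ ‖v‖ → ‖v‖ ≤ 5 → |Θ u - Θ v| ≤ N * ‖u - v‖ ^ β) :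
    |modelJ a w Θ| ≤ 11 * C * N * e * (1 + (1 - (1 / 2 : ℝ) ^ (α + β - 1))⁻¹) := by
  set q : ℝ := (1 / 2 : ℝ) ^ (α + β - 1) with hq'
  have hq0 : 0 ≤ q := by positivity
  have hq1 : q < 1 := Real.rpow_lt_one (by norm_num) (by norm_num) (by linarith)
  have hρ : ∀ k : ℕ, (0 : ℝ) < (1 / 2) ^ k := fun k => by positivity
  have hρ1 : ∀ k : ℕ, ((1 / 2 : ℝ)) ^ k ≤ 1 := fun k => pow_le_one₀ (by norm_num) (by norm_num)
  have hpow : ∀ (k : ℕ) (s : ℝ), ((1 / 2 : ℝ) ^ k) ^ s = ((1 / 2 : ℝ) ^ s) ^ k := fun k s => by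
    rw [← Real.rpow_natCast, ← Real.rpow_mul (by norm_num), mul_comm,
      Real.rpow_mul (by norm_num), Real.rpow_natCast]
  choose T hTL hTb using fun k : ℕ => model_inf hd hN (hρ k) hβ.le hβ1 hb hH
  have hTm : ∀ k, Measurable (T k) := fun k => model_lip_meas (by positivity) (hTL k)
  have hs1 : ∀ k : ℕ, N * ((1 / 2 : ℝ) ^ k) ^ β ≤ N := fun k =>
    mul_le_of_le_one_right hN (Real.rpow_le_one (hρ k).le (hρ1 k) hβ.le)
  have hT2 : ∀ k, ModelBd (T k) (2 * N) := fun k y h1 h2 => by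
    have h3 := hTb k y h1 h2
    have h4 := abs_le.mp (hb y h1 h2)
    rw [abs_le]
    constructor <;> linarith [hs1 k, h3.1, h3.2, h4.1, h4.2]
  set A : ℝ := 11 * C * N * e with hA
  have hA0 : 0 ≤ A := by positivity
  have h0 : |modelJ a w (T 0)| ≤ A := by
    have := model_piece hd (β := β) ha hC hcore he hw hN one_pos le_rfl (P := T 0)
      (by simpa using hT2 0) (fun y y' => by
        have h1 := hTL 0 y y'
        simp only [pow_zero, Real.one_rpow, mul_one] at h1 ⊢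
        have h2 : 0 ≤ N * ‖y - y'‖ := by positivity
        linarith)
    simpa using this
  have hstep : ∀ k, |modelJ a w (T (k + 1)) - modelJ a w (T k)| ≤ A * q ^ k := fun k => by
    rw [← model_J_sub hd a ha hw.1 (hTm _) (hTm _) (hT2 _) (hT2 _), hq', ← hpow]
    have h1 : ((1 / 2 : ℝ) ^ (k + 1)) ^ β ≤ ((1 / 2 : ℝ) ^ k) ^ β :=
      Real.rpow_le_rpow (hρ _).le (pow_le_pow_of_le_one (by norm_num) (by norm_num) (by omega))
        hβ.le
    have h2 : ((1 / 2 : ℝ) ^ (k + 1)) ^ (β - 1) ≤ 2 * ((1 / 2 : ℝ) ^ k) ^ (β - 1) := by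
      rw [pow_succ, Real.mul_rpow (hρ k).le (by norm_num), mul_comm]
      refine mul_le_mul_of_nonneg_right ?_ (by positivity)
      calc (1 / 2 : ℝ) ^ (β - 1) ≤ (1 / 2 : ℝ) ^ (-1 : ℝ) :=
            Real.rpow_le_rpow_of_exponent_ge (by norm_num) (by norm_num) (by linarith)
        _ = 2 := by rw [Real.rpow_neg_one]; norm_num
    refine model_piece hd ha hC hcore he hw hN (hρ k) (hρ1 k) (fun y h3 h4 => ?_)
      (fun y y' => ?_)
    · have h5 := hTb k y h3 h4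
      have h6 := hTb (k + 1) y h3 h4
      have h7 := mul_le_mul_of_nonneg_left h1 hN
      have h8 : 0 ≤ N * ((1 / 2 : ℝ) ^ k) ^ β := by positivity
      rw [abs_le]
      constructor <;> linarith [h5.1, h5.2, h6.1, h6.2]
    · have h5 := abs_le.mp (hTL k y y')
      have h6 := abs_le.mp (hTL (k + 1) y y')
      have h7 := mul_le_mul_of_nonneg_right (mul_le_mul_of_nonneg_left h2 hN)
        (norm_nonneg (y - y'))
      rw [abs_le]
      constructor <;> linarith [h5.1, h5.2, h6.1, h6.2]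
  have hind : ∀ k, |modelJ a w (T k)| ≤ A * (1 + ∑ j ∈ Finset.range k, q ^ j) := fun k => by
    induction k with
    | zero => simpa using h0
    | succ k ih =>
      rw [Finset.sum_range_succ]
      have h1 := hstep k
      have h2 := abs_sub_abs_le_abs_sub (modelJ a w (T (k + 1))) (modelJ a w (T k))
      linarith
  have hsum : ∀ k, ∑ j ∈ Finset.range k, q ^ j ≤ (1 - q)⁻¹ := fun k => by
    rw [← tsum_geometric_of_lt_one hq0 hq1]
    exact (summable_geometric_of_lt_one hq0 hq1).sum_le_tsum _ fun j _ => by positivity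
  set G : ℝ := ∫ y : E d, gw a y with hG
  have hfin : ∀ k : ℕ, |modelJ a w Θ| ≤
      A * (1 + (1 - q)⁻¹) + G * (2 * (N * ((1 / 2 : ℝ) ^ β) ^ k)) := fun k => by
    have h1 : |modelJ a w Θ - modelJ a w (T k)| ≤ G * (2 * (N * ((1 / 2 : ℝ) ^ β) ^ k)) := by
      rw [← model_J_sub hd a ha hw.1 hm (hTm _) hb (hT2 _), ← hpow]
      refine model_J_triv hd a ha hw.1 (by positivity) fun y h3 h4 => ?_
      have h5 := hTb k y h3 h4
      have h8 : 0 ≤ N * ((1 / 2 : ℝ) ^ k) ^ β := by positivity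
      rw [abs_le]
      constructor <;> linarith [h5.1, h5.2]
    have h2 := abs_sub_abs_le_abs_sub (modelJ a w Θ) (modelJ a w (T k))
    have h3 := mul_le_mul_of_nonneg_left (add_le_add_right (hsum k) 1) hA0
    linarith [hind k]
  have hlim : Tendsto (fun k : ℕ => A * (1 + (1 - q)⁻¹) + G * (2 * (N * ((1 / 2 : ℝ) ^ β) ^ k)))
      atTop (𝓝 (A * (1 + (1 - q)⁻¹) + G * (2 * (N * 0)))) :=
    ((((tendsto_pow_atTop_nhds_zero_of_lt_one (by positivity)
      (Real.rpow_lt_one (by norm_num) (by norm_num) hβ)).const_mul N).const_mul 2).const_mul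
        G).const_add _
  simpa using ge_of_tendsto' hlim hfin

theorem sModel (hC : S_Core) : S_Model := by
  intro d hd a β ha _ hβ0 hβ1 hcase
  obtain ⟨C, hC0, hcore⟩ := hC d a ha
  by_cases h1 : 1 ≤ (d : ℝ) - a
  · refine ⟨C, hC0, fun Θ N hN hm hb _ h0 w e he hw => ?_⟩
    have hg := hw.1 h1
    have h2 := hcore Θ N 0 w w e 0 hN le_rfl he le_rfl hm hb h0
      (fun x hx => (hg.1 x hx).continuousAt.continuousWithinAt) hg (by simp) (by simp)
    calc _ ≤ _ := h2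
      _ = C * N * e := by ring
  · have h2 : (d : ℝ) - a < 1 := not_le.mp h1
    have h3 : 1 < (d : ℝ) - a + β := hcase.resolve_left h1
    have hq1 : (1 / 2 : ℝ) ^ ((d : ℝ) - a + β - 1) < 1 :=
      Real.rpow_lt_one (by norm_num) (by norm_num) (by linarith)
    have h4 : 0 < (1 - (1 / 2 : ℝ) ^ ((d : ℝ) - a + β - 1))⁻¹ := inv_pos.mpr (by linarith)
    refine ⟨11 * C * (1 + (1 - (1 / 2 : ℝ) ^ ((d : ℝ) - a + β - 1))⁻¹), by positivity,
      fun Θ N hN hm hb hH h0 w e he hw => ?_⟩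
    have h5 := model_small hd ha hC0 hcore he (hw.2 h2) hN (by linarith) hβ1 h3 hm hb hH
    have h6 : modelJ a w Θ = ∫ x in Fs w, gw a x * Θ (x + w x) := by
      simp [modelJ, modelMean, h0]
    rw [h6] at h5
    calc _ ≤ _ := h5
      _ = _ := by ring

end Pool.Agent.MP_40db9a_an.H47
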