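import Pool.Agent.MP_40db9a_an.H47.Spec

open MeasureTheory Set

namespace Pool.Agent.MP_40db9a_an.H47

theorem nec_lip (p : ℝ) (hp : 1 ≤ p) :
    ∃ L : ℝ, 0 ≤ L ∧ ∀ t : ℝ, |t - 1| ≤ 1 / 2 → |t ^ p - 1| ≤ L * |t - 1| := by
  refine ⟨p * 2 ^ (p - 1), by positivity, fun t ht => ?_⟩
  have ht' : t ∈ Icc (1 / 2 : ℝ) 2 := by
    rw [abs_le] at ht
    constructor <;> linarith [ht.1, ht.2]
  have h := (convex_Icc (1 / 2 : ℝ) 2).norm_image_sub_le_of_norm_hasDerivWithin_le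
    (f := fun s : ℝ => s ^ p) (f' := fun s => p * s ^ (p - 1)) (C := p * 2 ^ (p - 1))
    (fun s _ => (Real.hasDerivAt_rpow_const (Or.inr hp)).hasDerivWithinAt)
    (fun s hs => by
      have h0 : 0 ≤ s := by linarith [hs.1]
      rw [Real.norm_eq_abs, abs_of_nonneg (by positivity)]
      exact mul_le_mul_of_nonneg_left (Real.rpow_le_rpow h0 hs.2 (by linarith)) (by linarith))
    (x := 1) (y := t) (by constructor <;> norm_num) ht'
  simpa using h

theorem nec_one {d : ℕ} {s s' : Set (E d)} (hs : MeasurableSet s) (hss : s ⊆ s') {u : E d → ℝ}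
    {k B : ℝ} (hk : 0 ≤ k) (h : ∫⁻ x in s', ENNReal.ofReal (u x) ≤ ENNReal.ofReal B) :
    ∫⁻ x in s, ENNReal.ofReal (k * u x) ≤ ENNReal.ofReal (k * B) := by
  simp only [ENNReal.ofReal_mul hk]
  rw [lintegral_const_mul' _ _ ENNReal.ofReal_ne_top]
  gcongr
  exact (lintegral_mono_set hss).trans h

theorem nec_dom (hI : S_Int) (d : ℕ) (a p : ℝ) (ha : 0 < a) (had : a < d) (hp : 0 < p) :
    ∃ M : ℝ, 0 ≤ M ∧ ∀ (R K : ℝ) (G : E d → ℝ), 0 < R → 0 ≤ K → (∀ x, ‖x‖ ≤ 1 → |G x| ≤ K) →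
      (∀ x, 1 ≤ ‖x‖ → ‖x‖ ≤ 2 * R →
        |G x| ≤ K * ‖x‖ ^ (-((d : ℝ) + 1)) + K * R ^ (-a) * ‖x‖ ^ (-((d : ℝ) - a))) →
      (∀ x, 2 * R ≤ ‖x‖ → |G x| ≤ K * R ^ p * ‖x‖ ^ (-((d : ℝ) + p))) →
      ∫⁻ x, ‖G x‖ₑ ≤ ENNReal.ofReal (K * M) := by
  have hd : 1 ≤ d := by
    have : (0 : ℝ) < d := ha.trans had
    exact_mod_cast this
  have hd0 : (0 : ℝ) < d := ha.trans had
  obtain ⟨C₁, c1, h1, -⟩ := (hI d hd ((d : ℝ) + 1) (by linarith)).2 (by linarith)
  obtain ⟨C₂, c2, h2, -⟩ := (hI d hd ((d : ℝ) - a) (by linarith)).1 (by linarith)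
  obtain ⟨C₃, c3, h3, -⟩ := (hI d hd ((d : ℝ) + p) (by linarith)).2 (by linarith)
  set V : ℝ := (volume (Metric.closedBall (0 : E d) 1)).toReal with hV
  have hV0 : 0 ≤ V := ENNReal.toReal_nonneg
  have hVe : volume (Metric.closedBall (0 : E d) 1) = ENNReal.ofReal V :=
    (ENNReal.ofReal_toReal measure_closedBall_lt_top.ne).symm
  refine ⟨V + (C₁ + C₂ * 2 ^ a) + C₃ * 2 ^ (-p), by positivity, ?_⟩
  intro R K G hR hK g1 g2 g3
  set s1 : Set (E d) := Metric.closedBall 0 1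
  set s2 : Set (E d) := {x | 1 ≤ ‖x‖ ∧ ‖x‖ ≤ 2 * R}
  set s3 : Set (E d) := {x | 2 * R ≤ ‖x‖}
  have m1 : MeasurableSet s1 := measurableSet_closedBall
  have m2 : MeasurableSet s2 := (measurableSet_le measurable_const measurable_norm).inter
    (measurableSet_le measurable_norm measurable_const)
  have m3 : MeasurableSet s3 := measurableSet_le measurable_const measurable_norm
  have hu : (univ : Set (E d)) ⊆ s1 ∪ s2 ∪ s3 := by
    intro x _
    by_cases hx : ‖x‖ ≤ 1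
    · exact Or.inl (Or.inl (by simpa [s1] using hx))
    · rcases le_total ‖x‖ (2 * R) with h | h
      · exact Or.inl (Or.inr ⟨(not_le.1 hx).le, h⟩)
      · exact Or.inr h
  have en : ∀ x, ‖G x‖ₑ = ENNReal.ofReal |G x| := fun x => by
    rw [← ofReal_norm_eq_enorm, Real.norm_eq_abs]
  have b1 : ∫⁻ x in s1, ‖G x‖ₑ ≤ ENNReal.ofReal (K * V) := by
    refine (setLIntegral_mono' m1 (g := fun _ => ENNReal.ofReal K) fun x hx => ?_).trans ?_
    · rw [en]
      exact ENNReal.ofReal_le_ofReal (g1 x (by simpa [s1] using hx))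
    · rw [setLIntegral_const, hVe, ENNReal.ofReal_mul hK]
  have hRa : 0 < R ^ (-a) := Real.rpow_pos_of_pos hR _
  have hRp : 0 < R ^ p := Real.rpow_pos_of_pos hR _
  have b2 : ∫⁻ x in s2, ‖G x‖ₑ ≤ ENNReal.ofReal (K * C₁) + ENNReal.ofReal (K * (C₂ * 2 ^ a)) := by
    refine (setLIntegral_mono' m2 (g := fun x => ENNReal.ofReal (K * ‖x‖ ^ (-((d : ℝ) + 1))) +
      ENNReal.ofReal (K * R ^ (-a) * ‖x‖ ^ (-((d : ℝ) - a)))) fun x hx => ?_).trans ?_
    · rw [en]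
      exact (ENNReal.ofReal_le_ofReal (g2 x hx.1 hx.2)).trans ENNReal.ofReal_add_le
    · rw [lintegral_add_left (by fun_prop)]
      refine add_le_add ?_ ?_
      · have := h1 0 1 one_pos
        simp only [sub_zero, Real.one_rpow, mul_one] at this
        exact nec_one m2 (fun x hx => hx.1) hK this
      · have := h2 0 (2 * R) (by positivity)
        simp only [sub_zero, sub_sub_cancel] at this
        refine (nec_one m2 (fun x hx => by simpa using hx.2) (by positivity) this).trans_eq ?_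
        congr 1
        rw [Real.mul_rpow zero_le_two hR.le, Real.rpow_neg hR.le]
        have : R ^ a ≠ 0 := (Real.rpow_pos_of_pos hR _).ne'
        field_simp
  have b3 : ∫⁻ x in s3, ‖G x‖ₑ ≤ ENNReal.ofReal (K * (C₃ * 2 ^ (-p))) := by
    refine (setLIntegral_mono' m3 (g := fun x =>
      ENNReal.ofReal (K * R ^ p * ‖x‖ ^ (-((d : ℝ) + p)))) fun x hx => ?_).trans ?_
    · rw [en]
      exact ENNReal.ofReal_le_ofReal (g3 x hx)
    · have := h3 0 (2 * R) (by positivity)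
      simp only [sub_zero, sub_add_cancel_left] at this
      refine (nec_one m3 (fun x hx => hx) (by positivity) this).trans_eq ?_
      congr 1
      rw [Real.mul_rpow zero_le_two hR.le, Real.rpow_neg hR.le]
      field_simp
  calc ∫⁻ x, ‖G x‖ₑ = ∫⁻ x in univ, ‖G x‖ₑ := by rw [Measure.restrict_univ]
    _ ≤ ∫⁻ x in s1 ∪ s2 ∪ s3, ‖G x‖ₑ := lintegral_mono_set hu
    _ ≤ (∫⁻ x in s1, ‖G x‖ₑ) + (∫⁻ x in s2, ‖G x‖ₑ) + ∫⁻ x in s3, ‖G x‖ₑ :=
      (lintegral_union_le _ _ _).trans (add_le_add (lintegral_union_le _ _ _) le_rfl)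
    _ ≤ _ := by
      refine (add_le_add (add_le_add b1 b2) b3).trans_eq ?_
      rw [← ENNReal.ofReal_add (by positivity) (by positivity),
        ← ENNReal.ofReal_add (by positivity) (by positivity),
        ← ENNReal.ofReal_add (by positivity) (by positivity)]
      congr 1
      ring

theorem nec_log (q T : ℝ) (hT : 1 ≤ T) :
    ∫ r in Ioi (0 : ℝ), (Icc 1 T).indicator (fun r : ℝ => r ^ (-q)) r * r ^ (q - 1) =
      Real.log T := by
  have e : ∀ r : ℝ, (Icc 1 T).indicator (fun r : ℝ => r ^ (-q)) r * r ^ (q - 1) =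
      (Icc 1 T).indicator (fun r : ℝ => r⁻¹) r := by
    intro r
    by_cases hr : r ∈ Icc 1 T
    · have h0 : 0 < r := by linarith [hr.1]
      rw [indicator_of_mem hr, indicator_of_mem hr, ← Real.rpow_add h0, ← Real.rpow_neg_one]
      congr 1
      ring
    · simp [indicator_of_notMem hr]
  simp only [e]
  have hsub : Icc (1 : ℝ) T ⊆ Ioi 0 := fun r hr => lt_of_lt_of_le one_pos hr.1
  rw [setIntegral_indicator measurableSet_Icc, inter_eq_right.2 hsub,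
    integral_Icc_eq_integral_Ioc, ← intervalIntegral.integral_of_le hT,
    integral_inv_of_pos one_pos (by linarith), div_one]

theorem nec_mid {a d p ρ A C R L N φ : ℝ} (ha : 0 < a) (hp : a * p = d) (hρ : 1 ≤ ρ)
    (hL0 : 0 ≤ L) (hL : ∀ t : ℝ, |t - 1| ≤ 1 / 2 → |t ^ p - 1| ≤ L * |t - 1|)
    (hA : |A - ρ ^ (-(a + 1))| * ρ ≤ 1 / 4 * ρ ^ (-(a + 1)) + C * R ^ (-a))
    (hs : C * R ^ (-a) * ρ ^ a ≤ 1 / 4) (hN : 0 ≤ N) (hφ : |φ| ≤ N * ρ ^ p) :
    0 < A ∧ |A ^ p * φ - ρ ^ (-(p + d)) * φ| ≤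
      L * N * (1 / 4 * ρ ^ (-(d + 1)) + C * R ^ (-a) * ρ ^ (-(d - a))) := by
  have h0 : 0 < ρ := by linarith
  have hw : 0 < ρ ^ a := Real.rpow_pos_of_pos h0 _
  have hz : 0 < ρ ^ (-d) := Real.rpow_pos_of_pos h0 _
  have hq : 0 < ρ ^ p := Real.rpow_pos_of_pos h0 _
  have e1 : ρ ^ (-(a + 1)) = (ρ ^ a * ρ)⁻¹ := by
    rw [Real.rpow_neg h0.le, Real.rpow_add h0, Real.rpow_one]
  have e2 : ρ ^ (-(d + 1)) = ρ ^ (-d) * ρ⁻¹ := by
    rw [← Real.rpow_neg_one, ← Real.rpow_add h0]; congr 1; ring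
  have e3 : ρ ^ (-(d - a)) = ρ ^ (-d) * ρ ^ a := by
    rw [← Real.rpow_add h0]; congr 1; ring
  have e4 : ρ ^ (-(p + d)) = ρ ^ (-d) * (ρ ^ p)⁻¹ := by
    rw [← Real.rpow_neg h0.le, ← Real.rpow_add h0]; congr 1; ring
  have e5 : (ρ ^ (-(a + 1))) ^ p = ρ ^ (-(p + d)) := by
    rw [← Real.rpow_mul h0.le]; congr 1; rw [← hp]; ring
  set t := A * (ρ ^ a * ρ) with ht
  have hAt : A = t * ρ ^ (-(a + 1)) := by rw [e1, ht]; field_simp
  have h1 : |t - 1| ≤ 1 / 4 * ρ⁻¹ + C * R ^ (-a) * ρ ^ a := by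
    have e : t - 1 = (A - ρ ^ (-(a + 1))) * (ρ * ρ ^ a) := by rw [e1, ht]; field_simp
    rw [e, abs_mul, abs_of_pos (mul_pos h0 hw), ← mul_assoc]
    refine (mul_le_mul_of_nonneg_right hA hw.le).trans_eq ?_
    rw [e1]
    field_simp
  have h2 : ρ⁻¹ ≤ 1 := inv_le_one_of_one_le₀ hρ
  have h3 : |t - 1| ≤ 1 / 2 := by linarith
  have ht0 : 0 < t := by
    have := (abs_le.1 h3).1
    linarith
  have hk : 0 < ρ ^ (-(a + 1)) := Real.rpow_pos_of_pos h0 _
  refine ⟨by rw [hAt]; positivity, ?_⟩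
  have e6 : A ^ p * φ - ρ ^ (-(p + d)) * φ = (t ^ p - 1) * (ρ ^ (-d) * (ρ ^ p)⁻¹) * φ := by
    rw [hAt, Real.mul_rpow ht0.le hk.le, e5, e4]; ring
  rw [e6, abs_mul, abs_mul, abs_of_pos (a := ρ ^ (-d) * (ρ ^ p)⁻¹) (by positivity), e2, e3]
  calc |t ^ p - 1| * (ρ ^ (-d) * (ρ ^ p)⁻¹) * |φ|
      ≤ (L * (1 / 4 * ρ⁻¹ + C * R ^ (-a) * ρ ^ a)) * (ρ ^ (-d) * (ρ ^ p)⁻¹) * (N * ρ ^ p) := by
        have h4 := (hL t h3).trans (mul_le_mul_of_nonneg_left h1 hL0)
        have h5 := (abs_nonneg _).trans h4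
        gcongr
    _ = _ := by field_simp

theorem nec_fin {σ B : ℝ} (h : ∀ T : ℝ, 1 ≤ T → |Real.log T * σ| ≤ B) : σ = 0 := by
  by_contra hσ
  have h0 : 0 < |σ| := abs_pos.2 hσ
  have hB : 0 ≤ B := (abs_nonneg _).trans (h 1 le_rfl)
  have h1 := h (Real.exp (B / |σ| + 1)) (Real.one_le_exp (by positivity))
  rw [Real.log_exp, abs_mul, abs_of_pos (a := B / |σ| + 1) (by positivity), add_mul,
    div_mul_cancel₀ _ h0.ne'] at h1
  linarith

theorem sNec (hI : S_Int) (_hC : S_Conv) (hR : S_Rad) (hD : S_Decay) (hP : S_Polar) : S_Nec := by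
  intro d a N₀ Φ ha had hΦm hH hΦ₀ ⟨C₀, hC₀⟩
  have hd0 : (0 : ℝ) < d := ha.trans had
  have hd : 1 ≤ d := by exact_mod_cast hd0
  obtain ⟨C, kb, hC1, hk, hf⟩ := hR d a ha had
  obtain ⟨⟨CD, hCD, hdec⟩, hint⟩ := hD d a ha had
  have hap : a * ((d : ℝ) / a) = d := by field_simp
  have hp1 : 1 ≤ (d : ℝ) / a := (one_le_div ha).2 had.le
  generalize (d : ℝ) / a = p at hH hΦ₀ hC₀ hint hap hp1
  have hp0 : 0 < p := by linarith
  have hC0 : 0 < C := by linarith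
  obtain ⟨N, hN, hΦ⟩ : ∃ N : ℝ, 0 ≤ N ∧ ∀ v, |Φ v| ≤ N * ‖v‖ ^ p := ⟨|N₀|, abs_nonneg _, fun v =>
    (hΦ₀ v).trans (mul_le_mul_of_nonneg_right (le_abs_self _) (by positivity))⟩
  have hΦb : ∀ (v : E d) (b : ℝ), ‖v‖ ≤ b → |Φ v| ≤ N * b ^ p := fun v b hb =>
    (hΦ v).trans (mul_le_mul_of_nonneg_left (Real.rpow_le_rpow (norm_nonneg _) hb hp0.le) hN)
  obtain ⟨L, hL0, hL⟩ := nec_lip p hp1
  obtain ⟨M, hM0, hM⟩ := nec_dom hI d a p ha had hp0
  obtain ⟨τ, hτ0, hτ, hτ1⟩ : ∃ τ : ℝ, 0 < τ ∧ C * τ = 1 / 4 ∧ 2 * τ ≤ 1 :=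
    ⟨1 / (4 * C), by positivity, by field_simp, by
      rw [← mul_div_assoc, div_le_one (by positivity)]; linarith⟩
  obtain ⟨c, hc1, hc⟩ : ∃ c : ℝ, 1 ≤ c ∧ c ^ a = 4 * C :=
    ⟨(4 * C) ^ a⁻¹, Real.one_le_rpow (by linarith) (by positivity),
      Real.rpow_inv_rpow (by positivity) ha.ne'⟩
  have k1 : 0 ≤ N * (C * τ ^ (-a) + C) ^ p := by positivity
  have k2 : 0 ≤ L * N * C := by positivity
  have k3 : 0 ≤ N * (2 * C) ^ p * (4 * C) := by positivity
  have k4 : 0 ≤ N * (2 * CD) ^ p := by positivity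
  obtain ⟨K, K1, K2, K3, K4⟩ : ∃ K : ℝ, N * (C * τ ^ (-a) + C) ^ p + N ≤ K ∧ L * N * C ≤ K ∧
      N * (2 * C) ^ p * (4 * C) ≤ K ∧ N * (2 * CD) ^ p ≤ K :=
    ⟨N * (C * τ ^ (-a) + C) ^ p + N + L * N * C + N * (2 * C) ^ p * (4 * C) + N * (2 * CD) ^ p,
      by linarith, by linarith, by linarith, by linarith⟩
  have hK : 0 ≤ K := k2.trans K2
  refine nec_fin (B := |C₀| * 2 ^ p + K * M) fun T hT => ?_
  have hT0 : 0 < T := by linarith
  obtain ⟨R, hTR, hRa⟩ : ∃ R : ℝ, T ≤ R ∧ T ^ (-a) = 4 * C * R ^ (-a) :=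
    ⟨c * T, le_mul_of_one_le_left hT0.le hc1, by
      rw [Real.mul_rpow (by linarith) hT0.le, Real.rpow_neg (x := c) (by linarith), hc]
      field_simp⟩
  have hR1 : 1 ≤ R := hT.trans hTR
  have hR0 : 0 < R := by linarith
  have hRp : 0 < R ^ (-a) := Real.rpow_pos_of_pos hR0 _
  obtain ⟨f, fs, fc, fR, f0, f1, fΨ⟩ := hf Bool (fun b => if b then 1 else -1)
    (fun b => if b then τ else R) (fun _ => 0) R (by
      rintro (_ | _)
      · simpa using hR0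
      · exact ⟨by simpa using hτ0, by simp; linarith⟩)
  have f0' : ∫ x, f x = 0 := by simpa using f0
  have f1' : ∫ x, |f x| ≤ 2 := by
    refine f1.trans_eq ?_
    simp
    norm_num
  have fΨ' : ∀ x, conv (Kr a) f x = kb τ x - kb R x := fun x => by
    rw [fΨ x]
    simp [sub_eq_add_neg]
  have cΨ : Continuous (conv (Kr a) f) := by
    rw [funext fΨ']
    exact (hk τ hτ0).1.sub (hk R hR0).1
  have mΨ : Measurable fun x => Φ (conv (Kr a) f x) := hΦm.comp cΨ.measurable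
  have iΨ : Integrable fun x => Φ (conv (Kr a) f x) :=
    ((hint f fs.continuous fc f0').const_mul N).mono' mΨ.aestronglyMeasurable
      (Filter.Eventually.of_forall fun x => hΦ _)
  have nΨ : ∀ x, ‖conv (Kr a) f x‖ ≤ C * (max ‖x‖ τ) ^ (-a) + C * (max ‖x‖ R) ^ (-a) := fun x => by
    rw [fΨ']
    exact (norm_sub_le _ _).trans (add_le_add ((hk τ hτ0).2 x).2.2.1 ((hk R hR0).2 x).2.2.1)
  have anti : ∀ {u v : ℝ}, 0 < u → u ≤ v → v ^ (-a) ≤ u ^ (-a) := fun hu huv =>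
    Real.rpow_le_rpow_of_nonpos hu huv (by linarith)
  set h : ℝ → ℝ := (Icc 1 T).indicator fun r : ℝ => r ^ (-(p + d)) with hh
  have hm : Measurable h := Measurable.indicator (by fun_prop) measurableSet_Icc
  have hb : ∀ r, |h r| ≤ 1 := fun r => by
    by_cases hr : r ∈ Icc 1 T
    · have h0 : 0 < r := by linarith [hr.1]
      rw [hh, indicator_of_mem hr, abs_of_pos (Real.rpow_pos_of_pos h0 _)]
      exact Real.rpow_le_one_of_one_le_of_nonpos hr.1 (by linarith)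
    · simp [hh, indicator_of_notMem hr]
  have hz : ∀ r, T < r → h r = 0 := fun r hr =>
    indicator_of_notMem (fun h' => absurd h'.2 (not_le.2 hr)) _
  have hpol := hP d hd p N Φ hΦm hH (fun v hv => by simpa [hv] using hΦ v) h 1 1 T hm one_pos hb
    fun r _ hr => mem_Icc.1 (mem_of_indicator_ne_zero (s := Icc 1 T) hr)
  rw [hh, nec_log (p + d) T hT, ← hh] at hpol
  have hG := hM R K (fun x => Φ (conv (Kr a) f x) - h ‖x‖ * Φ x) hR0 hK
    (fun x hx => by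
      have h1 : (max ‖x‖ τ) ^ (-a) ≤ τ ^ (-a) := anti hτ0 (le_max_right _ _)
      have h2 : (max ‖x‖ R) ^ (-a) ≤ 1 :=
        Real.rpow_le_one_of_one_le_of_nonpos (hR1.trans (le_max_right _ _)) (by linarith)
      have h3 := hΦb _ (C * τ ^ (-a) + C) ((nΨ x).trans (by nlinarith))
      have h4 := hΦb x 1 hx
      rw [Real.one_rpow, mul_one] at h4
      have h5 : |h ‖x‖ * Φ x| ≤ 1 * N := by
        rw [abs_mul]
        exact mul_le_mul (hb _) h4 (abs_nonneg _) zero_le_one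
      have h6 := abs_sub (Φ (conv (Kr a) f x)) (h ‖x‖ * Φ x)
      linarith)
    (fun x hx hx2 => by
      have h0 : 0 < ‖x‖ := by linarith
      have p1 : 0 < ‖x‖ ^ (-((d : ℝ) + 1)) := Real.rpow_pos_of_pos h0 _
      have p2 : 0 < ‖x‖ ^ (-((d : ℝ) - a)) := Real.rpow_pos_of_pos h0 _
      have p3 := mul_pos hRp p2
      rcases le_or_gt ‖x‖ T with hxT | hxT
      · obtain ⟨⟨A₁, hA₁⟩, -, -, a1, -⟩ := (hk τ hτ0).2 x
        obtain ⟨⟨A₂, hA₂⟩, -, a2, -, -⟩ := (hk R hR0).2 x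
        have eΨ : conv (Kr a) f x = (A₁ - A₂) • x := by rw [fΨ', hA₁, hA₂, sub_smul]
        have hA : |A₁ - A₂ - ‖x‖ ^ (-(a + 1))| * ‖x‖ ≤
            1 / 4 * ‖x‖ ^ (-(a + 1)) + C * R ^ (-a) := by
          have e : (A₁ - A₂ - ‖x‖ ^ (-(a + 1))) • x = kb τ x - Kr a x - kb R x := by
            rw [hA₁, hA₂, Kr, sub_smul, sub_smul]
            abel
          rw [← Real.norm_eq_abs, ← norm_smul, e, ← hτ]
          refine (norm_sub_le _ _).trans (add_le_add (a1 (hτ1.trans hx)) (a2.trans ?_))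
          exact mul_le_mul_of_nonneg_left (anti hR0 (le_max_right _ _)) hC0.le
        have hs : C * R ^ (-a) * ‖x‖ ^ a ≤ 1 / 4 := by
          have h1 : ‖x‖ ^ a ≤ T ^ a := Real.rpow_le_rpow h0.le hxT ha.le
          have h2 : T ^ (-a) * T ^ a = 1 := by
            rw [← Real.rpow_add hT0, neg_add_cancel, Real.rpow_zero]
          have h3 := mul_le_mul_of_nonneg_left h1 (mul_pos hC0 hRp).le
          rw [hRa] at h2
          linarith
        obtain ⟨hA0, hm⟩ := nec_mid ha hap hx hL0 hL hA hs hN (hΦ x)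
        rw [eΨ, hH _ hA0, hh, indicator_of_mem (show ‖x‖ ∈ Icc 1 T from ⟨hx, hxT⟩)]
        refine hm.trans ?_
        have h1 : L * N * (1 / 4) ≤ K := by
          have := mul_nonneg hL0 hN
          nlinarith
        have h2 := mul_le_mul_of_nonneg_right h1 p1.le
        have h3 := mul_le_mul_of_nonneg_right K2 p3.le
        linarith
      · rw [hz _ hxT, zero_mul, sub_zero]
        have h1 : (max ‖x‖ τ) ^ (-a) ≤ ‖x‖ ^ (-a) := anti h0 (le_max_left _ _)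
        have h2 : (max ‖x‖ R) ^ (-a) ≤ ‖x‖ ^ (-a) := anti h0 (le_max_left _ _)
        have h3 := hΦb _ (2 * C * ‖x‖ ^ (-a)) ((nΨ x).trans (by nlinarith))
        have e : (2 * C * ‖x‖ ^ (-a)) ^ p =
            (2 * C) ^ p * (‖x‖ ^ (-a) * ‖x‖ ^ (-((d : ℝ) - a))) := by
          rw [Real.mul_rpow (by positivity) (by positivity), ← Real.rpow_mul h0.le,
            ← Real.rpow_add h0]
          congr 2
          rw [← hap]
          ring
        have h4 : ‖x‖ ^ (-a) ≤ 4 * C * R ^ (-a) := hRa ▸ anti hT0 hxT.le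
        have h5 := mul_le_mul_of_nonneg_right K3 p3.le
        have h6 := mul_le_mul_of_nonneg_right h4
          (show 0 ≤ N * (2 * C) ^ p * ‖x‖ ^ (-((d : ℝ) - a)) by positivity)
        have h7 := mul_nonneg hK p1.le
        rw [e] at h3
        linarith)
    (fun x hx => by
      have h0 : 0 < ‖x‖ := by linarith
      rw [hz _ (by linarith), zero_mul, sub_zero]
      have p1 : 0 < ‖x‖ ^ (-(a + 1)) := Real.rpow_pos_of_pos h0 _
      have h1 := hdec f R fs.continuous fc hR0 fR f0' x hx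
      have h2 := mul_le_mul_of_nonneg_left f1'
        (show 0 ≤ CD * R * ‖x‖ ^ (-(a + 1)) by positivity)
      have h3 := hΦb _ (2 * CD * (R * ‖x‖ ^ (-(a + 1)))) (h1.trans (by linarith))
      have e : (2 * CD * (R * ‖x‖ ^ (-(a + 1)))) ^ p =
          (2 * CD) ^ p * (R ^ p * ‖x‖ ^ (-((d : ℝ) + p))) := by
        rw [Real.mul_rpow (by positivity) (by positivity), Real.mul_rpow hR0.le p1.le,
          ← Real.rpow_mul h0.le]
        congr 3
        rw [← hap]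
        ring
      have h4 := mul_le_mul_of_nonneg_right K4
        (show 0 ≤ R ^ p * ‖x‖ ^ (-((d : ℝ) + p)) by positivity)
      rw [e] at h3
      linarith)
  have mG : Measurable fun x : E d => Φ (conv (Kr a) f x) - h ‖x‖ * Φ x :=
    mΨ.sub ((hm.comp measurable_norm).mul hΦm)
  have iG : Integrable fun x : E d => Φ (conv (Kr a) f x) - h ‖x‖ * Φ x :=
    ⟨mG.aestronglyMeasurable, hG.trans_lt ENNReal.ofReal_lt_top⟩
  have bG : |∫ x : E d, (Φ (conv (Kr a) f x) - h ‖x‖ * Φ x)| ≤ K * M := by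
    rw [← Real.norm_eq_abs]
    refine (norm_integral_le_lintegral_norm _).trans ?_
    simp only [ofReal_norm_eq_enorm]
    exact ENNReal.toReal_le_of_le_ofReal (by positivity) hG
  have e := integral_sub iΨ iG
  simp only [sub_sub_cancel] at e
  have b0 : |∫ x, Φ (conv (Kr a) f x)| ≤ |C₀| * 2 ^ p := by
    have h1 : 0 ≤ ∫ x, |f x| := integral_nonneg fun x => abs_nonneg _
    refine (hC₀ f fs fc f0').trans ?_
    exact mul_le_mul (le_abs_self _) (Real.rpow_le_rpow h1 f1' hp0.le) (by positivity)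
      (abs_nonneg _)
  rw [← hpol, e]
  exact (abs_sub _ _).trans (add_le_add b0 bG)

end Pool.Agent.MP_40db9a_an.H47
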