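import Pool.Agent.MP_40db9a_an.H47.Spec

/-! Fields of radial bumps. -/

open MeasureTheory Set

namespace Pool.Agent.MP_40db9a_an.H47

variable {d : ℕ}

/-- a radial bump of mass one, radius `τ` and height at most `M / τ ^ d` -/
structure rad_Bp (τ M : ℝ) (b : E d → ℝ) : Prop where
  smooth : ContDiff ℝ ((⊤ : ℕ∞) : WithTop ℕ∞) b
  nonneg : ∀ x, 0 ≤ b x
  le : ∀ x, b x ≤ M * (τ ^ d)⁻¹
  supp : ∀ x, b x ≠ 0 → ‖x‖ ≤ τ
  one : ∫ x, b x = 1
  rad : ∀ x y, ‖x‖ = ‖y‖ → b x = b y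

theorem rad_Bp.cpt {τ M : ℝ} {b : E d → ℝ} (h : rad_Bp τ M b) : HasCompactSupport b :=
  HasCompactSupport.intro (isCompact_closedBall 0 τ) fun x hx => by
    by_contra h0
    exact hx (by simpa using h.supp x h0)

theorem rad_Bp.int {τ M : ℝ} {b : E d → ℝ} (h : rad_Bp τ M b) : Integrable b :=
  h.smooth.continuous.integrable_of_hasCompactSupport h.cpt

theorem rad_glue_le (x : ℝ) : expNegInvGlue x ≤ 1 := by
  unfold expNegInvGlue
  split_ifs with h
  · exact zero_le_one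
  · exact Real.exp_le_one_iff.2 (neg_nonpos.2 (inv_nonneg.2 (not_le.1 h).le))

theorem rad_ex (d : ℕ) : ∃ (M : ℝ) (b : ℝ → E d → ℝ), 0 < M ∧ ∀ τ, 0 < τ → rad_Bp τ M (b τ) := by
  let φ : E d → ℝ := fun x => expNegInvGlue (1 - ‖x‖ ^ 2)
  have h1 : ContDiff ℝ ((⊤ : ℕ∞) : WithTop ℕ∞) φ :=
    expNegInvGlue.contDiff.comp (contDiff_const.sub (contDiff_norm_sq ℝ))
  have h2 : ∀ x, φ x ≠ 0 → ‖x‖ ≤ 1 := fun x hx => by
    by_contra h
    exact hx (expNegInvGlue.zero_of_nonpos (by nlinarith [not_le.1 h]))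
  have h3 : HasCompactSupport φ :=
    HasCompactSupport.intro (isCompact_closedBall 0 1) fun x hx => by
      by_contra h0
      exact hx (by simpa using h2 x h0)
  have h4 : 0 < ∫ x, φ x :=
    h1.continuous.integral_pos_of_hasCompactSupport_nonneg_nonzero h3
      (fun x => expNegInvGlue.nonneg _) (x := 0) (expNegInvGlue.pos_of_pos (by simp)).ne'
  refine ⟨(∫ x, φ x)⁻¹, fun τ x => (∫ x, φ x)⁻¹ * (τ ^ d)⁻¹ * φ (τ⁻¹ • x), inv_pos.2 h4,
    fun τ hτ => ⟨contDiff_const.mul (h1.comp (contDiff_const_smul _)), fun x => ?_, fun x => ?_,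
      fun x hx => ?_, ?_, fun x y hxy => ?_⟩⟩
  · exact mul_nonneg (by positivity) (expNegInvGlue.nonneg _)
  · exact mul_le_of_le_one_right (by positivity) (rad_glue_le _)
  · have := h2 _ (right_ne_zero_of_mul hx)
    rw [norm_smul, norm_inv, Real.norm_of_nonneg hτ.le, inv_mul_le_iff₀ hτ] at this
    simpa using this
  · rw [integral_const_mul, Measure.integral_comp_inv_smul_of_nonneg _ φ hτ.le]
    simp only [finrank_euclideanSpace_fin, smul_eq_mul]
    field_simp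
  · simp only [φ, norm_smul, hxy]

theorem rad_norm {a : ℝ} (ha : 0 < a) (u : E d) : ‖Kr a u‖ = ‖u‖ ^ (-a) := by
  by_cases hu : u = 0
  · simp [hu, Kr, Real.zero_rpow (neg_ne_zero.2 ha.ne')]
  · have := norm_pos_iff.2 hu
    rw [Kr, norm_smul, Real.norm_of_nonneg (by positivity), ← Real.rpow_add_one this.ne']
    congr 1; ring

theorem rad_half {r u s : ℝ} (hr : 0 < r) (h : r / 2 ≤ u) (hs : 0 ≤ s) :
    u ^ (-s) ≤ 2 ^ s * r ^ (-s) := by
  refine (Real.rpow_le_rpow_of_nonpos (half_pos hr) h (neg_nonpos.2 hs)).trans_eq ?_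
  rw [Real.div_rpow hr.le zero_le_two, Real.rpow_neg zero_le_two]
  field_simp

theorem rad_avg {τ M : ℝ} {b : E d → ℝ} (h : rad_Bp τ M b) (F : E d → E d) (B : ℝ)
    (hF : ∀ z, ‖z‖ ≤ τ → ‖F z‖ ≤ B) : ‖∫ z, b z • F z‖ ≤ B := by
  refine (norm_integral_le_of_norm_le (h.int.mul_const B)
    (Filter.Eventually.of_forall fun z => ?_)).trans_eq (by rw [integral_mul_const, h.one, one_mul])
  rw [norm_smul, Real.norm_of_nonneg (h.nonneg z)]
  by_cases hz : b z = 0
  · simp [hz]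
  · exact mul_le_mul_of_nonneg_left (hF z (h.supp z hz)) (h.nonneg z)

theorem rad_iso {τ M : ℝ} {b : E d → ℝ} (h : rad_Bp τ M b) (a : ℝ) (T : E d ≃ₗᵢ[ℝ] E d)
    (x : E d) : conv (Kr a) b (T x) = T (conv (Kr a) b x) := by
  unfold conv
  rw [← T.measurePreserving.integral_comp T.toHomeomorph.measurableEmbedding]
  refine Eq.trans ?_ (T.toLinearIsometry.integral_comp_comm _)
  refine integral_congr_ae (Filter.Eventually.of_forall fun z => ?_)
  show b (T z) • Kr a (T x - T z) = T (b z • Kr a (x - z))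
  rw [h.rad (T z) z (T.norm_map z), ← map_sub, Kr, Kr, T.norm_map, map_smul, map_smul]

theorem rad_near {a τ M C : ℝ} {b : E d → ℝ} (h : rad_Bp τ M b) (ha : 0 < a) (hτ : 0 < τ)
    (hM : 0 < M) (hC : 0 < C)
    (hI : ∀ (c : E d) (ρ : ℝ), 0 < ρ →
      ∫⁻ x in Metric.closedBall c ρ, ENNReal.ofReal (‖x - c‖ ^ (-a)) ≤
        ENNReal.ofReal (C * ρ ^ ((d : ℝ) - a))) (x : E d) (hx : ‖x‖ ≤ 2 * τ) :
    ‖conv (Kr a) b x‖ ≤ M * C * 3 ^ ((d : ℝ) - a) * τ ^ (-a) := by
  have e : M * C * 3 ^ ((d : ℝ) - a) * τ ^ (-a) = M * (τ ^ d)⁻¹ * (C * (3 * τ) ^ ((d : ℝ) - a)) := by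
    rw [Real.mul_rpow zero_le_three hτ.le, sub_eq_add_neg, Real.rpow_add hτ, Real.rpow_natCast]
    field_simp
  rw [e, ← ENNReal.ofReal_le_ofReal_iff (by positivity), ofReal_norm, ENNReal.ofReal_mul (by positivity)]
  refine (enorm_integral_le_lintegral_enorm _).trans (le_trans ?_
    (mul_le_mul_right (hI x (3 * τ) (by positivity)) _))
  rw [← lintegral_const_mul' _ _ ENNReal.ofReal_ne_top,
    ← lintegral_indicator Metric.isClosed_closedBall.measurableSet]
  refine lintegral_mono fun z => ?_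
  by_cases hz : b z = 0
  · simp [hz]
  · have h1 : z ∈ Metric.closedBall x (3 * τ) := by
      rw [mem_closedBall_iff_norm]
      linarith [norm_sub_le z x, h.supp z hz]
    rw [indicator_of_mem h1, ← ofReal_norm, ← ENNReal.ofReal_mul (by positivity), norm_smul,
      rad_norm ha, Real.norm_of_nonneg (h.nonneg z), norm_sub_rev]
    exact ENNReal.ofReal_le_ofReal (mul_le_mul_of_nonneg_right (h.le z) (by positivity))

theorem rad_far {x z : E d} {τ : ℝ} (hx : 2 * τ ≤ ‖x‖) (hz : ‖z‖ ≤ τ) : ‖x‖ / 2 ≤ ‖x - z‖ := by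
  linarith [norm_sub_norm_le x z]

theorem sRad (hI : S_Int) (hC : S_Conv) (hK : S_Ker) : S_Rad := by
  intro d a ha had
  have hd : 1 ≤ d := by
    have : (0 : ℝ) < d := ha.trans had
    exact_mod_cast this
  obtain ⟨C₁, hC₁, hI1, -⟩ := (hI d hd a ha).1 had
  obtain ⟨C₂, hC₂, hK1, -⟩ := hK d a ha
  obtain ⟨M, b, hM, hb⟩ := rad_ex d
  have hloc : LocallyIntegrable (Kr a : E d → E d) := by
    rw [← Kc_zero]; exact (hC d).1 a 0 ha had le_rfl
  have hcv := fun τ hτ => ((hC d).2 _ hloc).2 (b τ) (hb τ hτ).smooth.continuous (hb τ hτ).cpt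
  have hK2 : ∀ u v : E d, 0 < ‖u‖ → 0 < ‖v‖ →
      ‖Kr a u - Kr a v‖ ≤ C₂ * ‖u - v‖ * (‖u‖ ^ (-(a + 1)) + ‖v‖ ^ (-(a + 1))) := by
    intro u v hu hv
    have := hK1 0 u v (lt_max_of_lt_left hu) (lt_max_of_lt_left hv)
    rwa [Kc_zero, max_eq_left hu.le, max_eq_left hv.le] at this
  have p1 : (0 : ℝ) < 2 ^ a := by positivity
  have p2 : (0 : ℝ) < M * C₁ * 3 ^ ((d : ℝ) - a) * 2 ^ a := by positivity
  have p3 : (0 : ℝ) < C₂ * 2 ^ (a + 1) := by positivity
  refine ⟨1 + 2 ^ a + M * C₁ * 3 ^ ((d : ℝ) - a) * 2 ^ a + C₂ * 2 ^ (a + 1) + C₂,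
    fun τ => conv (Kr a) (b τ), by linarith, fun τ hτ => ⟨(hcv τ hτ).2.1, fun x =>
      ⟨?_, ?_, ?_, fun hx => ?_, fun y hx hy => ?_⟩⟩, fun ι _ c τ y R h => ?_⟩
  · have h1 := rad_iso (hb τ hτ) a (Submodule.reflection (ℝ ∙ x)) x
    rw [Submodule.reflection_mem_subspace_eq_self (Submodule.mem_span_singleton_self x)] at h1
    obtain ⟨k, hk⟩ := Submodule.mem_span_singleton.1
      ((Submodule.reflection_eq_self_iff _).1 h1.symm)
    exact ⟨k, hk.symm⟩
  · exact rad_iso (hb τ hτ) a (LinearIsometryEquiv.neg ℝ) x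
  · have hm : 0 < max ‖x‖ τ := lt_max_of_lt_right hτ
    have hp : 0 < (max ‖x‖ τ) ^ (-a) := by positivity
    rcases le_total (2 * τ) ‖x‖ with hx | hx
    · refine (rad_avg (hb τ hτ) _ (2 ^ a * (max ‖x‖ τ) ^ (-a)) fun z hz => ?_).trans
        (mul_le_mul_of_nonneg_right (by linarith) hp.le)
      rw [rad_norm ha, max_eq_left (by linarith)]
      exact rad_half (by linarith) (rad_far hx hz) ha.le
    · refine (rad_near (hb τ hτ) ha hτ hM hC₁ hI1 x hx).trans (le_trans ?_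
        (mul_le_mul_of_nonneg_right (show M * C₁ * 3 ^ ((d : ℝ) - a) * 2 ^ a ≤ _ by linarith)
          hp.le))
      rw [mul_assoc _ (2 ^ a)]
      refine mul_le_mul_of_nonneg_left (rad_half hm ?_ ha.le) (by positivity)
      have : max ‖x‖ τ ≤ 2 * τ := max_le hx (by linarith)
      linarith
  · have hx0 : 0 < ‖x‖ := by linarith
    have e : conv (Kr a) (b τ) x - Kr a x = ∫ z, b τ z • (Kr a (x - z) - Kr a x) := by
      simp only [smul_sub]
      rw [integral_sub ((hcv τ hτ).1 x) ((hb τ hτ).int.smul_const _), integral_smul_const,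
        (hb τ hτ).one, one_smul]
      rfl
    show ‖conv (Kr a) (b τ) x - Kr a x‖ ≤ _
    rw [e]
    refine rad_avg (hb τ hτ) _ _ fun z hz => ?_
    have h1 := rad_far hx hz
    have h2 := rad_half hx0 h1 (s := a + 1) (by linarith)
    have h3 : 0 < ‖x‖ ^ (-(a + 1)) := by positivity
    refine (hK2 _ _ (by linarith) hx0).trans ?_
    rw [sub_sub_cancel_left, norm_neg]
    calc C₂ * ‖z‖ * (‖x - z‖ ^ (-(a + 1)) + ‖x‖ ^ (-(a + 1)))
        ≤ C₂ * τ * (2 ^ (a + 1) * ‖x‖ ^ (-(a + 1)) + ‖x‖ ^ (-(a + 1))) := by gcongr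
      _ = (C₂ * 2 ^ (a + 1) + C₂) * τ * ‖x‖ ^ (-(a + 1)) := by ring
      _ ≤ _ := by gcongr; linarith
  · have hx0 : 0 < ‖x‖ := by linarith
    have hy0 : 0 < ‖y‖ := by linarith
    have e : conv (Kr a) (b τ) x - conv (Kr a) (b τ) y =
        ∫ z, b τ z • (Kr a (x - z) - Kr a (y - z)) := by
      simp only [smul_sub]
      rw [integral_sub ((hcv τ hτ).1 x) ((hcv τ hτ).1 y)]
      rfl
    show ‖conv (Kr a) (b τ) x - conv (Kr a) (b τ) y‖ ≤ _
    rw [e]
    refine rad_avg (hb τ hτ) _ _ fun z hz => ?_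
    have h1 := rad_far hx hz
    have h1' := rad_far hy hz
    have h2 := rad_half hx0 h1 (s := a + 1) (by linarith)
    have h2' := rad_half hy0 h1' (s := a + 1) (by linarith)
    refine (hK2 _ _ (by linarith) (by linarith)).trans ?_
    rw [sub_sub_sub_cancel_right]
    calc C₂ * ‖x - y‖ * (‖x - z‖ ^ (-(a + 1)) + ‖y - z‖ ^ (-(a + 1)))
        ≤ C₂ * ‖x - y‖ * (2 ^ (a + 1) * ‖x‖ ^ (-(a + 1)) + 2 ^ (a + 1) * ‖y‖ ^ (-(a + 1))) := by
          gcongr
      _ = C₂ * 2 ^ (a + 1) * ‖x - y‖ * (‖x‖ ^ (-(a + 1)) + ‖y‖ ^ (-(a + 1))) := by ring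
      _ ≤ _ := by gcongr; linarith
  · have hB := fun i => hb (τ i) (h i).1
    have hi : ∀ i, Integrable fun x => b (τ i) (x - y i) := fun i => (hB i).int.comp_sub_right _
    have ho : ∀ i, ∫ x, b (τ i) (x - y i) = 1 := fun i => by
      rw [integral_sub_right_eq_self (b (τ i)), (hB i).one]
    have hs : ∀ x, ∑ i, c i * b (τ i) (x - y i) ≠ 0 → ‖x‖ ≤ R := by
      intro x hx
      obtain ⟨i, -, hi⟩ := Finset.exists_ne_zero_of_sum_ne_zero hx
      have := (hB i).supp _ (right_ne_zero_of_mul hi)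
      linarith [norm_sub_norm_le x (y i), (h i).2]
    refine ⟨fun x => ∑ i, c i * b (τ i) (x - y i), ContDiff.sum fun i _ =>
      contDiff_const.mul ((hB i).smooth.comp (contDiff_id.sub contDiff_const)), ?_, hs, ?_, ?_,
      fun x => ?_⟩
    · refine HasCompactSupport.intro (isCompact_closedBall 0 R) fun x hx => ?_
      by_contra h0
      exact hx (by simpa using hs x h0)
    · rw [integral_finsetSum _ fun i _ => (hi i).const_mul _]
      simp only [integral_const_mul, ho, mul_one]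
    · refine (integral_mono_of_nonneg (g := fun x => ∑ i, |c i| * b (τ i) (x - y i))
        (Filter.Eventually.of_forall fun x => abs_nonneg _)
        (integrable_finsetSum _ fun i _ => (hi i).const_mul _)
        (Filter.Eventually.of_forall fun x => ?_)).trans_eq ?_
      · refine (Finset.abs_sum_le_sum_abs _ _).trans_eq (Finset.sum_congr rfl fun i _ => ?_)
        rw [abs_mul, abs_of_nonneg ((hB i).nonneg _)]
      · rw [integral_finsetSum _ fun i _ => (hi i).const_mul _]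
        simp only [integral_const_mul, ho, mul_one]
    · have e : ∀ i z, b (τ i) (z - y i) • Kr a (x - z) =
          (fun z => b (τ i) z • Kr a (x - y i - z)) (z - y i) := fun i z => by
        simp only [sub_sub_sub_cancel_right]
      unfold conv
      simp only [Finset.sum_smul, mul_smul, e]
      refine (integral_finsetSum _ fun i _ =>
        (((hcv _ (h i).1).1 (x - y i)).comp_sub_right (y i)).smul (c i)).trans ?_
      refine Finset.sum_congr rfl fun i _ => ?_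
      show ∫ z, c i • (fun z => b (τ i) z • Kr a (x - y i - z)) (z - y i) = _
      rw [integral_smul, integral_sub_right_eq_self
        (fun z => b (τ i) z • Kr a (x - y i - z))]

end Pool.Agent.MP_40db9a_an.H47
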