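import Pool.Agent.MP_40db9a_an.H47.Spec

open MeasureTheory Set Filter Topology

namespace Pool.Agent.MP_40db9a_an.H47

variable {d : ℕ}

/-- entries of the derivative of a radial field -/
theorem reg_fderiv {q : ℝ → ℝ} {q' : ℝ} {u : E d} (hq : HasDerivAt q q' (‖u‖ ^ 2))
    (i j : Fin d) :
    fderiv ℝ (fun u : E d => q (‖u‖ ^ 2) • u) u (EuclideanSpace.single i 1) j =
      q (‖u‖ ^ 2) * (if j = i then 1 else 0) + 2 * q' * (u i * u j) := by
  have h1 : HasFDerivAt (fun u : E d => q (‖u‖ ^ 2)) (q' • (2 • innerSL ℝ u)) u :=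
    hq.comp_hasFDerivAt u (hasStrictFDerivAt_norm_sq u).hasFDerivAt
  have h2 : HasFDerivAt (fun u : E d => q (‖u‖ ^ 2) • u) _ u := h1.smul (hasFDerivAt_id u)
  rw [h2.fderiv]
  simp [EuclideanSpace.inner_single_right]
  ring

theorem reg_tr {q : ℝ → ℝ} {q' : ℝ} {u : E d} (hq : HasDerivAt q q' (‖u‖ ^ 2)) :
    tr (fderiv ℝ (fun u : E d => q (‖u‖ ^ 2) • u) u) =
      d * q (‖u‖ ^ 2) + 2 * q' * ‖u‖ ^ 2 := by
  unfold tr
  simp only [reg_fderiv hq, if_true, mul_one, Finset.sum_add_distrib, Finset.sum_const,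
    Finset.card_univ, Fintype.card_fin, nsmul_eq_mul, ← Finset.mul_sum]
  rw [EuclideanSpace.real_norm_sq_eq]
  simp [sq]

/-- the cut-off -/
noncomputable def reg_z : ContDiffBump (0 : ℝ) := ⟨20000, 30000, by norm_num, by norm_num⟩

noncomputable def reg_q (d : ℕ) (ρ s : ℝ) : ℝ := (s + ρ ^ 2) ^ (-((d : ℝ) / 2)) * reg_z s

noncomputable def reg_k (ρ : ℝ) (u : E d) : E d := reg_q d ρ (‖u‖ ^ 2) • u

theorem reg_z_diff (s : ℝ) : HasDerivAt reg_z (deriv reg_z s) s :=
  ((reg_z.contDiff (n := 1)).differentiable one_ne_zero s).hasDerivAt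

theorem reg_q_deriv {ρ s : ℝ} (hρ : 0 < ρ) (hs : 0 ≤ s) :
    HasDerivAt (reg_q d ρ)
      (-((d : ℝ) / 2) * (s + ρ ^ 2) ^ (-((d : ℝ) / 2) - 1) * reg_z s +
        (s + ρ ^ 2) ^ (-((d : ℝ) / 2)) * deriv reg_z s) s := by
  have hp : s + ρ ^ 2 ≠ 0 := by positivity
  have h1 : HasDerivAt (fun s : ℝ => (s + ρ ^ 2) ^ (-((d : ℝ) / 2)))
      (-((d : ℝ) / 2) * (s + ρ ^ 2) ^ (-((d : ℝ) / 2) - 1)) s := by
    have := ((hasDerivAt_id s).add_const (ρ ^ 2)).rpow_const (p := -((d : ℝ) / 2)) (Or.inl hp)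
    simpa using this
  exact h1.mul (reg_z_diff s)

theorem reg_k_contDiff {ρ : ℝ} (hρ : 0 < ρ) : ContDiff ℝ 2 (reg_k ρ : E d → E d) := by
  unfold reg_k reg_q
  have h1 : ContDiff ℝ 2 (fun u : E d => ‖u‖ ^ 2) := contDiff_norm_sq ℝ
  have h2 : ContDiff ℝ 2 (fun u : E d => (‖u‖ ^ 2 + ρ ^ 2) ^ (-((d : ℝ) / 2))) :=
    (h1.add contDiff_const).rpow_const_of_ne fun u => by positivity
  have h3 : ContDiff ℝ 2 (fun u : E d => reg_z (‖u‖ ^ 2)) := (reg_z.contDiff (n := 2)).comp h1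
  have h4 : ContDiff ℝ 2 (fun u : E d => u) := contDiff_id
  exact (h2.mul h3).smul h4

theorem reg_k_supp (ρ : ℝ) : HasCompactSupport (reg_k ρ : E d → E d) := by
  refine HasCompactSupport.intro (isCompact_closedBall (0 : E d) 200) fun u hu => ?_
  have h : 200 < ‖u‖ := by simpa using hu
  have h2 : reg_z (‖u‖ ^ 2) = 0 := by
    apply reg_z.zero_of_le_dist
    show (30000 : ℝ) ≤ dist (‖u‖ ^ 2) 0
    rw [Real.dist_eq, sub_zero, abs_of_nonneg (by positivity)]
    nlinarith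
  simp [reg_k, reg_q, h2]

theorem reg_k_sym {ρ : ℝ} (hρ : 0 < ρ) : Sym (reg_k ρ : E d → E d) := by
  intro u i j
  have h := reg_q_deriv (d := d) hρ (sq_nonneg ‖u‖)
  have h1 := reg_fderiv h i j
  have h2 := reg_fderiv h j i
  unfold reg_k
  rw [h1, h2]
  by_cases hij : i = j
  · subst hij; rfl
  · rw [if_neg hij, if_neg (Ne.symm hij)]; ring

theorem reg_k_tr {ρ : ℝ} (hρ : 0 < ρ) (u : E d) :
    tr (fderiv ℝ (reg_k ρ) u) =
      d * ρ ^ 2 * (‖u‖ ^ 2 + ρ ^ 2) ^ (-((d : ℝ) / 2) - 1) * reg_z (‖u‖ ^ 2) +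
        2 * ‖u‖ ^ 2 * (‖u‖ ^ 2 + ρ ^ 2) ^ (-((d : ℝ) / 2)) * deriv reg_z (‖u‖ ^ 2) := by
  have h := reg_q_deriv (d := d) hρ (sq_nonneg ‖u‖)
  have h1 := reg_tr h
  unfold reg_k
  rw [h1]
  have hp : 0 < ‖u‖ ^ 2 + ρ ^ 2 := by positivity
  have h2 : (‖u‖ ^ 2 + ρ ^ 2) ^ (-((d : ℝ) / 2)) =
      (‖u‖ ^ 2 + ρ ^ 2) ^ (-((d : ℝ) / 2) - 1) * (‖u‖ ^ 2 + ρ ^ 2) := by
    rw [Real.rpow_sub_one hp.ne']; field_simp
  unfold reg_q
  generalize deriv reg_z (‖u‖ ^ 2) = D
  generalize reg_z (‖u‖ ^ 2) = Z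
  rw [h2]
  ring

noncomputable def reg_h (u : E d) : ℝ := d * (1 + ‖u‖ ^ 2) ^ (-((d : ℝ) + 2) / 2)

noncomputable def reg_m (u : E d) : ℝ := 2 * ‖u‖ ^ 2 * |deriv reg_z (‖u‖ ^ 2)|

theorem reg_h_int : Integrable (reg_h : E d → ℝ) := by
  refine Integrable.const_mul (integrable_rpow_neg_one_add_norm_sq ?_) _
  simp

theorem reg_m_int : Integrable (reg_m : E d → ℝ) := by
  have hc : Continuous (deriv reg_z) := (reg_z.contDiff (n := 1)).continuous_deriv le_rfl
  have h1 : Continuous (reg_m : E d → ℝ) := by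
    unfold reg_m
    fun_prop
  refine h1.integrable_of_hasCompactSupport ?_
  refine HasCompactSupport.intro (isCompact_closedBall (0 : E d) 200) fun u hu => ?_
  have h : 200 < ‖u‖ := by simpa using hu
  have h2 : deriv reg_z (‖u‖ ^ 2) = 0 := by
    by_contra hne
    have h3 : ‖u‖ ^ 2 ∈ tsupport reg_z := support_deriv_subset hne
    rw [reg_z.tsupport_eq] at h3
    have h4 : dist (‖u‖ ^ 2) 0 ≤ (30000 : ℝ) := h3
    rw [Real.dist_eq, sub_zero, abs_of_nonneg (by positivity)] at h4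
    nlinarith
  simp [reg_m, h2]

theorem reg_tr_le {ρ : ℝ} (hρ : 0 < ρ) (u : E d) :
    |tr (fderiv ℝ (reg_k ρ) u)| ≤ (ρ ^ d)⁻¹ * reg_h (ρ⁻¹ • u) + reg_m u := by
  rw [reg_k_tr hρ]
  have hp : 0 < ‖u‖ ^ 2 + ρ ^ 2 := by positivity
  refine (abs_add_le _ _).trans (add_le_add ?_ ?_)
  · have hz0 : 0 ≤ reg_z (‖u‖ ^ 2) := reg_z.nonneg
    have hz1 : reg_z (‖u‖ ^ 2) ≤ 1 := reg_z.le_one
    have hA : 0 ≤ d * ρ ^ 2 * (‖u‖ ^ 2 + ρ ^ 2) ^ (-((d : ℝ) / 2) - 1) := by positivity
    rw [abs_of_nonneg (mul_nonneg hA hz0)]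
    refine (mul_le_of_le_one_right hA hz1).trans (le_of_eq ?_)
    unfold reg_h
    have h1 : 1 + ‖ρ⁻¹ • u‖ ^ 2 = (‖u‖ ^ 2 + ρ ^ 2) / ρ ^ 2 := by
      rw [norm_smul, norm_inv, Real.norm_eq_abs, abs_of_pos hρ]
      field_simp
      ring
    rw [h1, Real.div_rpow hp.le (by positivity)]
    have h2 : (ρ ^ 2) ^ (-((d : ℝ) + 2) / 2) = (ρ ^ d * ρ ^ 2)⁻¹ := by
      rw [← Real.rpow_natCast ρ 2, ← Real.rpow_mul hρ.le, ← Real.rpow_natCast ρ d,
        ← Real.rpow_add hρ, ← Real.rpow_neg hρ.le]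
      congr 1
      push_cast
      ring
    have h3 : -((d : ℝ) + 2) / 2 = -((d : ℝ) / 2) - 1 := by ring
    rw [h2, h3]
    field_simp
  · unfold reg_m
    rw [abs_mul]
    by_cases hu : ‖u‖ ^ 2 < 1
    · have h1 : reg_z =ᶠ[𝓝 (‖u‖ ^ 2)] 1 := by
        apply reg_z.eventuallyEq_one_of_mem_ball
        show dist (‖u‖ ^ 2) 0 < (20000 : ℝ)
        rw [Real.dist_eq, sub_zero, abs_of_nonneg (by positivity)]
        linarith
      have h2 : deriv reg_z (‖u‖ ^ 2) = 0 := by
        rw [h1.deriv_eq]; exact deriv_const _ _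
      simp [h2]
    · refine mul_le_mul_of_nonneg_right ?_ (abs_nonneg _)
      have h1 : (‖u‖ ^ 2 + ρ ^ 2) ^ (-((d : ℝ) / 2)) ≤ 1 :=
        Real.rpow_le_one_of_one_le_of_nonpos (by nlinarith [sq_nonneg ρ])
          (by have : (0 : ℝ) ≤ d := Nat.cast_nonneg d
              linarith)
      rw [abs_of_nonneg (by positivity)]
      exact mul_le_of_le_one_right (by positivity) h1

theorem reg_tr_int {ρ : ℝ} (hρ : 0 < ρ) :
    ∫ u : E d, |tr (fderiv ℝ (reg_k ρ) u)| ≤ (∫ u : E d, reg_h u) + ∫ u : E d, reg_m u := by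
  have h1 : Integrable (fun u : E d => (ρ ^ d)⁻¹ * reg_h (ρ⁻¹ • u)) :=
    (reg_h_int.comp_smul (inv_ne_zero hρ.ne')).const_mul _
  have h2 : ∫ u : E d, (ρ ^ d)⁻¹ * reg_h (ρ⁻¹ • u) = ∫ u : E d, reg_h u := by
    rw [integral_const_mul, Measure.integral_comp_inv_smul_of_nonneg _ _ hρ.le]
    simp only [finrank_euclideanSpace, Fintype.card_fin, smul_eq_mul]
    field_simp
  rw [← h2, ← integral_add h1 reg_m_int]
  exact integral_mono_of_nonneg (Eventually.of_forall fun u => abs_nonneg _) (h1.add reg_m_int)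
    (Eventually.of_forall fun u => reg_tr_le hρ u)

theorem reg_close (hI : S_Int) (hd : 2 ≤ d) {η : ℝ} (hη : 0 < η) : ∃ ρ : ℝ, 0 < ρ ∧
    ∫⁻ u in Metric.closedBall (0 : E d) 100, ‖Kr ((d : ℝ) - 1) u - reg_k ρ u‖ₑ ≤
      ENNReal.ofReal η := by
  have hd' : (2 : ℝ) ≤ d := by exact_mod_cast hd
  obtain ⟨C, -, hC, -⟩ := (hI d (by omega) ((d : ℝ) - 1) (by linarith)).1 (by linarith)
  have hfin := hC 0 100 (by norm_num)
  simp only [sub_zero] at hfin
  set F : ℕ → E d → ENNReal := fun n u =>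
    ‖Kr ((d : ℝ) - 1) u - (‖u‖ ^ 2 + (1 / ((n : ℝ) + 1)) ^ 2) ^ (-((d : ℝ) / 2)) • u‖ₑ with hF
  have hKr : ∀ u : E d, Kr ((d : ℝ) - 1) u = (‖u‖ ^ 2) ^ (-((d : ℝ) / 2)) • u := by
    intro u
    unfold Kr
    rw [← Real.rpow_natCast ‖u‖ 2, ← Real.rpow_mul (norm_nonneg _)]
    congr 2
    push_cast
    ring
  have hlim : Tendsto (fun n => ∫⁻ u in Metric.closedBall (0 : E d) 100, F n u) atTop
      (𝓝 (∫⁻ _ in Metric.closedBall (0 : E d) 100, 0)) := by
    refine tendsto_lintegral_of_dominated_convergence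
      (fun u => ENNReal.ofReal (‖u‖ ^ (-((d : ℝ) - 1)))) ?_ ?_ ?_ ?_
    · intro n
      simp only [hF, Kr]
      fun_prop
    · intro n
      refine Eventually.of_forall fun u => ?_
      simp only [hF]
      rw [← ofReal_norm]
      refine ENNReal.ofReal_le_ofReal ?_
      by_cases hu : u = 0
      · subst hu
        simp [Kr]
        positivity
      · have hn : 0 < ‖u‖ := norm_pos_iff.2 hu
        rw [hKr, ← sub_smul, norm_smul, Real.norm_eq_abs]
        have h1 : (‖u‖ ^ 2 + (1 / ((n : ℝ) + 1)) ^ 2) ^ (-((d : ℝ) / 2)) ≤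
            (‖u‖ ^ 2) ^ (-((d : ℝ) / 2)) :=
          Real.rpow_le_rpow_of_nonpos (by positivity) (by nlinarith [sq_nonneg (1 / ((n : ℝ) + 1))])
            (by linarith)
        have h2 : 0 ≤ (‖u‖ ^ 2 + (1 / ((n : ℝ) + 1)) ^ 2) ^ (-((d : ℝ) / 2)) := by positivity
        rw [abs_of_nonneg (by linarith)]
        have h3 : (‖u‖ ^ 2) ^ (-((d : ℝ) / 2)) * ‖u‖ = ‖u‖ ^ (-((d : ℝ) - 1)) := by
          rw [← Real.rpow_natCast ‖u‖ 2, ← Real.rpow_mul hn.le, ← Real.rpow_add_one hn.ne']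
          congr 1
          push_cast
          ring
        rw [← h3]
        exact mul_le_mul_of_nonneg_right (by linarith) hn.le
    · exact (hfin.trans_lt ENNReal.ofReal_lt_top).ne
    · refine Eventually.of_forall fun u => ?_
      by_cases hu : u = 0
      · subst hu
        simp [hF, Kr]
      · have hn : 0 < ‖u‖ := norm_pos_iff.2 hu
        have h1 : Tendsto (fun n : ℕ => ‖u‖ ^ 2 + (1 / ((n : ℝ) + 1)) ^ 2) atTop (𝓝 (‖u‖ ^ 2)) := by
          have := ((tendsto_one_div_add_atTop_nhds_zero_nat (𝕜 := ℝ)).pow 2).const_add (‖u‖ ^ 2)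
          simpa using this
        have h2 := h1.rpow_const (p := -((d : ℝ) / 2)) (Or.inl (by positivity))
        have h3 := ((h2.smul_const u).const_sub (Kr ((d : ℝ) - 1) u)).enorm
        rw [← hKr, sub_self, enorm_zero] at h3
        exact h3
  rw [lintegral_zero] at hlim
  obtain ⟨n, hn⟩ := (hlim.eventually (ge_mem_nhds (ENNReal.ofReal_pos.2 hη))).exists
  refine ⟨1 / ((n : ℝ) + 1), by positivity, le_trans (le_of_eq ?_) hn⟩
  refine setLIntegral_congr_fun measurableSet_closedBall fun u hu => ?_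
  have h1 : ‖u‖ ≤ 100 := by simpa using hu
  have h2 : reg_z (‖u‖ ^ 2) = 1 := by
    apply reg_z.one_of_mem_closedBall
    show dist (‖u‖ ^ 2) 0 ≤ (20000 : ℝ)
    rw [Real.dist_eq, sub_zero, abs_of_nonneg (by positivity)]
    nlinarith [norm_nonneg u]
  simp only [hF, reg_k, reg_q, h2, mul_one]

theorem sReg (hI : S_Int) : S_Reg := by
  intro d hd
  refine ⟨|(∫ u : E d, reg_h u) + ∫ u : E d, reg_m u| + 1, by positivity, fun η hη => ?_⟩
  obtain ⟨ρ, hρ, h⟩ := reg_close hI hd hη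
  refine ⟨reg_k ρ, reg_k_contDiff hρ, reg_k_supp ρ, reg_k_sym hρ, ?_, h⟩
  exact (reg_tr_int hρ).trans ((le_abs_self _).trans (by linarith))

/-- the trace as a continuous linear functional -/
noncomputable def reg_trL (d : ℕ) : (E d →L[ℝ] E d) →L[ℝ] ℝ :=
  ∑ i : Fin d, (EuclideanSpace.proj i : E d →L[ℝ] ℝ).comp
    (ContinuousLinearMap.apply ℝ (E d) (EuclideanSpace.single i (1 : ℝ)))

theorem reg_trL_apply (L : E d →L[ℝ] E d) : reg_trL d L = tr L := by
  simp [reg_trL, tr]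

theorem reg_tr_conv {k : E d → E d} (hk : ContDiff ℝ 2 k) (hks : HasCompactSupport k)
    {g : E d → ℝ} (hg : Continuous g) (hgs : HasCompactSupport g) (x : E d) :
    tr (fderiv ℝ (conv k g) x) = ∫ z, g z * tr (fderiv ℝ k (x - z)) := by
  have hk1 : ContDiff ℝ 1 k := hk.of_le (by norm_num)
  have h1 := hks.hasFDerivAt_convolution_right (ContinuousLinearMap.lsmul ℝ ℝ)
    (hg.locallyIntegrable (μ := volume)) hk1 x
  have h2 : conv k g = MeasureTheory.convolution g k (ContinuousLinearMap.lsmul ℝ ℝ) volume := by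
    funext y
    simp [conv, MeasureTheory.convolution]
  rw [h2, h1.fderiv, ← reg_trL_apply]
  have h3 : MeasureTheory.convolution g (fderiv ℝ k)
      ((ContinuousLinearMap.lsmul ℝ ℝ).precompR (E d)) volume x =
      ∫ z, g z • fderiv ℝ k (x - z) := by
    unfold MeasureTheory.convolution
    congr 1
  have hc : Continuous (fderiv ℝ k) := hk1.continuous_fderiv one_ne_zero
  have h4 : Integrable (fun z => g z • fderiv ℝ k (x - z)) := by
    refine Continuous.integrable_of_hasCompactSupport (by fun_prop) ?_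
    refine hgs.mono fun z hz h0 => hz ?_
    show g z • fderiv ℝ k (x - z) = 0
    rw [h0]
    ext v
    simp
  rw [h3, ← ContinuousLinearMap.integral_comp_comm _ h4]
  simp only [map_smul, reg_trL_apply, smul_eq_mul]

theorem reg_young {T g : E d → ℝ} (hT : Integrable T) (hTm : Measurable T) (hg : Integrable g)
    (hgm : Measurable g) :
    ∫⁻ x, ‖∫ z, g z * T (x - z)‖ₑ ≤ ENNReal.ofReal ((∫ u, |T u|) * ∫ z, |g z|) := by
  calc ∫⁻ x, ‖∫ z, g z * T (x - z)‖ₑ ≤ ∫⁻ x, ∫⁻ z, ‖g z‖ₑ * ‖T (x - z)‖ₑ := by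
        refine lintegral_mono fun x => (enorm_integral_le_lintegral_enorm _).trans (le_of_eq ?_)
        simp only [enorm_mul]
    _ = ∫⁻ z, ∫⁻ x, ‖g z‖ₑ * ‖T (x - z)‖ₑ := by
        refine lintegral_lintegral_swap ?_
        refine Measurable.aemeasurable ?_
        unfold Function.uncurry
        fun_prop
    _ = ∫⁻ z, ‖g z‖ₑ * ∫⁻ u, ‖T u‖ₑ := by
        refine lintegral_congr fun z => ?_
        rw [lintegral_const_mul' _ _ enorm_ne_top,
          lintegral_sub_right_eq_self (fun u => ‖T u‖ₑ) z]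
    _ = (∫⁻ z, ‖g z‖ₑ) * ∫⁻ u, ‖T u‖ₑ := lintegral_mul_const _ hgm.enorm
    _ = ENNReal.ofReal ((∫ u, |T u|) * ∫ z, |g z|) := by
        rw [← ofReal_integral_norm_eq_lintegral_enorm hg,
          ← ofReal_integral_norm_eq_lintegral_enorm hT, mul_comm,
          ← ENNReal.ofReal_mul (integral_nonneg fun u => norm_nonneg _)]
        simp only [Real.norm_eq_abs]

theorem reg_diff {K k : E d → E d} {h : E d → ℝ} {M η : ℝ} {x : E d} (hx : x ∈ Ann d)
    (hM : ∀ z, |h z| ≤ M) (hs : ∀ z, h z ≠ 0 → ‖z‖ ≤ 16) (hη : 0 ≤ η)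
    (h1 : Integrable fun z => h z • K (x - z)) (h2 : Integrable fun z => h z • k (x - z))
    (hc : ∫⁻ u in Metric.closedBall (0 : E d) 100, ‖K u - k u‖ₑ ≤ ENNReal.ofReal η) :
    ‖conv K h x - conv k h x‖ ≤ M * η := by
  have hM0 : 0 ≤ M := (abs_nonneg _).trans (hM 0)
  rw [← ENNReal.ofReal_le_ofReal_iff (mul_nonneg hM0 hη), ofReal_norm]
  unfold conv
  rw [← integral_sub h1 h2]
  refine (enorm_integral_le_lintegral_enorm _).trans ?_
  calc ∫⁻ z, ‖h z • K (x - z) - h z • k (x - z)‖ₑ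
      ≤ ∫⁻ z, ENNReal.ofReal M *
          (Metric.closedBall (0 : E d) 100).indicator (fun u => ‖K u - k u‖ₑ) (x - z) := by
        refine lintegral_mono fun z => ?_
        by_cases hz : h z = 0
        · simp [hz]
        · have h3 : x - z ∈ Metric.closedBall (0 : E d) 100 := by
            have h4 := hs z hz
            have h5 := hx.2
            have h6 := norm_sub_le x z
            rw [mem_closedBall_zero_iff]
            linarith
          rw [indicator_of_mem h3, ← smul_sub, enorm_smul]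
          refine mul_le_mul_left ?_ _
          rw [← ofReal_norm]
          exact ENNReal.ofReal_le_ofReal (hM z)
    _ = ENNReal.ofReal M * ∫⁻ u in Metric.closedBall (0 : E d) 100, ‖K u - k u‖ₑ := by
        rw [lintegral_const_mul' _ _ ENNReal.ofReal_ne_top, lintegral_sub_left_eq_self,
          lintegral_indicator measurableSet_closedBall]
    _ ≤ ENNReal.ofReal (M * η) := by
        rw [ENNReal.ofReal_mul hM0]
        exact mul_le_mul_right hc _

theorem sDiv (_hI : S_Int) (hC : S_Conv) (hR : S_Reg) : S_Div := by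
  intro d hd
  have hd' : (2 : ℝ) ≤ d := by exact_mod_cast hd
  obtain ⟨C, hC0, hR⟩ := hR d hd
  refine ⟨C, hC0, fun g hg hgs hg16 => ?_⟩
  have hKl : LocallyIntegrable (Kr ((d : ℝ) - 1) : E d → E d) := by
    rw [← Kc_zero]
    exact (hC d).1 _ 0 (by linarith) (by linarith) le_rfl
  have hDc : Continuous (fderiv ℝ g) := hg.continuous_fderiv one_ne_zero
  have hDs : HasCompactSupport (fderiv ℝ g) := hgs.fderiv ℝ
  obtain ⟨M, hM⟩ := hDc.bounded_above_of_compact_support hDs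
  have hM0 : 0 ≤ M := (norm_nonneg _).trans (hM 0)
  have hts : tsupport g ⊆ Metric.closedBall (0 : E d) 16 :=
    closure_minimal (fun z hz => mem_closedBall_zero_iff.2 (hg16 z hz)) Metric.isClosed_closedBall
  have hV : volume (Ann d) ≠ ⊤ := by
    refine (lt_of_le_of_lt (measure_mono (fun x hx => ?_))
      (measure_closedBall_lt_top (x := (0 : E d)) (r := 4))).ne
    exact mem_closedBall_zero_iff.2 hx.2
  have hAm : MeasurableSet (Ann d) := by
    refine IsClosed.measurableSet ?_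
    exact (isClosed_le continuous_const continuous_norm).inter
      (isClosed_le continuous_norm continuous_const)
  have key : ∀ η : ℝ, 0 < η →
      ∫⁻ x in Ann d, ‖tr (fderiv ℝ (conv (Kr ((d : ℝ) - 1)) g) x)‖ₑ ≤
        ENNReal.ofReal (C * ∫ z, |g z|) + ENNReal.ofReal (d * (M * η)) * volume (Ann d) := by
    intro η hη
    obtain ⟨k, hk, hks, -, hkt, hkc⟩ := hR η hη
    have hkl : LocallyIntegrable k := hk.continuous.locallyIntegrable
    have hTc : Continuous fun u => tr (fderiv ℝ k u) := by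
      simp only [← reg_trL_apply]
      exact (reg_trL d).continuous.comp (hk.continuous_fderiv (by norm_num))
    have hTs : HasCompactSupport fun u => tr (fderiv ℝ k u) := by
      simp only [← reg_trL_apply]
      exact (hks.fderiv ℝ).comp_left (g := reg_trL d) (map_zero _)
    have hpt : ∀ x ∈ Ann d, ‖tr (fderiv ℝ (conv (Kr ((d : ℝ) - 1)) g) x)‖ₑ ≤
        ‖∫ z, g z * tr (fderiv ℝ k (x - z))‖ₑ + ENNReal.ofReal (d * (M * η)) := by
      intro x hx
      rw [← reg_tr_conv hk hks hg.continuous hgs x, ← ofReal_norm,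
        ← ofReal_norm, ← ENNReal.ofReal_add (norm_nonneg _) (by positivity)]
      refine ENNReal.ofReal_le_ofReal ?_
      have h1 : ‖tr (fderiv ℝ (conv (Kr ((d : ℝ) - 1)) g) x) - tr (fderiv ℝ (conv k g) x)‖ ≤
          d * (M * η) := by
        unfold tr
        rw [← Finset.sum_sub_distrib]
        refine (norm_sum_le _ _).trans ?_
        refine (Finset.sum_le_card_nsmul _ _ (M * η) fun i _ => ?_).trans (by simp)
        set v : E d := EuclideanSpace.single i (1 : ℝ) with hv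
        have hv1 : ‖v‖ = 1 := by simp [hv]
        have hc : Continuous fun z => fderiv ℝ g z v := by fun_prop
        have hcs : HasCompactSupport fun z => fderiv ℝ g z v := hgs.fderiv_apply ℝ v
        rw [(((hC d).2 _ hKl).2 g hg.continuous hgs).2.2 hg |>.2 x v,
          (((hC d).2 _ hkl).2 g hg.continuous hgs).2.2 hg |>.2 x v, ← PiLp.sub_apply]
        refine (PiLp.norm_apply_le _ i).trans ?_
        refine reg_diff hx (fun z => ?_) (fun z hz => ?_) hη.le
          ((((hC d).2 _ hKl).2 _ hc hcs).1 x) ((((hC d).2 _ hkl).2 _ hc hcs).1 x) hkc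
        · have := (fderiv ℝ g z).le_opNorm v
          rw [hv1, mul_one, Real.norm_eq_abs] at this
          exact this.trans (hM z)
        · have h3 : fderiv ℝ g z ≠ 0 := fun h0 => hz (by simp [h0])
          exact mem_closedBall_zero_iff.1 (hts (support_fderiv_subset ℝ h3))
      have h2 := norm_sub_norm_le (tr (fderiv ℝ (conv (Kr ((d : ℝ) - 1)) g) x))
        (tr (fderiv ℝ (conv k g) x))
      linarith
    calc ∫⁻ x in Ann d, ‖tr (fderiv ℝ (conv (Kr ((d : ℝ) - 1)) g) x)‖ₑ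
        ≤ ∫⁻ x in Ann d, (‖∫ z, g z * tr (fderiv ℝ k (x - z))‖ₑ +
            ENNReal.ofReal (d * (M * η))) := setLIntegral_mono' hAm hpt
      _ = (∫⁻ x in Ann d, ‖∫ z, g z * tr (fderiv ℝ k (x - z))‖ₑ) +
            ENNReal.ofReal (d * (M * η)) * volume (Ann d) := by
          rw [lintegral_add_right _ measurable_const, setLIntegral_const]
      _ ≤ ENNReal.ofReal (C * ∫ z, |g z|) + ENNReal.ofReal (d * (M * η)) * volume (Ann d) := by
          refine add_le_add_left ?_ _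
          refine (setLIntegral_le_lintegral _ _).trans ?_
          refine (reg_young (hTc.integrable_of_hasCompactSupport hTs) hTc.measurable
            (hg.continuous.integrable_of_hasCompactSupport hgs) hg.continuous.measurable).trans ?_
          exact ENNReal.ofReal_le_ofReal
            (mul_le_mul_of_nonneg_right hkt (integral_nonneg fun z => abs_nonneg _))
  refine ENNReal.le_of_forall_pos_le_add fun ε hε _ => ?_
  set V : ℝ := (volume (Ann d)).toReal with hVdef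
  have hV0 : 0 ≤ V := ENNReal.toReal_nonneg
  have hε' : (0 : ℝ) < ε := hε
  have hD : 0 < (d : ℝ) * M * V + 1 := by positivity
  refine (key (ε / (d * M * V + 1)) (by positivity)).trans (add_le_add_right ?_ _)
  rw [← ENNReal.ofReal_toReal hV, ← hVdef, ← ENNReal.ofReal_mul (by positivity),
    ← ENNReal.ofReal_coe_nnreal]
  refine ENNReal.ofReal_le_ofReal ?_
  have : (d : ℝ) * (M * (ε / (d * M * V + 1))) * V = ε * ((d * M * V) / (d * M * V + 1)) := by
    field_simp
  rw [this]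
  refine mul_le_of_le_one_right hε'.le ?_
  rw [div_le_one hD]
  linarith

end Pool.Agent.MP_40db9a_an.H47
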