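import Pool.Agent.MP_40db9a_an.H47.Spec

/-! Translation and dilation. -/

open MeasureTheory Set

namespace Pool.Agent.MP_40db9a_an.H47

variable {d : ℕ}

/-- The affine map. -/
noncomputable def scale_h (z : E d) (s : ℝ) : E d ≃ₜ E d :=
  (Homeomorph.smulOfNeZero (Real.exp s) (Real.exp_pos s).ne').trans (Homeomorph.addLeft z)

theorem scale_h_apply (z : E d) (s : ℝ) (x : E d) : scale_h z s x = z + Real.exp s • x := rfl

theorem scale_h_zero (z : E d) (s : ℝ) : scale_h z s 0 = z := by simp [scale_h_apply]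

theorem scale_sub (z : E d) (s : ℝ) (x y : E d) :
    scale_h z s x - scale_h z s y = Real.exp s • (x - y) := by
  rw [scale_h_apply, scale_h_apply, smul_sub]; abel

theorem scale_norm (z : E d) (s : ℝ) (x y : E d) :
    ‖scale_h z s x - scale_h z s y‖ = Real.exp s * ‖x - y‖ := by
  rw [scale_sub, norm_smul, Real.norm_of_nonneg (Real.exp_pos s).le]

theorem scale_map (z : E d) (s : ℝ) : Measure.map (scale_h z s) (volume : Measure (E d)) =
    ENNReal.ofReal ((Real.exp s ^ d)⁻¹) • volume := by
  have h1 : (scale_h z s : E d → E d) = (fun x => z + x) ∘ fun x => Real.exp s • x := rfl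
  rw [h1, ← Measure.map_map (measurable_const_add z) (measurable_const_smul _),
    Measure.map_addHaar_smul _ (Real.exp_pos s).ne', Measure.map_smul, map_add_left_eq_self,
    finrank_euclideanSpace_fin, abs_of_pos (by positivity)]

theorem scale_int {G : Type} [NormedAddCommGroup G] [NormedSpace ℝ G] (z : E d) (s : ℝ)
    (F : E d → G) : ∫ x, Real.exp s ^ d • F (scale_h z s x) = ∫ x, F x := by
  rw [integral_smul, ← (scale_h z s).measurableEmbedding.integral_map, scale_map,
    integral_smul_measure, ENNReal.toReal_ofReal (by positivity), smul_smul,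
    mul_inv_cancel₀ (by positivity), one_smul]

theorem scale_lint (z : E d) (s : ℝ) (F : E d → ℝ) :
    ∫⁻ x, ENNReal.ofReal (Real.exp s ^ d * F (scale_h z s x)) = ∫⁻ x, ENNReal.ofReal (F x) := by
  have h0 : (0 : ℝ) < Real.exp s ^ d := by positivity
  simp only [ENNReal.ofReal_mul h0.le]
  rw [lintegral_const_mul' _ _ ENNReal.ofReal_ne_top,
    ← (scale_h z s).measurableEmbedding.lintegral_map (fun x => ENNReal.ofReal (F x)), scale_map,
    lintegral_smul_measure, smul_eq_mul, ← mul_assoc, ← ENNReal.ofReal_mul h0.le,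
    mul_inv_cancel₀ h0.ne', ENNReal.ofReal_one, one_mul]

theorem scale_int2 (z : E d) (s : ℝ) (F : E d × ℝ → ℝ) :
    ∫ q : E d × ℝ, Real.exp s ^ d * F (scale_h z s q.1, q.2 + s) = ∫ q, F q := by
  have h1 : Measure.map ((scale_h z s).prodCongr (Homeomorph.addRight s))
      (volume : Measure (E d × ℝ)) = ENNReal.ofReal ((Real.exp s ^ d)⁻¹) • volume := by
    have h2 : (((scale_h z s).prodCongr (Homeomorph.addRight s)) : E d × ℝ → E d × ℝ) =
        Prod.map (scale_h z s) (fun t => t + s) := rfl
    rw [h2, Measure.volume_eq_prod, ← Measure.map_prod_map _ _ (scale_h z s).measurable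
      (measurable_add_const s), scale_map, map_add_right_eq_self, Measure.prod_smul_left]
  have h3 := ((scale_h z s).prodCongr (Homeomorph.addRight s)).measurableEmbedding.integral_map
    (μ := volume) F
  rw [h1, integral_smul_measure, ENNReal.toReal_ofReal (by positivity), smul_eq_mul] at h3
  have h4 : ∫ q : E d × ℝ, F (scale_h z s q.1, q.2 + s) = (Real.exp s ^ d)⁻¹ * ∫ q, F q := h3.symm
  rw [integral_const_mul, h4, ← mul_assoc, mul_inv_cancel₀ (by positivity), one_mul]

/-- The rescaled function. -/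
noncomputable def scale_f (z : E d) (s : ℝ) (f : E d → ℝ) (x : E d) : ℝ :=
  Real.exp s ^ d * f (scale_h z s x)

theorem scale_abs (z : E d) (s : ℝ) (f : E d → ℝ) (x : E d) :
    |scale_f z s f x| = Real.exp s ^ d * |f (scale_h z s x)| := by
  rw [scale_f, abs_mul, abs_of_pos (by positivity)]

theorem scale_rpow (z : E d) (s b : ℝ) (x y : E d) :
    ‖x - y‖ ^ (-b) = Real.exp (b * s) * ‖scale_h z s x - scale_h z s y‖ ^ (-b) := by
  rw [scale_norm, Real.mul_rpow (Real.exp_pos s).le (norm_nonneg _), ← Real.exp_mul, ← mul_assoc,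
    ← Real.exp_add, show b * s + s * -b = 0 by ring, Real.exp_zero, one_mul]

theorem scale_pot (a : ℝ) (z : E d) (s : ℝ) (f : E d → ℝ) (x : E d) :
    pot a (scale_f z s f) x = Real.exp (a * s) * pot a f (scale_h z s x) := by
  rw [pot, pot, ← scale_int z s fun w => ‖scale_h z s x - w‖ ^ (-a) * |f w|, ← integral_const_mul]
  refine integral_congr_ae (Filter.Eventually.of_forall fun w => ?_)
  simp only [smul_eq_mul]
  rw [scale_abs, scale_rpow z s a x w]
  ring

theorem scale_Kr (a : ℝ) (z : E d) (s : ℝ) (x y : E d) :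
    Kr a (x - y) = Real.exp (a * s) • Kr a (scale_h z s x - scale_h z s y) := by
  rw [Kr, Kr, scale_rpow z s (a + 1) x y]
  generalize ‖scale_h z s x - scale_h z s y‖ ^ (-(a + 1)) = c
  rw [scale_sub, smul_smul, smul_smul, add_mul, one_mul, Real.exp_add]
  congr 1
  ring

theorem scale_conv (a : ℝ) (z : E d) (s : ℝ) (f : E d → ℝ) (x : E d) :
    conv (Kr a) (scale_f z s f) x = Real.exp (a * s) • conv (Kr a) f (scale_h z s x) := by
  rw [conv, conv, ← scale_int z s fun w => f w • Kr a (scale_h z s x - w), ← integral_smul]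
  refine integral_congr_ae (Filter.Eventually.of_forall fun w => ?_)
  simp only [scale_f]
  rw [scale_Kr a z s x w, smul_smul, smul_smul, smul_smul]
  congr 1
  ring

theorem scale_div (z : E d) (s σ : ℝ) (x y : E d) :
    ‖scale_h z s x - scale_h z s y‖ / Real.exp (σ + s) = ‖x - y‖ / Real.exp σ := by
  rw [scale_norm, Real.exp_add]
  field_simp

theorem scale_nn (a : ℝ) (z : E d) (s σ : ℝ) (f : E d → ℝ) (w : E d) :
    nn a (scale_f z s f) w (Real.exp σ) = nn a f (scale_h z s w) (Real.exp (σ + s)) := by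
  rw [nn, nn]
  refine Eq.trans ?_ (scale_int z s _)
  refine integral_congr_ae (Filter.Eventually.of_forall fun v => ?_)
  simp only [smul_eq_mul]
  rw [scale_abs, scale_div]
  ring

theorem scale_ee (a : ℝ) (z : E d) (s σ : ℝ) (f : E d → ℝ) (w : E d) :
    ee a (scale_f z s f) w (Real.exp σ) = ee a f (scale_h z s w) (Real.exp (σ + s)) := by
  rw [ee, ee]
  refine Eq.trans ?_ (scale_int z s _)
  refine integral_congr_ae (Filter.Eventually.of_forall fun v => ?_)
  simp only [smul_eq_mul]
  rw [scale_abs, scale_div]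
  ring

theorem scale_ind (a Λ : ℝ) (z : E d) (s σ : ℝ) (f : E d → ℝ) (x w : E d) :
    ind a Λ (scale_f z s f) x w σ = ind a Λ f (scale_h z s x) (scale_h z s w) (σ + s) := by
  have e : Real.exp (-a * σ) = Real.exp (a * s) * Real.exp (-a * (σ + s)) := by
    rw [← Real.exp_add]
    congr 1
    ring
  have h : pot a (scale_f z s f) x ≤ Λ * Real.exp (-a * σ) * nn a (scale_f z s f) w (Real.exp σ) ↔
      pot a f (scale_h z s x) ≤
        Λ * Real.exp (-a * (σ + s)) * nn a f (scale_h z s w) (Real.exp (σ + s)) := by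
    rw [scale_pot, scale_nn, e, ← mul_le_mul_iff_right₀ (Real.exp_pos (a * s))
      (b := pot a f (scale_h z s x))]
    constructor <;> intro h <;> linarith
  unfold ind
  exact if_congr h rfl rfl

theorem scale_log (z : E d) (s σ : ℝ) {x w : E d} (h : x ≠ w) :
    Real.log ‖x - w‖ - σ = Real.log ‖scale_h z s x - scale_h z s w‖ - (σ + s) := by
  rw [scale_norm, Real.log_mul (Real.exp_pos s).ne' (norm_ne_zero_iff.2 (sub_ne_zero.2 h)),
    Real.log_exp]
  ring

theorem scale_ae [Nontrivial (E d)] (w : E d) : ∀ᵐ x : E d, x ≠ w := by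
  rw [ae_iff]
  simp

theorem scale_Om [Nontrivial (E d)] (a Λ : ℝ) (z : E d) (s : ℝ) (f : E d → ℝ) (x : E d) :
    Om a Λ (scale_f z s f) x = Om a Λ f (scale_h z s x) := by
  rw [Om, Om]
  refine Eq.trans ?_ (scale_int2 z s _)
  have h : ∀ᵐ q : E d × ℝ, q.1 ≠ x :=
    (Measure.quasiMeasurePreserving_fst (μ := (volume : Measure (E d)))
      (ν := (volume : Measure ℝ))).ae (scale_ae x)
  refine integral_congr_ae (h.mono fun q hq => ?_)
  simp only [wt]
  rw [scale_abs, scale_ind, scale_nn, scale_log z s q.2 hq.symm]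
  ring

theorem scale_mass (z : E d) (s : ℝ) (f : E d → ℝ) : ∫ x, |scale_f z s f x| = ∫ x, |f x| := by
  rw [← scale_int z s fun x => |f x|]
  simp only [scale_abs, smul_eq_mul]

theorem scale_cs (z : E d) (s : ℝ) {f : E d → ℝ} (hf : HasCompactSupport f) :
    HasCompactSupport (scale_f z s f) :=
  (hf.comp_homeomorph (scale_h z s)).mul_left (f := fun _ => Real.exp s ^ d)

theorem sScale : S_Scale := by
  intro d a Λ ha had
  have hd : 0 < d := by exact_mod_cast ha.trans had
  have : Nontrivial (E d) := by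
    refine Module.nontrivial_of_finrank_pos (R := ℝ) ?_
    rwa [finrank_euclideanSpace_fin]
  refine ⟨fun Φ B hΦ h z s f hf hc hm => ?_, fun C h z s f hf hc hm => ?_⟩
  · have h1 : ContDiff ℝ 1 (scale_f z s f) :=
      contDiff_const.mul (hf.comp (contDiff_const.add (contDiff_id.const_smul (Real.exp s))))
    have h2 := h _ h1 (scale_cs z s hc) (by rwa [scale_mass])
    have e : TT a Λ Φ (scale_f z s f) 0 0 = TT a Λ Φ f z s := by
      rw [TT, TT]
      refine Eq.trans ?_ (scale_int z s _)
      refine integral_congr_ae ((scale_ae (0 : E d)).mono fun x hx => ?_)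
      have e1 : Real.exp (a * s) ^ ((d : ℝ) / a) = Real.exp s ^ d := by
        rw [← Real.exp_mul, ← Real.exp_nat_mul]
        congr 1
        field_simp
      simp only [smul_eq_mul]
      rw [scale_ind, scale_log z s 0 hx, scale_conv, hΦ _ (Real.exp_pos _), e1, scale_h_zero,
        zero_add]
      ring
    rwa [e, scale_nn, scale_ee, scale_h_zero, zero_add] at h2
  · have h1 : Continuous (scale_f z s f) := continuous_const.mul (hf.comp (scale_h z s).continuous)
    have h2 := h _ h1 (scale_cs z s hc) (by rwa [scale_mass])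
    rw [scale_nn, scale_ee, scale_h_zero, zero_add] at h2
    refine le_trans (le_of_eq ?_) h2
    refine Eq.trans (scale_lint z s _).symm ?_
    refine lintegral_congr_ae ((scale_ae (0 : E d)).mono fun x hx => ?_)
    simp only []
    rw [scale_Om, scale_log z s 0 hx, scale_rpow z s d x 0, scale_h_zero, zero_add,
      Real.exp_nat_mul]
    congr 1
    ring

end Pool.Agent.MP_40db9a_an.H47
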