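import Pool.Agent.MP_40db9a_an.H47.Spec

/-! Row Src: sources of `Good` that need no singular integral. -/

open MeasureTheory Set

namespace Pool.Agent.MP_40db9a_an.H47

variable {d : ℕ}

theorem src_ann : MeasurableSet (Ann d) :=
  (measurableSet_le measurable_const measurable_norm).inter
    (measurableSet_le measurable_norm measurable_const)

theorem src_sub : Ann d ⊆ Metric.closedBall 0 4 := fun _ hx => mem_closedBall_zero_iff.2 hx.2

theorem src_B (g : E d → ℝ) (hg : Continuous g) (hc : HasCompactSupport g)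
    (φ : E d → E d → ENNReal) (hφ : Measurable (Function.uncurry φ)) (ω : E d → ℝ)
    (hω : Continuous ω) (h0 : ∀ z, 0 ≤ ω z) (c : ℝ) (hc0 : 0 ≤ c)
    (h : ∀ z, g z ≠ 0 → ∫⁻ x in Ann d, φ x z ≤ ENNReal.ofReal (c * ω z)) :
    ∫⁻ x in Ann d, ∫⁻ z, ‖g z‖ₑ * φ x z ≤ ENNReal.ofReal (c * ∫ z, ω z * |g z|) := by
  have hm : Measurable (Function.uncurry fun x z => ‖g z‖ₑ * φ x z) :=
    (hg.measurable.enorm.comp measurable_snd).mul hφ
  have hi : Integrable fun z => c * (ω z * |g z|) :=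
    ((hω.mul hg.abs).integrable_of_hasCompactSupport hc.abs.mul_left).const_mul c
  rw [lintegral_lintegral_swap hm.aemeasurable, ← integral_const_mul,
    ofReal_integral_eq_lintegral_ofReal hi
      (ae_of_all _ fun z => mul_nonneg hc0 (mul_nonneg (h0 z) (abs_nonneg _)))]
  refine lintegral_mono fun z => ?_
  rw [lintegral_const_mul' _ _ enorm_ne_top]
  by_cases hz : g z = 0
  · simp [hz]
  · calc ‖g z‖ₑ * ∫⁻ x in Ann d, φ x z ≤ ‖g z‖ₑ * ENNReal.ofReal (c * ω z) := by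
          gcongr
          exact h z hz
      _ = ENNReal.ofReal (c * (ω z * |g z|)) := by
          rw [Real.enorm_eq_ofReal_abs, ← ENNReal.ofReal_mul (abs_nonneg _)]
          refine congrArg ENNReal.ofReal ?_
          ring

theorem src_A (g : E d → ℝ) (k : E d → E d) (ψ : E d → ENNReal)
    (h : ∀ᵐ z, g z ≠ 0 → ‖k z‖ₑ ≤ ψ z) : ‖∫ z, g z • k z‖ₑ ≤ ∫⁻ z, ‖g z‖ₑ * ψ z := by
  refine (enorm_integral_le_lintegral_enorm _).trans (lintegral_mono_ae ?_)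
  filter_upwards [h] with z hz
  rw [enorm_smul]
  by_cases h0 : g z = 0
  · simp [h0]
  · gcongr
    exact hz h0

theorem src_L1 (g : E d → ℝ) (hg : Continuous g) (hc : HasCompactSupport g)
    (V : E d → E d) (k : E d → E d → E d) (hV : ∀ x ∈ Ann d, V x = ∫ z, g z • k x z)
    (ψ : E d → E d → ENNReal) (hψ : Measurable (Function.uncurry ψ))
    (hk : ∀ x ∈ Ann d, ∀ z, g z ≠ 0 → ‖k x z‖ₑ ≤ ψ x z) (ω : E d → ℝ)
    (hω : Continuous ω) (h0 : ∀ z, 0 ≤ ω z) (c : ℝ) (hc0 : 0 ≤ c)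
    (h : ∀ z, g z ≠ 0 → ∫⁻ x in Ann d, ψ x z ≤ ENNReal.ofReal (c * ω z)) :
    ∫⁻ x in Ann d, ‖V x‖ₑ ≤ ENNReal.ofReal (c * ∫ z, ω z * |g z|) := by
  refine le_trans (setLIntegral_mono' src_ann fun x hx => ?_)
    (src_B g hg hc ψ hψ ω hω h0 c hc0 h)
  rw [hV x hx]
  exact src_A g _ _ (ae_of_all _ (hk x hx))

/-- Part 5 of the calculus with a given constant. -/
def src_P (d : ℕ) (C : ℝ) : Prop := ∀ (V : E d → E d) (n : E d → ENNReal) (e : ℝ), 0 ≤ e →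
  (∀ x ∈ Ann d, DifferentiableAt ℝ V x) → Measurable n →
  (∀ x ∈ Ann d, ∀ y ∈ Ann d, ‖V x - V y‖ₑ ≤ ‖x - y‖ₑ * (n x + n y)) →
  ∫⁻ x in Ann d, n x ≤ ENNReal.ofReal e → ∫⁻ x in Ann d, ‖V x‖ₑ ≤ ENNReal.ofReal e →
  Good V (C * e)

theorem src_int_nonneg (g ω : E d → ℝ) (h0 : ∀ z, 0 ≤ ω z) : 0 ≤ ∫ z, ω z * |g z| :=
  integral_nonneg fun z => mul_nonneg (h0 z) (abs_nonneg _)

theorem src_M (hd : 1 ≤ d) {C : ℝ} (hP : src_P d C) (g : E d → ℝ) (hg : Continuous g)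
    (hc : HasCompactSupport g) (V : E d → E d) (hD : ∀ x ∈ Ann d, DifferentiableAt ℝ V x)
    (k : E d → E d → E d) (hV : ∀ x ∈ Ann d, V x = ∫ z, g z • k x z)
    (hi : ∀ x ∈ Ann d, Integrable fun z => g z • k x z)
    (φ : E d → E d → ENNReal) (hφ : Measurable (Function.uncurry φ))
    (hk : ∀ x ∈ Ann d, ∀ y ∈ Ann d, ∀ z, g z ≠ 0 → z ≠ x → z ≠ y →
      ‖k x z - k y z‖ₑ ≤ ‖x - y‖ₑ * (φ x z + φ y z)) (ω : E d → ℝ)
    (hω : Continuous ω) (h0 : ∀ z, 0 ≤ ω z) (c : ℝ) (hc0 : 0 ≤ c)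
    (h : ∀ z, g z ≠ 0 → ∫⁻ x in Ann d, φ x z ≤ ENNReal.ofReal (c * ω z))
    (h1 : ∫⁻ x in Ann d, ‖V x‖ₑ ≤ ENNReal.ofReal (c * ∫ z, ω z * |g z|)) :
    Good V (C * (c * ∫ z, ω z * |g z|)) := by
  have : Nonempty (Fin d) := ⟨⟨0, hd⟩⟩
  have hm : Measurable (Function.uncurry fun x z => ‖g z‖ₑ * φ x z) :=
    (hg.measurable.enorm.comp measurable_snd).mul hφ
  refine hP V (fun x => ∫⁻ z, ‖g z‖ₑ * φ x z) _ (mul_nonneg hc0 (src_int_nonneg g ω h0)) hD
    hm.lintegral_prod_right' (fun x hx y hy => ?_) (src_B g hg hc φ hφ ω hω h0 c hc0 h) h1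
  have e1 : V x - V y = ∫ z, g z • (k x z - k y z) := by
    rw [hV x hx, hV y hy, ← integral_sub (hi x hx) (hi y hy)]
    simp only [smul_sub]
  have hx' : ∀ᵐ z : E d, z ≠ x := by simp [ae_iff]
  have hy' : ∀ᵐ z : E d, z ≠ y := by simp [ae_iff]
  rw [e1]
  refine (src_A g _ (fun z => ‖x - y‖ₑ * (φ x z + φ y z)) ?_).trans (le_of_eq ?_)
  · filter_upwards [hx', hy'] with z h1 h2 h3
    exact hk x hx y hy z h3 h1 h2
  · rw [← lintegral_add_left (hm.of_uncurry_left (x := x)),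
      ← lintegral_const_mul' _ _ enorm_ne_top]
    refine lintegral_congr fun z => ?_
    ring

theorem src_le {u : E d} {r : ℝ} (h : ‖u‖ ≤ r) : ‖u‖ₑ ≤ ENNReal.ofReal r := by
  rw [← ofReal_norm]
  exact ENNReal.ofReal_le_ofReal h

theorem src_le2 {u v : E d} {r s : ℝ} (hr : 0 ≤ r) (hs : 0 ≤ s) (h : ‖u‖ ≤ ‖v‖ * (r + s)) :
    ‖u‖ₑ ≤ ‖v‖ₑ * (ENNReal.ofReal r + ENNReal.ofReal s) := by
  rw [← ENNReal.ofReal_add hr hs, ← ofReal_norm v, ← ENNReal.ofReal_mul (norm_nonneg _)]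
  exact src_le h

theorem src_Kc {a : ℝ} (ha : 0 < a) (ρ : ℝ) (u : E d) : ‖Kc a ρ u‖ ≤ ‖u‖ ^ (-a) := by
  by_cases hu : u = 0
  · simp only [Kc, hu, smul_zero, norm_zero]
    exact Real.rpow_nonneg le_rfl _
  · have h0 : 0 < ‖u‖ := norm_pos_iff.2 hu
    have h1 : (max ‖u‖ ρ) ^ (-(a + 1)) ≤ ‖u‖ ^ (-(a + 1)) :=
      Real.rpow_le_rpow_of_nonpos h0 (le_max_left _ _) (by linarith)
    have h2 : ‖u‖ ^ (-a) = ‖u‖ ^ (-(a + 1)) * ‖u‖ := by
      rw [← Real.rpow_add_one h0.ne']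
      refine congrArg _ ?_
      ring
    rw [Kc, norm_smul, Real.norm_eq_abs,
      abs_of_nonneg (Real.rpow_nonneg (h0.le.trans (le_max_left _ _)) _), h2]
    gcongr

theorem src_om_cont (a : ℝ) : Continuous fun z : E d => (1 + ‖z‖) ^ (-a) :=
  (continuous_const.add continuous_norm).rpow_const fun z =>
    Or.inl (add_pos_of_pos_of_nonneg one_pos (norm_nonneg z)).ne'

theorem src_om_le (a : ℝ) (z : E d) : (1 + ‖z‖) ^ (-(a + 1)) ≤ (1 + ‖z‖) ^ (-a) :=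
  Real.rpow_le_rpow_of_exponent_le (by linarith [norm_nonneg z]) (by linarith)

/-- The bound for the potential on the ball. -/
def src_I (d : ℕ) (b C : ℝ) : Prop := ∀ z : E d,
  ∫⁻ x in Metric.closedBall (0 : E d) 4, ENNReal.ofReal (‖x - z‖ ^ (-b)) ≤
    ENNReal.ofReal (C * (1 + ‖z‖) ^ (-b))

theorem src_four {a C : ℝ} (ha : 0 < a) (hC : 0 ≤ C) (hI : src_I d a C) (ρ : ℝ) (g : E d → ℝ)
    (hg : Continuous g) (hc : HasCompactSupport g) :
    ∫⁻ x in Ann d, ‖conv (Kc a ρ) g x‖ₑ ≤ ENNReal.ofReal (C * ∫ z, (1 + ‖z‖) ^ (-a) * |g z|) :=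
  src_L1 g hg hc _ (fun x z => Kc a ρ (x - z)) (fun _ _ => rfl)
    (fun x z => ENNReal.ofReal (‖x - z‖ ^ (-a)))
    (((measurable_fst.sub measurable_snd).norm.pow_const _).ennreal_ofReal)
    (fun _ _ _ _ => src_le (src_Kc ha ρ _)) _ (src_om_cont a)
    (fun z => Real.rpow_nonneg (by positivity) _) C hC
    fun z _ => (lintegral_mono_set src_sub).trans (hI z)

/-- First differences of the kernel. -/
def src_K (d : ℕ) (a C : ℝ) : Prop := ∀ (ρ : ℝ) (u v : E d), 0 < max ‖u‖ ρ → 0 < max ‖v‖ ρ →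
  ‖Kc a ρ u - Kc a ρ v‖ ≤ C * ‖u - v‖ * ((max ‖u‖ ρ) ^ (-(a + 1)) + (max ‖v‖ ρ) ^ (-(a + 1)))

theorem src_cut (hd : 1 ≤ d) (hC : S_Conv) {a C₅ Ck C₁ c : ℝ} (ha : 0 < a) (had : a < d)
    (hP : src_P d C₅) (hk0 : 0 ≤ Ck) (hK : src_K d a Ck) (h10 : 0 ≤ C₁) (hI : src_I d a C₁)
    (hc0 : 0 ≤ c) {ρ : ℝ} (hρ : 0 ≤ ρ) (g : E d → ℝ) (hg : ContDiff ℝ 1 g)
    (hc : HasCompactSupport g)
    (h : ∀ z, g z ≠ 0 → ∫⁻ x in Ann d, ENNReal.ofReal ((max ‖x - z‖ ρ) ^ (-(a + 1))) ≤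
      ENNReal.ofReal (c * (1 + ‖z‖) ^ (-a))) :
    Good (conv (Kc a ρ) g) (C₅ * ((Ck * c + C₁) * ∫ z, (1 + ‖z‖) ^ (-a) * |g z|)) := by
  obtain ⟨h1, -, h2⟩ := ((hC d).2 _ ((hC d).1 a ρ ha had hρ)).2 g hg.continuous hc
  have hω : ∀ z : E d, 0 ≤ (1 + ‖z‖) ^ (-a) := fun z => Real.rpow_nonneg (by positivity) _
  have hm : ∀ u : E d, 0 ≤ (max ‖u‖ ρ) ^ (-(a + 1)) :=
    fun u => Real.rpow_nonneg (hρ.trans (le_max_right _ _)) _
  refine src_M hd hP g hg.continuous hc _ (fun x _ => (h2 hg).1 x) (fun x z => Kc a ρ (x - z))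
    (fun _ _ => rfl) (fun x _ => h1 x)
    (fun x z => ENNReal.ofReal (Ck * (max ‖x - z‖ ρ) ^ (-(a + 1))))
    (((((measurable_fst.sub measurable_snd).norm.max measurable_const).pow_const _).const_mul
      Ck).ennreal_ofReal) (fun x _ y _ z _ hx hy => ?_) _ (src_om_cont a) hω _ (by positivity)
    (fun z hz => ?_) ((src_four ha h10 hI ρ g hg.continuous hc).trans ?_)
  · refine src_le2 (mul_nonneg hk0 (hm _)) (mul_nonneg hk0 (hm _)) ?_
    have h3 := hK ρ (x - z) (y - z)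
      (lt_max_of_lt_left (norm_pos_iff.2 (sub_ne_zero.2 hx.symm)))
      (lt_max_of_lt_left (norm_pos_iff.2 (sub_ne_zero.2 hy.symm)))
    rw [sub_sub_sub_cancel_right] at h3
    refine h3.trans (le_of_eq ?_)
    ring
  · simp only [ENNReal.ofReal_mul hk0]
    rw [lintegral_const_mul' _ _ ENNReal.ofReal_ne_top]
    calc _ ≤ ENNReal.ofReal Ck * ENNReal.ofReal (c * (1 + ‖z‖) ^ (-a)) := by
          gcongr
          exact h z hz
      _ ≤ _ := by
          rw [← ENNReal.ofReal_mul hk0]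
          refine ENNReal.ofReal_le_ofReal ?_
          nlinarith [mul_nonneg h10 (hω z)]
  · refine ENNReal.ofReal_le_ofReal (mul_le_mul_of_nonneg_right ?_ (src_int_nonneg g _ hω))
    nlinarith [mul_nonneg hk0 hc0]

theorem src_diff (hC : S_Conv) {a C₁ ρ : ℝ} (ha : 0 < a) (had : a < d) (h10 : 0 ≤ C₁)
    (hρ : 0 < ρ) (hρ1 : ρ ≤ 1)
    (hI : ∀ c : E d, ∫⁻ x in Metric.closedBall c ρ, ENNReal.ofReal (‖x - c‖ ^ (-a)) ≤
      ENNReal.ofReal (C₁ * ρ ^ ((d : ℝ) - a)))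
    (g : E d → ℝ) (hg : Continuous g) (hc : HasCompactSupport g) :
    ∫⁻ x in Ann d, ‖conv (Kr a) g x - conv (Kc a ρ) g x‖ₑ ≤
      ENNReal.ofReal (2 * 6 ^ a * C₁ * ρ ^ ((d : ℝ) - a) * ∫ z, (1 + ‖z‖) ^ (-a) * |g z|) := by
  have h1 := (((hC d).2 _ ((hC d).1 a 0 ha had le_rfl)).2 g hg hc).1
  have h2 := (((hC d).2 _ ((hC d).1 a ρ ha had hρ.le)).2 g hg hc).1
  have hω : ∀ z : E d, 0 ≤ (1 + ‖z‖) ^ (-a) := fun z => Real.rpow_nonneg (by positivity) _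
  have hm : ∀ r : ℝ, Measurable fun q : E d × E d => Kc a r (q.1 - q.2) := fun r =>
    (((measurable_fst.sub measurable_snd).norm.max measurable_const).pow_const _).smul
      (measurable_fst.sub measurable_snd)
  have hz : ∀ u : E d, ρ ≤ ‖u‖ → Kc a 0 u - Kc a ρ u = 0 := fun u hu => by
    rw [Kc, Kc, max_eq_left hu, max_eq_left (norm_nonneg u), sub_self]
  rw [← Kc_zero]
  refine src_L1 g hg hc _ (fun x z => Kc a 0 (x - z) - Kc a ρ (x - z)) (fun x _ => ?_)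
    (fun x z => ‖Kc a 0 (x - z) - Kc a ρ (x - z)‖ₑ) ((hm 0).sub (hm ρ)).enorm
    (fun _ _ _ _ => le_rfl) _ (src_om_cont a) hω _ (by positivity) fun z _ => ?_
  · rw [conv, conv, ← integral_sub (h1 x) (h2 x)]
    simp only [smul_sub]
  · by_cases h5 : ‖z‖ ≤ 5
    · have h3 : ∀ x : E d, ‖Kc a 0 (x - z) - Kc a ρ (x - z)‖ₑ ≤
          (Metric.closedBall z ρ).indicator (fun x => 2 * ENNReal.ofReal (‖x - z‖ ^ (-a))) x := by
        intro x
        by_cases hx : x ∈ Metric.closedBall z ρ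
        · rw [indicator_of_mem hx, two_mul]
          exact enorm_sub_le.trans (add_le_add (src_le (src_Kc ha _ _)) (src_le (src_Kc ha _ _)))
        · rw [mem_closedBall_iff_norm, not_le] at hx
          rw [hz _ hx.le, enorm_zero]
          exact zero_le
      have h4 : (1 : ℝ) ≤ 6 ^ a * (1 + ‖z‖) ^ (-a) := by
        have h6 : (6 : ℝ) ^ (-a) ≤ (1 + ‖z‖) ^ (-a) :=
          Real.rpow_le_rpow_of_nonpos (by positivity) (by linarith) (by linarith)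
        have h7 : (6 : ℝ) ^ a * 6 ^ (-a) = 1 := by
          rw [← Real.rpow_add (by norm_num), add_neg_cancel, Real.rpow_zero]
        exact h7.ge.trans (mul_le_mul_of_nonneg_left h6 (by positivity))
      refine (setLIntegral_le_lintegral _ _).trans ((lintegral_mono h3).trans ?_)
      rw [lintegral_indicator measurableSet_closedBall,
        lintegral_const_mul' _ _ ENNReal.ofNat_ne_top]
      calc _ ≤ 2 * ENNReal.ofReal (C₁ * ρ ^ ((d : ℝ) - a)) := by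
            gcongr
            exact hI z
        _ ≤ _ := by
            have h8 : 0 ≤ C₁ * ρ ^ ((d : ℝ) - a) := by positivity
            rw [two_mul, ← ENNReal.ofReal_add h8 h8]
            refine ENNReal.ofReal_le_ofReal ?_
            nlinarith [mul_le_mul_of_nonneg_left h4 h8]
    · refine le_trans (le_of_eq ?_) zero_le
      refine setLIntegral_eq_zero src_ann fun x hx => ?_
      have h6 : ‖z‖ ≤ ‖x - z‖ + ‖x‖ := by
        have := norm_sub_le x (x - z)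
        rw [sub_sub_cancel] at this
        linarith
      have h7 : ρ ≤ ‖x - z‖ := by linarith [hx.2, not_le.1 h5]
      simp only [hz _ h7, enorm_zero, Pi.zero_apply]

theorem src_const {r W : ℝ} (hr : 0 ≤ r) (hW : volume (Ann d) ≤ ENNReal.ofReal W) :
    ∫⁻ _ in Ann d, ENNReal.ofReal r ≤ ENNReal.ofReal (r * W) := by
  rw [setLIntegral_const, ENNReal.ofReal_mul hr]
  gcongr

theorem src_core (hd : 1 ≤ d) (hC : S_Conv) {a C₅ Ck W : ℝ} (ha : 0 < a) (had : a < d)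
    (hP : src_P d C₅) (hk0 : 0 ≤ Ck) (hK : src_K d a Ck)
    (hK2 : ∀ x y z : E d, x ≠ 0 → y ≠ 0 → 4 * ‖z‖ ≤ ‖x‖ → 4 * ‖z‖ ≤ ‖y‖ →
      ‖Kr a (x - z) - Kr a x - (Kr a (y - z) - Kr a y)‖ ≤
        Ck * ‖z‖ * ‖x - y‖ * (‖x‖ ^ (-(a + 2)) + ‖y‖ ^ (-(a + 2))))
    (hW0 : 0 ≤ W) (hW : volume (Ann d) ≤ ENNReal.ofReal W) (g : E d → ℝ) (hg : ContDiff ℝ 1 g)
    (hc : HasCompactSupport g) (hs : ∀ z, g z ≠ 0 → ‖z‖ ≤ 1 / 8) :
    Good (fun x => conv (Kr a) g x - (∫ z, g z) • Kr a x)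
      (C₅ * (2 * Ck * (1 / 4) ^ (-(a + 2)) * W * ∫ z, ‖z‖ * |g z|)) := by
  obtain ⟨h1, -, h2⟩ := ((hC d).2 _ ((hC d).1 a 0 ha had le_rfl)).2 g hg.continuous hc
  rw [Kc_zero] at h1 h2
  have hgi : Integrable g := hg.continuous.integrable_of_hasCompactSupport hc
  have hne : ∀ x ∈ Ann d, x ≠ 0 := fun x hx => norm_pos_iff.1 (by linarith [hx.1])
  have hV : ∀ x ∈ Ann d, conv (Kr a) g x - (∫ z, g z) • Kr a x =
      ∫ z, g z • (Kr a (x - z) - Kr a x) := by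
    intro x _
    rw [conv, ← integral_smul_const, ← integral_sub (h1 x) (hgi.smul_const _)]
    simp only [smul_sub]
  set Q : ℝ := (1 / 4) ^ (-(a + 2)) with hQ
  have hQ0 : 0 ≤ Q := by positivity
  have hp : ∀ (t b : ℝ), 1 / 4 ≤ t → 0 ≤ b → b ≤ a + 2 → t ^ (-b) ≤ Q := fun t b ht hb hb' =>
    (Real.rpow_le_rpow_of_nonpos (by norm_num) ht (by linarith)).trans
      (Real.rpow_le_rpow_of_exponent_ge (by norm_num) (by norm_num) (by linarith))
  have hφ : Measurable (Function.uncurry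
      fun (_ : E d) (z : E d) => ENNReal.ofReal (2 * Ck * Q * ‖z‖)) :=
    (measurable_snd.norm.const_mul _).ennreal_ofReal
  have hb : ∀ z : E d, ∫⁻ _ in Ann d, ENNReal.ofReal (2 * Ck * Q * ‖z‖) ≤
      ENNReal.ofReal (2 * Ck * Q * W * ‖z‖) := fun z =>
    (src_const (by positivity) hW).trans (le_of_eq (congrArg _ (by ring)))
  refine src_M hd hP g hg.continuous hc _ (fun x hx => ?_) (fun x z => Kr a (x - z) - Kr a x) hV
    (fun x _ => ?_) _ hφ (fun x hx y hy z hz _ _ => ?_) _ continuous_norm norm_nonneg _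
    (by positivity) (fun z _ => hb z)
    (src_L1 g hg.continuous hc _ _ hV _ hφ (fun x hx z hz => src_le ?_) _ continuous_norm
      norm_nonneg _ (by positivity) fun z _ => hb z)
  · have e1 : DifferentiableAt ℝ (Kr a : E d → E d) x :=
      ((differentiableAt_id.norm ℝ (hne x hx)).rpow_const
        (Or.inl (norm_ne_zero_iff.2 (hne x hx)))).smul differentiableAt_id
    exact ((h2 hg).1 x).sub (e1.const_smul (∫ z, g z))
  · simp only [smul_sub]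
    exact (h1 x).sub (hgi.smul_const _)
  · refine src_le2 (by positivity) (by positivity) ?_
    refine (hK2 x y z (hne x hx) (hne y hy) (by linarith [hs z hz, hx.1])
      (by linarith [hs z hz, hy.1])).trans ?_
    have e1 := hp ‖x‖ (a + 2) (by linarith [hx.1]) (by linarith) le_rfl
    have e2 := hp ‖y‖ (a + 2) (by linarith [hy.1]) (by linarith) le_rfl
    have e3 : 0 ≤ Ck * ‖z‖ * ‖x - y‖ := by positivity
    nlinarith [mul_le_mul_of_nonneg_left (add_le_add e1 e2) e3, mul_nonneg e3 hQ0]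
  · have h4 : 1 / 4 ≤ ‖x - z‖ := by linarith [norm_sub_norm_le x z, hs z hz, hx.1]
    have h3 := hK 0 (x - z) x (lt_max_of_lt_left (by linarith))
      (lt_max_of_lt_left (by linarith [hx.1]))
    rw [Kc_zero, max_eq_left (norm_nonneg _), max_eq_left (norm_nonneg _), sub_sub_cancel_left,
      norm_neg] at h3
    refine h3.trans ?_
    have e1 := hp ‖x - z‖ (a + 1) h4 (by linarith) (by linarith)
    have e2 := hp ‖x‖ (a + 1) (by linarith [hx.1]) (by linarith) (by linarith)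
    have e3 : 0 ≤ Ck * ‖z‖ := by positivity
    nlinarith [mul_le_mul_of_nonneg_left (add_le_add e1 e2) e3]

theorem sSrc (hI : S_Int) (hC : S_Conv) (hK : S_Ker) (hG : S_Calc) : S_Src := by
  intro d a ha had
  have hd : 1 ≤ d := Nat.cast_pos.1 (ha.trans had)
  obtain ⟨hmono, -, -, -, ⟨C₅, h5, hP⟩, -⟩ := hG d
  obtain ⟨Ck, hk, hK1, hK2⟩ := hK d a ha
  obtain ⟨C₁, h1, hI1, hI2⟩ := (hI d hd a ha).1 had
  obtain ⟨C₂, h2, hI3⟩ : ∃ C₂ : ℝ, 0 < C₂ ∧ (a + 1 < d → src_I d (a + 1) C₂) := by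
    by_cases h : a + 1 < d
    · obtain ⟨C, hC0, -, hC1⟩ := (hI d hd (a + 1) (by linarith)).1 h
      exact ⟨C, hC0, fun _ => hC1⟩
    · exact ⟨1, one_pos, fun h' => absurd h' h⟩
  obtain ⟨C₃, h3, hI4⟩ : ∃ C₃ : ℝ, 0 < C₃ ∧ ((d : ℝ) < a + 1 → ∀ (z : E d) (ρ : ℝ), 0 < ρ →
      ρ ≤ 1 → ∫⁻ x in Metric.closedBall (0 : E d) 4,
        ENNReal.ofReal ((max ‖x - z‖ ρ) ^ (-(a + 1))) ≤
          ENNReal.ofReal (C₃ * ρ ^ ((d : ℝ) - (a + 1)) * (1 + ‖z‖) ^ (-(a + 1)))) := by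
    by_cases h : (d : ℝ) < a + 1
    · obtain ⟨C, hC0, -, hC1⟩ := (hI d hd (a + 1) (by linarith)).2 h
      exact ⟨C, hC0, fun _ => hC1⟩
    · exact ⟨1, one_pos, fun h' => absurd h' h⟩
  obtain ⟨W, hW0, hW⟩ : ∃ W : ℝ, 0 ≤ W ∧ volume (Ann d) ≤ ENNReal.ofReal W :=
    ⟨(volume (Metric.closedBall (0 : E d) 4)).toReal, ENNReal.toReal_nonneg, by
      rw [ENNReal.ofReal_toReal measure_closedBall_lt_top.ne]
      exact measure_mono src_sub⟩
  obtain ⟨A, hA⟩ : ∃ A : ℝ, A = C₅ * (2 * Ck * (1 / 4) ^ (-(a + 2)) * W) := ⟨_, rfl⟩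
  obtain ⟨B, hB⟩ : ∃ B : ℝ, B = C₅ * (Ck * (C₁ + C₂) + C₁) := ⟨_, rfl⟩
  obtain ⟨D, hD⟩ : ∃ D : ℝ, D = C₅ * (Ck * C₃ + C₁) := ⟨_, rfl⟩
  obtain ⟨F, hF⟩ : ∃ F : ℝ, F = 2 * 6 ^ a * C₁ := ⟨_, rfl⟩
  have hA0 : 0 ≤ A := by rw [hA]; positivity
  have hB0 : 0 ≤ B := by rw [hB]; positivity
  have hD0 : 0 ≤ D := by rw [hD]; positivity
  have hF0 : 0 ≤ F := by rw [hF]; positivity
  have hω : ∀ z : E d, 0 ≤ (1 + ‖z‖) ^ (-a) := fun z => Real.rpow_nonneg (by positivity) _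
  refine ⟨A + B + D + F + C₁, by positivity, fun g hg hc => ?_⟩
  have hJ := src_int_nonneg g _ hω
  refine ⟨fun hs => ?_, fun hs => ?_, fun hda ρ hρ hρ1 => ⟨?_, ?_⟩, ?_⟩
  · refine hmono _ _ _ ?_ (src_core hd hC ha had hP hk.le hK1 hK2 hW0 hW g hg hc hs)
    rw [← mul_assoc, ← hA]
    exact mul_le_mul_of_nonneg_right (by linarith) (src_int_nonneg g _ norm_nonneg)
  · rw [← Kc_zero]
    refine hmono _ _ _ ?_ (src_cut hd hC (c := C₁ + C₂) ha had hP hk.le hK1 h1.le hI2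
      (by positivity) le_rfl g hg hc fun z hz => ?_)
    · rw [← mul_assoc, ← hB]
      exact mul_le_mul_of_nonneg_right (by linarith) hJ
    · simp only [max_eq_left (norm_nonneg _)]
      rcases hs with hs | hs
      · refine (lintegral_mono_set src_sub).trans ((hI3 hs z).trans (ENNReal.ofReal_le_ofReal ?_))
        nlinarith [mul_le_mul_of_nonneg_left (src_om_le a z) h2.le, mul_nonneg h1.le (hω z)]
      · refine le_trans (setLIntegral_mono' src_ann fun x hx => ENNReal.ofReal_le_ofReal ?_)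
          (((lintegral_mono_set src_sub).trans (hI2 z)).trans (ENNReal.ofReal_le_ofReal ?_))
        · have h6 : ‖z‖ ≤ ‖x - z‖ + ‖x‖ := by
            have := norm_sub_le x (x - z)
            rw [sub_sub_cancel] at this
            linarith
          exact Real.rpow_le_rpow_of_exponent_le (by linarith [hx.2, hs z hz]) (by linarith)
        · nlinarith [mul_nonneg h2.le (hω z)]
  · have hr : 1 ≤ ρ ^ ((d : ℝ) - a - 1) :=
      Real.one_le_rpow_of_pos_of_le_one_of_nonpos hρ hρ1 (by linarith)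
    refine hmono _ _ _ ?_ (src_cut hd hC (c := C₃ * ρ ^ ((d : ℝ) - a - 1)) ha had hP hk.le hK1
      h1.le hI2 (by positivity) hρ.le g hg hc fun z _ => ?_)
    · rw [← mul_assoc]
      refine mul_le_mul_of_nonneg_right ?_ hJ
      have e1 : C₅ * (Ck * (C₃ * ρ ^ ((d : ℝ) - a - 1)) + C₁) ≤ D * ρ ^ ((d : ℝ) - a - 1) := by
        rw [hD]
        nlinarith [mul_le_mul_of_nonneg_left hr (mul_pos h5 h1).le]
      exact e1.trans (mul_le_mul_of_nonneg_right (by linarith) (by linarith))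
    · refine (lintegral_mono_set src_sub).trans ((hI4 hda z ρ hρ hρ1).trans
        (ENNReal.ofReal_le_ofReal ?_))
      rw [← sub_sub]
      exact mul_le_mul_of_nonneg_left (src_om_le a z) (by positivity)
  · refine (src_diff hC ha had h1.le hρ hρ1 (fun c => hI1 c ρ hρ) g hg.continuous hc).trans
      (ENNReal.ofReal_le_ofReal (mul_le_mul_of_nonneg_right ?_ hJ))
    rw [← hF]
    exact mul_le_mul_of_nonneg_right (by linarith) (by positivity)
  · rw [← Kc_zero]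
    exact (src_four ha h1.le hI2 0 g hg.continuous hc).trans
      (ENNReal.ofReal_le_ofReal (mul_le_mul_of_nonneg_right (by linarith) hJ))

end Pool.Agent.MP_40db9a_an.H47
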