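import Pool.Agent.MP_40db9a_an.H47.Const
import Pool.Agent.MP_40db9a_an.H47.RAlg
import Pool.Agent.MP_40db9a_an.H47.RBP
import Pool.Agent.MP_40db9a_an.H47.RCV
import Pool.Agent.MP_40db9a_an.H47.RCZ
import Pool.Agent.MP_40db9a_an.H47.RCalc
import Pool.Agent.MP_40db9a_an.H47.RConv
import Pool.Agent.MP_40db9a_an.H47.RCore
import Pool.Agent.MP_40db9a_an.H47.RDec
import Pool.Agent.MP_40db9a_an.H47.RDecay
import Pool.Agent.MP_40db9a_an.H47.RDet
import Pool.Agent.MP_40db9a_an.H47.RFA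
import Pool.Agent.MP_40db9a_an.H47.RFD
import Pool.Agent.MP_40db9a_an.H47.RFG
import Pool.Agent.MP_40db9a_an.H47.RFO
import Pool.Agent.MP_40db9a_an.H47.RFail
import Pool.Agent.MP_40db9a_an.H47.RField
import Pool.Agent.MP_40db9a_an.H47.RG1
import Pool.Agent.MP_40db9a_an.H47.RG3
import Pool.Agent.MP_40db9a_an.H47.RG4
import Pool.Agent.MP_40db9a_an.H47.RG5
import Pool.Agent.MP_40db9a_an.H47.RGP
import Pool.Agent.MP_40db9a_an.H47.RInt
import Pool.Agent.MP_40db9a_an.H47.RKer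
import Pool.Agent.MP_40db9a_an.H47.RLoc
import Pool.Agent.MP_40db9a_an.H47.RMax
import Pool.Agent.MP_40db9a_an.H47.RModel
import Pool.Agent.MP_40db9a_an.H47.RNec
import Pool.Agent.MP_40db9a_an.H47.RRad
import Pool.Agent.MP_40db9a_an.H47.RReg
import Pool.Agent.MP_40db9a_an.H47.RScale
import Pool.Agent.MP_40db9a_an.H47.RSrc

open MeasureTheory Set

namespace Pool.Agent.MP_40db9a_an.H47

theorem allConv : S_Conv := sConv sInt
theorem allBasic : S_Basic := sBasic sInt allConv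
theorem allSrc : S_Src := sSrc sInt allConv sKer sCalc
theorem allReg : S_Reg := sReg sInt
theorem allCZ : S_CZ :=
  sCZ sInt allConv allSrc sDec (sGP allConv sL2 allReg sMax) (sBP sInt allConv sKer)
    (sDiv sInt allConv allReg)
theorem allTail : S_Tail := sTail sInt allBasic
theorem allField : S_Field := sField allConv allBasic sCalc allSrc allCZ
theorem allCore : S_Core := sCore (sCV sDet)
theorem allLoc : S_Loc := sLoc allConv allBasic sCalc allField allTail
theorem allG5 : S_G5 :=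
  sG5 allBasic allConv (sG1 allBasic) (sG2 allBasic) (sG3 allBasic)
    (sG4 sInt allBasic (sG3 allBasic) allTail) sScale
theorem allDecay : S_Decay := sDecay sInt allConv sKer
theorem allRad : S_Rad := sRad sInt allConv sKer
theorem allNec : S_Nec := sNec sInt allConv allRad allDecay sPolar
theorem allFail : S_Fail :=
  sFail allConv allDecay allRad sAlg (sFM sAlg sFS) (sFG sAlg sFS) sFR
    (sFO sInt allDecay sFU) (sFD sInt sAlg sFU)

theorem all_main {d : ℕ} (hd : 2 ≤ d) {a β : ℝ} (ha : 0 < a) (had : a < d) (hβ0 : 0 ≤ β)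
    (hβ1 : β ≤ 1) :
    (∀ Φ : E d → ℝ, Measurable Φ → Hom ((d : ℝ) / a) Φ →
      (∃ N : ℝ, ∀ u v, ‖u‖ = 1 → ‖v‖ = 1 → |Φ u - Φ v| ≤ N * ‖u - v‖ ^ β) →
      (Ineq a Φ ↔ ∫ θ, Φ (θ : E d) ∂((volume : Measure (E d)).toSphere) = 0)) ↔
      (1 ≤ (d : ℝ) - a ∨ 1 < (d : ℝ) - a + β) :=
  (asm_main allConv allDecay sPolar sShell (sModel allCore) allLoc sScale allG5 allNec sAlg
    allFail hd ha had hβ0 hβ1).2

end Pool.Agent.MP_40db9a_an.H47
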