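import Pool.Agent.MP_40db9a_an.H47.Spec2

open MeasureTheory Set

namespace Pool.Agent.MP_40db9a_an.H47

variable {d : ℕ}

lemma asm_tent_nonneg (u : ℝ) : 0 ≤ tent u := le_max_left _ _

lemma asm_tent_le (u : ℝ) : tent u ≤ 2 := by
  unfold tent
  exact max_le (by norm_num) (by linarith [abs_nonneg (4 * u - 2)])

lemma asm_tent_ne {u : ℝ} (h : tent u ≠ 0) : 0 < u ∧ u < 1 := by
  unfold tent at h
  have h1 : 0 < 2 - |4 * u - 2| := by
    by_contra hc
    exact h (max_eq_left (not_lt.mp hc))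
  have h2 : |4 * u - 2| < 2 := by linarith
  rw [abs_lt] at h2
  constructor <;> linarith [h2.1, h2.2]

lemma asm_tent_cont : Continuous tent := by
  unfold tent; fun_prop

lemma asm_gw_zero (hP : S_Polar) (hd : 1 ≤ d) {a N : ℝ} (ha : 0 < a) {Φ : E d → ℝ}
    (hm : Measurable Φ) (hH : Hom ((d : ℝ) / a) Φ) (hb : ∀ v, ‖v‖ = 1 → |Φ v| ≤ N)
    (h0 : ∫ θ, Φ (θ : E d) ∂((volume : Measure (E d)).toSphere) = 0) :
    ∫ y, gw a y * Φ y = 0 := by
  set q : ℝ := (a + 1) * ((d : ℝ) / a) with hq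
  have hq0 : 0 ≤ q := by positivity
  have key := hP d hd ((d : ℝ) / a) N Φ hm hH hb
    (fun r => tent (Real.log r) * |r| ^ (-q)) 2 1 3 ?_ one_pos ?_ ?_
  · rw [h0, mul_zero] at key
    rw [← key]
    refine integral_congr_ae (Filter.Eventually.of_forall fun y => ?_)
    simp only [gw, abs_norm, hq]
  · exact (asm_tent_cont.measurable.comp Real.measurable_log).mul
      (measurable_abs.pow_const _)
  · intro r
    by_cases ht : tent (Real.log r) = 0
    · simp [ht]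
    · have h1 := (asm_tent_ne ht).1
      have hr : 1 ≤ |r| := by
        by_contra hc
        have : Real.log |r| ≤ 0 := Real.log_nonpos (abs_nonneg r) (not_le.mp hc).le
        rw [Real.log_abs] at this
        linarith
      have h2 : |r| ^ (-q) ≤ 1 := Real.rpow_le_one_of_one_le_of_nonpos hr (by linarith)
      have h3 : 0 ≤ |r| ^ (-q) := Real.rpow_nonneg (abs_nonneg r) _
      rw [abs_of_nonneg (mul_nonneg (asm_tent_nonneg _) h3)]
      nlinarith [asm_tent_le (Real.log r), asm_tent_nonneg (Real.log r)]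
  · intro r hr h
    have ht : tent (Real.log r) ≠ 0 := left_ne_zero_of_mul h
    obtain ⟨h1, h2⟩ := asm_tent_ne ht
    constructor
    · by_contra hc
      have : Real.log r ≤ 0 := Real.log_nonpos hr.le (not_le.mp hc).le
      linarith
    · have h3 : r < Real.exp 1 := by
        rw [← Real.log_lt_iff_lt_exp hr]; exact h2
      have := Real.exp_one_lt_d9
      linarith

lemma asm_gw_neg (a : ℝ) (Φ : E d → ℝ) :
    ∫ y, gw a y * Φ (-y) = ∫ y, gw a y * Φ y := by
  have := integral_neg_eq_self (fun y : E d => gw a y * Φ y) volume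
  rw [← this]
  refine integral_congr_ae (Filter.Eventually.of_forall fun y => ?_)
  simp only [gw, norm_neg]

lemma asm_odd (hP : S_Polar) (hd : 1 ≤ d) {p N : ℝ} {Φ : E d → ℝ}
    (hm : Measurable Φ) (hH : Hom p Φ) (hb : ∀ v, ‖v‖ = 1 → |Φ v| ≤ N)
    (ho : ∀ v, Φ (-v) = -Φ v) :
    ∫ θ, Φ (θ : E d) ∂((volume : Measure (E d)).toSphere) = 0 := by
  have key := hP d hd p N Φ hm hH hb
    ((Icc (1 : ℝ) 2).indicator fun _ => (1 : ℝ)) 1 1 2
    (measurable_const.indicator measurableSet_Icc) one_pos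
    (fun r => by by_cases h : r ∈ Icc (1 : ℝ) 2 <;> simp [h])
    (fun r _ h => by
      by_contra hc
      exact h (indicator_of_notMem (fun h' => hc ⟨h'.1, h'.2⟩) _))
  have h1 : ∫ y : E d, (Icc (1 : ℝ) 2).indicator (fun _ => (1 : ℝ)) ‖y‖ * Φ y = 0 := by
    have h2 := integral_neg_eq_self
      (fun y : E d => (Icc (1 : ℝ) 2).indicator (fun _ => (1 : ℝ)) ‖y‖ * Φ y) volume
    simp only [norm_neg, ho, mul_neg, integral_neg] at h2
    linarith
  rw [h1] at key
  have h3 : 0 < ∫ r in Ioi (0 : ℝ),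
      (Icc (1 : ℝ) 2).indicator (fun _ => (1 : ℝ)) r * r ^ (p + d - 1) := by
    have e1 : (fun r : ℝ => (Icc (1 : ℝ) 2).indicator (fun _ => (1 : ℝ)) r * r ^ (p + d - 1)) =
        (Icc (1 : ℝ) 2).indicator fun r => r ^ (p + d - 1) := by
      funext r
      by_cases h : r ∈ Icc (1 : ℝ) 2 <;> simp [h]
    rw [e1, setIntegral_indicator measurableSet_Icc]
    have e2 : Ioi (0 : ℝ) ∩ Icc 1 2 = Icc 1 2 :=
      inter_eq_right.mpr fun r hr => lt_of_lt_of_le one_pos hr.1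
    rw [e2, integral_Icc_eq_integral_Ioc, ← intervalIntegral.integral_of_le one_le_two]
    refine intervalIntegral.intervalIntegral_pos_of_pos_on ?_ (fun r hr => ?_) one_lt_two
    · refine ContinuousOn.intervalIntegrable ?_
      refine continuousOn_id.rpow_const fun r hr => Or.inl ?_
      rw [uIcc_of_le one_le_two] at hr
      exact (lt_of_lt_of_le one_pos hr.1).ne'
    · exact Real.rpow_pos_of_pos (lt_trans one_pos hr.1) _
  rcases mul_eq_zero.mp key.symm with h | h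
  · exact absurd h h3.ne'
  · exact h

lemma asm_integrable (hC : S_Conv) (hD : S_Decay) {a N : ℝ} (ha : 0 < a) (had : a < d)
    {Φ : E d → ℝ} (hm : Measurable Φ) (hb : ∀ v, |Φ v| ≤ N * ‖v‖ ^ ((d : ℝ) / a))
    {f : E d → ℝ} (hf : Continuous f) (hc : HasCompactSupport f) (h0 : ∫ x, f x = 0) :
    Integrable fun x => Φ (conv (Kr a) f x) := by
  have hl : LocallyIntegrable (Kr a : E d → E d) := by
    rw [← Kc_zero]; exact (hC d).1 a 0 ha had le_rfl
  have hcont := (((hC d).2 _ hl).2 f hf hc).2.1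
  refine (((hD d a ha had).2 f hf hc h0).const_mul N).mono'
    (hm.comp hcont.measurable).aestronglyMeasurable
    (Filter.Eventually.of_forall fun x => ?_)
  rw [Real.norm_eq_abs]; exact hb _

theorem asm_main (hC : S_Conv) (hD : S_Decay) (hP : S_Polar) (hSh : S_Shell) (hM : S_Model)
    (hL : S_Loc) (hSc : S_Scale) (h5 : S_G5) (hN : S_Nec) (hA : S_Alg) (hF : S_Fail)
    (hd : 2 ≤ d) {a β : ℝ} (ha : 0 < a) (had : a < d) (hβ0 : 0 ≤ β) (hβ1 : β ≤ 1) :
    (∀ Φ : E d → ℝ, Measurable Φ → Hom ((d : ℝ) / a) Φ →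
      (∃ N : ℝ, ∀ u v, ‖u‖ = 1 → ‖v‖ = 1 → |Φ u - Φ v| ≤ N * ‖u - v‖ ^ β) →
      ∀ f : E d → ℝ, Continuous f → HasCompactSupport f → ∫ x, f x = 0 →
        Integrable fun x => Φ (conv (Kr a) f x)) ∧
    ((∀ Φ : E d → ℝ, Measurable Φ → Hom ((d : ℝ) / a) Φ →
      (∃ N : ℝ, ∀ u v, ‖u‖ = 1 → ‖v‖ = 1 → |Φ u - Φ v| ≤ N * ‖u - v‖ ^ β) →
      (Ineq a Φ ↔ ∫ θ, Φ (θ : E d) ∂((volume : Measure (E d)).toSphere) = 0)) ↔
      (1 ≤ (d : ℝ) - a ∨ 1 < (d : ℝ) - a + β)) := by
  have hd1 : 1 ≤ d := by omega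
  have hp : 1 ≤ (d : ℝ) / a := by rw [le_div_iff₀ ha]; linarith
  refine ⟨fun Φ hm hH ⟨N, hN⟩ f hf hc h0 => ?_, ⟨fun h => ?_, fun hcond Φ hm hH ⟨N, hHo⟩ => ?_⟩⟩
  · obtain ⟨N', -, hb, -⟩ := hSh d _ β N Φ hp hβ0 hβ1 hH hN
    exact asm_integrable hC hD ha had hm hb hf hc h0
  · by_contra hcon
    push Not at hcon
    obtain ⟨h1, h2⟩ := hcon
    obtain ⟨e, he, hne⟩ := hF d hd a (by linarith) had
    have hd2 : (2 : ℝ) ≤ d := by exact_mod_cast hd
    obtain ⟨c, -, hc⟩ := hA d (a + 1 - d) (by linarith) (by linarith)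
    obtain ⟨hmeas, hbd, hsc, hhol, -⟩ := hc e he
    have hm : Measurable (PhiE a e) :=
      (measurable_norm.pow_const _).mul (hmeas.sub (hmeas.comp measurable_neg))
    have hH : Hom ((d : ℝ) / a) (PhiE a e) := by
      intro t ht y
      unfold PhiE
      rw [← smul_neg, hsc t y ht, hsc t (-y) ht, norm_smul, Real.norm_eq_abs, abs_of_pos ht,
        Real.mul_rpow ht.le (norm_nonneg _)]
      ring
    have hunit : ∀ v : E d, ‖v‖ = 1 →
        PhiE a e v = hh (a + 1 - d) e v - hh (a + 1 - d) e (-v) := by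
      intro v hv
      unfold PhiE
      rw [hv, Real.one_rpow, one_mul]
    apply hne
    refine (h (PhiE a e) hm hH ⟨4, fun u v hu hv => ?_⟩).mpr ?_
    · rw [hunit u hu, hunit v hv]
      have e1 := hhol β hβ0 (by linarith) u v hu hv
      have e2 := hhol β hβ0 (by linarith) (-u) (-v) (by rw [norm_neg, hu]) (by rw [norm_neg, hv])
      have e3 : ‖-u - -v‖ = ‖u - v‖ := by rw [← norm_neg]; congr 1; abel
      rw [e3] at e2
      rw [abs_le] at e1 e2 ⊢
      constructor <;> linarith [e1.1, e1.2, e2.1, e2.2]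
    · refine asm_odd (N := 2) hP hd1 hm hH (fun v hv => ?_) (fun v => ?_)
      · rw [hunit v hv, abs_le]
        constructor <;> linarith [(hbd v).1, (hbd v).2, (hbd (-v)).1, (hbd (-v)).2]
      · unfold PhiE
        rw [norm_neg, neg_neg]; ring
  · obtain ⟨N', hN0, hb, hb5, hhol⟩ := hSh d _ β N Φ hp hβ0 hβ1 hH hHo
    refine ⟨fun hI => hN d a N' Φ ha had hm hH hb hI, fun h0 => ?_⟩
    have hg : ∫ y, gw a y * Φ y = 0 :=
      asm_gw_zero (N := N') hP hd1 ha hm hH (fun v hv => hb5 v (by rw [hv]; norm_num)) h0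
    obtain ⟨CM, hCM, hMod⟩ := hM d hd1 a β ha had hβ0 hβ1 hcond
    have m1 : Model a Φ (CM * N') := hMod Φ N' hN0 hm (fun y _ h => hb5 y h) hhol hg
    have m2 : Model a (fun v => Φ (-v)) (CM * N') := by
      refine hMod (fun v => Φ (-v)) N' hN0 (hm.comp measurable_neg)
        (fun y _ h => hb5 (-y) (by rwa [norm_neg])) (fun u v h1 h2 h3 h4 => ?_)
        (by rw [asm_gw_neg, hg])
      have := hhol (-u) (-v) (by rwa [norm_neg]) (by rwa [norm_neg]) (by rwa [norm_neg])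
        (by rwa [norm_neg])
      have e3 : ‖-u - -v‖ = ‖u - v‖ := by rw [← norm_neg]; congr 1; abel
      rwa [e3] at this
    obtain ⟨Λ₁, -, hL1⟩ := hL d hd a ha had
    obtain ⟨Λ₀, -, hG⟩ := h5 d a ha had
    obtain ⟨CL, hCL, hLoc⟩ := hL1 (max Λ₀ Λ₁) (le_max_right _ _)
    obtain ⟨CG, -, hGl⟩ := hG (max Λ₀ Λ₁) (le_max_left _ _)
    have hB : 0 ≤ CM * N' := by positivity
    have l0 := hLoc Φ N' (CM * N') hN0 hB hm hH hb m1 m2
    have l1 := (hSc d a (max Λ₀ Λ₁) ha had).1 Φ _ hH l0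
    refine ⟨CG * (N' + CL * (N' + CM * N')), fun f hf hc hf0 => ?_⟩
    exact hGl Φ N' _ hN0 (by positivity) hm hb l1 f (hf.of_le (by exact_mod_cast le_top)) hc
      (asm_integrable hC hD ha had hm hb hf.continuous hc hf0)

end Pool.Agent.MP_40db9a_an.H47
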