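import Pool.Agent.MP_40db9a_an.H47.Asm

open MeasureTheory Set

namespace Pool.Agent.MP_40db9a_an.H47

variable {d : ℕ}

/-- a constant factor of the kernel scales out of the inequality -/
lemma const_ineq {a c : ℝ} (hc : c ≠ 0) (Φ : E d → ℝ) :
    (∃ C : ℝ, ∀ f : E d → ℝ, ContDiff ℝ ((⊤ : ℕ∞) : WithTop ℕ∞) f → HasCompactSupport f →
      ∫ x, f x = 0 →
      |∫ x, Φ (∫ y, f y • ((c * ‖x - y‖ ^ (-(a + 1))) • (x - y)))| ≤
        C * (∫ x, |f x|) ^ ((d : ℝ) / a)) ↔ Ineq a Φ := by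
  have key : ∀ (f : E d → ℝ) (x : E d),
      ∫ y, f y • ((c * ‖x - y‖ ^ (-(a + 1))) • (x - y)) = conv (Kr a) (fun y => c * f y) x := by
    intro f x
    unfold conv Kr
    refine integral_congr_ae (Filter.Eventually.of_forall fun y => ?_)
    simp only [smul_smul]
    congr 1; ring
  have nrm : ∀ (t : ℝ) (f : E d → ℝ), (∫ x, |t * f x|) ^ ((d : ℝ) / a) =
      |t| ^ ((d : ℝ) / a) * (∫ x, |f x|) ^ ((d : ℝ) / a) := by
    intro t f
    simp only [abs_mul]
    rw [integral_const_mul, Real.mul_rpow (abs_nonneg _) (integral_nonneg fun x => abs_nonneg _)]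
  constructor
  · rintro ⟨C, h⟩
    refine ⟨C * |c⁻¹| ^ ((d : ℝ) / a), fun f hf hs h0 => ?_⟩
    have := h (fun y => c⁻¹ * f y) (contDiff_const.mul hf) hs.mul_left
      (by rw [integral_const_mul, h0, mul_zero])
    simp only [key] at this
    simp only [← mul_assoc, mul_inv_cancel₀ hc, one_mul] at this
    rw [nrm] at this
    rw [mul_assoc]
    exact this
  · rintro ⟨C, h⟩
    refine ⟨C * |c| ^ ((d : ℝ) / a), fun f hf hs h0 => ?_⟩
    have := h (fun y => c * f y) (contDiff_const.mul hf) hs.mul_left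
      (by rw [integral_const_mul, h0, mul_zero])
    simp only [key]
    rw [nrm] at this
    rw [mul_assoc]
    exact this

end Pool.Agent.MP_40db9a_an.H47
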