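import Pool.Agent.MP_40db9a_an.H47.Spec2

/-! The field of the failure example: upper bound and structure on the domain. -/

open MeasureTheory Set

namespace Pool.Agent.MP_40db9a_an.H47

variable {d : ℕ}

theorem fa_k {y : E d} (hy : 0 < ‖y‖) {k P δ : ℝ} (h : ‖k • y - P • y‖ ≤ δ * ‖y‖) :
    |k - P| ≤ δ := by
  rw [← sub_smul, norm_smul, Real.norm_eq_abs] at h
  exact le_of_mul_le_mul_right h hy

theorem fa_anti {a s t : ℝ} (ha : 0 < a) (hs : 0 < s) (h : s ≤ t) : t ^ (-a) ≤ s ^ (-a) :=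
  Real.rpow_le_rpow_of_nonpos hs h (by linarith)

theorem fa_div {a M c : ℝ} (hM : 0 < M) (hc : 0 < c) : (M / c) ^ (-a) = c ^ a * M ^ (-a) := by
  rw [Real.div_rpow hM.le hc.le, Real.rpow_neg hc.le]
  field_simp

theorem fa_a {a C : ℝ} {kb : ℝ → E d → E d} {e : E d} (h : Set0 a C kb e) : 0 < a := by
  have h2 : (2 : ℝ) ≤ d := by exact_mod_cast h.1
  linarith [h.2.1]

theorem fa_wide {a C : ℝ} (ha : 0 < a) (hC : 1 ≤ C) (N : ℕ) :
    (1 : ℝ) ≤ (8 * C) ^ (1 / a) * 4 ^ (N + 1) := by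
  have h1 : (1 : ℝ) ≤ (8 * C) ^ (1 / a) := Real.one_le_rpow (by linarith) (by positivity)
  have h2 : (1 : ℝ) ≤ 4 ^ (N + 1) := one_le_pow₀ (by norm_num)
  nlinarith

theorem fa_near {e x : E d} (he : ‖e‖ = 1) (j : ℕ)
    (h : ‖x - (4 : ℝ) ^ (j + 1) • e‖ < max ‖x‖ 1 / 2) :
    2 * (4 : ℝ) ^ (j + 1) < 3 * max ‖x‖ 1 ∧ max ‖x‖ 1 < 2 * (4 : ℝ) ^ (j + 1) := by
  have h4 : (4 : ℝ) ≤ 4 ^ (j + 1) := by
    have : (1 : ℝ) ≤ 4 ^ j := one_le_pow₀ (by norm_num)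
    rw [pow_succ]; linarith
  have hn : ‖(4 : ℝ) ^ (j + 1) • e‖ = 4 ^ (j + 1) := by
    rw [norm_smul, he, mul_one, Real.norm_eq_abs, abs_of_pos (by positivity)]
  have h1 := norm_sub_norm_le x ((4 : ℝ) ^ (j + 1) • e)
  have h2 := norm_sub_norm_le ((4 : ℝ) ^ (j + 1) • e) x
  rw [norm_sub_rev ((4 : ℝ) ^ (j + 1) • e) x] at h2
  rw [hn] at h1 h2
  rcases le_total ‖x‖ 1 with h3 | h3
  · rw [max_eq_right h3] at h
    linarith
  · rw [max_eq_left h3] at h ⊢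
    constructor <;> linarith

theorem fa_card {e x : E d} (he : ‖e‖ = 1) (N : ℕ) :
    ((Finset.range N).filter fun j => ‖x - (4 : ℝ) ^ (j + 1) • e‖ < max ‖x‖ 1 / 2).card ≤ 1 := by
  have key : ∀ i j : ℕ, ‖x - (4 : ℝ) ^ (i + 1) • e‖ < max ‖x‖ 1 / 2 →
      ‖x - (4 : ℝ) ^ (j + 1) • e‖ < max ‖x‖ 1 / 2 → ¬ i < j := by
    intro i j hi hj hij
    have h1 := (fa_near he i hi).2
    have h2 := (fa_near he j hj).1
    have h3 : (4 : ℝ) ^ (i + 1 + 1) ≤ 4 ^ (j + 1) := pow_le_pow_right₀ (by norm_num) (by omega)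
    have h4 : (0 : ℝ) < 4 ^ (i + 1) := by positivity
    rw [pow_succ _ (i + 1)] at h3
    linarith
  rw [Finset.card_le_one]
  intro i hi j hj
  rw [Finset.mem_filter] at hi hj
  have := key i j hi.2 hj.2
  have := key j i hj.2 hi.2
  omega

theorem fa_eps {a ε : ℝ} {N : ℕ} (hd : 2 ≤ d) (had : a < d) (h : Small d ε N) :
    ε * (ε ^ (1 / (d : ℝ))) ^ (-a) ≤ 1 := by
  have hd0 : (0 : ℝ) < d := by
    have : (2 : ℝ) ≤ d := by exact_mod_cast hd
    linarith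
  have h1 : ε ≤ 1 := h.2.2.trans (pow_le_one₀ (by norm_num) (by norm_num))
  have h2 : ε * (ε ^ (1 / (d : ℝ))) ^ (-a) = ε ^ (1 + 1 / (d : ℝ) * -a) := by
    rw [← Real.rpow_mul h.1.le, Real.rpow_add h.1, Real.rpow_one]
  rw [h2]
  refine Real.rpow_le_one h.1.le h1 ?_
  have : a / d ≤ 1 := (div_le_one hd0).2 had.le
  have h3 : 1 / (d : ℝ) * -a = -(a / d) := by ring
  linarith

theorem sFU : S_FU := by
  intro d a C kb e h0
  have ha := fa_a h0
  obtain ⟨hd, -, had, hC, hR, he⟩ := h0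
  have hC0 : 0 < C := by linarith
  refine ⟨C * (4 * C) ^ a + (C * 2 ^ a + C * (4 * C) ^ a) + 2 * C, by positivity, ?_⟩
  intro ε N hs x
  have hε := hs.1
  set M := max ‖x‖ 1 with hM
  have hM1 : 1 ≤ M := le_max_right _ _
  have hM0 : 0 < M := by linarith
  have hMa : 0 < M ^ (-a) := Real.rpow_pos_of_pos hM0 _
  have hη : 0 < ε ^ (1 / (d : ℝ)) := Real.rpow_pos_of_pos hε _
  have bd : ∀ τ : ℝ, 0 < τ → ∀ (y : E d) (s : ℝ), 0 < s → s ≤ max ‖y‖ τ →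
      ‖kb τ y‖ ≤ C * s ^ (-a) := fun τ hτ y s hs0 hs1 =>
    ((hR.1 τ hτ).2 y).2.2.1.trans (mul_le_mul_of_nonneg_left (fa_anti ha hs0 hs1) hC0.le)
  have b1 : ‖kb (1 / (4 * C)) x‖ ≤ C * (4 * C) ^ a * M ^ (-a) := by
    have h1 := bd (1 / (4 * C)) (by positivity) x (M / (4 * C)) (by positivity) (by
      rw [div_le_iff₀ (by positivity), hM]
      refine max_le ?_ ?_
      · have h2 := le_max_left ‖x‖ (1 / (4 * C))
        have h3 := norm_nonneg x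
        nlinarith
      · have h2 := le_max_right ‖x‖ (1 / (4 * C))
        rwa [div_le_iff₀ (by positivity)] at h2)
    rw [fa_div hM0 (by positivity)] at h1
    linarith
  have b3 : ‖(1 + ε * N) • kb ((8 * C) ^ (1 / a) * 4 ^ (N + 1)) x‖ ≤ 2 * C * M ^ (-a) := by
    have hw := fa_wide ha hC N
    have h1 := bd _ (lt_of_lt_of_le one_pos hw) x M hM0 (max_le_max le_rfl hw)
    have h2 : (0 : ℝ) ≤ ε * N := by positivity
    rw [norm_smul, Real.norm_eq_abs, abs_of_pos (by linarith)]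
    have h3 := hs.2.1
    have h4 := norm_nonneg (kb ((8 * C) ^ (1 / a) * 4 ^ (N + 1)) x)
    nlinarith
  have b2 : ∀ j ∈ Finset.range N,
      ‖ε • kb (ε ^ (1 / (d : ℝ)) / (2 * C) * 4 ^ (j + 1)) (x - (4 : ℝ) ^ (j + 1) • e)‖ ≤
        ε * (C * 2 ^ a * M ^ (-a)) +
          if ‖x - (4 : ℝ) ^ (j + 1) • e‖ < M / 2 then C * (4 * C) ^ a * M ^ (-a) else 0 := by
    intro j _
    have hτ : 0 < ε ^ (1 / (d : ℝ)) / (2 * C) * 4 ^ (j + 1) := by positivity
    rw [norm_smul, Real.norm_eq_abs, abs_of_pos hε]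
    split_ifs with hn
    · have h1 := (fa_near he j hn).2
      rw [← hM] at h1
      have h2 := bd _ hτ (x - (4 : ℝ) ^ (j + 1) • e) (ε ^ (1 / (d : ℝ)) * (M / (4 * C)))
        (by positivity) (le_trans (by
          have h3 : ε ^ (1 / (d : ℝ)) / (2 * C) * 4 ^ (j + 1) =
              ε ^ (1 / (d : ℝ)) * (2 * 4 ^ (j + 1) / (4 * C)) := by field_simp; ring
          rw [h3]
          gcongr) (le_max_right _ _))
      rw [Real.mul_rpow hη.le (by positivity), fa_div hM0 (by positivity)] at h2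
      have h3 := fa_eps hd had hs
      have h4 : 0 ≤ ε * (C * 2 ^ a * M ^ (-a)) := by positivity
      have h5 : 0 ≤ C * (4 * C) ^ a * M ^ (-a) := by positivity
      have h6 := mul_le_mul_of_nonneg_left h2 hε.le
      have h7 := mul_le_mul_of_nonneg_right h3 h5
      linarith
    · have h2 := bd _ hτ (x - (4 : ℝ) ^ (j + 1) • e) (M / 2) (by positivity)
        ((not_lt.1 hn).trans (le_max_left _ _))
      rw [fa_div hM0 (by positivity)] at h2
      have h6 := mul_le_mul_of_nonneg_left h2 hε.le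
      linarith
  have b4 := (norm_sum_le _ _).trans (Finset.sum_le_sum b2)
  rw [Finset.sum_add_distrib, Finset.sum_const, Finset.card_range, nsmul_eq_mul,
    ← Finset.sum_filter, Finset.sum_const, nsmul_eq_mul] at b4
  have b5 : (((Finset.range N).filter
      fun j => ‖x - (4 : ℝ) ^ (j + 1) • e‖ < M / 2).card : ℝ) ≤ 1 := by
    exact_mod_cast fa_card (x := x) he N
  have b6 := mul_le_mul_of_nonneg_right b5 (show 0 ≤ C * (4 * C) ^ a * M ^ (-a) by positivity)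
  have b7 := mul_le_mul_of_nonneg_right hs.2.1 (show 0 ≤ C * 2 ^ a * M ^ (-a) by positivity)
  unfold Fld
  refine (norm_sub_le _ _).trans ?_
  refine (add_le_add (norm_add_le _ _) le_rfl).trans ?_
  linarith

theorem sFS : S_FS := by
  intro d a C kb e h0 ε N hs x hx
  have ha := fa_a h0
  obtain ⟨hd, -, had, hC, hR, he⟩ := h0
  obtain ⟨hx1, hx2, hx3⟩ := hx
  have hC0 : 0 < C := by linarith
  have hε := hs.1
  have hη : 0 < ε ^ (1 / (d : ℝ)) := Real.rpow_pos_of_pos hε _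
  have hx0 : 0 < ‖x‖ := by linarith
  have hP : 0 < ‖x‖ ^ (-(a + 1)) := Real.rpow_pos_of_pos hx0 _
  have near : ∀ (τ δ : ℝ) (y : E d), 0 < τ → 2 * τ ≤ ‖y‖ → C * τ ≤ δ * ‖y‖ →
      ∃ k : ℝ, kb τ y = k • y ∧ |k - ‖y‖ ^ (-(a + 1))| ≤ δ * ‖y‖ ^ (-(a + 1)) := by
    intro τ δ y hτ h1 h2
    obtain ⟨⟨k, hk⟩, -, -, h3, -⟩ := (hR.1 τ hτ).2 y
    have hy : 0 < ‖y‖ := by linarith
    refine ⟨k, hk, fa_k hy ?_⟩
    have h4 := h3 h1
    rw [hk, Kr] at h4
    have h5 := mul_le_mul_of_nonneg_right h2 (Real.rpow_pos_of_pos hy (-(a + 1))).le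
    linarith
  obtain ⟨k0, e0, h0⟩ := near (1 / (4 * C)) (1 / 4) x (by positivity) (by
    have : 1 / (4 * C) ≤ 1 / 4 := one_div_le_one_div_of_le (by norm_num) (by linarith)
    linarith) (by
    have : C * (1 / (4 * C)) = 1 / 4 := by field_simp
    linarith)
  have hw := fa_wide ha hC N
  obtain ⟨⟨kw, ew⟩, -, h1, -⟩ := (hR.1 _ (lt_of_lt_of_le one_pos hw)).2 x
  have h2 : |kw - 0| ≤ 1 / 8 * ‖x‖ ^ (-(a + 1)) := by
    refine fa_k hx0 ?_
    rw [zero_smul, sub_zero, ← ew]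
    refine h1.trans ?_
    have h3 := fa_anti ha (lt_of_lt_of_le one_pos hw) (le_max_right ‖x‖ _)
    have h4 : ((8 * C) ^ (1 / a) * 4 ^ (N + 1) : ℝ) ^ (-a) =
        (8 * C)⁻¹ * ((4 : ℝ) ^ (N + 1)) ^ (-a) := by
      rw [Real.mul_rpow (by positivity) (by positivity), ← Real.rpow_mul (by positivity)]
      have : 1 / a * -a = -1 := by field_simp
      rw [this, Real.rpow_neg_one]
    have h5 := fa_anti ha hx0 hx2
    have h6 : ‖x‖ ^ (-a) = ‖x‖ ^ (-(a + 1)) * ‖x‖ := by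
      rw [← Real.rpow_add_one hx0.ne']
      congr 1
      ring
    rw [h4] at h3
    have h7 := mul_le_mul_of_nonneg_left h3 hC0.le
    have h8 : C * ((8 * C)⁻¹ * ((4 : ℝ) ^ (N + 1)) ^ (-a)) = 1 / 8 * ((4 : ℝ) ^ (N + 1)) ^ (-a) := by
      field_simp
    rw [h6] at h5
    linarith
  have h3 : ∀ j : ℕ, ∃ k : ℝ, j < N →
      kb (ε ^ (1 / (d : ℝ)) / (2 * C) * 4 ^ (j + 1)) (x - (4 : ℝ) ^ (j + 1) • e) =
          k • (x - (4 : ℝ) ^ (j + 1) • e) ∧
        |k - ‖x - (4 : ℝ) ^ (j + 1) • e‖ ^ (-(a + 1))| ≤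
          1 / 2 * ‖x - (4 : ℝ) ^ (j + 1) • e‖ ^ (-(a + 1)) := by
    intro j
    by_cases hj : j < N
    · have h4 := (hx3 j hj).1
      have h5 : C * (ε ^ (1 / (d : ℝ)) / (2 * C) * 4 ^ (j + 1)) =
          1 / 2 * (ε ^ (1 / (d : ℝ)) * 4 ^ (j + 1)) := by field_simp
      have h6 : 0 < ε ^ (1 / (d : ℝ)) / (2 * C) * 4 ^ (j + 1) := by positivity
      obtain ⟨k, hk⟩ := near _ (1 / 2) (x - (4 : ℝ) ^ (j + 1) • e) h6 (by nlinarith) (by linarith)
      exact ⟨k, fun _ => hk⟩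
    · exact ⟨0, fun h => absurd h hj⟩
  choose k hk using h3
  have h4 : (0 : ℝ) ≤ ε * N := by positivity
  have h5 : |(1 + ε * N) * kw| ≤ 1 / 4 * ‖x‖ ^ (-(a + 1)) := by
    rw [sub_zero] at h2
    rw [abs_mul, abs_of_pos (show 0 < 1 + ε * N by linarith)]
    have h6 := hs.2.1
    have h7 := abs_nonneg kw
    nlinarith
  rw [abs_le] at h0 h5
  refine ⟨k0 - (1 + ε * N) * kw, k, by linarith [h0.1, h5.2], by linarith [h0.2, h5.1], ?_, ?_⟩
  · intro j hj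
    have h6 := abs_le.1 (hk j hj).2
    constructor <;> linarith [h6.1, h6.2]
  · unfold Fld
    rw [e0, ew, smul_smul, sub_smul, Finset.sum_congr rfl fun j hj => by
      rw [(hk j (Finset.mem_range.1 hj)).1, smul_smul]]
    abel

end Pool.Agent.MP_40db9a_an.H47
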