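import Pool.Agent.MP_40db9a_an.H47.Spec

open MeasureTheory Set

namespace Pool.Agent.MP_40db9a_an.H47

variable {d : ℕ}

theorem ker_scalar {s t g : ℝ} (hs : 0 < s) (hst : s ≤ t) (hg : 0 < g) :
    |s ^ (-g) - t ^ (-g)| ≤ g * s ^ (-(g + 1)) * (t - s) := by
  have ht : 0 < t := hs.trans_le hst
  have h1 : t ^ (-g) ≤ s ^ (-g) := Real.rpow_le_rpow_of_nonpos hs hst (by linarith)
  rw [abs_of_nonneg (by linarith)]
  have hq : 0 < t / s := div_pos ht hs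
  have h2 : t ^ (-g) = s ^ (-g) * (t / s) ^ (-g) := by
    rw [← Real.mul_rpow hs.le hq.le]; congr 1; field_simp
  have h3 : 1 - g * (t / s - 1) ≤ (t / s) ^ (-g) := by
    rw [Real.rpow_def_of_pos hq]
    have h4 := Real.add_one_le_exp (Real.log (t / s) * (-g))
    have h5 := Real.log_le_sub_one_of_pos hq
    nlinarith
  have h6 : s ^ (-(g + 1)) = s ^ (-g) / s := by
    rw [show -(g + 1) = -g - 1 by ring, Real.rpow_sub_one hs.ne']
  have h7 : 0 < s ^ (-g) := Real.rpow_pos_of_pos hs _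
  have h8 : g * s ^ (-(g + 1)) * (t - s) = s ^ (-g) * (g * (t / s - 1)) := by
    rw [h6]; field_simp
  rw [h8, h2]
  nlinarith

theorem ker_first_aux {a ρ : ℝ} (ha : 0 < a) (u v : E d) (hu : 0 < max ‖u‖ ρ)
    (huv : max ‖u‖ ρ ≤ max ‖v‖ ρ) :
    ‖Kc a ρ u - Kc a ρ v‖ ≤
      (a + 1) * ‖u - v‖ * ((max ‖u‖ ρ) ^ (-(a + 1)) + (max ‖v‖ ρ) ^ (-(a + 1))) := by
  set s := max ‖u‖ ρ with hs
  set t := max ‖v‖ ρ with ht
  have ht0 : 0 < t := hu.trans_le huv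
  have hd : t - s ≤ ‖u - v‖ := by
    have h1 : |‖v‖ - ‖u‖| ≤ ‖v - u‖ := abs_norm_sub_norm_le v u
    have h2 := abs_max_sub_max_le_abs ‖v‖ ‖u‖ ρ
    rw [norm_sub_rev] at h1
    exact (le_abs_self _).trans (h2.trans h1)
  have he : Kc a ρ u - Kc a ρ v =
      t ^ (-(a + 1)) • (u - v) + (s ^ (-(a + 1)) - t ^ (-(a + 1))) • u := by
    simp only [Kc, ← hs, ← ht, smul_sub, sub_smul]; abel
  have hS : 0 < s ^ (-(a + 1)) := Real.rpow_pos_of_pos hu _
  have hT : 0 < t ^ (-(a + 1)) := Real.rpow_pos_of_pos ht0 _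
  have h3 := ker_scalar hu huv (show 0 < a + 1 by linarith)
  have h6 : s ^ (-(a + 1 + 1)) * s = s ^ (-(a + 1)) := by
    rw [show -(a + 1 + 1) = -(a + 1) - 1 by ring, Real.rpow_sub_one hu.ne']; field_simp
  have hS2 : 0 < s ^ (-(a + 1 + 1)) := Real.rpow_pos_of_pos hu _
  have hus : ‖u‖ ≤ s := le_max_left _ _
  have hn := norm_nonneg (u - v)
  have h4 : |s ^ (-(a + 1)) - t ^ (-(a + 1))| * ‖u‖ ≤ (a + 1) * ‖u - v‖ * s ^ (-(a + 1)) := by
    calc |s ^ (-(a + 1)) - t ^ (-(a + 1))| * ‖u‖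
        ≤ ((a + 1) * s ^ (-(a + 1 + 1)) * ‖u - v‖) * s := by
          apply mul_le_mul (h3.trans _) hus (norm_nonneg _) (by positivity)
          exact mul_le_mul_of_nonneg_left hd (by positivity)
      _ = (a + 1) * ‖u - v‖ * (s ^ (-(a + 1 + 1)) * s) := by ring
      _ = _ := by rw [h6]
  rw [he]
  refine (norm_add_le _ _).trans ?_
  rw [norm_smul, norm_smul, Real.norm_eq_abs, Real.norm_eq_abs, abs_of_pos hT]
  have h5 : 0 ≤ a * (‖u - v‖ * t ^ (-(a + 1))) := by positivity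
  nlinarith

theorem ker_first {a : ℝ} (ha : 0 < a) (ρ : ℝ) (u v : E d) (hu : 0 < max ‖u‖ ρ)
    (hv : 0 < max ‖v‖ ρ) :
    ‖Kc a ρ u - Kc a ρ v‖ ≤
      (a + 1) * ‖u - v‖ * ((max ‖u‖ ρ) ^ (-(a + 1)) + (max ‖v‖ ρ) ^ (-(a + 1))) := by
  rcases le_total (max ‖u‖ ρ) (max ‖v‖ ρ) with h | h
  · exact ker_first_aux ha u v hu h
  · have := ker_first_aux ha v u hv h
    rw [norm_sub_rev, norm_sub_rev v u, add_comm ((max ‖v‖ ρ) ^ (-(a + 1)))] at this
    exact this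

theorem ker_first_Kr {a : ℝ} (ha : 0 < a) (u v : E d) (hu : u ≠ 0) (hv : v ≠ 0) :
    ‖Kr a u - Kr a v‖ ≤ (a + 1) * ‖u - v‖ * (‖u‖ ^ (-(a + 1)) + ‖v‖ ^ (-(a + 1))) := by
  have h := ker_first ha 0 u v (by simpa using hu) (by simpa using hv)
  rw [Kc_zero] at h
  simpa using h

/-- the derivative of the kernel at `u` in direction `z` -/
noncomputable def kerD (a : ℝ) (z u : E d) : E d :=
  ‖u‖ ^ (-(a + 1)) • z -
    ((a + 1) * (inner ℝ (Kr ((a + 1) / 2) u) z : ℝ)) • Kr ((a + 1) / 2) u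

theorem ker_norm_Kr (b : ℝ) {u : E d} (hu : u ≠ 0) : ‖Kr b u‖ = ‖u‖ ^ (-b) := by
  have h0 : 0 < ‖u‖ := norm_pos_iff.mpr hu
  rw [Kr, norm_smul, Real.norm_eq_abs, abs_of_pos (Real.rpow_pos_of_pos h0 _),
    show -(b + 1) = -b - 1 by ring, Real.rpow_sub_one h0.ne']
  field_simp

theorem ker_hasDeriv (a : ℝ) (x z : E d) (t : ℝ) (h : x - t • z ≠ 0) :
    HasDerivAt (fun s : ℝ => Kr a (x - s • z)) (-kerD a z (x - t • z)) t := by
  set u := x - t • z with hu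
  have h0 : 0 < ‖u‖ := norm_pos_iff.mpr h
  have h1 : HasDerivAt (fun s : ℝ => x - s • z) (-z) t := by
    simpa using ((hasDerivAt_id t).smul_const z).const_sub x
  have h2 := h1.norm_sq
  have h3 := h2.rpow_const (p := -(a + 1) / 2) (Or.inl (by rw [← hu]; positivity))
  have h4 := h3.smul h1
  have hf : (fun s : ℝ => Kr a (x - s • z)) =
      fun s : ℝ => (‖x - s • z‖ ^ 2) ^ (-(a + 1) / 2) • (x - s • z) := by
    funext s
    rw [Kr, ← Real.rpow_natCast, ← Real.rpow_mul (norm_nonneg _)]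
    congr 2; push_cast; ring
  rw [hf]
  refine h4.congr_deriv ?_
  rw [← hu]
  have e1 : (‖u‖ ^ 2) ^ (-(a + 1) / 2) = ‖u‖ ^ (-(a + 1)) := by
    rw [← Real.rpow_natCast, ← Real.rpow_mul (norm_nonneg _)]
    congr 1; push_cast; ring
  have e2 : (‖u‖ ^ 2) ^ (-(a + 1) / 2 - 1) =
      ‖u‖ ^ (-((a + 1) / 2 + 1)) * ‖u‖ ^ (-((a + 1) / 2 + 1)) := by
    rw [← Real.rpow_natCast, ← Real.rpow_mul (norm_nonneg _), ← Real.rpow_add h0]
    congr 1; push_cast; ring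
  rw [e1, e2, kerD, Kr, inner_smul_left, inner_neg_right, smul_smul, smul_neg, neg_sub]
  simp only [conj_trivial]
  rw [sub_eq_neg_add]
  congr 2
  ring

theorem ker_D_lip {a : ℝ} (ha : 0 < a) (z u v : E d) {m : ℝ} (hm : 0 < m) (hu : m ≤ ‖u‖)
    (hv : m ≤ ‖v‖) :
    ‖kerD a z u - kerD a z v‖ ≤
      ((a + 1) + (a + 1) * (4 * ((a + 1) / 2 + 1))) * (‖z‖ * ‖u - v‖ * m ^ (-(a + 2))) := by
  have hu0 : u ≠ 0 := norm_pos_iff.mp (hm.trans_le hu)
  have hv0 : v ≠ 0 := norm_pos_iff.mp (hm.trans_le hv)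
  set b := (a + 1) / 2 with hb
  have hb0 : 0 < b := by positivity
  have mono : ∀ {r e : ℝ}, m ≤ r → 0 < e → r ^ (-e) ≤ m ^ (-e) := fun h he =>
    Real.rpow_le_rpow_of_nonpos hm h (by linarith)
  have hM : 0 < m ^ (-(a + 2)) := Real.rpow_pos_of_pos hm _
  have hz := norm_nonneg z
  have hn := norm_nonneg (u - v)
  have h1 : |‖u‖ ^ (-(a + 1)) - ‖v‖ ^ (-(a + 1))| ≤ (a + 1) * m ^ (-(a + 2)) * ‖u - v‖ := by
    have e : a + 1 + 1 = a + 2 := by ring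
    rcases le_total ‖u‖ ‖v‖ with h | h
    · have h2 := ker_scalar (hm.trans_le hu) h (show 0 < a + 1 by linarith)
      rw [e] at h2
      refine h2.trans (mul_le_mul (mul_le_mul_of_nonneg_left (mono hu (by linarith))
        (by linarith)) ?_ (by linarith) (by positivity))
      rw [norm_sub_rev]; exact norm_sub_norm_le v u
    · have h2 := ker_scalar (hm.trans_le hv) h (show 0 < a + 1 by linarith)
      rw [e, abs_sub_comm] at h2
      exact h2.trans (mul_le_mul (mul_le_mul_of_nonneg_left (mono hv (by linarith))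
        (by linarith)) (norm_sub_norm_le u v) (by linarith) (by positivity))
  set A := Kr b u with hA
  set B := Kr b v with hB
  have hAn : ‖A‖ ≤ m ^ (-b) := by rw [hA, ker_norm_Kr b hu0]; exact mono hu hb0
  have hBn : ‖B‖ ≤ m ^ (-b) := by rw [hB, ker_norm_Kr b hv0]; exact mono hv hb0
  have hAB : ‖A - B‖ ≤ (b + 1) * ‖u - v‖ * (2 * m ^ (-(b + 1))) := by
    refine (ker_first_Kr hb0 u v hu0 hv0).trans (mul_le_mul_of_nonneg_left ?_ (by positivity))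
    have := mono hu (show 0 < b + 1 by linarith)
    have := mono hv (show 0 < b + 1 by linarith)
    linarith
  have hprod : m ^ (-(b + 1)) * m ^ (-b) = m ^ (-(a + 2)) := by
    rw [← Real.rpow_add hm]; congr 1; rw [hb]; ring
  have hmb : 0 < m ^ (-b) := Real.rpow_pos_of_pos hm _
  have hmb1 : 0 < m ^ (-(b + 1)) := Real.rpow_pos_of_pos hm _
  have he : kerD a z u - kerD a z v = (‖u‖ ^ (-(a + 1)) - ‖v‖ ^ (-(a + 1))) • z -
      (a + 1) • ((inner ℝ (A - B) z : ℝ) • A + (inner ℝ B z : ℝ) • (A - B)) := by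
    simp only [kerD, ← hb, ← hA, ← hB, inner_sub_left, sub_smul, smul_sub, smul_add, mul_smul]
    abel
  have h2 : ‖(inner ℝ (A - B) z : ℝ) • A + (inner ℝ B z : ℝ) • (A - B)‖ ≤
      4 * (b + 1) * (‖z‖ * ‖u - v‖ * m ^ (-(a + 2))) := by
    refine (norm_add_le _ _).trans ?_
    rw [norm_smul, norm_smul]
    have h3 := norm_inner_le_norm (𝕜 := ℝ) (A - B) z
    have h4 := norm_inner_le_norm (𝕜 := ℝ) B z
    have h5 : ‖(inner ℝ (A - B) z : ℝ)‖ * ‖A‖ ≤ (‖A - B‖ * ‖z‖) * m ^ (-b) :=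
      mul_le_mul h3 hAn (norm_nonneg _) (by positivity)
    have h6 : ‖(inner ℝ B z : ℝ)‖ * ‖A - B‖ ≤ (m ^ (-b) * ‖z‖) * ‖A - B‖ :=
      mul_le_mul_of_nonneg_right (h4.trans (mul_le_mul_of_nonneg_right hBn hz)) (norm_nonneg _)
    have h7 : ‖A - B‖ * (‖z‖ * m ^ (-b)) ≤
        ((b + 1) * ‖u - v‖ * (2 * m ^ (-(b + 1)))) * (‖z‖ * m ^ (-b)) :=
      mul_le_mul_of_nonneg_right hAB (by positivity)
    rw [← hprod]
    nlinarith
  rw [he]
  refine (norm_sub_le _ _).trans ?_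
  rw [norm_smul, norm_smul, Real.norm_eq_abs, Real.norm_eq_abs,
    abs_of_pos (show 0 < a + 1 by linarith)]
  have h8 := mul_le_mul_of_nonneg_right h1 hz
  have h9 := mul_le_mul_of_nonneg_left h2 (show 0 ≤ a + 1 by linarith)
  nlinarith

theorem ker_second {a : ℝ} (ha : 0 < a) (x y z : E d) (hx : x ≠ 0) (hy : y ≠ 0)
    (hzx : 4 * ‖z‖ ≤ ‖x‖) (hzy : 4 * ‖z‖ ≤ ‖y‖) :
    ‖Kr a (x - z) - Kr a x - (Kr a (y - z) - Kr a y)‖ ≤
      (((a + 1) + (a + 1) * (4 * ((a + 1) / 2 + 1))) * (3 / 4 : ℝ) ^ (-(a + 2))) * ‖z‖ * ‖x - y‖ *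
        (‖x‖ ^ (-(a + 2)) + ‖y‖ ^ (-(a + 2))) := by
  have hx0 : 0 < ‖x‖ := norm_pos_iff.mpr hx
  have hy0 : 0 < ‖y‖ := norm_pos_iff.mpr hy
  set μ := min ‖x‖ ‖y‖ with hμ
  have hμ0 : 0 < μ := lt_min hx0 hy0
  have low : ∀ (w : E d) (t : ℝ), 4 * ‖z‖ ≤ ‖w‖ → μ ≤ ‖w‖ → t ∈ Icc (0 : ℝ) 1 →
      3 / 4 * μ ≤ ‖w - t • z‖ := by
    intro w t h1 h2 ht
    have h3 := norm_sub_norm_le w (t • z)
    have h4 : ‖t • z‖ ≤ ‖z‖ := by
      rw [norm_smul, Real.norm_eq_abs, abs_of_nonneg ht.1]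
      exact mul_le_of_le_one_left (norm_nonneg _) ht.2
    linarith
  have hm : 0 < 3 / 4 * μ := by positivity
  set K := (a + 1) + (a + 1) * (4 * ((a + 1) / 2 + 1)) with hK
  have hK0 : 0 < K := by positivity
  have key := norm_image_sub_le_of_norm_deriv_le_segment_01'
    (f := fun s : ℝ => Kr a (x - s • z) - Kr a (y - s • z))
    (f' := fun s : ℝ => -kerD a z (x - s • z) - -kerD a z (y - s • z))
    (C := K * (‖z‖ * ‖x - y‖ * (3 / 4 * μ) ^ (-(a + 2))))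
    (fun t ht => by
      have h1 := low x t hzx (min_le_left _ _) ht
      have h2 := low y t hzy (min_le_right _ _) ht
      exact ((ker_hasDeriv a x z t (norm_pos_iff.mp (hm.trans_le h1))).sub
        (ker_hasDeriv a y z t (norm_pos_iff.mp (hm.trans_le h2)))).hasDerivWithinAt)
    (fun t ht => by
      have ht' : t ∈ Icc (0 : ℝ) 1 := ⟨ht.1, ht.2.le⟩
      have h1 := low x t hzx (min_le_left _ _) ht'
      have h2 := low y t hzy (min_le_right _ _) ht'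
      have h3 := ker_D_lip ha z _ _ hm h1 h2
      rw [show x - t • z - (y - t • z) = x - y by abel] at h3
      rw [← neg_sub', norm_neg]
      exact h3)
  simp only [one_smul, zero_smul, sub_zero] at key
  rw [show Kr a (x - z) - Kr a x - (Kr a (y - z) - Kr a y) =
    Kr a (x - z) - Kr a (y - z) - (Kr a x - Kr a y) by abel]
  refine key.trans ?_
  rw [Real.mul_rpow (by norm_num) hμ0.le]
  have hX : 0 < ‖x‖ ^ (-(a + 2)) := Real.rpow_pos_of_pos hx0 _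
  have hY : 0 < ‖y‖ ^ (-(a + 2)) := Real.rpow_pos_of_pos hy0 _
  have hs : μ ^ (-(a + 2)) ≤ ‖x‖ ^ (-(a + 2)) + ‖y‖ ^ (-(a + 2)) := by
    rcases min_choice ‖x‖ ‖y‖ with h | h <;> rw [hμ, h] <;> linarith
  have hq : 0 < (3 / 4 : ℝ) ^ (-(a + 2)) := Real.rpow_pos_of_pos (by norm_num) _
  calc K * (‖z‖ * ‖x - y‖ * ((3 / 4 : ℝ) ^ (-(a + 2)) * μ ^ (-(a + 2))))
      = K * (3 / 4 : ℝ) ^ (-(a + 2)) * ‖z‖ * ‖x - y‖ * μ ^ (-(a + 2)) := by ring
    _ ≤ _ := mul_le_mul_of_nonneg_left hs (by positivity)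

theorem sKer : S_Ker := by
  intro d a ha
  set K := ((a + 1) + (a + 1) * (4 * ((a + 1) / 2 + 1))) * (3 / 4 : ℝ) ^ (-(a + 2)) with hK
  have hq : 0 < (3 / 4 : ℝ) ^ (-(a + 2)) := Real.rpow_pos_of_pos (by norm_num) _
  have hK0 : 0 < K := by positivity
  refine ⟨(a + 1) + K, by positivity, fun ρ u v hu hv => ?_, fun x y z hx hy h1 h2 => ?_⟩
  · refine (ker_first ha ρ u v hu hv).trans ?_
    have := Real.rpow_pos_of_pos hu (-(a + 1))
    have := Real.rpow_pos_of_pos hv (-(a + 1))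
    exact mul_le_mul_of_nonneg_right (mul_le_mul_of_nonneg_right (by linarith) (norm_nonneg _))
      (by positivity)
  · refine (ker_second ha x y z hx hy h1 h2).trans ?_
    have := Real.rpow_nonneg (norm_nonneg x) (-(a + 2))
    have := Real.rpow_nonneg (norm_nonneg y) (-(a + 2))
    gcongr
    linarith

end Pool.Agent.MP_40db9a_an.H47
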