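import Mathlib

/-!
Statements for the sharp regularity theorem for the inequalities of Maz'ya type with kernel
`K x = ‖x‖ ^ (-(a+1)) • x` (`a = d - α`, `p = d / a`).  Page: MP_40db9a_h47_page.md.
Every row proves one `S_…` from earlier ones given as hypotheses.  Never edit this file.
-/

open MeasureTheory Set

namespace Pool.Agent.MP_40db9a_an.H47

abbrev E (d : ℕ) := EuclideanSpace ℝ (Fin d)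

variable {d : ℕ}

/-- the kernel -/
noncomputable def Kr (a : ℝ) (x : E d) : E d := ‖x‖ ^ (-(a + 1)) • x

/-- the kernel cut at scale `ρ` -/
noncomputable def Kc (a ρ : ℝ) (x : E d) : E d := (max ‖x‖ ρ) ^ (-(a + 1)) • x

theorem Kc_zero (a : ℝ) : (Kc a 0 : E d → E d) = Kr a := by
  funext x; simp [Kc, Kr]

noncomputable def conv (k : E d → E d) (f : E d → ℝ) (x : E d) : E d := ∫ z, f z • k (x - z)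

/-- `I(x)` -/
noncomputable def pot (a : ℝ) (f : E d → ℝ) (x : E d) : ℝ := ∫ z, ‖x - z‖ ^ (-a) * |f z|

/-- `n(z,r)` -/
noncomputable def nn (a : ℝ) (f : E d → ℝ) (z : E d) (r : ℝ) : ℝ :=
  ∫ w, (1 + ‖w - z‖ / r) ^ (-a) * |f w|

/-- `ε(z,r)` -/
noncomputable def ee (a : ℝ) (f : E d → ℝ) (z : E d) (r : ℝ) : ℝ :=
  ∫ w, (1 + ‖w - z‖ / r) ^ (-(a + 1)) * (‖w - z‖ / r) * |f w|

/-- tent function: support `[0,1]`, height 2, integral 1, Lipschitz constant 4 -/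
noncomputable def tent (u : ℝ) : ℝ := max 0 (2 - |4 * u - 2|)

def Ann (d : ℕ) : Set (E d) := {x | 1 / 2 ≤ ‖x‖ ∧ ‖x‖ ≤ 4}

noncomputable def tr (L : E d →L[ℝ] E d) : ℝ := ∑ i, L (EuclideanSpace.single i 1) i

/-- weak Lipschitz control of size `e` on the annulus -/
def Good (V : E d → E d) (e : ℝ) : Prop :=
  (∀ x ∈ Ann d, DifferentiableAt ℝ V x) ∧
  ∫⁻ x in Ann d, ‖V x‖ₑ ≤ ENNReal.ofReal e ∧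
  ∫⁻ x in Ann d, ‖tr (fderiv ℝ V x)‖ₑ ≤ ENNReal.ofReal e ∧
  ∀ t : ℝ, 0 < t → ∃ F ⊆ Ann d, volume (Ann d \ F) ≤ ENNReal.ofReal (e / t) ∧
    ∀ x ∈ F, ∀ y ∈ F, ‖V x - V y‖ ≤ t * ‖x - y‖

/-- control at every scale, for `α < 1` -/
def GS (α : ℝ) (w : E d → E d) (e : ℝ) : Prop :=
  ContinuousOn w (Ann d) ∧ ∫⁻ x in Ann d, ‖w x‖ₑ ≤ ENNReal.ofReal e ∧
  ∀ ρ : ℝ, 0 < ρ → ρ ≤ 1 → ∃ w' : E d → E d, Good w' (ρ ^ (α - 1) * e) ∧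
    ∫⁻ x in Ann d, ‖w x - w' x‖ₑ ≤ ENNReal.ofReal (ρ ^ α * e)

def GG (α : ℝ) (w : E d → E d) (e : ℝ) : Prop := (1 ≤ α → Good w e) ∧ (α < 1 → GS α w e)

/-- radial weight -/
noncomputable def gw (a : ℝ) (x : E d) : ℝ :=
  tent (Real.log ‖x‖) * ‖x‖ ^ (-((a + 1) * ((d : ℝ) / a)))

def Fs (w : E d → E d) : Set (E d) := {x | x ∈ Ann d ∧ ‖w x‖ ≤ 1 / 8}

def Model (a : ℝ) (Θ : E d → ℝ) (B : ℝ) : Prop :=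
  ∀ (w : E d → E d) (e : ℝ), 0 ≤ e → GG ((d : ℝ) - a) w e →
    |∫ x in Fs w, gw a x * Θ (x + w x)| ≤ B * e

open Classical in
noncomputable def ind (a Λ : ℝ) (f : E d → ℝ) (x z : E d) (s : ℝ) : ℝ :=
  if pot a f x ≤ Λ * Real.exp (-a * s) * nn a f z (Real.exp s) then 1 else 0

noncomputable def wt (a Λ : ℝ) (f : E d → ℝ) (x : E d) (q : E d × ℝ) : ℝ :=
  tent (Real.log ‖x - q.1‖ - q.2) * ind a Λ f x q.1 q.2 / nn a f q.1 (Real.exp q.2) * |f q.1|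

/-- `Ω(x)` -/
noncomputable def Om (a Λ : ℝ) (f : E d → ℝ) (x : E d) : ℝ := ∫ q : E d × ℝ, wt a Λ f x q

/-- `T(z, e^s)` -/
noncomputable def TT (a Λ : ℝ) (Φ : E d → ℝ) (f : E d → ℝ) (z : E d) (s : ℝ) : ℝ :=
  ∫ x, tent (Real.log ‖x - z‖ - s) * ind a Λ f x z s * Φ (conv (Kr a) f x)

def LocAt (a Λ : ℝ) (Φ : E d → ℝ) (B : ℝ) (z : E d) (s : ℝ) : Prop :=
  ∀ f : E d → ℝ, ContDiff ℝ 1 f → HasCompactSupport f → 0 < ∫ x, |f x| →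
    |TT a Λ Φ f z s| ≤ B * nn a f z (Real.exp s) ^ ((d : ℝ) / a - 1) * ee a f z (Real.exp s)

def G4At (a Λ C : ℝ) (z : E d) (s : ℝ) : Prop :=
  ∀ f : E d → ℝ, Continuous f → HasCompactSupport f → 0 < ∫ x, |f x| →
    ∫⁻ x, ENNReal.ofReal (tent (Real.log ‖x - z‖ - s) * ‖x - z‖ ^ (-(d : ℝ)) * |1 - Om a Λ f x|)
      ≤ ENNReal.ofReal (C * ee a f z (Real.exp s) / nn a f z (Real.exp s))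

def Hom (p : ℝ) (Φ : E d → ℝ) : Prop := ∀ t : ℝ, 0 < t → ∀ y, Φ (t • y) = t ^ p * Φ y

/-! ### basic rows -/

/-- integrals of powers -/
def S_Int : Prop := ∀ (d : ℕ), 1 ≤ d → ∀ b : ℝ, 0 < b →
  (b < d → ∃ C : ℝ, 0 < C ∧
    (∀ (c : E d) (ρ : ℝ), 0 < ρ →
      ∫⁻ x in Metric.closedBall c ρ, ENNReal.ofReal (‖x - c‖ ^ (-b)) ≤
        ENNReal.ofReal (C * ρ ^ ((d : ℝ) - b))) ∧
    (∀ z : E d, ∫⁻ x in Metric.closedBall (0 : E d) 4, ENNReal.ofReal (‖x - z‖ ^ (-b)) ≤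
        ENNReal.ofReal (C * (1 + ‖z‖) ^ (-b)))) ∧
  (d < b → ∃ C : ℝ, 0 < C ∧
    (∀ (c : E d) (ρ : ℝ), 0 < ρ →
      ∫⁻ x in {x | ρ ≤ ‖x - c‖}, ENNReal.ofReal (‖x - c‖ ^ (-b)) ≤
        ENNReal.ofReal (C * ρ ^ ((d : ℝ) - b))) ∧
    (∀ (z : E d) (ρ : ℝ), 0 < ρ → ρ ≤ 1 →
      ∫⁻ x in Metric.closedBall (0 : E d) 4, ENNReal.ofReal ((max ‖x - z‖ ρ) ^ (-b)) ≤
        ENNReal.ofReal (C * ρ ^ ((d : ℝ) - b) * (1 + ‖z‖) ^ (-b))))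

/-- convolution with a locally integrable kernel -/
def S_Conv : Prop := ∀ (d : ℕ),
  (∀ a ρ : ℝ, 0 < a → a < d → 0 ≤ ρ → LocallyIntegrable (Kc a ρ : E d → E d)) ∧
  ∀ k : E d → E d, LocallyIntegrable k →
    (∀ (g : E d → ℝ) (B R : ℝ), Measurable g → (∀ x, |g x| ≤ B) → (∀ x, g x ≠ 0 → ‖x‖ ≤ R) →
      ∀ x, Integrable fun z => g z • k (x - z)) ∧
    ∀ f : E d → ℝ, Continuous f → HasCompactSupport f →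
      (∀ x, Integrable fun z => f z • k (x - z)) ∧ Continuous (conv k f) ∧
      (ContDiff ℝ 1 f → Differentiable ℝ (conv k f) ∧
        ∀ x v, fderiv ℝ (conv k f) x v = conv k (fun z => fderiv ℝ f z v) x)

/-- the quantities `I`, `n`, `ε` -/
def S_Basic : Prop := ∀ (d : ℕ) (a : ℝ), 0 < a → a < d →
  ∀ f : E d → ℝ, Continuous f → HasCompactSupport f →
    (∀ x : E d, Integrable fun z => ‖x - z‖ ^ (-a) * |f z|) ∧ Continuous (pot a f) ∧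
    (∀ x, ‖conv (Kr a) f x‖ ≤ pot a f x) ∧
    (∀ (z : E d) (r : ℝ), 0 < r → (Integrable fun w => (1 + ‖w - z‖ / r) ^ (-a) * |f w|) ∧
      (Integrable fun w => (1 + ‖w - z‖ / r) ^ (-(a + 1)) * (‖w - z‖ / r) * |f w|) ∧
      0 ≤ ee a f z r ∧ ee a f z r ≤ nn a f z r ∧ nn a f z r ≤ ∫ x, |f x|) ∧
    Continuous (fun q : E d × ℝ => nn a f q.1 (Real.exp q.2)) ∧
    Continuous (fun q : E d × ℝ => ee a f q.1 (Real.exp q.2)) ∧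
    (0 < ∫ x, |f x| → (∀ x, 0 < pot a f x) ∧ ∀ z r, 0 < r → 0 < nn a f z r)

/-- first and second differences of the kernel -/
def S_Ker : Prop := ∀ (d : ℕ) (a : ℝ), 0 < a → ∃ C : ℝ, 0 < C ∧
  (∀ (ρ : ℝ) (u v : E d), 0 < max ‖u‖ ρ → 0 < max ‖v‖ ρ →
    ‖Kc a ρ u - Kc a ρ v‖ ≤
      C * ‖u - v‖ * ((max ‖u‖ ρ) ^ (-(a + 1)) + (max ‖v‖ ρ) ^ (-(a + 1)))) ∧
  (∀ x y z : E d, x ≠ 0 → y ≠ 0 → 4 * ‖z‖ ≤ ‖x‖ → 4 * ‖z‖ ≤ ‖y‖ →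
    ‖Kr a (x - z) - Kr a x - (Kr a (y - z) - Kr a y)‖ ≤
      C * ‖z‖ * ‖x - y‖ * (‖x‖ ^ (-(a + 2)) + ‖y‖ ^ (-(a + 2))))

def S_Det : Prop := ∀ d : ℕ, ∃ C : ℝ, 0 < C ∧ ∀ L : E d →L[ℝ] E d, ‖L‖ ≤ 1 →
  |(ContinuousLinearMap.id ℝ (E d) + L).det - 1 - tr L| ≤ C * ‖L‖ ^ 2

/-- change of variables on the set where `w` is Lipschitz -/
def S_CV : Prop := ∀ d : ℕ, ∃ C : ℝ, 0 < C ∧ ∀ (w : E d → E d) (e : ℝ), 0 ≤ e → Good w e →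
  ∃ F ⊆ Ann d, MeasurableSet F ∧ volume (Ann d \ F) ≤ ENNReal.ofReal (C * e) ∧
    (∀ x ∈ F, ‖w x‖ ≤ 1 / 8) ∧
    ∀ (H : E d → ℝ) (N : ℝ), Measurable H → (∀ y, |H y| ≤ N) →
      (∀ y, H y ≠ 0 → 1 ≤ ‖y‖ ∧ ‖y‖ ≤ 3) → ∫ y, H y = 0 →
      |∫ x in F, H (x + w x)| ≤ C * N * e

/-- calculus of `Good` -/
def S_Calc : Prop := ∀ d : ℕ,
  (∀ (V : E d → E d) (e e' : ℝ), e ≤ e' → Good V e → Good V e') ∧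
  (∀ (V W : E d → E d) (e e' : ℝ), 0 ≤ e → 0 ≤ e' → Good V e → Good W e' →
    Good (fun x => V x + W x) (2 * (e + e'))) ∧
  (∀ (V : E d → E d) (e c : ℝ), 0 ≤ e → Good V e → Good (fun x => c • V x) (|c| * e)) ∧
  (∀ b : ℝ, ∃ C : ℝ, 0 < C ∧ ∀ (V : E d → E d) (e : ℝ), 0 ≤ e → Good V e →
    Good (fun x => ‖x‖ ^ b • V x) (C * e)) ∧
  (∃ C : ℝ, 0 < C ∧ ∀ (V : E d → E d) (n : E d → ENNReal) (e : ℝ), 0 ≤ e →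
    (∀ x ∈ Ann d, DifferentiableAt ℝ V x) → Measurable n →
    (∀ x ∈ Ann d, ∀ y ∈ Ann d, ‖V x - V y‖ₑ ≤ ‖x - y‖ₑ * (n x + n y)) →
    ∫⁻ x in Ann d, n x ≤ ENNReal.ofReal e → ∫⁻ x in Ann d, ‖V x‖ₑ ≤ ENNReal.ofReal e →
    Good V (C * e)) ∧
  (∀ (α : ℝ) (w : E d → E d) (e c : ℝ), 0 ≤ e → GG α w e →
    GG α (fun x => c • w x) (|c| * e) ∧ ContinuousOn w (Ann d) ∧
      ∫⁻ x in Ann d, ‖w x‖ₑ ≤ ENNReal.ofReal e)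

/-- sources of `Good` that need no singular integral -/
def S_Src : Prop := ∀ (d : ℕ) (a : ℝ), 0 < a → a < d → ∃ C : ℝ, 0 < C ∧
  ∀ g : E d → ℝ, ContDiff ℝ 1 g → HasCompactSupport g →
    ((∀ z, g z ≠ 0 → ‖z‖ ≤ 1 / 8) →
      Good (fun x => conv (Kr a) g x - (∫ z, g z) • Kr a x) (C * ∫ z, ‖z‖ * |g z|)) ∧
    ((a + 1 < d ∨ ∀ z, g z ≠ 0 → 8 ≤ ‖z‖) →
      Good (conv (Kr a) g) (C * ∫ z, (1 + ‖z‖) ^ (-a) * |g z|)) ∧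
    (d < a + 1 → ∀ ρ : ℝ, 0 < ρ → ρ ≤ 1 →
      Good (conv (Kc a ρ) g) (C * ρ ^ ((d : ℝ) - a - 1) * ∫ z, (1 + ‖z‖) ^ (-a) * |g z|) ∧
      ∫⁻ x in Ann d, ‖conv (Kr a) g x - conv (Kc a ρ) g x‖ₑ ≤
        ENNReal.ofReal (C * ρ ^ ((d : ℝ) - a) * ∫ z, (1 + ‖z‖) ^ (-a) * |g z|)) ∧
    ∫⁻ x in Ann d, ‖conv (Kr a) g x‖ₑ ≤ ENNReal.ofReal (C * ∫ z, (1 + ‖z‖) ^ (-a) * |g z|)

/-! ### the case `α = 1` -/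

def Atom (c : E d) (l : ℝ) (b : E d → ℝ) : Prop :=
  0 < l ∧ Measurable b ∧ (∃ B : ℝ, ∀ x, |b x| ≤ B) ∧ (∀ x, b x ≠ 0 → ‖x - c‖ ≤ l) ∧ ∫ x, b x = 0

def S_Dec : Prop := ∀ d : ℕ, 1 ≤ d → ∃ C : ℝ, 0 < C ∧
  ∀ g : E d → ℝ, Continuous g → HasCompactSupport g → ∀ t : ℝ, 0 < t →
    ∃ (n : ℕ) (c : Fin n → E d) (l : Fin n → ℝ) (b : Fin n → E d → ℝ) (γ : E d → ℝ),
      (∀ x, g x = γ x + ∑ i, b i x) ∧ Measurable γ ∧ (∀ x, |γ x| ≤ C * t) ∧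
      ∫ x, |γ x| ≤ C * ∫ x, |g x| ∧ (∀ x, γ x ≠ 0 → g x ≠ 0 ∨ ∃ i, ‖x - c i‖ ≤ l i) ∧
      (∀ i, g (c i) ≠ 0 ∧ Atom (c i) (l i) (b i)) ∧
      ∑ i, ∫ x, |b i x| ≤ C * ∫ x, |g x| ∧ ∑ i, l i ^ d ≤ C * (∫ x, |g x|) / t

def Sym (U : E d → E d) : Prop := ∀ (x : E d) (i j : Fin d),
  fderiv ℝ U x (EuclideanSpace.single i 1) j = fderiv ℝ U x (EuclideanSpace.single j 1) i

def S_L2 : Prop := ∀ d : ℕ, ∃ C : ℝ, 0 < C ∧ ∀ U : E d → E d, ContDiff ℝ 2 U →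
  HasCompactSupport U → Sym U → ∫ x, ‖fderiv ℝ U x‖ ^ 2 ≤ C * ∫ x, tr (fderiv ℝ U x) ^ 2

def S_Reg : Prop := ∀ d : ℕ, 2 ≤ d → ∃ C : ℝ, 0 < C ∧ ∀ η : ℝ, 0 < η →
  ∃ k : E d → E d, ContDiff ℝ 2 k ∧ HasCompactSupport k ∧ Sym k ∧
    ∫ u, |tr (fderiv ℝ k u)| ≤ C ∧
    ∫⁻ u in Metric.closedBall (0 : E d) 100, ‖Kr ((d : ℝ) - 1) u - k u‖ₑ ≤ ENNReal.ofReal η

def S_Max : Prop := ∀ d : ℕ, 1 ≤ d → ∃ C : ℝ, 0 < C ∧ ∀ U : E d → E d, ContDiff ℝ 1 U →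
  HasCompactSupport U → ∀ t : ℝ, 0 < t →
    ∃ O : Set (E d), volume O ≤ ENNReal.ofReal (C * (∫ x, ‖fderiv ℝ U x‖ ^ 2) / t ^ 2) ∧
      ∀ x, x ∉ O → ∀ r : ℝ, 0 < r →
        ∫⁻ y in Metric.ball x r, ‖U y - U x‖ₑ ≤ ENNReal.ofReal (r * t) * volume (Metric.ball x r)

def S_GP : Prop := ∀ d : ℕ, 2 ≤ d → ∃ C : ℝ, 0 < C ∧ ∀ (γ : E d → ℝ) (t : ℝ), 0 < t →
  Measurable γ → (∀ x, |γ x| ≤ t) → (∀ x, γ x ≠ 0 → ‖x‖ ≤ 50) →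
    ∃ F ⊆ Ann d, volume (Ann d \ F) ≤ ENNReal.ofReal (C * (∫ x, |γ x|) / t) ∧
      ∀ x ∈ F, ∀ y ∈ F,
        ‖conv (Kr ((d : ℝ) - 1)) γ x - conv (Kr ((d : ℝ) - 1)) γ y‖ ≤ C * t * ‖x - y‖

def S_BP : Prop := ∀ d : ℕ, 2 ≤ d → ∃ C : ℝ, 0 < C ∧
  ∀ (n : ℕ) (c : Fin n → E d) (l : Fin n → ℝ) (b : Fin n → E d → ℝ) (t : ℝ), 0 < t →
    (∀ i, Atom (c i) (l i) (b i)) →
    ∃ F ⊆ Ann d,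
      volume (Ann d \ F) ≤ ENNReal.ofReal (C * (∑ i, l i ^ d + (∑ i, ∫ x, |b i x|) / t)) ∧
      ∀ x ∈ F, ∀ y ∈ F,
        ‖∑ i, conv (Kr ((d : ℝ) - 1)) (b i) x - ∑ i, conv (Kr ((d : ℝ) - 1)) (b i) y‖ ≤
          t * ‖x - y‖

def S_Div : Prop := ∀ d : ℕ, 2 ≤ d → ∃ C : ℝ, 0 < C ∧
  ∀ g : E d → ℝ, ContDiff ℝ 1 g → HasCompactSupport g → (∀ z, g z ≠ 0 → ‖z‖ ≤ 16) →
    ∫⁻ x in Ann d, ‖tr (fderiv ℝ (conv (Kr ((d : ℝ) - 1)) g) x)‖ₑ ≤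
      ENNReal.ofReal (C * ∫ z, |g z|)

def S_CZ : Prop := ∀ d : ℕ, 2 ≤ d → ∃ C : ℝ, 0 < C ∧
  ∀ g : E d → ℝ, ContDiff ℝ 1 g → HasCompactSupport g → (∀ z, g z ≠ 0 → ‖z‖ ≤ 16) →
    Good (conv (Kr ((d : ℝ) - 1)) g) (C * ∫ z, |g z|)

/-! ### the local lemma -/

def S_Field : Prop := ∀ (d : ℕ), 2 ≤ d → ∀ a : ℝ, 0 < a → a < d → ∃ C : ℝ, 0 < C ∧
  ∀ f : E d → ℝ, ContDiff ℝ 1 f → HasCompactSupport f →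
    ∃ s : ℝ, |s| ≤ C * nn a f 0 1 ∧
      GG ((d : ℝ) - a) (fun x => ‖x‖ ^ (a + 1) • (conv (Kr a) f x - s • Kr a x)) (C * ee a f 0 1)

def S_Tail : Prop := ∀ (d : ℕ) (a : ℝ), 0 < a → a < d → ∃ Λ C : ℝ, 0 < Λ ∧ 0 < C ∧
  ∀ f : E d → ℝ, Continuous f → HasCompactSupport f → 0 < ∫ x, |f x| →
    volume {x | x ∈ Ann d ∧ Λ * nn a f 0 1 < pot a f x} ≤
      ENNReal.ofReal (C * ee a f 0 1 / nn a f 0 1)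

def S_Core : Prop := ∀ (d : ℕ) (a : ℝ), 0 < a → ∃ C : ℝ, 0 < C ∧
  ∀ (Θ : E d → ℝ) (N L : ℝ) (w w' : E d → E d) (e₁ e₂ : ℝ), 0 ≤ N → 0 ≤ L → 0 ≤ e₁ → 0 ≤ e₂ →
    Measurable Θ → (∀ y, 1 / 4 ≤ ‖y‖ → ‖y‖ ≤ 5 → |Θ y| ≤ N) → ∫ y, gw a y * Θ y = 0 →
    ContinuousOn w (Ann d) → Good w' e₁ → ∫⁻ x in Ann d, ‖w x - w' x‖ₑ ≤ ENNReal.ofReal e₂ →
    (∀ x ∈ Ann d, ‖w x‖ ≤ 1 / 8 → ‖w' x‖ ≤ 1 / 8 →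
      |Θ (x + w x) - Θ (x + w' x)| ≤ L * ‖w x - w' x‖) →
    |∫ x in Fs w, gw a x * Θ (x + w x)| ≤ C * (N * (e₁ + e₂) + L * e₂)

/-- the model estimate in both regimes -/
def S_Model : Prop := ∀ (d : ℕ), 1 ≤ d → ∀ a β : ℝ, 0 < a → a < d → 0 ≤ β → β ≤ 1 →
  (1 ≤ (d : ℝ) - a ∨ 1 < (d : ℝ) - a + β) → ∃ C : ℝ, 0 < C ∧
  ∀ (Θ : E d → ℝ) (N : ℝ), 0 ≤ N → Measurable Θ → (∀ y, 1 / 4 ≤ ‖y‖ → ‖y‖ ≤ 5 → |Θ y| ≤ N) →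
    (∀ u v, 1 / 4 ≤ ‖u‖ → ‖u‖ ≤ 5 → 1 / 4 ≤ ‖v‖ → ‖v‖ ≤ 5 → |Θ u - Θ v| ≤ N * ‖u - v‖ ^ β) →
    ∫ y, gw a y * Θ y = 0 → Model a Θ (C * N)

def S_Loc : Prop := ∀ (d : ℕ), 2 ≤ d → ∀ a : ℝ, 0 < a → a < d → ∃ Λ₁ : ℝ, 0 < Λ₁ ∧
  ∀ Λ : ℝ, Λ₁ ≤ Λ → ∃ C : ℝ, 0 < C ∧ ∀ (Φ : E d → ℝ) (N B : ℝ), 0 ≤ N → 0 ≤ B → Measurable Φ →
    Hom ((d : ℝ) / a) Φ → (∀ v, |Φ v| ≤ N * ‖v‖ ^ ((d : ℝ) / a)) →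
    Model a Φ B → Model a (fun v => Φ (-v)) B → LocAt a Λ Φ (C * (N + B)) 0 0

/-- translation and dilation -/
def S_Scale : Prop := ∀ (d : ℕ) (a Λ : ℝ), 0 < a → a < d →
  (∀ (Φ : E d → ℝ) (B : ℝ), Hom ((d : ℝ) / a) Φ → LocAt a Λ Φ B 0 0 →
    ∀ z s, LocAt a Λ Φ B z s) ∧
  (∀ C : ℝ, G4At a Λ C (0 : E d) 0 → ∀ (z : E d) s, G4At a Λ C z s)

/-! ### the global argument -/

def S_G1 : Prop := ∀ (d : ℕ) (a p : ℝ), 0 < a → a < d → 1 < p →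
  ∀ f : E d → ℝ, Continuous f → HasCompactSupport f → 0 < ∫ x, |f x| → ∀ z : E d,
    ∫⁻ s : ℝ, ENNReal.ofReal (nn a f z (Real.exp s) ^ (p - 2) * ee a f z (Real.exp s)) ≤
      ENNReal.ofReal ((∫ x, |f x|) ^ (p - 1) / (a * (p - 1)))

def S_G2 : Prop := ∀ (d : ℕ) (a : ℝ), 0 < a → a < d → ∃ C : ℝ, 0 < C ∧
  ∀ f : E d → ℝ, Continuous f → HasCompactSupport f → ∀ x : E d,
    ENNReal.ofReal (pot a f x ^ ((d : ℝ) / a)) ≤ ENNReal.ofReal C *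
      ∫⁻ z, ENNReal.ofReal (‖x - z‖ ^ (-(d : ℝ)) * nn a f x ‖x - z‖ ^ ((d : ℝ) / a - 1) * |f z|)

def S_G3 : Prop := ∀ (d : ℕ) (a Λ : ℝ), 0 < a → a < d → 0 < Λ →
  ∀ f : E d → ℝ, Continuous f → HasCompactSupport f → 0 < ∫ x, |f x| →
    Measurable (fun y : E d × (E d × ℝ) => wt a Λ f y.1 y.2) ∧ Measurable (Om a Λ f) ∧
    ∀ x, (∀ q, 0 ≤ wt a Λ f x q) ∧ Integrable (wt a Λ f x) ∧ 0 ≤ Om a Λ f x ∧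
      Om a Λ f x ≤ Real.exp a * Λ ∧
      ∀ S : Set (E d), MeasurableSet S →
        ∫ q in S ×ˢ (univ : Set ℝ), wt a Λ f x q ≤
          Real.exp a * Λ * (∫ z in S, ‖x - z‖ ^ (-a) * |f z|) / pot a f x

def S_G4 : Prop := ∀ (d : ℕ) (a : ℝ), 0 < a → a < d → ∃ Λ₀ : ℝ, 0 < Λ₀ ∧
  ∀ Λ : ℝ, Λ₀ ≤ Λ → ∃ C : ℝ, 0 < C ∧ G4At a Λ C (0 : E d) 0

def S_G5 : Prop := ∀ (d : ℕ) (a : ℝ), 0 < a → a < d → ∃ Λ₀ : ℝ, 0 < Λ₀ ∧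
  ∀ Λ : ℝ, Λ₀ ≤ Λ → ∃ C : ℝ, 0 < C ∧ ∀ (Φ : E d → ℝ) (N B : ℝ), 0 ≤ N → 0 ≤ B → Measurable Φ →
    (∀ v, |Φ v| ≤ N * ‖v‖ ^ ((d : ℝ) / a)) → (∀ z s, LocAt a Λ Φ B z s) →
    ∀ f : E d → ℝ, ContDiff ℝ 1 f → HasCompactSupport f →
      Integrable (fun x => Φ (conv (Kr a) f x)) →
      |∫ x, Φ (conv (Kr a) f x)| ≤ C * (N + B) * (∫ x, |f x|) ^ ((d : ℝ) / a)

/-! ### decay, polar coordinates, shells -/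

def S_Decay : Prop := ∀ (d : ℕ) (a : ℝ), 0 < a → a < d →
  (∃ C : ℝ, 0 < C ∧ ∀ (f : E d → ℝ) (R : ℝ), Continuous f → HasCompactSupport f → 0 < R →
    (∀ x, f x ≠ 0 → ‖x‖ ≤ R) → ∫ x, f x = 0 → ∀ x, 2 * R ≤ ‖x‖ →
      ‖conv (Kr a) f x‖ ≤ C * R * ‖x‖ ^ (-(a + 1)) * ∫ z, |f z|) ∧
  ∀ f : E d → ℝ, Continuous f → HasCompactSupport f → ∫ x, f x = 0 →
    Integrable (fun x => ‖conv (Kr a) f x‖ ^ ((d : ℝ) / a))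

def S_Polar : Prop := ∀ (d : ℕ), 1 ≤ d → ∀ (p N : ℝ) (Φ : E d → ℝ), Measurable Φ → Hom p Φ →
  (∀ v, ‖v‖ = 1 → |Φ v| ≤ N) →
  ∀ (h : ℝ → ℝ) (B r₁ r₂ : ℝ), Measurable h → 0 < r₁ → (∀ r, |h r| ≤ B) →
    (∀ r, 0 < r → h r ≠ 0 → r₁ ≤ r ∧ r ≤ r₂) →
    ∫ y, h ‖y‖ * Φ y = (∫ r in Ioi (0 : ℝ), h r * r ^ (p + d - 1)) *
      ∫ θ, Φ (θ : E d) ∂((volume : Measure (E d)).toSphere)

def S_Shell : Prop := ∀ (d : ℕ) (p β N : ℝ) (Φ : E d → ℝ), 1 ≤ p → 0 ≤ β → β ≤ 1 → Hom p Φ →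
  (∀ u v, ‖u‖ = 1 → ‖v‖ = 1 → |Φ u - Φ v| ≤ N * ‖u - v‖ ^ β) →
  ∃ N' : ℝ, 0 ≤ N' ∧ (∀ v, |Φ v| ≤ N' * ‖v‖ ^ p) ∧ (∀ y, ‖y‖ ≤ 5 → |Φ y| ≤ N') ∧
    ∀ u v, 1 / 4 ≤ ‖u‖ → ‖u‖ ≤ 5 → 1 / 4 ≤ ‖v‖ → ‖v‖ ≤ 5 → |Φ u - Φ v| ≤ N' * ‖u - v‖ ^ β

/-! ### radial bumps, necessity, failure -/

/-- `kb τ` is the field of a radial bump of mass one and radius `τ` -/
def Rad (a C : ℝ) (kb : ℝ → E d → E d) : Prop :=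
  (∀ τ : ℝ, 0 < τ → Continuous (kb τ) ∧ ∀ x : E d,
    (∃ k : ℝ, kb τ x = k • x) ∧ kb τ (-x) = -kb τ x ∧ ‖kb τ x‖ ≤ C * (max ‖x‖ τ) ^ (-a) ∧
    (2 * τ ≤ ‖x‖ → ‖kb τ x - Kr a x‖ ≤ C * τ * ‖x‖ ^ (-(a + 1))) ∧
    (∀ y : E d, 2 * τ ≤ ‖x‖ → 2 * τ ≤ ‖y‖ →
      ‖kb τ x - kb τ y‖ ≤ C * ‖x - y‖ * (‖x‖ ^ (-(a + 1)) + ‖y‖ ^ (-(a + 1))))) ∧
  ∀ (ι : Type) [Fintype ι] (c τ : ι → ℝ) (y : ι → E d) (R : ℝ),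
    (∀ i, 0 < τ i ∧ ‖y i‖ + τ i ≤ R) →
    ∃ f : E d → ℝ, ContDiff ℝ ((⊤ : ℕ∞) : WithTop ℕ∞) f ∧ HasCompactSupport f ∧
      (∀ x, f x ≠ 0 → ‖x‖ ≤ R) ∧ ∫ x, f x = ∑ i, c i ∧ ∫ x, |f x| ≤ ∑ i, |c i| ∧
      ∀ x, conv (Kr a) f x = ∑ i, c i • kb (τ i) (x - y i)

def S_Rad : Prop := ∀ (d : ℕ) (a : ℝ), 0 < a → a < d →
  ∃ (C : ℝ) (kb : ℝ → E d → E d), 1 ≤ C ∧ Rad a C kb

/-- the inequality -/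
def Ineq (a : ℝ) (Φ : E d → ℝ) : Prop :=
  ∃ C : ℝ, ∀ f : E d → ℝ, ContDiff ℝ ((⊤ : ℕ∞) : WithTop ℕ∞) f → HasCompactSupport f →
    ∫ x, f x = 0 → |∫ x, Φ (conv (Kr a) f x)| ≤ C * (∫ x, |f x|) ^ ((d : ℝ) / a)

def S_Nec : Prop := ∀ (d : ℕ) (a N : ℝ) (Φ : E d → ℝ), 0 < a → a < d → Measurable Φ →
  Hom ((d : ℝ) / a) Φ → (∀ v, |Φ v| ≤ N * ‖v‖ ^ ((d : ℝ) / a)) → Ineq a Φ →
  ∫ θ, Φ (θ : E d) ∂((volume : Measure (E d)).toSphere) = 0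

noncomputable def hh (b : ℝ) (e v : E d) : ℝ := ‖‖v‖⁻¹ • v - e‖ ^ b

noncomputable def PhiE (a : ℝ) (e v : E d) : ℝ :=
  ‖v‖ ^ ((d : ℝ) / a) * (hh (a + 1 - d) e v - hh (a + 1 - d) e (-v))

def S_Alg : Prop := ∀ (d : ℕ) (b : ℝ), 0 < b → b < 1 → ∃ c : ℝ, 0 < c ∧ ∀ e : E d, ‖e‖ = 1 →
  Measurable (hh b e) ∧ (∀ v, 0 ≤ hh b e v ∧ hh b e v ≤ 2) ∧
  (∀ (s : ℝ) (v : E d), 0 < s → hh b e (s • v) = hh b e v) ∧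
  (∀ β : ℝ, 0 ≤ β → β ≤ b → ∀ u v : E d, ‖u‖ = 1 → ‖v‖ = 1 →
    |hh b e u - hh b e v| ≤ 2 * ‖u - v‖ ^ β) ∧
  (∀ (x : E d) (t : ℝ), x ≠ 0 → 0 ≤ t → x - t • e ≠ 0 →
    hh b e x ≤ hh b e (x - t • e) ∧ hh b e (-(x - t • e)) ≤ hh b e (-x)) ∧
  (∀ (x : E d) (t : ℝ), ‖x - e‖ ≤ 1 / 4 → 0 ≤ t → t ≤ 1 / 2 →
    hh b e x + c * t * ‖x - (inner ℝ x e : ℝ) • e‖ ^ b ≤ hh b e (x - t • e))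

def S_Fail : Prop := ∀ (d : ℕ), 2 ≤ d → ∀ a : ℝ, (d : ℝ) < a + 1 → a < d →
  ∃ e : E d, ‖e‖ = 1 ∧ ¬ Ineq a (PhiE a e)

end Pool.Agent.MP_40db9a_an.H47
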