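import Pool.Agent.MP_40db9a_an.H47.Spec

/-!
Statements for the failure example (`d - 1 < a < d`).  Never edit this file.
`Fld` is the field of a central bump, `N` small bumps of mass `ε` at the points `4^(j+1) e`,
and one compensating wide bump.
-/

open MeasureTheory Set

namespace Pool.Agent.MP_40db9a_an.H47

variable {d : ℕ}

noncomputable def Fld (a C : ℝ) (kb : ℝ → E d → E d) (e : E d) (ε : ℝ) (N : ℕ) (x : E d) : E d :=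
  kb (1 / (4 * C)) x +
    ∑ j ∈ Finset.range N,
      ε • kb (ε ^ (1 / (d : ℝ)) / (2 * C) * 4 ^ (j + 1)) (x - (4 : ℝ) ^ (j + 1) • e) -
    (1 + ε * N) • kb ((8 * C) ^ (1 / a) * 4 ^ (N + 1)) x

def Dom (e : E d) (ε : ℝ) (N : ℕ) : Set (E d) :=
  {x | 1 ≤ ‖x‖ ∧ ‖x‖ ≤ 4 ^ (N + 1) ∧ ∀ j < N,
    ε ^ (1 / (d : ℝ)) * 4 ^ (j + 1) ≤ ‖x - (4 : ℝ) ^ (j + 1) • e‖ ∧
    ε ^ (1 / (d : ℝ)) * 4 ^ (j + 1) ≤ ‖x + (4 : ℝ) ^ (j + 1) • e‖}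

/-- standing assumptions -/
def Set0 (a C : ℝ) (kb : ℝ → E d → E d) (e : E d) : Prop :=
  2 ≤ d ∧ (d : ℝ) < a + 1 ∧ a < d ∧ 1 ≤ C ∧ Rad a C kb ∧ ‖e‖ = 1

def Small (d : ℕ) (ε : ℝ) (N : ℕ) : Prop := 0 < ε ∧ ε * N ≤ 1 ∧ ε ≤ (1 / 2) ^ d

/-- upper bound -/
def S_FU : Prop := ∀ (d : ℕ) (a C : ℝ) (kb : ℝ → E d → E d) (e : E d), Set0 a C kb e →
  ∃ C₁ : ℝ, 0 < C₁ ∧ ∀ (ε : ℝ) (N : ℕ), Small d ε N → ∀ x,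
    ‖Fld a C kb e ε N x‖ ≤ C₁ * (max ‖x‖ 1) ^ (-a)

/-- structure on the domain -/
def S_FS : Prop := ∀ (d : ℕ) (a C : ℝ) (kb : ℝ → E d → E d) (e : E d), Set0 a C kb e →
  ∀ (ε : ℝ) (N : ℕ), Small d ε N → ∀ x ∈ Dom e ε N, ∃ (A : ℝ) (k : ℕ → ℝ),
    ‖x‖ ^ (-(a + 1)) / 2 ≤ A ∧ A ≤ 3 / 2 * ‖x‖ ^ (-(a + 1)) ∧
    (∀ j < N, ‖x - (4 : ℝ) ^ (j + 1) • e‖ ^ (-(a + 1)) / 2 ≤ k j ∧
      k j ≤ 3 / 2 * ‖x - (4 : ℝ) ^ (j + 1) • e‖ ^ (-(a + 1))) ∧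
    Fld a C kb e ε N x = A • x + ∑ j ∈ Finset.range N, (ε * k j) • (x - (4 : ℝ) ^ (j + 1) • e)

/-- monotonicity on the domain -/
def S_FM : Prop := ∀ (d : ℕ) (a C : ℝ) (kb : ℝ → E d → E d) (e : E d), Set0 a C kb e →
  ∀ (ε : ℝ) (N : ℕ), Small d ε N → ∀ x ∈ Dom e ε N,
    ‖Fld a C kb e ε N x‖ ^ ((d : ℝ) / a) * (hh (a + 1 - d) e x - hh (a + 1 - d) e (-x)) ≤
      PhiE a e (Fld a C kb e ε N x)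

/-- the gain on small balls -/
def S_FG : Prop := ∀ (d : ℕ) (a C : ℝ) (kb : ℝ → E d → E d) (e : E d), Set0 a C kb e →
  ∃ c₂ c₃ c₄ : ℝ, 0 < c₂ ∧ 0 < c₃ ∧ 0 < c₄ ∧ ∀ (ε : ℝ) (N : ℕ), Small d ε N → ε * N ≤ c₂ →
    ∀ u : E d, ‖u‖ = 1 → (inner ℝ u e : ℝ) = 0 → ∀ j < N, ∀ ρ : ℝ, 0 < ρ → ρ ≤ 1 / 8 →
      ε ≤ c₃ * ρ ^ (a + 1) →
      ∀ x ∈ Metric.ball ((4 : ℝ) ^ (j + 1) • (e + ρ • u)) (4 ^ (j + 1) * ρ / 4),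
        x ∈ Dom e ε N ∧
        ‖Fld a C kb e ε N x‖ ^ ((d : ℝ) / a) * (hh (a + 1 - d) e x - hh (a + 1 - d) e (-x)) +
            c₄ * ε / (4 ^ (j + 1) * ρ) ^ d ≤ PhiE a e (Fld a C kb e ε N x)

/-- the field comes from a test function -/
def S_FR : Prop := ∀ (d : ℕ) (a C : ℝ) (kb : ℝ → E d → E d) (e : E d), Set0 a C kb e →
  ∀ (ε : ℝ) (N : ℕ), Small d ε N →
    ∃ f : E d → ℝ, ContDiff ℝ ((⊤ : ℕ∞) : WithTop ℕ∞) f ∧ HasCompactSupport f ∧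
      (∀ x, f x ≠ 0 → ‖x‖ ≤ (8 * C) ^ (1 / a) * 4 ^ (N + 1)) ∧ ∫ x, f x = 0 ∧ ∫ x, |f x| ≤ 4 ∧
      ∀ x, conv (Kr a) f x = Fld a C kb e ε N x

/-- outside the domain -/
def S_FO : Prop := ∀ (d : ℕ) (a C : ℝ) (kb : ℝ → E d → E d) (e : E d), Set0 a C kb e →
  ∃ C₂ : ℝ, 0 < C₂ ∧ ∀ (ε : ℝ) (N : ℕ), Small d ε N →
    ∫⁻ x in (Dom e ε N)ᶜ, ENNReal.ofReal (‖Fld a C kb e ε N x‖ ^ ((d : ℝ) / a)) ≤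
      ENNReal.ofReal C₂

/-- the odd part -/
def S_FD : Prop := ∀ (d : ℕ) (a C : ℝ) (kb : ℝ → E d → E d) (e : E d), Set0 a C kb e →
  ∃ C₃ : ℝ, 0 < C₃ ∧ ∀ (ε : ℝ) (N : ℕ), Small d ε N →
    |∫ x in Dom e ε N,
      ‖Fld a C kb e ε N x‖ ^ ((d : ℝ) / a) * (hh (a + 1 - d) e x - hh (a + 1 - d) e (-x))| ≤ C₃

end Pool.Agent.MP_40db9a_an.H47
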